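import Pool.Agent.Lib_helper90c.Rot

/-!
# Background measures, their potentials, and merging of neutral systems
-/

set_option autoImplicit false

open MeasureTheory Set Metric Filter
open scoped ENNReal NNReal Topology

namespace Pool.Agent.Lib_helper90c

/-- measures with bounded density and bounded support -/
def BM (β : Measure E3) : Prop :=
  ∃ (C : ℝ≥0) (R : ℝ), 0 ≤ R ∧ β ≤ (C : ℝ≥0∞) • (volume : Measure E3).restrict (ball 0 R)

/-- potential of a measure -/
noncomputable def Pot (β : Measure E3) (y : E3) : ℝ := ∫ x, ‖y - x‖⁻¹ ∂β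

theorem Pot_nonneg (β : Measure E3) (y : E3) : 0 ≤ Pot β y :=
  integral_nonneg fun x => by positivity

theorem integrable_ball_inv (R : ℝ) (y : E3) :
    Integrable (fun x : E3 => ‖y - x‖⁻¹) ((volume : Measure E3).restrict (ball 0 R)) :=
  integrableOn_ball_inv 0 y R

theorem isFiniteMeasure_ball (c : E3) (R : ℝ) :
    IsFiniteMeasure ((volume : Measure E3).restrict (ball c R)) := by
  refine ⟨?_⟩
  rw [Measure.restrict_apply_univ]
  exact measure_ball_lt_top

theorem BM.isFinite {β : Measure E3} (h : BM β) : IsFiniteMeasure β := by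
  obtain ⟨C, R, hR, hle⟩ := h
  have := isFiniteMeasure_ball 0 R
  refine ⟨lt_of_le_of_lt (hle univ) ?_⟩
  rw [Measure.smul_apply]
  exact ENNReal.mul_lt_top ENNReal.coe_lt_top (measure_lt_top _ _)

theorem BM.pot {β : Measure E3} (h : BM β) (y : E3) : Integrable (fun x => ‖y - x‖⁻¹) β := by
  obtain ⟨C, R, hR, hle⟩ := h
  exact ((integrable_ball_inv R y).smul_measure ENNReal.coe_ne_top).mono_measure hle

theorem BM.Pot_le {β : Measure E3} (h : BM β) : ∃ M, 0 ≤ M ∧ ∀ y, Pot β y ≤ M := by
  obtain ⟨C, R, hR, hle⟩ := h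
  refine ⟨C * (2 * Real.pi * R ^ 2), by positivity, fun y => ?_⟩
  have h1 : Pot β y ≤ ∫ x, ‖y - x‖⁻¹ ∂((C : ℝ≥0∞) • (volume : Measure E3).restrict (ball 0 R)) := by
    apply integral_mono_measure hle
    · exact Eventually.of_forall fun x => by positivity
    · exact (integrable_ball_inv R y).smul_measure ENNReal.coe_ne_top
  refine h1.trans ?_
  rw [integral_smul_measure, ENNReal.coe_toReal, smul_eq_mul, integral_ball_inv 0 y hR]
  exact mul_le_mul_of_nonneg_left (ballPot_le hR (norm_nonneg _)) C.coe_nonneg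

theorem measurable_inv_norm_sub : Measurable fun q : E3 × E3 => ‖q.1 - q.2‖⁻¹ := by fun_prop

theorem measurable_Pot (β : Measure E3) [SFinite β] : Measurable (Pot β) := by
  unfold Pot
  exact (measurable_inv_norm_sub.stronglyMeasurable.integral_prod_right').measurable

theorem BM.measurable_Pot {β : Measure E3} (h : BM β) : Measurable (Pot β) := by
  have := h.isFinite
  exact Lib_helper90c.measurable_Pot β

theorem BM.integrable_Pot {β : Measure E3} (h : BM β) (β' : Measure E3) [IsFiniteMeasure β'] :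
    Integrable (Pot β) β' := by
  obtain ⟨M, hM0, hM⟩ := h.Pot_le
  refine Integrable.mono' (integrable_const M) h.measurable_Pot.aestronglyMeasurable ?_
  exact Eventually.of_forall fun y => by
    rw [Real.norm_eq_abs, abs_of_nonneg (Pot_nonneg _ _)]; exact hM y

theorem BM.add {β β' : Measure E3} (h : BM β) (h' : BM β') : BM (β + β') := by
  obtain ⟨C, R, hR, hle⟩ := h
  obtain ⟨C', R', hR', hle'⟩ := h'
  refine ⟨C + C', max R R', le_max_of_le_left hR, ?_⟩
  push_cast
  rw [add_smul]
  have m1 : (volume : Measure E3).restrict (ball 0 R) ≤ (volume : Measure E3).restrict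
      (ball 0 (max R R')) := Measure.restrict_mono_set _ (ball_subset_ball (le_max_left _ _))
  have m2 : (volume : Measure E3).restrict (ball 0 R') ≤ (volume : Measure E3).restrict
      (ball 0 (max R R')) := Measure.restrict_mono_set _ (ball_subset_ball (le_max_right _ _))
  refine add_le_add (hle.trans ?_) (hle'.trans ?_)
  · intro s
    rw [Measure.smul_apply, Measure.smul_apply]
    exact smul_le_smul_of_nonneg_left (m1 s) (zero_le)
  · intro s
    rw [Measure.smul_apply, Measure.smul_apply]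
    exact smul_le_smul_of_nonneg_left (m2 s) (zero_le)

theorem BM.mono {β β' : Measure E3} (h : BM β) (hle : β' ≤ β) : BM β' := by
  obtain ⟨C, R, hR, h⟩ := h
  exact ⟨C, R, hR, hle.trans h⟩

theorem BM_zero : BM 0 := ⟨0, 0, le_rfl, by simp⟩

/-- uniform background in a ball -/
noncomputable def ubg (σ : ℝ) (c : E3) (r : ℝ) : Measure E3 :=
  ENNReal.ofReal σ • (volume : Measure E3).restrict (ball c r)

theorem BM_ubg (σ : ℝ) (c : E3) (r : ℝ) : BM (ubg σ c r) := by
  refine ⟨σ.toNNReal, ‖c‖ + |r|, by positivity, ?_⟩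
  intro s
  unfold ubg
  rw [Measure.smul_apply, Measure.smul_apply]
  apply smul_le_smul_of_nonneg_left _ zero_le
  apply Measure.restrict_mono_set
  apply ball_subset_ball'
  rw [dist_zero_right]
  have := le_abs_self r
  linarith

theorem integral_ubg {σ : ℝ} (hσ : 0 ≤ σ) (c : E3) (r : ℝ) (f : E3 → ℝ) :
    ∫ x, f x ∂(ubg σ c r) = σ * ∫ x in ball c r, f x := by
  unfold ubg
  rw [integral_smul_measure, ENNReal.toReal_ofReal hσ, smul_eq_mul]

theorem Pot_ubg {σ : ℝ} (hσ : 0 ≤ σ) (c : E3) {r : ℝ} (hr : 0 ≤ r) (y : E3) :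
    Pot (ubg σ c r) y = σ * ballPot r ‖y - c‖ := by
  unfold Pot
  rw [integral_ubg hσ, integral_ball_inv c y hr]

theorem Pot_add {β β' : Measure E3} (h : BM β) (h' : BM β') (y : E3) :
    Pot (β + β') y = Pot β y + Pot β' y := by
  unfold Pot
  exact integral_add_measure (h.pot y) (h'.pot y)

theorem integrable_prod_inv {β β' : Measure E3} (h : BM β) (h' : BM β') :
    Integrable (fun q : E3 × E3 => ‖q.1 - q.2‖⁻¹) (β.prod β') := by
  have := h.isFinite
  have := h'.isFinite
  rw [integrable_prod_iff measurable_inv_norm_sub.aestronglyMeasurable]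
  refine ⟨Eventually.of_forall fun x => h'.pot x, ?_⟩
  have e : (fun x : E3 => ∫ y, ‖‖(x, y).1 - (x, y).2‖⁻¹‖ ∂β') = Pot β' := by
    ext x
    unfold Pot
    congr 1
    ext y
    simp
  rw [e]
  exact h'.integrable_Pot β

theorem Pot_symm {β β' : Measure E3} (h : BM β) (h' : BM β') :
    ∫ x, Pot β' x ∂β = ∫ x, Pot β x ∂β' := by
  have := h.isFinite
  have := h'.isFinite
  unfold Pot
  rw [integral_integral_swap (f := fun x y : E3 => ‖x - y‖⁻¹) (integrable_prod_inv h h')]
  simp only [norm_sub_rev]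

section
variable {ι κ : Type} [Fintype ι] [Fintype κ]

/-- Coulomb energy of nuclei `q` in the (negative) background `β`. -/
noncomputable def JE (z : ℝ) (β : Measure E3) (q : ι → E3) : ℝ :=
  z ^ 2 * rep q - z * ∑ i, Pot β (q i) + (∫ x, Pot β x ∂β) / 2

theorem JE_reindex (z : ℝ) (β : Measure E3) (e : κ ≃ ι) (q : ι → E3) :
    JE z β (q ∘ e) = JE z β q := by
  unfold JE
  rw [rep_reindex]
  congr 3
  exact e.sum_comp (fun i => Pot β (q i))

/-- interaction between two systems -/
noncomputable def cross (z : ℝ) (β β' : Measure E3) (q : ι → E3) (q' : κ → E3) : ℝ :=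
  z ^ 2 * (∑ i, ∑ j, ‖q i - q' j‖⁻¹) - z * (∑ i, Pot β' (q i)) - z * (∑ j, Pot β (q' j)) +
    ∫ x, Pot β x ∂β'

theorem JE_add (z : ℝ) {β β' : Measure E3} (h : BM β) (h' : BM β') (q : ι → E3) (q' : κ → E3) :
    JE z (β + β') (Sum.elim q q') = JE z β q + JE z β' q' + cross z β β' q q' := by
  have := h.isFinite
  have := h'.isFinite
  unfold JE cross
  rw [rep_sumElim, Fintype.sum_sum_type]
  simp only [Sum.elim_inl, Sum.elim_inr, Pot_add h h', Finset.sum_add_distrib]
  have e1 : ∫ x, (Pot β x + Pot β' x) ∂(β + β') =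
      ∫ x, Pot β x ∂β + ∫ x, Pot β' x ∂β' + 2 * ∫ x, Pot β x ∂β' := by
    have ha : Integrable (fun x => Pot β x + Pot β' x) β :=
      (h.integrable_Pot β).add (h'.integrable_Pot β)
    have hb : Integrable (fun x => Pot β x + Pot β' x) β' :=
      (h.integrable_Pot β').add (h'.integrable_Pot β')
    rw [integral_add_measure ha hb,
      integral_add (h.integrable_Pot β) (h'.integrable_Pot β),
      integral_add (h.integrable_Pot β') (h'.integrable_Pot β'), Pot_symm h h']
    ring
  rw [e1]
  ring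

/-- rotated and translated configuration -/
noncomputable def rotc (c : E3) (g : G3) (p : κ → E3) : κ → E3 :=
  fun j => c + (g : E3 →L[ℝ] E3) (p j)

theorem rep_rotc (c : E3) (g : G3) (p : κ → E3) : rep (rotc c g p) = rep p := by
  unfold rep rotc
  simp only [add_sub_add_left_eq_sub, ← map_sub, norm_act]

theorem JE_ball {z σ : ℝ} (hσ : 0 ≤ σ) (c : E3) {r : ℝ} (hr : 0 ≤ r) (g : G3) (p : κ → E3) :
    JE z (ubg σ c r) (rotc c g p) =
      z ^ 2 * rep p - z * (σ * ∑ j, ballPot r ‖p j‖) + σ ^ 2 * selfE r / 2 := by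
  unfold JE
  rw [rep_rotc]
  simp only [Pot_ubg hσ c hr]
  rw [integral_ubg hσ]
  have e1 : ∫ x in ball c r, σ * ballPot r ‖x - c‖ = σ * selfE r := by
    rw [integral_const_mul, ← integral_selfE hr]
    congr 1
    have h := (measurePreserving_sub_right (volume : Measure E3) c).setIntegral_preimage_emb
      (MeasurableEquiv.subRight c).measurableEmbedding (fun x => ballPot r ‖x‖) (ball 0 r)
    rw [← h]
    congr 1
    congr 1
    ext x
    simp [dist_eq_norm]
  rw [e1]
  have e2 : ∀ j, ‖rotc c g p j - c‖ = ‖p j‖ := by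
    intro j
    unfold rotc
    rw [add_sub_cancel_left, norm_act]
  simp only [e2, Finset.mul_sum]
  ring

/-- average of the interaction over rotations -/
theorem integral_cross {z σ : ℝ} (hσ : 0 ≤ σ) {β : Measure E3} (hβ : BM β) (c : E3) {r : ℝ}
    (hr : 0 < r) (q : ι → E3) (hq : ∀ i, r ≤ ‖q i - c‖) (hβ0 : β (ball c r) = 0)
    (p : κ → E3) (hp : ∀ j, p j ∈ ball (0 : E3) r) (hneut : σ * vB r = z * Fintype.card κ) :
    Integrable (fun g : G3 => cross z β (ubg σ c r) q (rotc c g p)) hG ∧
      ∫ g : G3, cross z β (ubg σ c r) q (rotc c g p) ∂hG = 0 := by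
  have := hβ.isFinite
  have hpj : ∀ j, ‖p j‖ < r := fun j => mem_ball_zero_iff.1 (hp j)
  have e0 : ∀ (i : ι) (j : κ) (g : G3), ‖q i - rotc c g p j‖⁻¹ =
      ‖(q i - c) - (g : E3 →L[ℝ] E3) (p j)‖⁻¹ := by
    intro i j g; unfold rotc; rw [sub_add_eq_sub_sub]
  have i1 : ∀ (i : ι) (j : κ), Integrable (fun g : G3 => ‖q i - rotc c g p j‖⁻¹) hG := by
    intro i j
    simp only [e0]
    exact integrable_act ((hpj j).trans_le (hq i))
  have v1 : ∀ (i : ι) (j : κ), ∫ g : G3, ‖q i - rotc c g p j‖⁻¹ ∂hG = ‖q i - c‖⁻¹ := by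
    intro i j
    simp only [e0]
    exact rotF_eq ((hpj j).trans_le (hq i))
  -- the potential of the background
  have hae : ∀ᵐ x ∂β, r ≤ ‖x - c‖ := by
    rw [ae_iff]
    convert hβ0 using 2
    ext x
    simp [dist_eq_norm]
  have hjm : ∀ j : κ, Measurable fun q : G3 × E3 => ‖rotc c q.1 p j - q.2‖⁻¹ := by
    intro j
    have h1 : Continuous fun q : G3 × E3 => rotc c q.1 p j - q.2 := by
      unfold rotc
      exact (continuous_const.add ((continuous_act (p j)).comp continuous_fst)).sub continuous_snd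
    exact h1.norm.measurable.inv
  have i2 : ∀ j : κ, Integrable (fun q : G3 × E3 => ‖rotc c q.1 p j - q.2‖⁻¹) (hG.prod β) := by
    intro j
    have e3 : ∀ g : G3, Integrable (fun x : E3 => ‖rotc c g p j - x‖⁻¹) β := fun g =>
      hβ.pot (rotc c g p j)
    obtain ⟨M, hM0, hM⟩ := hβ.Pot_le
    have e4 : Integrable (fun g : G3 => ∫ x, ‖‖rotc c g p j - x‖⁻¹‖ ∂β) hG := by
      have e5 : (fun g : G3 => ∫ x, ‖‖rotc c g p j - x‖⁻¹‖ ∂β) =
          fun g => Pot β (rotc c g p j) := by
        ext g
        unfold Pot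
        congr 1
        ext x
        rw [Real.norm_eq_abs, abs_of_nonneg (by positivity)]
      rw [e5]
      refine Integrable.mono' (integrable_const M) ?_ ?_
      · have hc : Continuous fun g : G3 => rotc c g p j := by
          unfold rotc
          exact continuous_const.add (continuous_act (p j))
        exact (hβ.measurable_Pot.comp hc.measurable).aestronglyMeasurable
      · exact Eventually.of_forall fun g => by
          rw [Real.norm_eq_abs, abs_of_nonneg (Pot_nonneg _ _)]; exact hM _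
    exact (integrable_prod_iff (hjm j).aestronglyMeasurable).2 ⟨Eventually.of_forall e3, e4⟩
  have i3 : ∀ j : κ, Integrable (fun g : G3 => Pot β (rotc c g p j)) hG := by
    intro j
    exact (i2 j).integral_prod_left
  have v3 : ∀ j : κ, ∫ g : G3, Pot β (rotc c g p j) ∂hG = Pot β c := by
    intro j
    unfold Pot
    rw [integral_integral_swap (f := fun (g : G3) (x : E3) => ‖rotc c g p j - x‖⁻¹) (i2 j)]
    apply integral_congr_ae
    filter_upwards [hae] with x hx
    have h1 : ∀ g : G3, ‖rotc c g p j - x‖⁻¹ = ‖(x - c) - (g : E3 →L[ℝ] E3) (p j)‖⁻¹ := by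
      intro g; unfold rotc; rw [norm_sub_rev, sub_add_eq_sub_sub]
    simp only [h1]
    rw [norm_sub_rev c x]
    exact rotF_eq ((hpj j).trans_le hx)
  -- the background-background term
  have v4 : ∫ x, Pot β x ∂(ubg σ c r) = σ * vB r * Pot β c := by
    rw [← Pot_symm hβ (BM_ubg σ c r)]
    have : ∫ x, Pot (ubg σ c r) x ∂β = ∫ x, σ * vB r * ‖c - x‖⁻¹ ∂β := by
      apply integral_congr_ae
      filter_upwards [hae] with x hx
      rw [Pot_ubg hσ c hr.le, ballPot_of_ge hr hx, norm_sub_rev c x, mul_assoc]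
      rfl
    rw [this, integral_const_mul]
    rfl
  have v2 : ∀ i, Pot (ubg σ c r) (q i) = σ * vB r * ‖q i - c‖⁻¹ := by
    intro i
    rw [Pot_ubg hσ c hr.le, ballPot_of_ge hr (hq i), mul_assoc]
    rfl
  have i1' : Integrable (fun g : G3 => ∑ i, ∑ j, ‖q i - rotc c g p j‖⁻¹) hG :=
    integrable_finsetSum _ fun i _ => integrable_finsetSum _ fun j _ => i1 i j
  have i3' : Integrable (fun g : G3 => ∑ j, Pot β (rotc c g p j)) hG :=
    integrable_finsetSum _ fun j _ => i3 j
  have ia : Integrable (fun g : G3 => z ^ 2 * (∑ i, ∑ j, ‖q i - rotc c g p j‖⁻¹)) hG :=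
    i1'.const_mul _
  have ib : Integrable (fun g : G3 => z ^ 2 * (∑ i, ∑ j, ‖q i - rotc c g p j‖⁻¹) -
      z * (∑ i, Pot (ubg σ c r) (q i))) hG := ia.sub (integrable_const _)
  have ic : Integrable (fun g : G3 => z ^ 2 * (∑ i, ∑ j, ‖q i - rotc c g p j‖⁻¹) -
      z * (∑ i, Pot (ubg σ c r) (q i)) - z * ∑ j, Pot β (rotc c g p j)) hG :=
    ib.sub (i3'.const_mul _)
  refine ⟨ic.add (integrable_const _), ?_⟩
  unfold cross
  rw [integral_add ic (integrable_const _), integral_sub ib (i3'.const_mul _),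
    integral_sub ia (integrable_const _), integral_const_mul, integral_const_mul,
    integral_const_mul,
    integral_finsetSum _ fun i _ => integrable_finsetSum _ fun j _ => i1 i j,
    integral_finsetSum _ fun j _ => i3 j]
  simp only [integral_finsetSum _ fun j _ => i1 _ j, v1, v3, v2, v4, integral_const,
    probReal_univ, one_smul, Finset.sum_const, Finset.card_univ, nsmul_eq_mul]
  rw [← Finset.mul_sum, hneut, ← Finset.mul_sum]
  ring

/-- Merging a neutral ball with an outside system. -/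
theorem merge_ball {z σ : ℝ} (hσ : 0 ≤ σ) {β : Measure E3} (hβ : BM β) (c : E3) {r : ℝ}
    (hr : 0 < r) (q : ι → E3) (hqinj : Function.Injective q) (hq : ∀ i, r ≤ ‖q i - c‖)
    (hβ0 : β (ball c r) = 0) (p : κ → E3) (hpinj : Function.Injective p)
    (hp : ∀ j, p j ∈ ball (0 : E3) r) (hneut : σ * vB r = z * Fintype.card κ) :
    ∃ p' : κ → E3, Function.Injective (Sum.elim q p') ∧ (∀ j, p' j ∈ ball c r) ∧
      JE z (β + ubg σ c r) (Sum.elim q p') ≤ JE z β q +
        (z ^ 2 * rep p - z * (σ * ∑ j, ballPot r ‖p j‖) + σ ^ 2 * selfE r / 2) := by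
  obtain ⟨hint, h0⟩ := integral_cross hσ hβ c hr q hq hβ0 p hp hneut
  obtain ⟨g, hg⟩ := exists_le_integral hint
  rw [h0] at hg
  have hin : ∀ j, rotc c g p j ∈ ball c r := by
    intro j
    rw [mem_ball_iff_norm]
    unfold rotc
    rw [add_sub_cancel_left, norm_act]
    exact mem_ball_zero_iff.1 (hp j)
  refine ⟨rotc c g p, ?_, hin, ?_⟩
  · rw [Sum.elim_injective]
    refine ⟨hqinj, ?_, ?_⟩
    · intro a b hab
      unfold rotc at hab
      have h1 : (g : E3 →L[ℝ] E3) (p a - p b) = 0 := by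
        rw [map_sub, sub_eq_zero]; exact add_left_cancel hab
      have h2 := norm_act g (p a - p b)
      rw [h1, norm_zero] at h2
      exact hpinj (sub_eq_zero.1 (norm_eq_zero.1 h2.symm))
    · intro i j h
      have h1 := hin j
      rw [← h, mem_ball_iff_norm] at h1
      exact absurd (hq i) (not_le.2 h1)
  · rw [JE_add z hβ (BM_ubg σ c r), JE_ball hσ c hr.le]
    linarith

end

end Pool.Agent.Lib_helper90c
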