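import Pool.Agent.Lib_helper90c.Cond

/-!
# A weighted Poincaré inequality on balls
-/

set_option autoImplicit false

open MeasureTheory Set Metric Filter
open scoped ENNReal NNReal Topology

namespace Pool.Agent.Lib_helper90c

/-- `|f'(x) v|² ≤ |v|² |∇f|²` -/
theorem norm_fderiv_sq_le (f : E3 → ℂ) (x v : E3) :
    ‖fderiv ℝ f x v‖ ^ 2 ≤ ‖v‖ ^ 2 * grad1 f x := by
  have hv : v = ∑ a : Fin 3, v a • EuclideanSpace.single a (1 : ℝ) := by
    ext k
    simp [Finset.sum_apply, Pi.single_apply]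
  have h1 : fderiv ℝ f x v = ∑ a : Fin 3, v a • fderiv ℝ f x (EuclideanSpace.single a (1 : ℝ)) := by
    conv_lhs => rw [hv]
    rw [map_sum]
    simp only [map_smul]
  have h2 : ‖fderiv ℝ f x v‖ ≤
      ∑ a : Fin 3, |v a| * ‖fderiv ℝ f x (EuclideanSpace.single a (1 : ℝ))‖ := by
    rw [h1]
    refine (norm_sum_le _ _).trans (Finset.sum_le_sum fun a _ => ?_)
    rw [norm_smul, Real.norm_eq_abs]
  have h3 : (∑ a : Fin 3, |v a| * ‖fderiv ℝ f x (EuclideanSpace.single a (1 : ℝ))‖) ^ 2 ≤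
      (∑ a : Fin 3, |v a| ^ 2) *
        ∑ a : Fin 3, ‖fderiv ℝ f x (EuclideanSpace.single a (1 : ℝ))‖ ^ 2 :=
    Finset.sum_mul_sq_le_sq_mul_sq _ _ _
  have h4 : ∑ a : Fin 3, |v a| ^ 2 = ‖v‖ ^ 2 := by
    rw [EuclideanSpace.norm_sq_eq]
    simp only [Real.norm_eq_abs]
  rw [h4] at h3
  exact (pow_le_pow_left₀ (norm_nonneg _) h2 2).trans h3

theorem grad1_nonneg (f : E3 → ℂ) (x : E3) : 0 ≤ grad1 f x := by unfold grad1; positivity

theorem lintegral_rpow_neg_half :
    ∫⁻ t in Ioo (0 : ℝ) 1, ENNReal.ofReal (t ^ (-(1 / 2) : ℝ)) = 2 := by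
  have h1 : IntegrableOn (fun t : ℝ => t ^ (-(1 / 2) : ℝ)) (Ioo 0 1) := by
    rw [← integrableOn_Ioc_iff_integrableOn_Ioo,
      ← intervalIntegrable_iff_integrableOn_Ioc_of_le zero_le_one]
    exact intervalIntegral.intervalIntegrable_rpow' (by norm_num)
  have h2 : ∫ t in Ioo (0 : ℝ) 1, t ^ (-(1 / 2) : ℝ) = 2 := by
    rw [← integral_Ioc_eq_integral_Ioo, ← intervalIntegral.integral_of_le zero_le_one,
      integral_rpow (Or.inl (by norm_num))]
    norm_num
  rw [← ofReal_integral_eq_lintegral_ofReal h1, h2]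
  · norm_num
  · rw [EventuallyLE, ae_restrict_iff' measurableSet_Ioo]
    exact Eventually.of_forall fun t ht => Real.rpow_nonneg ht.1.le _

/-- pointwise segment estimate -/
theorem segment_bound {f : E3 → ℂ} (hf : ContDiff ℝ 1 f) (x y : E3) :
    ENNReal.ofReal (‖f x - f y‖ ^ 2) ≤ 2 * (ENNReal.ofReal (‖x - y‖ ^ 2) *
      ∫⁻ t in Ioo (0 : ℝ) 1, ENNReal.ofReal (t ^ (1 / 2 : ℝ)) *
        ENNReal.ofReal (grad1 f (x + t • (y - x)))) := by
  have hd : Differentiable ℝ f := hf.differentiable (by norm_num)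
  have hcf : Continuous (fderiv ℝ f) := hf.continuous_fderiv (by norm_num)
  have hcg : Continuous (grad1 f) := by
    unfold grad1
    exact continuous_finsetSum _ fun a _ => ((hcf.clm_apply continuous_const).norm.pow 2)
  have hline : Continuous fun t : ℝ => x + t • (y - x) := by fun_prop
  set g : ℝ → ℝ := fun t => Real.sqrt (grad1 f (x + t • (y - x))) with hg
  have hgc : Continuous g := (hcg.comp hline).sqrt
  -- fundamental theorem of calculus
  have hderiv : ∀ t : ℝ, HasDerivAt (fun t : ℝ => f (x + t • (y - x)))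
      (fderiv ℝ f (x + t • (y - x)) (y - x)) t := by
    intro t
    have h1 : HasDerivAt (fun t : ℝ => x + t • (y - x)) (y - x) t := by
      have := ((hasDerivAt_id t).smul_const (y - x)).const_add x
      simpa using this
    exact (hd _).hasFDerivAt.comp_hasDerivAt t h1
  have hftc : ∫ t in (0 : ℝ)..1, fderiv ℝ f (x + t • (y - x)) (y - x) = f y - f x := by
    rw [intervalIntegral.integral_eq_sub_of_hasDerivAt (fun t _ => hderiv t)]
    · simp
    · exact ((hcf.comp hline).clm_apply continuous_const).intervalIntegrable _ _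
  have hnorm : ‖f x - f y‖ ≤ ‖x - y‖ * ∫ t in Ioo (0 : ℝ) 1, g t := by
    rw [norm_sub_rev, ← hftc, intervalIntegral.integral_of_le zero_le_one,
      integral_Ioc_eq_integral_Ioo, ← integral_const_mul]
    have hint : IntegrableOn (fun t => ‖x - y‖ * g t) (Ioo (0 : ℝ) 1) :=
      ((continuous_const.mul hgc).integrableOn_Icc (a := 0) (b := 1)).mono_set Ioo_subset_Icc_self
    refine norm_integral_le_of_norm_le hint (Eventually.of_forall fun t => ?_)
    have h2 := norm_fderiv_sq_le f (x + t • (y - x)) (y - x)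
    rw [norm_sub_rev y x] at h2
    have h3 : (‖x - y‖ * g t) ^ 2 = ‖x - y‖ ^ 2 * grad1 f (x + t • (y - x)) := by
      rw [mul_pow, hg, Real.sq_sqrt (grad1_nonneg _ _)]
    rw [← h3] at h2
    exact (pow_le_pow_iff_left₀ (norm_nonneg _) (mul_nonneg (norm_nonneg _) (Real.sqrt_nonneg _))
      (by norm_num)).1 h2
  -- Cauchy-Schwarz
  have hcs : ENNReal.ofReal (∫ t in Ioo (0 : ℝ) 1, g t) ^ 2 ≤
      2 * ∫⁻ t in Ioo (0 : ℝ) 1, ENNReal.ofReal (t ^ (1 / 2 : ℝ)) *
        ENNReal.ofReal (grad1 f (x + t • (y - x))) := by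
    have hgi : IntegrableOn g (Ioo (0 : ℝ) 1) :=
      (hgc.integrableOn_Icc (a := 0) (b := 1)).mono_set Ioo_subset_Icc_self
    rw [ofReal_integral_eq_lintegral_ofReal hgi (Eventually.of_forall fun t => Real.sqrt_nonneg _)]
    have e1 : ∫⁻ t in Ioo (0 : ℝ) 1, ENNReal.ofReal (g t) =
        ∫⁻ t in Ioo (0 : ℝ) 1, ((fun t : ℝ => ENNReal.ofReal (t ^ (-(1 / 4) : ℝ))) *
          (fun t : ℝ => ENNReal.ofReal (t ^ (1 / 4 : ℝ) * g t))) t := by
      apply setLIntegral_congr_fun measurableSet_Ioo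
      intro t ht
      have ht0 : 0 < t := ht.1
      simp only [Pi.mul_apply]
      rw [← ENNReal.ofReal_mul (by positivity), ← mul_assoc, ← Real.rpow_add ht0]
      norm_num
    rw [e1]
    have hm1 : Measurable fun t : ℝ => ENNReal.ofReal (t ^ (-(1 / 4) : ℝ)) := by fun_prop
    have hm2 : Measurable fun t : ℝ => ENNReal.ofReal (t ^ (1 / 4 : ℝ) * g t) :=
      ((by fun_prop : Measurable fun t : ℝ => t ^ (1 / 4 : ℝ)).mul hgc.measurable).ennreal_ofReal
    have h4 := ENNReal.lintegral_mul_le_Lp_mul_Lq (volume.restrict (Ioo (0 : ℝ) 1))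
      (Real.HolderConjugate.two_two) hm1.aemeasurable hm2.aemeasurable
    have h5 := pow_le_pow_left' h4 2
    refine h5.trans (le_of_eq ?_)
    rw [mul_pow]
    have e2 : ∀ A : ℝ≥0∞, (A ^ (1 / 2 : ℝ)) ^ 2 = A := by
      intro A
      rw [← ENNReal.rpow_natCast, ← ENNReal.rpow_mul]
      norm_num
    rw [e2, e2]
    congr 1
    · rw [← lintegral_rpow_neg_half]
      apply setLIntegral_congr_fun measurableSet_Ioo
      intro t ht
      have ht0 : 0 < t := ht.1
      simp only
      rw [ENNReal.rpow_two, ← ENNReal.ofReal_pow (by positivity), ← Real.rpow_natCast,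
        ← Real.rpow_mul ht0.le]
      norm_num
    · apply setLIntegral_congr_fun measurableSet_Ioo
      intro t ht
      have ht0 : 0 < t := ht.1
      simp only
      rw [ENNReal.rpow_two, ← ENNReal.ofReal_pow (mul_nonneg (by positivity)
        (Real.sqrt_nonneg _)), mul_pow, ← Real.rpow_natCast, ← Real.rpow_mul ht0.le,
        Real.sq_sqrt (grad1_nonneg _ _), ← ENNReal.ofReal_mul (by positivity)]
      norm_num
  calc ENNReal.ofReal (‖f x - f y‖ ^ 2)
      ≤ ENNReal.ofReal ((‖x - y‖ * ∫ t in Ioo (0 : ℝ) 1, g t) ^ 2) :=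
        ENNReal.ofReal_le_ofReal (pow_le_pow_left₀ (norm_nonneg _) hnorm 2)
    _ = ENNReal.ofReal (‖x - y‖ ^ 2) * ENNReal.ofReal (∫ t in Ioo (0 : ℝ) 1, g t) ^ 2 := by
        rw [mul_pow, ENNReal.ofReal_mul (sq_nonneg _), ENNReal.ofReal_pow (p := ∫ t in Ioo (0 : ℝ) 1, g t)
          (integral_nonneg fun t => Real.sqrt_nonneg _)]
    _ ≤ _ := by
        rw [mul_left_comm]
        gcongr

/-- the weight in the change of variables -/
theorem weight_bound {c R v : E3} {r t : ℝ} (hr : 0 < r) (ht0 : 0 < t) (ht1 : t < 1) :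
    ∫⁻ x in ball c r, ENNReal.ofReal ‖x - R‖⁻¹ *
      (ball c r).indicator 1 (t⁻¹ • (v - (1 - t) • x)) ≤
      (ball c r).indicator 1 v * ENNReal.ofReal (8 * Real.pi * t ^ 2 * r ^ 2) := by
  have hpi := Real.pi_pos
  by_cases hv : v ∈ ball c r
  · rw [indicator_of_mem hv, Pi.one_apply, one_mul]
    have hsym : ∀ (c' : E3) (s : ℝ), 0 ≤ s → ∫⁻ x in ball c' s, ENNReal.ofReal ‖x - R‖⁻¹ ≤
        ENNReal.ofReal (2 * Real.pi * s ^ 2) := by
      intro c' s hs
      have h1 := lintegral_ball_inv' c' R hs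
      simp only [norm_sub_rev R] at h1
      rw [h1]
      exact ENNReal.ofReal_le_ofReal (ballPot_le hs (norm_nonneg _))
    by_cases ht : t < 1 / 2
    · have h1t : 0 < 1 - t := by linarith
      set c' : E3 := (1 - t)⁻¹ • (v - t • c) with hc'
      have hsub : ∀ x, t⁻¹ • (v - (1 - t) • x) ∈ ball c r → x ∈ ball c' (2 * t * r) := by
        intro x hx
        rw [mem_ball_iff_norm] at hx ⊢
        have e1 : t⁻¹ • (v - (1 - t) • x) - c = -(t⁻¹ * (1 - t)) • (x - c') := by
          rw [hc']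
          match_scalars <;> field_simp
        rw [e1, norm_smul, norm_neg, Real.norm_eq_abs, abs_of_pos (by positivity)] at hx
        have h2 : ‖x - c'‖ < r * (t * (1 - t)⁻¹) := by
          have : ‖x - c'‖ = (t * (1 - t)⁻¹) * (t⁻¹ * (1 - t) * ‖x - c'‖) := by field_simp
          rw [this, mul_comm r]
          exact mul_lt_mul_of_pos_left hx (by positivity)
        have h3 : (1 - t)⁻¹ ≤ 2 := by
          rw [inv_le_comm₀ h1t (by norm_num)]; norm_num; linarith
        calc ‖x - c'‖ < r * (t * (1 - t)⁻¹) := h2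
          _ ≤ r * (t * 2) := by gcongr
          _ = 2 * t * r := by ring
      calc ∫⁻ x in ball c r, ENNReal.ofReal ‖x - R‖⁻¹ *
            (ball c r).indicator 1 (t⁻¹ • (v - (1 - t) • x))
          ≤ ∫⁻ x in ball c r, (ball c' (2 * t * r)).indicator
              (fun x => ENNReal.ofReal ‖x - R‖⁻¹) x := by
            apply lintegral_mono
            intro x
            by_cases hx : t⁻¹ • (v - (1 - t) • x) ∈ ball c r
            · simp only [indicator_of_mem hx, indicator_of_mem (hsub x hx)]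
              simp
            · simp only [indicator_of_notMem hx]
              simp
        _ ≤ ∫⁻ x, (ball c' (2 * t * r)).indicator (fun x => ENNReal.ofReal ‖x - R‖⁻¹) x :=
            setLIntegral_le_lintegral _ _
        _ = ∫⁻ x in ball c' (2 * t * r), ENNReal.ofReal ‖x - R‖⁻¹ :=
            lintegral_indicator measurableSet_ball _
        _ ≤ ENNReal.ofReal (2 * Real.pi * (2 * t * r) ^ 2) := hsym _ _ (by positivity)
        _ = _ := by congr 1; ring
    · push Not at ht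
      calc ∫⁻ x in ball c r, ENNReal.ofReal ‖x - R‖⁻¹ *
            (ball c r).indicator 1 (t⁻¹ • (v - (1 - t) • x))
          ≤ ∫⁻ x in ball c r, ENNReal.ofReal ‖x - R‖⁻¹ := by
            apply lintegral_mono
            intro x
            by_cases hx : t⁻¹ • (v - (1 - t) • x) ∈ ball c r
            · simp only [indicator_of_mem hx]; simp
            · simp only [indicator_of_notMem hx]; simp
        _ ≤ ENNReal.ofReal (2 * Real.pi * r ^ 2) := hsym _ _ hr.le
        _ ≤ _ := by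
            apply ENNReal.ofReal_le_ofReal
            have h1 : (1 : ℝ) ≤ 4 * t ^ 2 := by nlinarith
            have h2 : 0 ≤ 2 * Real.pi * r ^ 2 := by positivity
            nlinarith
  · rw [indicator_of_notMem hv, zero_mul]
    have hzero : ∀ x ∈ ball c r, ENNReal.ofReal ‖x - R‖⁻¹ *
        (ball c r).indicator (1 : E3 → ℝ≥0∞) (t⁻¹ • (v - (1 - t) • x)) = 0 := by
      intro x hx
      rw [indicator_of_notMem, mul_zero]
      intro hy
      apply hv
      have hconv := (convex_ball c r) hx hy (by linarith : (0:ℝ) ≤ 1 - t) ht0.le (by ring)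
      rw [smul_smul, mul_inv_cancel₀ ht0.ne', one_smul] at hconv
      have : (1 - t) • x + (v - (1 - t) • x) = v := by abel
      rwa [this] at hconv
    rw [setLIntegral_congr_fun measurableSet_ball hzero]
    simp

theorem inner_bound {G : E3 → ℝ≥0∞} (hG : Measurable G) {c R : E3} {r t : ℝ} (hr : 0 < r)
    (ht0 : 0 < t) (ht1 : t < 1) :
    ∫⁻ x in ball c r, ENNReal.ofReal ‖x - R‖⁻¹ * ∫⁻ y in ball c r, G (x + t • (y - x)) ≤
      ENNReal.ofReal (8 * Real.pi * r ^ 2 * t⁻¹) * ∫⁻ v in ball c r, G v := by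
  have hpi := Real.pi_pos
  have hχ : Measurable ((ball c r).indicator (1 : E3 → ℝ≥0∞)) :=
    measurable_one.indicator measurableSet_ball
  have h1 : ∀ x : E3, ∫⁻ y in ball c r, G (x + t • (y - x)) =
      ENNReal.ofReal (t ^ 3)⁻¹ *
        ∫⁻ v, (ball c r).indicator 1 (t⁻¹ • (v - (1 - t) • x)) * G v := by
    intro x
    set F : E3 → ℝ≥0∞ := fun v => (ball c r).indicator 1 (t⁻¹ • (v - (1 - t) • x)) * G v with hF
    have hFm : Measurable F := (hχ.comp (by fun_prop)).mul hG
    have e1 : ∫⁻ y in ball c r, G (x + t • (y - x)) = ∫⁻ y, F ((1 - t) • x + t • y) := by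
      rw [← lintegral_indicator measurableSet_ball]
      congr 1
      ext y
      simp only [hF]
      have e2 : t⁻¹ • ((1 - t) • x + t • y - (1 - t) • x) = y := by
        rw [add_sub_cancel_left, smul_smul, inv_mul_cancel₀ ht0.ne', one_smul]
      have e3 : (1 - t) • x + t • y = x + t • (y - x) := by
        rw [sub_smul, one_smul, smul_sub]; abel
      rw [e2, e3]
      by_cases hy : y ∈ ball c r
      · rw [indicator_of_mem hy, indicator_of_mem hy]; simp
      · rw [indicator_of_notMem hy, indicator_of_notMem hy]; simp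
    rw [e1, lintegral_comp_smul3 ht0 (f := fun u => F ((1 - t) • x + u))
      (hFm.comp (by fun_prop)), lintegral_add_left_eq_self]
  simp only [h1]
  have hjm : Measurable fun q : E3 × E3 => ENNReal.ofReal ‖q.1 - R‖⁻¹ *
      ((ball c r).indicator 1 (t⁻¹ • (q.2 - (1 - t) • q.1)) * G q.2) := by
    have a1 : Measurable fun q : E3 × E3 => ENNReal.ofReal ‖q.1 - R‖⁻¹ := by fun_prop
    have a2 : Measurable fun q : E3 × E3 => t⁻¹ • (q.2 - (1 - t) • q.1) := by fun_prop
    exact a1.mul ((hχ.comp a2).mul (hG.comp measurable_snd))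
  calc ∫⁻ x in ball c r, ENNReal.ofReal ‖x - R‖⁻¹ * (ENNReal.ofReal (t ^ 3)⁻¹ *
        ∫⁻ v, (ball c r).indicator 1 (t⁻¹ • (v - (1 - t) • x)) * G v)
      = ENNReal.ofReal (t ^ 3)⁻¹ * ∫⁻ x in ball c r, ∫⁻ v, ENNReal.ofReal ‖x - R‖⁻¹ *
          ((ball c r).indicator 1 (t⁻¹ • (v - (1 - t) • x)) * G v) := by
        have hm4 : Measurable fun x : E3 => ∫⁻ v, ENNReal.ofReal ‖x - R‖⁻¹ *
            ((ball c r).indicator 1 (t⁻¹ • (v - (1 - t) • x)) * G v) :=
          hjm.lintegral_prod_right'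
        rw [← lintegral_const_mul _ hm4]
        congr 1
        ext x
        have hm5 : Measurable fun v : E3 =>
            (ball c r).indicator 1 (t⁻¹ • (v - (1 - t) • x)) * G v :=
          (hχ.comp (by fun_prop)).mul hG
        rw [lintegral_const_mul _ hm5]
        ring
    _ = ENNReal.ofReal (t ^ 3)⁻¹ * ∫⁻ v, ∫⁻ x in ball c r, ENNReal.ofReal ‖x - R‖⁻¹ *
          ((ball c r).indicator 1 (t⁻¹ • (v - (1 - t) • x)) * G v) := by
        rw [lintegral_lintegral_swap (f := fun x v : E3 => ENNReal.ofReal ‖x - R‖⁻¹ *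
          ((ball c r).indicator 1 (t⁻¹ • (v - (1 - t) • x)) * G v)) hjm.aemeasurable]
    _ ≤ ENNReal.ofReal (t ^ 3)⁻¹ * ∫⁻ v, (ball c r).indicator 1 v *
          ENNReal.ofReal (8 * Real.pi * t ^ 2 * r ^ 2) * G v := by
        gcongr with v
        have hm6 : Measurable fun x : E3 => ENNReal.ofReal ‖x - R‖⁻¹ *
            (ball c r).indicator 1 (t⁻¹ • (v - (1 - t) • x)) :=
          (by fun_prop : Measurable fun x : E3 => ENNReal.ofReal ‖x - R‖⁻¹).mul
            (hχ.comp (by fun_prop))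
        simp only [← mul_assoc]
        rw [lintegral_mul_const _ hm6]
        gcongr
        exact weight_bound hr ht0 ht1
    _ = ENNReal.ofReal (8 * Real.pi * r ^ 2 * t⁻¹) * ∫⁻ v in ball c r, G v := by
        have e1 : ∀ v, (ball c r).indicator 1 v *
            ENNReal.ofReal (8 * Real.pi * t ^ 2 * r ^ 2) * G v =
            ENNReal.ofReal (8 * Real.pi * t ^ 2 * r ^ 2) * (ball c r).indicator G v := by
          intro v
          by_cases hv : v ∈ ball c r
          · rw [indicator_of_mem hv, indicator_of_mem hv]; simp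
          · rw [indicator_of_notMem hv, indicator_of_notMem hv]; simp
        simp only [e1]
        rw [lintegral_const_mul _ (hG.indicator measurableSet_ball),
          lintegral_indicator measurableSet_ball, ← mul_assoc,
          ← ENNReal.ofReal_mul (by positivity)]
        congr 2
        field_simp

/-- Weighted Poincaré inequality on a ball. -/
theorem ball_poinc {f : E3 → ℂ} (hf : ContDiff ℝ 1 f) (c R : E3) {r : ℝ} (hr : 0 < r) :
    ∫⁻ x in ball c r, ENNReal.ofReal ‖x - R‖⁻¹ *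
      ∫⁻ y in ball c r, ENNReal.ofReal (‖f x - f y‖ ^ 2) ≤
      ENNReal.ofReal (128 * Real.pi * r ^ 4) * ∫⁻ v in ball c r, ENNReal.ofReal (grad1 f v) := by
  have hpi := Real.pi_pos
  have hcf : Continuous (fderiv ℝ f) := hf.continuous_fderiv (by norm_num)
  have hcg : Continuous (grad1 f) := by
    unfold grad1
    exact continuous_finsetSum _ fun a _ => ((hcf.clm_apply continuous_const).norm.pow 2)
  set G : E3 → ℝ≥0∞ := fun v => ENNReal.ofReal (grad1 f v) with hGdef
  have hG : Measurable G := hcg.measurable.ennreal_ofReal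
  -- measurability of the joint functions
  have hm3 : Measurable fun q : (E3 × E3) × ℝ => ENNReal.ofReal (q.2 ^ (1 / 2 : ℝ)) *
      G (q.1.1 + q.2 • (q.1.2 - q.1.1)) := by
    have a1 : Measurable fun q : (E3 × E3) × ℝ => ENNReal.ofReal (q.2 ^ (1 / 2 : ℝ)) := by
      fun_prop
    have a2 : Measurable fun q : (E3 × E3) × ℝ => q.1.1 + q.2 • (q.1.2 - q.1.1) := by fun_prop
    exact a1.mul (hG.comp a2)
  have step1 : ∀ x ∈ ball c r, ∀ y ∈ ball c r, ENNReal.ofReal (‖f x - f y‖ ^ 2) ≤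
      ENNReal.ofReal (8 * r ^ 2) * ∫⁻ t in Ioo (0 : ℝ) 1, ENNReal.ofReal (t ^ (1 / 2 : ℝ)) *
        G (x + t • (y - x)) := by
    intro x hx y hy
    refine (segment_bound hf x y).trans ?_
    rw [← mul_assoc]
    gcongr
    have h0 : 2 * ENNReal.ofReal (‖x - y‖ ^ 2) = ENNReal.ofReal (2 * ‖x - y‖ ^ 2) := by
      rw [ENNReal.ofReal_mul (by norm_num)]; norm_num
    rw [h0]
    apply ENNReal.ofReal_le_ofReal
    have h1 : ‖x - y‖ ≤ 2 * r := by
      rw [mem_ball_iff_norm] at hx hy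
      have := norm_sub_le_norm_sub_add_norm_sub x c y
      rw [norm_sub_rev c y] at this
      linarith
    have h2 : ‖x - y‖ ^ 2 ≤ (2 * r) ^ 2 := pow_le_pow_left₀ (norm_nonneg _) h1 2
    linarith
  have step2 : ∀ x ∈ ball c r, ENNReal.ofReal ‖x - R‖⁻¹ *
      ∫⁻ y in ball c r, ENNReal.ofReal (‖f x - f y‖ ^ 2) ≤
      ENNReal.ofReal (8 * r ^ 2) * ∫⁻ t in Ioo (0 : ℝ) 1, ENNReal.ofReal (t ^ (1 / 2 : ℝ)) *
        (ENNReal.ofReal ‖x - R‖⁻¹ * ∫⁻ y in ball c r, G (x + t • (y - x))) := by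
    intro x hx
    have hmx : Measurable fun q : E3 × ℝ => ENNReal.ofReal (q.2 ^ (1 / 2 : ℝ)) *
        G (x + q.2 • (q.1 - x)) := by
      have : Measurable fun q : E3 × ℝ => ((x, q.1), q.2) := by fun_prop
      exact hm3.comp this
    have hmy : Measurable fun y : E3 => ∫⁻ t in Ioo (0 : ℝ) 1,
        ENNReal.ofReal (t ^ (1 / 2 : ℝ)) * G (x + t • (y - x)) := hmx.lintegral_prod_right'
    have h1 : ∫⁻ y in ball c r, ENNReal.ofReal (‖f x - f y‖ ^ 2) ≤
        ENNReal.ofReal (8 * r ^ 2) * ∫⁻ y in ball c r, ∫⁻ t in Ioo (0 : ℝ) 1,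
          ENNReal.ofReal (t ^ (1 / 2 : ℝ)) * G (x + t • (y - x)) := by
      rw [← lintegral_const_mul _ hmy]
      exact setLIntegral_mono' measurableSet_ball (step1 x hx)
    have h2 : ∫⁻ y in ball c r, ∫⁻ t in Ioo (0 : ℝ) 1,
        ENNReal.ofReal (t ^ (1 / 2 : ℝ)) * G (x + t • (y - x)) =
        ∫⁻ t in Ioo (0 : ℝ) 1, ENNReal.ofReal (t ^ (1 / 2 : ℝ)) *
          ∫⁻ y in ball c r, G (x + t • (y - x)) := by
      rw [lintegral_lintegral_swap (f := fun (y : E3) (t : ℝ) =>
        ENNReal.ofReal (t ^ (1 / 2 : ℝ)) * G (x + t • (y - x))) hmx.aemeasurable]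
      congr 1
      ext t
      have hmG : Measurable fun y : E3 => G (x + t • (y - x)) := hG.comp (by fun_prop)
      rw [lintegral_const_mul _ hmG]
    have hmt : Measurable fun t : ℝ => ENNReal.ofReal (t ^ (1 / 2 : ℝ)) *
        ∫⁻ y in ball c r, G (x + t • (y - x)) := by
      have a1 : Measurable fun t : ℝ => ENNReal.ofReal (t ^ (1 / 2 : ℝ)) := by fun_prop
      have a3 : Measurable fun q : ℝ × E3 => G (x + q.1 • (q.2 - x)) :=
        hG.comp (by fun_prop)
      exact a1.mul a3.lintegral_prod_right'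
    calc ENNReal.ofReal ‖x - R‖⁻¹ * ∫⁻ y in ball c r, ENNReal.ofReal (‖f x - f y‖ ^ 2)
        ≤ ENNReal.ofReal ‖x - R‖⁻¹ * (ENNReal.ofReal (8 * r ^ 2) *
          ∫⁻ t in Ioo (0 : ℝ) 1, ENNReal.ofReal (t ^ (1 / 2 : ℝ)) *
            ∫⁻ y in ball c r, G (x + t • (y - x))) := by
          rw [← h2]; gcongr
      _ = ENNReal.ofReal (8 * r ^ 2) * (ENNReal.ofReal ‖x - R‖⁻¹ *
          ∫⁻ t in Ioo (0 : ℝ) 1, ENNReal.ofReal (t ^ (1 / 2 : ℝ)) *
            ∫⁻ y in ball c r, G (x + t • (y - x))) := by ring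
      _ = _ := by
          rw [← lintegral_const_mul _ hmt]
          congr 2
          ext t
          ring
  have hmj : Measurable fun q : E3 × ℝ => ENNReal.ofReal (q.2 ^ (1 / 2 : ℝ)) *
      (ENNReal.ofReal ‖q.1 - R‖⁻¹ * ∫⁻ y in ball c r, G (q.1 + q.2 • (y - q.1))) := by
    have a1 : Measurable fun q : E3 × ℝ => ENNReal.ofReal (q.2 ^ (1 / 2 : ℝ)) := by fun_prop
    have a2 : Measurable fun q : E3 × ℝ => ENNReal.ofReal ‖q.1 - R‖⁻¹ := by fun_prop
    have a3 : Measurable fun q : (E3 × ℝ) × E3 => G (q.1.1 + q.1.2 • (q.2 - q.1.1)) :=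
      hG.comp (by fun_prop)
    exact a1.mul (a2.mul a3.lintegral_prod_right')
  have hmx' : Measurable fun x : E3 => ∫⁻ t in Ioo (0 : ℝ) 1, ENNReal.ofReal (t ^ (1 / 2 : ℝ)) *
      (ENNReal.ofReal ‖x - R‖⁻¹ * ∫⁻ y in ball c r, G (x + t • (y - x))) :=
    hmj.lintegral_prod_right'
  calc ∫⁻ x in ball c r, ENNReal.ofReal ‖x - R‖⁻¹ *
        ∫⁻ y in ball c r, ENNReal.ofReal (‖f x - f y‖ ^ 2)
      ≤ ∫⁻ x in ball c r, ENNReal.ofReal (8 * r ^ 2) *
          ∫⁻ t in Ioo (0 : ℝ) 1, ENNReal.ofReal (t ^ (1 / 2 : ℝ)) *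
            (ENNReal.ofReal ‖x - R‖⁻¹ * ∫⁻ y in ball c r, G (x + t • (y - x))) :=
        setLIntegral_mono' measurableSet_ball step2
    _ = ENNReal.ofReal (8 * r ^ 2) * ∫⁻ x in ball c r,
          ∫⁻ t in Ioo (0 : ℝ) 1, ENNReal.ofReal (t ^ (1 / 2 : ℝ)) *
            (ENNReal.ofReal ‖x - R‖⁻¹ * ∫⁻ y in ball c r, G (x + t • (y - x))) :=
        lintegral_const_mul _ hmx'
    _ = ENNReal.ofReal (8 * r ^ 2) * ∫⁻ t in Ioo (0 : ℝ) 1, ∫⁻ x in ball c r,
          ENNReal.ofReal (t ^ (1 / 2 : ℝ)) *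
            (ENNReal.ofReal ‖x - R‖⁻¹ * ∫⁻ y in ball c r, G (x + t • (y - x))) := by
        rw [lintegral_lintegral_swap (f := fun (x : E3) (t : ℝ) =>
          ENNReal.ofReal (t ^ (1 / 2 : ℝ)) *
            (ENNReal.ofReal ‖x - R‖⁻¹ * ∫⁻ y in ball c r, G (x + t • (y - x))))
          hmj.aemeasurable]
    _ ≤ ENNReal.ofReal (8 * r ^ 2) * ∫⁻ t in Ioo (0 : ℝ) 1,
          ENNReal.ofReal (8 * Real.pi * r ^ 2) * ENNReal.ofReal (t ^ (-(1 / 2) : ℝ)) *
            ∫⁻ v in ball c r, G v := by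
        refine mul_le_mul' le_rfl (setLIntegral_mono' measurableSet_Ioo ?_)
        intro t ht
        have ht0 : 0 < t := ht.1
        have hmx2 : Measurable fun x : E3 => ENNReal.ofReal ‖x - R‖⁻¹ *
            ∫⁻ y in ball c r, G (x + t • (y - x)) := by
          have a2 : Measurable fun x : E3 => ENNReal.ofReal ‖x - R‖⁻¹ := by fun_prop
          have a3 : Measurable fun q : E3 × E3 => G (q.1 + t • (q.2 - q.1)) :=
            hG.comp (by fun_prop)
          exact a2.mul a3.lintegral_prod_right'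
        rw [lintegral_const_mul _ hmx2]
        calc ENNReal.ofReal (t ^ (1 / 2 : ℝ)) * ∫⁻ x in ball c r, ENNReal.ofReal ‖x - R‖⁻¹ *
              ∫⁻ y in ball c r, G (x + t • (y - x))
            ≤ ENNReal.ofReal (t ^ (1 / 2 : ℝ)) *
              (ENNReal.ofReal (8 * Real.pi * r ^ 2 * t⁻¹) * ∫⁻ v in ball c r, G v) := by
              gcongr
              exact inner_bound hG hr ht0 ht.2
          _ = _ := by
              rw [← mul_assoc, ← ENNReal.ofReal_mul (by positivity),
                ← ENNReal.ofReal_mul (by positivity)]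
              congr 2
              have : t ^ (-(1 / 2) : ℝ) = t ^ (1 / 2 : ℝ) * t⁻¹ := by
                rw [← Real.rpow_neg_one t, ← Real.rpow_add ht0]; norm_num
              rw [this]; ring
    _ = ENNReal.ofReal (128 * Real.pi * r ^ 4) * ∫⁻ v in ball c r, G v := by
        have hm7 : Measurable fun t : ℝ => ENNReal.ofReal (8 * Real.pi * r ^ 2) *
            ENNReal.ofReal (t ^ (-(1 / 2) : ℝ)) := by fun_prop
        have hm8 : Measurable fun t : ℝ => ENNReal.ofReal (t ^ (-(1 / 2) : ℝ)) := by fun_prop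
        rw [lintegral_mul_const _ hm7, lintegral_const_mul _ hm8, lintegral_rpow_neg_half,
          ← mul_assoc]
        congr 1
        rw [show (2 : ℝ≥0∞) = ENNReal.ofReal 2 by norm_num, ← ENNReal.ofReal_mul (by positivity),
          ← ENNReal.ofReal_mul (by positivity)]
        congr 1
        ring

end Pool.Agent.Lib_helper90c
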