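import Pool.Agent.Lib_helper90c.Slice

/-!
# The Newtonian potential of a ball
-/

set_option autoImplicit false

open MeasureTheory Set Metric
open scoped ENNReal NNReal

namespace Pool.Agent.Lib_helper90c

theorem sqrt_deriv_aux {d y : ℝ} (hy : 0 < y) :
    HasDerivAt (fun y : ℝ => Real.sqrt (d ^ 2 + y ^ 2)) (y / Real.sqrt (d ^ 2 + y ^ 2)) y := by
  have h1 : HasDerivAt (fun y : ℝ => d ^ 2 + y ^ 2) (2 * y) y := by
    simpa using ((hasDerivAt_id y).pow 2).const_add (d ^ 2)
  have h2 := h1.sqrt (by positivity)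
  convert h2 using 1
  field_simp

theorem div_sqrt_le_one (d y : ℝ) (hy : 0 ≤ y) : y / Real.sqrt (d ^ 2 + y ^ 2) ≤ 1 := by
  rcases hy.eq_or_lt with h | h
  · rw [← h]; simp
  · rw [div_le_one (Real.sqrt_pos.2 (by positivity))]
    exact Real.le_sqrt_of_sq_le (by nlinarith [sq_nonneg d])

theorem integrableOn_disc_aux (d a : ℝ) :
    IntegrableOn (fun y : ℝ => y * (1 / Real.sqrt (d ^ 2 + y ^ 2))) (Ioo 0 a) := by
  refine Measure.integrableOn_of_bounded (M := 1) (by simp) ?_ ?_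
  · exact (by fun_prop : Measurable fun y : ℝ => y * (1 / Real.sqrt (d ^ 2 + y ^ 2))).aestronglyMeasurable
  · filter_upwards [self_mem_ae_restrict measurableSet_Ioo] with y hy
    rw [mul_one_div, Real.norm_eq_abs, abs_of_nonneg (div_nonneg hy.1.le (Real.sqrt_nonneg _))]
    exact div_sqrt_le_one d y hy.1.le

theorem integral_disc_aux (d a : ℝ) (ha : 0 ≤ a) :
    ∫ y in Ioo 0 a, y * (1 / Real.sqrt (d ^ 2 + y ^ 2)) = Real.sqrt (d ^ 2 + a ^ 2) - |d| := by
  rw [← integral_Ioc_eq_integral_Ioo, ← intervalIntegral.integral_of_le ha]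
  have h := intervalIntegral.integral_eq_sub_of_hasDerivAt_of_le (a := 0) (b := a)
    (f := fun y : ℝ => Real.sqrt (d ^ 2 + y ^ 2))
    (f' := fun y : ℝ => y * (1 / Real.sqrt (d ^ 2 + y ^ 2))) ha (by fun_prop)
    (fun y hy => by
      have := sqrt_deriv_aux (d := d) hy.1
      rwa [mul_one_div])
    (by
      rw [intervalIntegrable_iff_integrableOn_Ioo_of_le ha]
      exact integrableOn_disc_aux d a)
  rw [h]
  simp [Real.sqrt_sq_eq_abs]

/-- Integral of `1/√(d²+|u|²)` over a disc. -/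
theorem lintegral_disc (d a : ℝ) (ha : 0 ≤ a) :
    ∫⁻ u in ball (0 : E2) a, ENNReal.ofReal (1 / Real.sqrt (d ^ 2 + ‖u‖ ^ 2)) =
      ENNReal.ofReal (2 * Real.pi * (Real.sqrt (d ^ 2 + a ^ 2) - |d|)) := by
  have hint : IntegrableOn (fun u : E2 => (fun y : ℝ => 1 / Real.sqrt (d ^ 2 + y ^ 2)) ‖u‖)
      (ball (0 : E2) a) volume := by
    refine (integrableOn_fun_norm_addHaar volume
      (f := fun y : ℝ => 1 / Real.sqrt (d ^ 2 + y ^ 2))).2 ?_
    simpa using integrableOn_disc_aux d a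
  rw [← ofReal_integral_eq_lintegral_ofReal hint
    (Filter.Eventually.of_forall fun u => by positivity)]
  congr 1
  have h1 : ∫ u in ball (0 : E2) a, (1 / Real.sqrt (d ^ 2 + ‖u‖ ^ 2)) =
      ∫ u : E2, (fun y : ℝ => (Iio a).indicator (fun y => 1 / Real.sqrt (d ^ 2 + y ^ 2)) y) ‖u‖ := by
    rw [← integral_indicator measurableSet_ball]
    congr 1
    ext u
    simp [indicator]
  rw [h1, integral_fun_norm_addHaar]
  have hpi : (volume : Measure E2).real (ball 0 1) = Real.pi := by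
    rw [Measure.real, EuclideanSpace.volume_ball_fin_two]
    simp [Real.pi_pos.le]
  rw [hpi]
  have hd : Module.finrank ℝ E2 = 2 := by simp
  rw [hd]
  have h2 : ∫ y in Ioi (0 : ℝ), y ^ (2 - 1) •
      (Iio a).indicator (fun y => 1 / Real.sqrt (d ^ 2 + y ^ 2)) y =
      ∫ y in Ioo 0 a, y * (1 / Real.sqrt (d ^ 2 + y ^ 2)) := by
    rw [← integral_indicator measurableSet_Ioi, ← integral_indicator measurableSet_Ioo]
    congr 1
    ext y
    by_cases h0 : 0 < y <;> by_cases h1 : y < a <;> simp [indicator, h0, h1]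
  rw [h2, integral_disc_aux d a ha]
  simp
  ring

theorem mkE_mem_ball {s r : ℝ} {u : E2} :
    mkE (s, u) ∈ ball (0 : E3) r ↔ (-r < s ∧ s < r) ∧ u ∈ ball (0 : E2) (Real.sqrt (r ^ 2 - s ^ 2)) := by
  rw [mem_ball_zero_iff, mem_ball_zero_iff, Real.lt_sqrt (norm_nonneg _)]
  have h := norm_mkE_sq s u
  constructor
  · intro hr
    have hr0 : 0 < r := lt_of_le_of_lt (norm_nonneg _) hr
    have h2 : ‖mkE (s, u)‖ ^ 2 < r ^ 2 := by
      have := norm_nonneg (mkE (s, u)); nlinarith
    have h3 : s ^ 2 < r ^ 2 := by nlinarith [sq_nonneg ‖u‖]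
    have h4 := abs_lt_of_sq_lt_sq h3 hr0.le
    rw [abs_lt] at h4
    exact ⟨h4, by nlinarith⟩
  · rintro ⟨⟨h1, h2⟩, h3⟩
    have hr0 : 0 < r := by linarith
    have h4 : ‖mkE (s, u)‖ ^ 2 < r ^ 2 := by linarith
    exact lt_of_pow_lt_pow_left₀ 2 hr0.le h4

theorem inv_norm_mkE_sub_ax (s t : ℝ) (u : E2) :
    ‖mkE (s, u) - ax t‖⁻¹ = 1 / Real.sqrt ((s - t) ^ 2 + ‖u‖ ^ 2) := by
  rw [← norm_mkE_sub_ax_sq, Real.sqrt_sq (norm_nonneg _), one_div]

theorem lintegral_ball_ax_slice (r t : ℝ) :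
    ∫⁻ y in ball (0 : E3) r, ENNReal.ofReal ‖y - ax t‖⁻¹ =
      ∫⁻ s in Ioo (-r) r, ENNReal.ofReal
        (2 * Real.pi * (Real.sqrt (t ^ 2 - 2 * t * s + r ^ 2) - |s - t|)) := by
  rw [← lintegral_indicator measurableSet_ball, lintegral_cyl]
  swap
  · exact (by fun_prop : Measurable fun y : E3 => ENNReal.ofReal ‖y - ax t‖⁻¹).indicator
      measurableSet_ball
  rw [← lintegral_indicator measurableSet_Ioo]
  congr 1
  ext s
  by_cases hs : s ∈ Ioo (-r) r
  · rw [indicator_of_mem hs]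
    have hr2 : 0 ≤ r ^ 2 - s ^ 2 := by nlinarith [hs.1, hs.2]
    have h1 : (∫⁻ u : E2, (ball (0 : E3) r).indicator
        (fun y : E3 => ENNReal.ofReal ‖y - ax t‖⁻¹) (mkE (s, u))) =
        ∫⁻ u in ball (0 : E2) (Real.sqrt (r ^ 2 - s ^ 2)),
          ENNReal.ofReal (1 / Real.sqrt ((s - t) ^ 2 + ‖u‖ ^ 2)) := by
      rw [← lintegral_indicator measurableSet_ball]
      congr 1
      ext u
      by_cases hu : u ∈ ball (0 : E2) (Real.sqrt (r ^ 2 - s ^ 2))
      · rw [indicator_of_mem hu, indicator_of_mem (mkE_mem_ball.2 ⟨hs, hu⟩), inv_norm_mkE_sub_ax]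
      · rw [indicator_of_notMem hu, indicator_of_notMem]
        intro h
        exact hu (mkE_mem_ball.1 h).2
    rw [h1, lintegral_disc _ _ (Real.sqrt_nonneg _), Real.sq_sqrt hr2]
    congr 4
    ring
  · rw [indicator_of_notMem hs]
    have h1 : (fun u : E2 => (ball (0 : E3) r).indicator
        (fun y : E3 => ENNReal.ofReal ‖y - ax t‖⁻¹) (mkE (s, u))) = fun _ => 0 := by
      ext u
      rw [indicator_of_notMem]
      intro h
      exact hs (mkE_mem_ball.1 h).1
    rw [h1, lintegral_zero]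

theorem integral_abs_sub (r t : ℝ) (hr : 0 ≤ r) :
    ∫ s in (-r)..r, |s - t| = ((r - t) * |r - t| + (r + t) * |r + t|) / 2 := by
  have hd : ∀ s : ℝ, HasDerivAt (fun s : ℝ => (s - t) * |s - t| / 2) |s - t| s := by
    intro s
    rcases lt_trichotomy s t with h | h | h
    · have h1 : HasDerivAt (fun s : ℝ => -((s - t) ^ 2) / 2) (-(s - t)) s :=
        (((((hasDerivAt_id' s).sub_const t).pow 2).neg).div_const 2).congr_deriv (by norm_num; ring)
      rw [abs_of_neg (sub_neg.2 h)]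
      refine h1.congr_of_eventuallyEq ?_
      filter_upwards [eventually_lt_nhds h] with y hy
      rw [abs_of_neg (sub_neg.2 hy)]; ring
    · subst h
      rw [sub_self, abs_zero, hasDerivAt_iff_tendsto_slope]
      have : Filter.Tendsto (fun y : ℝ => |y - s| / 2) (nhdsWithin s {s}ᶜ) (nhds 0) := by
        have h : Filter.Tendsto (fun y : ℝ => |y - s| / 2) (nhds s) (nhds (|s - s| / 2)) := by
          apply Continuous.tendsto; fun_prop
        simp only [sub_self, abs_zero, zero_div] at h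
        exact h.mono_left nhdsWithin_le_nhds
      refine this.congr' ?_
      filter_upwards [self_mem_nhdsWithin] with y hy
      have hy' : y - s ≠ 0 := sub_ne_zero.2 hy
      rw [slope_def_field]
      simp only [sub_self, abs_zero, mul_zero, zero_div, sub_zero]
      field_simp
    · have h1 : HasDerivAt (fun s : ℝ => ((s - t) ^ 2) / 2) (s - t) s :=
        ((((hasDerivAt_id' s).sub_const t).pow 2).div_const 2).congr_deriv (by norm_num)
      rw [abs_of_pos (sub_pos.2 h)]
      refine h1.congr_of_eventuallyEq ?_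
      filter_upwards [eventually_gt_nhds h] with y hy
      rw [abs_of_pos (sub_pos.2 hy)]; ring
  rw [intervalIntegral.integral_eq_sub_of_hasDerivAt (fun s _ => hd s)
    (by apply Continuous.intervalIntegrable; fun_prop)]
  have : |-r - t| = |r + t| := by rw [← abs_neg]; congr 1; ring
  rw [this]; ring

theorem integral_sqrt_aux (r t : ℝ) (hr : 0 ≤ r) (ht : 0 < t) :
    ∫ s in (-r)..r, Real.sqrt (t ^ 2 - 2 * t * s + r ^ 2) = ((t + r) ^ 3 - |t - r| ^ 3) / (3 * t) := by
  rcases hr.eq_or_lt with h | hr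
  · subst h; simp [abs_of_pos ht]
  have hq : ∀ s ∈ Ioo (-r) r, 0 < t ^ 2 - 2 * t * s + r ^ 2 := by
    intro s hs
    nlinarith [sq_nonneg (t - r), mul_pos ht (sub_pos.2 hs.2)]
  have h := intervalIntegral.integral_eq_sub_of_hasDerivAt_of_le (a := -r) (b := r)
    (f := fun s : ℝ => -(1 / (3 * t)) * ((t ^ 2 - 2 * t * s + r ^ 2) *
      Real.sqrt (t ^ 2 - 2 * t * s + r ^ 2)))
    (f' := fun s : ℝ => Real.sqrt (t ^ 2 - 2 * t * s + r ^ 2)) (by linarith) (by fun_prop)
    (fun s hs => by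
      have h1 : HasDerivAt (fun s : ℝ => t ^ 2 - 2 * t * s + r ^ 2) (-(2 * t)) s := by
        have := (((hasDerivAt_id s).const_mul (2 * t)).const_sub (t ^ 2)).add_const (r ^ 2)
        simpa using this
      have h2 := h1.mul (h1.sqrt (hq s hs).ne')
      have h3 := h2.const_mul (-(1 / (3 * t)))
      refine HasDerivAt.congr_deriv h3 ?_
      have hs' := Real.sqrt_pos.2 (hq s hs)
      have hss := Real.sq_sqrt (hq s hs).le
      have ht' := ht.ne'
      set w := Real.sqrt (t ^ 2 - 2 * t * s + r ^ 2) with hw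
      rw [← hss]
      field_simp
      ring)
    (by apply Continuous.intervalIntegrable; fun_prop)
  rw [h]
  have e1 : t ^ 2 - 2 * t * r + r ^ 2 = (t - r) ^ 2 := by ring
  have e2 : t ^ 2 - 2 * t * (-r) + r ^ 2 = (t + r) ^ 2 := by ring
  rw [e1, e2, Real.sqrt_sq_eq_abs, Real.sqrt_sq (by linarith), ← sq_abs (t - r)]
  field_simp
  ring

/-- The potential of a ball of radius `r` at distance `t` from its centre. -/
noncomputable def ballPot (r t : ℝ) : ℝ :=
  if t ≤ r then 2 * Real.pi * r ^ 2 - 2 * Real.pi / 3 * t ^ 2 else 4 * Real.pi / 3 * r ^ 3 / t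

theorem sqrt_sub_abs_nonneg {r t s : ℝ} (hs : s ∈ Ioo (-r) r) :
    0 ≤ Real.sqrt (t ^ 2 - 2 * t * s + r ^ 2) - |s - t| := by
  rw [sub_nonneg]
  apply Real.le_sqrt_of_sq_le
  rw [sq_abs]
  nlinarith [hs.1, hs.2]

theorem lintegral_ball_ax (r t : ℝ) (hr : 0 ≤ r) (ht : 0 ≤ t) :
    ∫⁻ y in ball (0 : E3) r, ENNReal.ofReal ‖y - ax t‖⁻¹ = ENNReal.ofReal (ballPot r t) := by
  rw [lintegral_ball_ax_slice]
  have hcont : Continuous fun s : ℝ =>
      2 * Real.pi * (Real.sqrt (t ^ 2 - 2 * t * s + r ^ 2) - |s - t|) := by fun_prop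
  have hint : IntegrableOn (fun s : ℝ =>
      2 * Real.pi * (Real.sqrt (t ^ 2 - 2 * t * s + r ^ 2) - |s - t|)) (Ioo (-r) r) :=
    (hcont.integrableOn_Icc (a := -r) (b := r)).mono_set Ioo_subset_Icc_self
  rw [← ofReal_integral_eq_lintegral_ofReal hint]
  swap
  · filter_upwards [self_mem_ae_restrict measurableSet_Ioo] with s hs
    exact mul_nonneg (by positivity) (sqrt_sub_abs_nonneg hs)
  congr 1
  rw [← integral_Ioc_eq_integral_Ioo, ← intervalIntegral.integral_of_le (by linarith),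
    intervalIntegral.integral_const_mul, intervalIntegral.integral_sub
      (by apply Continuous.intervalIntegrable; fun_prop)
      (by apply Continuous.intervalIntegrable; fun_prop), integral_abs_sub r t hr]
  rcases ht.eq_or_lt with h0 | h0
  · subst h0
    have : ∀ s : ℝ, Real.sqrt (0 ^ 2 - 2 * 0 * s + r ^ 2) = r := by
      intro s; simp [Real.sqrt_sq hr]
    simp only [this]
    rw [intervalIntegral.integral_const, ballPot, if_pos hr]
    simp [abs_of_nonneg hr]
    ring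
  · rw [integral_sqrt_aux r t hr h0, ballPot]
    split_ifs with h
    · rw [abs_of_nonneg (by linarith : 0 ≤ r - t), abs_of_nonneg (by linarith : 0 ≤ r + t),
        abs_of_nonpos (by linarith : t - r ≤ 0)]
      field_simp
      ring
    · push Not at h
      rw [abs_of_neg (by linarith : r - t < 0), abs_of_nonneg (by linarith : 0 ≤ r + t),
        abs_of_pos (by linarith : 0 < t - r)]
      field_simp
      ring

/-- Newton's theorem for a ball. -/
theorem lintegral_ball_inv (r : ℝ) (hr : 0 ≤ r) (x : E3) :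
    ∫⁻ y in ball (0 : E3) r, ENNReal.ofReal ‖x - y‖⁻¹ = ENNReal.ofReal (ballPot r ‖x‖) := by
  obtain ⟨f, hf⟩ := exists_isometry_ax x
  rw [← lintegral_ball_ax r ‖x‖ hr (norm_nonneg x)]
  rw [← lintegral_indicator measurableSet_ball, ← lintegral_indicator measurableSet_ball]
  rw [← f.measurePreserving.lintegral_comp
    ((by fun_prop : Measurable fun y : E3 => ENNReal.ofReal ‖x - y‖⁻¹).indicator measurableSet_ball)]
  congr 1
  ext y
  have h1 : f y ∈ ball (0 : E3) r ↔ y ∈ ball (0 : E3) r := by simp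
  have h2 : ‖x - f y‖ = ‖y - ax ‖x‖‖ := by
    conv_lhs => rw [← hf]
    rw [← map_sub, f.norm_map, norm_sub_rev]
  by_cases hy : y ∈ ball (0 : E3) r
  · rw [indicator_of_mem hy, indicator_of_mem (h1.2 hy), h2]
  · rw [indicator_of_notMem hy, indicator_of_notMem (fun h => hy (h1.1 h))]

end Pool.Agent.Lib_helper90c
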