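import Pool.Agent.Lib_helper90c.Neutral

/-!
# Sums over the points of a configuration contained in a ball
-/

set_option autoImplicit false

open MeasureTheory Set Metric Filter
open scoped ENNReal NNReal Topology

namespace Pool.Agent.Lib_helper90c

/-- The Yukawa kernel. -/
noncomputable def Yk (κ : ℝ) (x y : E3) : ℝ := Real.exp (-(κ * ‖x - y‖)) * ‖x - y‖⁻¹

theorem Yk_nonneg (κ : ℝ) (x y : E3) : 0 ≤ Yk κ x y := by unfold Yk; positivity

theorem Yk_le {κ : ℝ} (hκ : 0 ≤ κ) (x y : E3) : Yk κ x y ≤ ‖x - y‖⁻¹ := by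
  unfold Yk
  have h : Real.exp (-(κ * ‖x - y‖)) ≤ 1 := by
    rw [Real.exp_le_one_iff]; have := norm_nonneg (x - y); nlinarith
  exact mul_le_of_le_one_left (by positivity) h

theorem measurable_Yk (κ : ℝ) : Measurable fun q : E3 × E3 => Yk κ q.1 q.2 := by
  unfold Yk; fun_prop

theorem measurable_Yk_right (κ : ℝ) (x : E3) : Measurable fun y : E3 => Yk κ x y := by
  unfold Yk; fun_prop

theorem mix_Yk {κ : ℝ} (hκ : 0 < κ) (x y : E3) :
    ∫⁻ b, ib b x * ib b y * ENNReal.ofReal ‖x - y‖⁻¹ ∂(bm κ) = ENNReal.ofReal (Yk κ x y) := by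
  have hm : Measurable fun b => ib b x * ib b y :=
    (measurable_ib_left x).mul (measurable_ib_left y)
  rw [lintegral_mul_const _ hm, mix_exp hκ, ← ENNReal.ofReal_mul (Real.exp_pos _).le]
  rfl

theorem wk_eq {κ t : ℝ} (ht : t ≠ 0) : wk κ t = t⁻¹ - Real.exp (-(κ * t)) * t⁻¹ := by
  unfold wk; rw [if_neg ht, div_eq_mul_inv]; ring

theorem ib_eq (b : ℝ × E3) (x : E3) [Decidable (x ∈ ball b.2 b.1)] :
    ib b x = if x ∈ ball b.2 b.1 then 1 else 0 := by
  unfold ib
  split_ifs with h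
  · rw [indicator_of_mem h]; rfl
  · rw [indicator_of_notMem h]

section
variable {ι : Type} [Fintype ι]

/-- the points of `p` in the ball `b` -/
abbrev Sb (p : ι → E3) (b : ℝ × E3) : Type := {i // p i ∈ ball b.2 b.1}

noncomputable instance (p : ι → E3) (b : ℝ × E3) : Fintype (Sb p b) := by
  classical exact Subtype.fintype _

theorem sum_ib (p : ι → E3) (b : ℝ × E3) (f : ι → ℝ≥0∞) :
    ∑ i, ib b (p i) * f i = ∑ i : Sb p b, f i := by
  classical
  simp only [ib_eq, ite_mul, one_mul, zero_mul]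
  rw [← Finset.sum_filter]
  exact Finset.sum_subtype (Finset.univ.filter fun i => p i ∈ ball b.2 b.1)
    (fun x => by simp only [Finset.mem_filter, Finset.mem_univ, true_and]) f

/-- repulsion inside the ball -/
noncomputable def Ub (p : ι → E3) (b : ℝ × E3) : ℝ≥0∞ :=
  2⁻¹ * ∑ i, ∑ j, ib b (p i) * ib b (p j) * ENNReal.ofReal ‖p i - p j‖⁻¹

theorem Ub_eq (p : ι → E3) (b : ℝ × E3) :
    Ub p b = ENNReal.ofReal (rep fun i : Sb p b => p i) := by
  unfold Ub rep
  rw [ENNReal.ofReal_mul (by norm_num)]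
  congr 1
  · rw [one_div, ENNReal.ofReal_inv_of_pos (by norm_num)]; norm_num
  · rw [ENNReal.ofReal_sum_of_nonneg fun i _ => Finset.sum_nonneg fun j _ => by positivity]
    rw [← sum_ib p b (fun i => ENNReal.ofReal (∑ x : Sb p b, ‖p i - p x‖⁻¹))]
    refine Finset.sum_congr rfl fun i _ => ?_
    rw [ENNReal.ofReal_sum_of_nonneg fun j _ => by positivity]
    rw [← sum_ib p b (fun j => ENNReal.ofReal ‖p i - p j‖⁻¹), Finset.mul_sum]
    refine Finset.sum_congr rfl fun j _ => ?_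
    ring

theorem measurable_Ub (p : ι → E3) : Measurable (Ub p) := by
  unfold Ub
  refine Measurable.const_mul ?_ _
  refine Finset.measurable_sum _ fun i _ => Finset.measurable_sum _ fun j _ => ?_
  exact ((measurable_ib_left _).mul (measurable_ib_left _)).mul_const _

theorem lintegral_Ub {κ : ℝ} (hκ : 0 < κ) (p : ι → E3) :
    ∫⁻ b, Ub p b ∂(bm κ) = ENNReal.ofReal ((1 / 2) * ∑ i, ∑ j, Yk κ (p i) (p j)) := by
  unfold Ub
  have hm : ∀ i j, Measurable fun b => ib b (p i) * ib b (p j) * ENNReal.ofReal ‖p i - p j‖⁻¹ :=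
    fun i j => ((measurable_ib_left _).mul (measurable_ib_left _)).mul_const _
  rw [lintegral_const_mul _ (Finset.measurable_sum _ fun i _ => Finset.measurable_sum _ fun j _ =>
    hm i j), ENNReal.ofReal_mul (by norm_num)]
  congr 1
  · rw [one_div, ENNReal.ofReal_inv_of_pos (by norm_num)]; norm_num
  · rw [ENNReal.ofReal_sum_of_nonneg fun i _ => Finset.sum_nonneg fun j _ => Yk_nonneg _ _ _,
      lintegral_finsetSum _ fun i _ => Finset.measurable_sum _ fun j _ => hm i j]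
    refine Finset.sum_congr rfl fun i _ => ?_
    rw [ENNReal.ofReal_sum_of_nonneg fun j _ => Yk_nonneg _ _ _,
      lintegral_finsetSum _ fun j _ => hm i j]
    exact Finset.sum_congr rfl fun j _ => mix_Yk hκ _ _

/-- number of points in the ball -/
noncomputable def kb (p : ι → E3) (b : ℝ × E3) : ℕ := Fintype.card (Sb p b)

theorem sum_ib_one (p : ι → E3) (b : ℝ × E3) : ∑ i, ib b (p i) = kb p b := by
  have := sum_ib p b (fun _ => 1)
  simp only [mul_one] at this
  rw [this]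
  simp [kb]

theorem kb_le_card (p : ι → E3) (b : ℝ × E3) : kb p b ≤ Fintype.card ι :=
  Fintype.card_subtype_le _

/-- lower bound on the repulsion of `k` points in a ball -/
theorem rep_lower {κ : Type*} [Fintype κ] (q : κ → E3) (hq : Function.Injective q) (c : E3) {r : ℝ}
    (hr : 0 < r) (h : ∀ i, q i ∈ ball c r) :
    (Fintype.card κ : ℝ) * ((Fintype.card κ : ℝ) - 1) / (4 * r) ≤ rep q := by
  classical
  have h1 : ∀ i j, i ≠ j → (2 * r)⁻¹ ≤ ‖q i - q j‖⁻¹ := by
    intro i j hij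
    have h2 : 0 < ‖q i - q j‖ := norm_pos_iff.2 (sub_ne_zero.2 (hq.ne hij))
    rw [inv_le_inv₀ (by positivity) h2]
    have h3 := h i
    have h4 := h j
    rw [mem_ball_iff_norm] at h3 h4
    have h5 := norm_sub_le_norm_sub_add_norm_sub (q i) c (q j)
    rw [norm_sub_rev c] at h5
    linarith
  unfold rep
  have h2 : ∀ i, ((Fintype.card κ : ℝ) - 1) * (2 * r)⁻¹ ≤ ∑ j, ‖q i - q j‖⁻¹ := by
    intro i
    have e : ∑ j ∈ Finset.univ.erase i, (2 * r)⁻¹ ≤ ∑ j ∈ Finset.univ.erase i, ‖q i - q j‖⁻¹ :=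
      Finset.sum_le_sum fun j hj => h1 i j (Finset.ne_of_mem_erase hj).symm
    have e2 : ∑ j ∈ Finset.univ.erase i, (2 * r)⁻¹ = ((Fintype.card κ : ℝ) - 1) * (2 * r)⁻¹ := by
      rw [Finset.sum_const, Finset.card_erase_of_mem (Finset.mem_univ i), Finset.card_univ,
        nsmul_eq_mul, Nat.cast_sub (Fintype.card_pos_iff.2 ⟨i⟩), Nat.cast_one]
    rw [← e2]
    exact e.trans (Finset.sum_le_sum_of_subset_of_nonneg (Finset.erase_subset _ _)
      fun j _ _ => by positivity)
  calc (Fintype.card κ : ℝ) * ((Fintype.card κ : ℝ) - 1) / (4 * r)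
      = 1 / 2 * ∑ _i : κ, ((Fintype.card κ : ℝ) - 1) * (2 * r)⁻¹ := by
        rw [Finset.sum_const, Finset.card_univ, nsmul_eq_mul]; field_simp; ring
    _ ≤ 1 / 2 * ∑ i, ∑ j, ‖q i - q j‖⁻¹ := by
        gcongr with i; exact h2 i

end

end Pool.Agent.Lib_helper90c
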