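import Pool.Agent.Lib_helper90c.Estar

/-!
# Near optimal neutral configurations for all large numbers of nuclei
-/

set_option autoImplicit false

open MeasureTheory Set Metric Filter
open scoped ENNReal NNReal Topology

namespace Pool.Agent.Lib_helper90c

theorem excess_alg {e ε g w v R' J J0 : ℝ} (he : e ≤ 0) (hε : 0 < ε) (hg : 0 < g) (hw : 0 < w)
    (hR' : 0 < R') (hv0 : 0 ≤ v) (h2 : g * w ≤ w - v)
    (hlow : (e - ε / 2) * w ≤ J) (hj : J ≤ J0 - (w - v) ^ 2 / (2 * R'))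
    (hJ0 : J0 < (e + ε / 2) * v) (h7 : w = 4 * Real.pi / 3 * R' ^ 3) :
    R' ^ 2 ≤ 2 * (-e + ε) / (g ^ 2 * (4 * Real.pi / 3)) := by
  have hpi := Real.pi_pos
  have hvw : v ≤ w := by nlinarith only [h2, mul_pos hg hw]
  have h3 : (g * w) ^ 2 ≤ (w - v) ^ 2 := pow_le_pow_left₀ (by positivity) h2 2
  have h4 : (w - v) ^ 2 / (2 * R') ≤ (-e + ε) * w := by
    have h5 : (e + ε / 2) * v ≤ ε / 2 * w := by
      nlinarith only [mul_nonneg (neg_nonneg.2 he) hv0, mul_le_mul_of_nonneg_left hvw hε.le]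
    linarith
  have h5 : (g * w) ^ 2 ≤ (-e + ε) * w * (2 * R') := by
    rw [div_le_iff₀ (by positivity)] at h4
    exact h3.trans h4
  have h6 : g ^ 2 * w ≤ (-e + ε) * (2 * R') := by
    have : w * (g ^ 2 * w) ≤ w * ((-e + ε) * (2 * R')) := by linarith
    exact le_of_mul_le_mul_left this hw
  rw [h7] at h6
  have h8 : g ^ 2 * (4 * Real.pi / 3) * R' ^ 2 ≤ 2 * (-e + ε) := by
    have : R' * (g ^ 2 * (4 * Real.pi / 3) * R' ^ 2) ≤ R' * (2 * (-e + ε)) := by linarith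
    exact le_of_mul_le_mul_left this hR'
  rw [le_div_iff₀ (by positivity)]
  linarith

theorem final_alg {e ε v w Q : ℝ} (he : e ≤ 0) (hε : 0 < ε) (hw : 0 < w) (hQ1 : 1 < Q)
    (hQ : Q ≤ 1 + ε / (2 * (-e + 1))) (hv : w * Q⁻¹ ≤ v) (hvw : v ≤ w) :
    (e + ε / 2) * v ≤ (e + ε) * w := by
  have hQ0 : 0 < Q := by linarith
  have hne : 0 < 2 * (-e + 1) := by linarith
  have h6 : -e * (ε / (2 * (-e + 1))) ≤ ε / 2 := by
    rw [← mul_div_assoc, div_le_iff₀ hne]
    linarith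
  have h5 : e * Q⁻¹ ≤ e + ε / 2 := by
    rw [← div_eq_mul_inv, div_le_iff₀ hQ0]
    have h8 : -e * (Q - 1) ≤ ε / 2 :=
      (mul_le_mul_of_nonneg_left (show Q - 1 ≤ ε / (2 * (-e + 1)) by linarith)
        (neg_nonneg.2 he)).trans h6
    have h9 : ε / 2 ≤ ε / 2 * Q := le_mul_of_one_le_right (by positivity) hQ1.le
    linarith
  have h4 : e * v ≤ e * (w * Q⁻¹) := mul_le_mul_of_nonpos_left hv he
  have h7 : e * (w * Q⁻¹) ≤ (e + ε / 2) * w := by
    have := mul_le_mul_of_nonneg_right h5 hw.le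
    linarith
  have h8 : ε / 2 * v ≤ ε / 2 * w := mul_le_mul_of_nonneg_left hvw (by positivity)
  linarith

theorem exists_canonical {z ε : ℝ} (hz : 0 < z) (hε : 0 < ε) :
    ∃ n0 : ℕ, ∀ n, n0 ≤ n → ∃ p : Fin n → E3, Function.Injective p ∧
      (∀ i, p i ∈ ball (0 : E3) (nR z n)) ∧ jel z (nR z n) p ≤ (estar z + ε) * (z * n) := by
  have hpi := Real.pi_pos
  have he := estar_nonpos hz
  set e := estar z with hedef
  set η := ε / (2 * (-e + 1)) with hη
  have hη0 : 0 < η := by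
    have : 0 < -e + 1 := by linarith
    positivity
  obtain ⟨q, hq1, hq6⟩ : ∃ q : ℝ, 1 < q ∧ q ^ 6 < 1 + η := by
    have h1 : ∀ᶠ q in 𝓝[>] (1 : ℝ), q ^ 6 < 1 + η := by
      have h2 : Tendsto (fun q : ℝ => q ^ 6) (𝓝[>] 1) (𝓝 (1 ^ 6)) :=
        ((continuous_pow 6).tendsto 1).mono_left nhdsWithin_le_nhds
      exact h2.eventually (gt_mem_nhds (by linarith))
    obtain ⟨q, hq⟩ := (h1.and self_mem_nhdsWithin).exists
    exact ⟨q, hq.2, hq.1⟩
  have hq0 : 0 < q := by linarith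
  obtain ⟨ℓ0, hℓ0, hwin⟩ := exists_window hz (half_pos hε) hq1
  obtain ⟨r0, hr0, hlow⟩ := estar_lower hz (half_pos hε)
  have hq3 : 1 < q ^ 3 := one_lt_pow₀ hq1 (by norm_num)
  set g := 1 - (q ^ 3)⁻¹ with hg
  have hg0 : 0 < g := by
    rw [hg]; exact sub_pos.2 (inv_lt_one_of_one_lt₀ hq3)
  set B := 2 * (-e + ε) / (g ^ 2 * (4 * Real.pi / 3)) with hB
  have hB0 : 0 ≤ B := by
    have : 0 ≤ -e + ε := by linarith
    positivity
  set M := max (q ^ 2 * ℓ0) (max r0 (B + 1)) with hM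
  have hM0 : 0 < M := by positivity
  obtain ⟨n0, hn0⟩ := exists_nat_gt (vB M / z)
  refine ⟨n0, fun n hn => ?_⟩
  have hn0' : 0 < n0 := by
    have h1 : (0 : ℝ) < n0 := lt_of_le_of_lt (div_nonneg (vB_nonneg hM0.le) hz.le) hn0
    exact_mod_cast h1
  have hnpos : 0 < n := lt_of_lt_of_le hn0' hn
  have hR := nR_pos hz hnpos
  set R := nR z n with hRdef
  have hvR : vB R = z * n := vB_nR hz n
  have hMR : M ≤ R := by
    rw [← vB_le_iff hM0.le hR.le, hvR]
    rw [div_lt_iff₀ hz] at hn0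
    have : (n0 : ℝ) ≤ n := by exact_mod_cast hn
    nlinarith
  have hR1 : q ^ 2 * ℓ0 ≤ R := (le_max_left _ _).trans hMR
  have hR2 : r0 ≤ R := (le_max_left _ _).trans ((le_max_right _ _).trans hMR)
  have hR3 : B + 1 ≤ R := (le_max_right _ _).trans ((le_max_right _ _).trans hMR)
  obtain ⟨r, hr, k, p, hpinj, hp, hjel⟩ := hwin (R / q ^ 2) (by
    rw [le_div_iff₀ (by positivity)]; linarith)
  have hr0' : 0 < r := lt_of_lt_of_le (by positivity) hr.1
  have hrR : r ≤ R / q := by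
    have := hr.2
    have h2 : q * (R / q ^ 2) = R / q := by field_simp
    rwa [h2] at this
  have hrltR : r < R := lt_of_le_of_lt hrR (div_lt_self hR hq1)
  have hv1 : vB r ≤ z * n * (q ^ 3)⁻¹ := by
    rw [← hvR]
    have : vB (R / q) = vB R * (q ^ 3)⁻¹ := by unfold vB; field_simp
    rw [← this]
    exact (vB_le_iff hr0'.le (by positivity)).2 hrR
  have hv2 : z * n * (q ^ 6)⁻¹ ≤ vB r := by
    rw [← hvR]
    have : vB (R / q ^ 2) = vB R * (q ^ 6)⁻¹ := by unfold vB; field_simp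
    rw [← this]
    exact (vB_le_iff (by positivity) hr0'.le).2 hr.1
  have hvpos := vB_pos hr0'
  -- number bound
  have hk : k ≤ n := by
    by_contra hcon
    push Not at hcon
    have hkpos : 0 < k := lt_of_le_of_lt (Nat.zero_le _) hcon
    have hR' := nR_pos hz hkpos
    have hvR' : vB (nR z k) = z * k := vB_nR hz k
    set R' := nR z k with hR'def
    have hnk : (n : ℝ) < k := by exact_mod_cast hcon
    have hRR' : R < R' := by
      rw [← vB_lt_iff hR.le hR'.le, hvR, hvR']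
      exact mul_lt_mul_of_pos_left hnk hz
    obtain ⟨X, hinj, hX, hj⟩ := exists_neutral (z := z) p hpinj hr0' (hrltR.trans hRR') hp 0
      (by rw [Fintype.card_fin, hvR']; simp)
    have h1 := jel_Fin (fun n' p' => hlow R' (hR2.trans hRR'.le) n' p') _ hinj hX
    rw [hvR'] at h1
    rw [Fintype.card_fin] at hj
    have hw0 : 0 < z * (k : ℝ) := by
      have : (0 : ℝ) < k := by exact_mod_cast hkpos
      positivity
    have hvw : vB r ≤ z * (k : ℝ) * (q ^ 3)⁻¹ := by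
      refine hv1.trans ?_
      gcongr
    have h2 : g * (z * (k : ℝ)) ≤ z * (k : ℝ) - vB r := by rw [hg]; linarith
    have h9 := excess_alg he hε hg0 hw0 hR' hvpos.le h2 h1 hj hjel (by rw [← hvR']; rfl)
    have h10 : B + 1 ≤ R' := hR3.trans hRR'.le
    have h11 : R' ^ 2 ≤ B := h9
    nlinarith only [h10, h11, hB0]
  obtain ⟨m, hm⟩ := Nat.exists_eq_add_of_le hk
  obtain ⟨X, hinj, hX, hj⟩ := exists_neutral (z := z) p hpinj hr0' hrltR hp m
    (by rw [Fintype.card_fin, hvR, hm]; push_cast; ring)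
  have hcard : Fintype.card (Fin n) = Fintype.card (Fin k ⊕ Fin m) := by simp [hm]
  have eq := Fintype.equivOfCardEq hcard
  refine ⟨Sum.elim p X ∘ eq, hinj.comp eq.injective, fun i => hX _, ?_⟩
  rw [jel_reindex]
  have h1 : 0 ≤ (z * (Fintype.card (Fin k) : ℝ) - vB r) ^ 2 / (2 * R) := by positivity
  have hzn : 0 < z * n := by
    have : (0 : ℝ) < n := by exact_mod_cast hnpos
    positivity
  have h3 : vB r ≤ z * n := by rw [← hvR]; exact (vB_le_iff hr0'.le hR.le).2 hrltR.le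
  have h2 : (e + ε / 2) * vB r ≤ (e + ε) * (z * n) :=
    final_alg he hε hzn (one_lt_pow₀ hq1 (by norm_num)) hq6.le hv2 h3
  linarith

end Pool.Agent.Lib_helper90c
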