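import Pool.Agent.Lib_helper90c.UpperE

/-!
# Conditional one-particle functions
-/

set_option autoImplicit false

open MeasureTheory Set Metric Filter
open scoped ENNReal NNReal Topology

namespace Pool.Agent.Lib_helper90c

section
variable {N : ℕ}

/-- the wave function as a function of particle `i` only -/
def slice (ψ : Conf N → ℂ) (x : Conf N) (i : Fin N) (y : E3) : ℂ := ψ (Function.update x i y)

theorem contDiff_slice {ψ : Conf N → ℂ} (h : ContDiff ℝ (⊤ : ℕ∞) ψ) (x : Conf N) (i : Fin N) :
    ContDiff ℝ (⊤ : ℕ∞) (slice ψ x i) := by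
  unfold slice
  exact h.comp (contDiff_update _ x i)

theorem hasCompactSupport_slice {ψ : Conf N → ℂ} (h : HasCompactSupport ψ) (x : Conf N)
    (i : Fin N) : HasCompactSupport (slice ψ x i) := by
  have hK : IsCompact ((fun x : Conf N => x i) '' tsupport ψ) := h.image (continuous_apply i)
  refine HasCompactSupport.intro hK fun y hy => ?_
  by_contra hne
  apply hy
  exact ⟨Function.update x i y, subset_tsupport ψ hne, by simp⟩

theorem fderiv_slice {ψ : Conf N → ℂ} (h : Differentiable ℝ ψ) (x : Conf N) (i : Fin N) (y v : E3) :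
    fderiv ℝ (slice ψ x i) y v = fderiv ℝ ψ (Function.update x i y) (Pi.single i v) := by
  have h1 := hasFDerivAt_update (𝕜 := ℝ) (E := fun _ : Fin N => E3) x (i := i) y
  have h2 := (h (Function.update x i y)).hasFDerivAt.comp y h1
  have h3 : HasFDerivAt (slice ψ x i) _ y := h2
  rw [h3.fderiv, ContinuousLinearMap.comp_apply]
  congr 1
  ext k
  by_cases hk : k = i
  · subst hk; simp
  · simp [hk]

theorem grad1_slice {ψ : Conf N → ℂ} (h : Differentiable ℝ ψ) (x : Conf N) (i : Fin N) (y : E3) :
    grad1 (slice ψ x i) y = gradSq ψ i (Function.update x i y) := by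
  unfold grad1 gradSq
  simp only [fderiv_slice h]

/-- normalised indicator of the unit ball -/
noncomputable def chi0 (y : E3) : ℝ≥0∞ :=
  (ENNReal.ofReal (vB 1))⁻¹ * (ball (0 : E3) 1).indicator 1 y

theorem measurable_chi0 : Measurable chi0 := by
  unfold chi0
  exact (measurable_one.indicator measurableSet_ball).const_mul _

theorem lintegral_chi0 : ∫⁻ y, chi0 y = 1 := by
  unfold chi0
  rw [lintegral_const_mul _ (measurable_one.indicator measurableSet_ball),
    lintegral_indicator_one measurableSet_ball, volume_ball_eq 0 zero_le_one,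
    ENNReal.inv_mul_cancel (ENNReal.ofReal_pos.2 (vB_pos one_pos)).ne' ENNReal.ofReal_ne_top]

/-- measure on the configurations of the other particles (particle `i` is a dummy variable) -/
noncomputable def mu (i : Fin N) : Measure (Conf N) :=
  (volume : Measure (Conf N)).withDensity fun x => chi0 (x i)

theorem measurable_slice_comp {F : Conf N → ℝ≥0∞} (hF : Measurable F) (i : Fin N) :
    Measurable fun q : Conf N × E3 => F (Function.update q.1 i q.2) :=
  hF.comp (measurable_update_pair i)

instance (i : Fin N) : SFinite (mu i) := by unfold mu; infer_instance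

theorem lintegral_mu (i : Fin N) {F : Conf N → ℝ≥0∞} (hF : Measurable F) :
    ∫⁻ x, F x ∂(mu i) = ∫⁻ x, F x * chi0 (x i) := by
  unfold mu
  have hm : Measurable fun x : Conf N => chi0 (x i) := measurable_chi0.comp (measurable_pi_apply i)
  rw [lintegral_withDensity_eq_lintegral_mul _ hm hF]
  congr 1
  ext x
  rw [Pi.mul_apply, mul_comm]

/-- Disintegration with respect to particle `i`. -/
theorem lintegral_disint (i : Fin N) {F : Conf N → ℝ≥0∞} (hF : Measurable F) :
    ∫⁻ x, F x = ∫⁻ x, ∫⁻ y, F (Function.update x i y) ∂volume ∂(mu i) := by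
  have hm : Measurable fun x : Conf N => ∫⁻ y, F (Function.update x i y) :=
    (measurable_slice_comp hF i).lintegral_prod_right'
  have hmc : Measurable fun x : Conf N => chi0 (x i) :=
    measurable_chi0.comp (measurable_pi_apply i)
  rw [lintegral_mu i hm]
  refine lintegral_update_eq i hF (hm.mul hmc) fun x => ?_
  simp only [Function.update_idem, Function.update_self]
  rw [lintegral_const_mul _ measurable_chi0, lintegral_chi0, mul_one]

/-- one-particle density of particle `i` -/
noncomputable def rhoi (w : Conf N → ℝ≥0∞) (i : Fin N) (y : E3) : ℝ≥0∞ :=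
  ∫⁻ x, w (Function.update x i y) ∂(mu i)

/-- one-particle density -/
noncomputable def rho (w : Conf N → ℝ≥0∞) (y : E3) : ℝ≥0∞ := ∑ i, rhoi w i y

theorem measurable_rhoi {w : Conf N → ℝ≥0∞} (hw : Measurable w) (i : Fin N) :
    Measurable (rhoi w i) := by
  unfold rhoi
  exact ((measurable_slice_comp hw i).comp measurable_swap).lintegral_prod_right'

theorem measurable_rho {w : Conf N → ℝ≥0∞} (hw : Measurable w) : Measurable (rho w) := by
  unfold rho
  exact Finset.measurable_sum _ fun i _ => measurable_rhoi hw i

theorem lintegral_eval_rhoi {w : Conf N → ℝ≥0∞} (hw : Measurable w) (i : Fin N) {f : E3 → ℝ≥0∞}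
    (hf : Measurable f) : ∫⁻ x : Conf N, f (x i) * w x = ∫⁻ y, f y * rhoi w i y := by
  have hF : Measurable fun x : Conf N => f (x i) * w x := (hf.comp (measurable_pi_apply i)).mul hw
  rw [lintegral_disint i hF]
  simp only [Function.update_self]
  have hjm : Measurable fun q : Conf N × E3 => f q.2 * w (Function.update q.1 i q.2) :=
    (hf.comp measurable_snd).mul (measurable_slice_comp hw i)
  rw [lintegral_lintegral_swap (f := fun (x : Conf N) (y : E3) =>
    f y * w (Function.update x i y)) hjm.aemeasurable]
  congr 1
  ext y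
  have hm : Measurable fun x : Conf N => w (Function.update x i y) :=
    (measurable_slice_comp hw i).comp (measurable_id.prodMk measurable_const)
  rw [lintegral_const_mul _ hm]
  rfl

theorem sum_lintegral_eval {w : Conf N → ℝ≥0∞} (hw : Measurable w) {f : E3 → ℝ≥0∞}
    (hf : Measurable f) : ∑ i, ∫⁻ x : Conf N, f (x i) * w x = ∫⁻ y, f y * rho w y := by
  simp only [lintegral_eval_rhoi hw _ hf]
  have hm : ∀ i, Measurable fun y => f y * rhoi w i y := fun i => hf.mul (measurable_rhoi hw i)
  rw [← lintegral_finsetSum _ fun i _ => hm i]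
  congr 1
  ext y
  rw [rho, Finset.mul_sum]

end

end Pool.Agent.Lib_helper90c
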