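import Pool.Agent.Lib_helper90c.MainBall

/-!
# Crude estimates in one ball
-/

set_option autoImplicit false

open MeasureTheory Set Metric Filter
open scoped ENNReal NNReal Topology

namespace Pool.Agent.Lib_helper90c

/-- Hölder with exponents `3/2` and `3` -/
theorem holder3 {A : Set E3} {w ρ : E3 → ℝ≥0∞} (hw : Measurable w) (hρ : Measurable ρ) :
    ∫⁻ x in A, w x * ρ x ≤
      (∫⁻ x in A, w x ^ (3 / 2 : ℝ)) ^ (2 / 3 : ℝ) * (∫⁻ x in A, ρ x ^ 3) ^ (1 / 3 : ℝ) := by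
  have hpq : (3 / 2 : ℝ).HolderConjugate 3 := by
    rw [Real.holderConjugate_iff]; norm_num
  have h := ENNReal.lintegral_mul_le_Lp_mul_Lq (volume.restrict A) hpq hw.aemeasurable
    hρ.aemeasurable
  have e1 : (1 : ℝ) / (3 / 2) = 2 / 3 := by norm_num
  rw [e1] at h
  have e2 : ∀ x, ρ x ^ (3 : ℝ) = ρ x ^ 3 := fun x => by
    rw [← ENNReal.rpow_natCast]; norm_num
  simp only [e2, Pi.mul_apply] at h
  exact h

/-- `∫_{B(0,2)} |x|^{-3/2}` -/
noncomputable def cH : ℝ≥0∞ := ∫⁻ x in ball (0 : E3) 2, (ENNReal.ofReal ‖x‖⁻¹) ^ (3 / 2 : ℝ)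

theorem cH_ne_top : cH ≠ ∞ := by
  have h : IntegrableOn (fun x : E3 => (fun t : ℝ => (t⁻¹) ^ (3 / 2 : ℝ)) ‖x‖) (ball (0 : E3) 2)
      volume := by
    refine (integrableOn_fun_norm_addHaar (E := E3) volume
      (f := fun t : ℝ => (t⁻¹) ^ (3 / 2 : ℝ)) (r := 2)).2 ?_
    have h1 : IntegrableOn (fun y : ℝ => y ^ (1 / 2 : ℝ)) (Ioo 0 2) := by
      rw [intervalIntegral.integrableOn_Ioo_rpow_iff (by norm_num)]
      norm_num
    refine h1.congr_fun ?_ measurableSet_Ioo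
    intro y hy
    have hy0 : 0 < y := hy.1
    simp only [finrank_euclideanSpace_fin, smul_eq_mul]
    rw [Real.inv_rpow hy0.le, ← Real.rpow_neg hy0.le, ← Real.rpow_natCast y (3 - 1),
      ← Real.rpow_add hy0]
    norm_num
  have h2 := h.lintegral_lt_top
  unfold cH
  refine ne_of_lt (lt_of_le_of_lt (le_of_eq ?_) h2)
  congr 1
  ext x
  rw [ENNReal.ofReal_rpow_of_nonneg (by positivity) (by norm_num)]

theorem lintegral_inv_ball_zero {r : ℝ} (hr : 0 < r) :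
    ∫⁻ x in ball (0 : E3) (2 * r), (ENNReal.ofReal ‖x‖⁻¹) ^ (3 / 2 : ℝ) =
      ENNReal.ofReal (r ^ (3 / 2 : ℝ)) * cH := by
  have hm : Measurable fun x : E3 => (ENNReal.ofReal ‖x‖⁻¹) ^ (3 / 2 : ℝ) := by fun_prop
  have hmi : Measurable ((ball (0 : E3) (2 * r)).indicator fun x : E3 =>
      (ENNReal.ofReal ‖x‖⁻¹) ^ (3 / 2 : ℝ)) := hm.indicator measurableSet_ball
  have h := lintegral_comp_smul3 hr hmi
  rw [lintegral_indicator measurableSet_ball] at h
  have h2 : ∫⁻ x : E3, (ball (0 : E3) (2 * r)).indicator (fun x : E3 =>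
      (ENNReal.ofReal ‖x‖⁻¹) ^ (3 / 2 : ℝ)) (r • x) = ENNReal.ofReal ((r ^ (3 / 2 : ℝ))⁻¹) * cH := by
    unfold cH
    rw [← lintegral_indicator measurableSet_ball, ← lintegral_const_mul _
      (hm.indicator measurableSet_ball)]
    congr 1
    ext x
    by_cases hx : x ∈ ball (0 : E3) 2
    · have hx' : r • x ∈ ball (0 : E3) (2 * r) := by
        rw [mem_ball_zero_iff] at hx ⊢
        rw [norm_smul, Real.norm_eq_abs, abs_of_pos hr]
        nlinarith
      rw [indicator_of_mem hx, indicator_of_mem hx', norm_smul, Real.norm_eq_abs, abs_of_pos hr,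
        ENNReal.ofReal_rpow_of_nonneg (by positivity) (by norm_num),
        ENNReal.ofReal_rpow_of_nonneg (by positivity) (by norm_num),
        ← ENNReal.ofReal_mul (by positivity)]
      congr 1
      rw [mul_inv, Real.mul_rpow (by positivity) (by positivity), Real.inv_rpow hr.le]
    · have hx' : r • x ∉ ball (0 : E3) (2 * r) := by
        rw [mem_ball_zero_iff] at hx ⊢
        rw [norm_smul, Real.norm_eq_abs, abs_of_pos hr]
        intro hcon
        exact hx (by nlinarith)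
      rw [indicator_of_notMem hx, indicator_of_notMem hx', mul_zero]
  rw [h2] at h
  have h3 : ENNReal.ofReal (r ^ 3) * (ENNReal.ofReal ((r ^ (3 / 2 : ℝ))⁻¹) * cH) =
      ∫⁻ x in ball (0 : E3) (2 * r), (ENNReal.ofReal ‖x‖⁻¹) ^ (3 / 2 : ℝ) := by
    rw [h, ← mul_assoc, ← ENNReal.ofReal_mul (by positivity),
      mul_inv_cancel₀ (by positivity), ENNReal.ofReal_one, one_mul]
  rw [← h3, ← mul_assoc, ← ENNReal.ofReal_mul (by positivity)]
  congr 2
  rw [← Real.rpow_neg hr.le, ← Real.rpow_natCast r 3, ← Real.rpow_add hr]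
  norm_num

theorem lintegral_inv_ball {r : ℝ} (hr : 0 < r) (c : E3) {y : E3} (hy : y ∈ ball c r) :
    ∫⁻ x in ball c r, (ENNReal.ofReal ‖x - y‖⁻¹) ^ (3 / 2 : ℝ) ≤
      ENNReal.ofReal (r ^ (3 / 2 : ℝ)) * cH := by
  rw [← lintegral_inv_ball_zero hr]
  have hsub : ball c r ⊆ (fun x : E3 => x - y) ⁻¹' ball (0 : E3) (2 * r) := by
    intro x hx
    rw [mem_preimage, mem_ball_zero_iff]
    rw [mem_ball_iff_norm] at hx hy
    have := norm_sub_le_norm_sub_add_norm_sub x c y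
    rw [norm_sub_rev c] at this
    linarith
  calc ∫⁻ x in ball c r, (ENNReal.ofReal ‖x - y‖⁻¹) ^ (3 / 2 : ℝ)
      ≤ ∫⁻ x in (fun x : E3 => x - y) ⁻¹' ball (0 : E3) (2 * r),
        (ENNReal.ofReal ‖x - y‖⁻¹) ^ (3 / 2 : ℝ) := lintegral_mono_set hsub
    _ = ∫⁻ x in ball (0 : E3) (2 * r), (ENNReal.ofReal ‖x‖⁻¹) ^ (3 / 2 : ℝ) := by
        have hm : Measurable fun x : E3 => (ENNReal.ofReal ‖x‖⁻¹) ^ (3 / 2 : ℝ) := by fun_prop
        exact (measurePreserving_sub_right volume y).setLIntegral_comp_preimage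
          measurableSet_ball hm

/-- constant in the Hölder bound -/
noncomputable def c1 : ℝ := (cH ^ (2 / 3 : ℝ)).toReal

theorem c1_nonneg : 0 ≤ c1 := ENNReal.toReal_nonneg

theorem ofReal_c1 : ENNReal.ofReal c1 = cH ^ (2 / 3 : ℝ) :=
  ENNReal.ofReal_toReal (ENNReal.rpow_ne_top_of_nonneg (by norm_num) cH_ne_top)

section
variable {N K : ℕ}

/-- `∫_B ρ³` -/
noncomputable def X3 (ψ : Conf N → ℂ) (b : ℝ × E3) : ℝ≥0∞ :=
  ∫⁻ y in ball b.2 b.1, rho (dens ψ) y ^ 3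

theorem ib_mul_eq (b : ℝ × E3) (f : E3 → ℝ≥0∞) (y : E3) :
    ib b y * f y = (ball b.2 b.1).indicator f y := by
  unfold ib
  by_cases h : y ∈ ball b.2 b.1
  · rw [indicator_of_mem h, indicator_of_mem h]; simp
  · rw [indicator_of_notMem h, indicator_of_notMem h, zero_mul]

theorem lintegral_ib_mul (b : ℝ × E3) (f : E3 → ℝ≥0∞) :
    ∫⁻ y, ib b y * f y = ∫⁻ y in ball b.2 b.1, f y := by
  simp only [ib_mul_eq]
  rw [lintegral_indicator measurableSet_ball]

theorem nub_eq {ψ : Conf N → ℂ} (hd : Measurable (dens ψ)) (b : ℝ × E3) :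
    nub ψ b = ∫⁻ y in ball b.2 b.1, rho (dens ψ) y := by
  rw [← lintegral_ib_mul]
  unfold nub
  exact sum_lintegral_eval hd (measurable_ib_right b)

theorem AkN_eq {ψ : Conf N → ℂ} (hd : Measurable (dens ψ)) (b : ℝ × E3) (y : E3) :
    AkN ψ b y = ∫⁻ x in ball b.2 b.1, ENNReal.ofReal ‖x - y‖⁻¹ * rho (dens ψ) x := by
  rw [← lintegral_ib_mul]
  unfold AkN
  have hm : Measurable fun x : E3 => ib b x * ENNReal.ofReal ‖x - y‖⁻¹ :=
    (measurable_ib_right b).mul (by fun_prop)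
  have h := sum_lintegral_eval hd hm
  have e1 : ∀ i, ∫⁻ x : Conf N, ib b (x i) * (ENNReal.ofReal ‖x i - y‖⁻¹ * dens ψ x) =
      ∫⁻ x : Conf N, ib b (x i) * ENNReal.ofReal ‖x i - y‖⁻¹ * dens ψ x := by
    intro i
    simp only [mul_assoc]
  simp only [e1]
  rw [h]
  simp only [mul_assoc]

theorem AkN_holder {ψ : Conf N → ℂ} (hd : Measurable (dens ψ)) (b : ℝ × E3) (hb : 0 < b.1)
    {y : E3} (hy : y ∈ ball b.2 b.1) :
    AkN ψ b y ≤ ENNReal.ofReal (c1 * b.1) * (X3 ψ b) ^ (1 / 3 : ℝ) := by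
  rw [AkN_eq hd]
  refine (holder3 (by fun_prop) (measurable_rho hd)).trans ?_
  unfold X3
  refine mul_le_mul' ?_ le_rfl
  have h := lintegral_inv_ball hb b.2 hy
  refine (ENNReal.rpow_le_rpow h (by norm_num)).trans (le_of_eq ?_)
  rw [ENNReal.mul_rpow_of_nonneg _ _ (by norm_num), ENNReal.ofReal_rpow_of_nonneg (by positivity)
    (by norm_num), ← Real.rpow_mul hb.le, ← ofReal_c1, mul_comm c1, ENNReal.ofReal_mul hb.le]
  norm_num

/-- another constant -/
noncomputable def c3 : ℝ := (4 * Real.pi / 3) ^ (2 / 3 : ℝ)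

theorem c3_nonneg : 0 ≤ c3 := by unfold c3; positivity

theorem nub_holder {ψ : Conf N → ℂ} (hd : Measurable (dens ψ)) (b : ℝ × E3) (hb : 0 < b.1) :
    nub ψ b ≤ ENNReal.ofReal (c3 * b.1 ^ 2) * (X3 ψ b) ^ (1 / 3 : ℝ) := by
  rw [nub_eq hd]
  have h := holder3 (A := ball b.2 b.1) (w := fun _ => 1) measurable_const (measurable_rho hd)
  simp only [one_mul, ENNReal.one_rpow, lintegral_one, Measure.restrict_apply_univ] at h
  refine h.trans (mul_le_mul' (le_of_eq ?_) le_rfl)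
  rw [volume_ball_eq _ hb.le, ENNReal.ofReal_rpow_of_nonneg (vB_nonneg hb.le) (by norm_num)]
  congr 1
  unfold vB c3
  rw [Real.mul_rpow (by positivity) (by positivity), ← Real.rpow_natCast b.1 3,
    ← Real.rpow_mul hb.le, ← Real.rpow_natCast b.1 2]
  norm_num

theorem AbN_holder (R : Fin K → E3) {ψ : Conf N → ℂ} (hd : Measurable (dens ψ)) (b : ℝ × E3)
    (hb : 0 < b.1) :
    AbN R ψ b ≤ (kb R b : ℝ≥0∞) * (ENNReal.ofReal (c1 * b.1) * (X3 ψ b) ^ (1 / 3 : ℝ)) := by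
  rw [AbN_eq R hd b]
  calc ∑ k : Sb R b, AkN ψ b (R k)
      ≤ ∑ _k : Sb R b, ENNReal.ofReal (c1 * b.1) * (X3 ψ b) ^ (1 / 3 : ℝ) :=
        Finset.sum_le_sum fun k _ => AkN_holder hd b hb k.2
    _ = _ := by rw [Finset.sum_const, Finset.card_univ, nsmul_eq_mul]; rfl

end

/-- constant of the crude estimate -/
noncomputable def cF1 (z : ℝ) : ℝ := z ^ 2 / 4 + 2 * c1 ^ 2

theorem cF1_nonneg (z : ℝ) : 0 ≤ cF1 z := by unfold cF1; positivity

theorem alg_F1 {z u : ℝ} (hu : 0 ≤ u) {k : ℝ} (hk : 1 ≤ k) :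
    z * (k * (c1 * u)) ≤ z ^ 2 * (k * (k - 1) / 4) + cF1 z * (k + u ^ 3) := by
  have h1 : z * (k * (c1 * u)) ≤ z ^ 2 * k ^ 2 / 8 + 2 * c1 ^ 2 * u ^ 2 := by
    nlinarith only [sq_nonneg (z * k - 4 * c1 * u)]
  have h2 : u ^ 2 ≤ k + u ^ 3 := by
    rcases le_total u 1 with h | h
    · have : u ^ 2 ≤ 1 := by nlinarith
      have h3 : 0 ≤ u ^ 3 := by positivity
      linarith
    · have : u ^ 2 ≤ u ^ 3 := pow_le_pow_right₀ h (by norm_num)
      linarith
  have h3 : z ^ 2 * k ^ 2 / 8 ≤ z ^ 2 * (k * (k - 1) / 4) + z ^ 2 / 4 * k := by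
    have h4 : z ^ 2 * (k * (k - 1) / 4) + z ^ 2 / 4 * k - z ^ 2 * k ^ 2 / 8 = z ^ 2 * k ^ 2 / 8 := by
      ring
    have h5 : 0 ≤ z ^ 2 * k ^ 2 / 8 := by positivity
    linarith
  have h4 : 2 * c1 ^ 2 * u ^ 2 ≤ 2 * c1 ^ 2 * (k + u ^ 3) :=
    mul_le_mul_of_nonneg_left h2 (by positivity)
  have h5 : 0 ≤ z ^ 2 / 4 * u ^ 3 := by positivity
  unfold cF1
  nlinarith only [h1, h3, h4, h5]

/-- constant of the dense estimate -/
noncomputable def cF2 (z : ℝ) : ℝ := 64 * c1 ^ 3 / z + 4 * z * c1 * c3 ^ 2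

theorem cF2_nonneg {z : ℝ} (hz : 0 < z) : 0 ≤ cF2 z := by
  have := c1_nonneg
  unfold cF2; positivity

theorem alg_F2 {z u M ν : ℝ} (hz : 0 < z) (hM : 2 ≤ M) (hu : 0 ≤ u) {k : ℝ} (hk : 1 ≤ k)
    (hν : ν ≤ c3 * u) (h : M < k ∨ M < 2 * ν) :
    z * (k * (c1 * u)) ≤ z ^ 2 * (k * (k - 1) / 4) + cF2 z / M * u ^ 3 := by
  have hM0 : 0 < M := by linarith
  have hc1 := c1_nonneg
  have hc3 := c3_nonneg
  have hu3 : 0 ≤ u ^ 3 := by positivity
  rcases le_or_gt k M with hkM | hkM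
  · have hν2 : M < 2 * ν := by
      rcases h with h | h
      · exact absurd h (not_lt.2 hkM)
      · exact h
    have h1 : M ≤ 2 * (c3 * u) := by linarith
    have h2 : M ^ 2 ≤ 4 * c3 ^ 2 * u ^ 2 := by
      have := pow_le_pow_left₀ hM0.le h1 2
      nlinarith
    -- z k c1 u ≤ z c1 M u ≤ (4 z c1 c3²/M) u³
    have h3 : z * (k * (c1 * u)) ≤ z * (M * (c1 * u)) := by gcongr
    have h4 : z * (M * (c1 * u)) ≤ 4 * z * c1 * c3 ^ 2 / M * u ^ 3 := by
      rw [div_mul_eq_mul_div, le_div_iff₀ hM0]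
      have h5 : z * (M * (c1 * u)) * M = (z * c1 * u) * M ^ 2 := by ring
      have h6 : 4 * z * c1 * c3 ^ 2 * u ^ 3 = (z * c1 * u) * (4 * c3 ^ 2 * u ^ 2) := by ring
      rw [h5, h6]
      exact mul_le_mul_of_nonneg_left h2 (by positivity)
    have h7 : 0 ≤ z ^ 2 * (k * (k - 1) / 4) := by
      have : 0 ≤ k - 1 := by linarith
      positivity
    have h8 : cF2 z / M * u ^ 3 = 64 * c1 ^ 3 / z / M * u ^ 3 +
        4 * z * c1 * c3 ^ 2 / M * u ^ 3 := by unfold cF2; ring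
    have h9 : 0 ≤ 64 * c1 ^ 3 / z / M * u ^ 3 := by positivity
    rw [h8]
    linarith
  · -- k > M ≥ 2
    have hk2 : 2 ≤ k := by linarith
    have h1 : z ^ 2 * k ^ 2 / 8 ≤ z ^ 2 * (k * (k - 1) / 4) := by
      have h4 : z ^ 2 * (k * (k - 1) / 4) - z ^ 2 * k ^ 2 / 8 = z ^ 2 * k * (k - 2) / 8 := by ring
      have h5 : 0 ≤ z ^ 2 * k * (k - 2) / 8 := by
        have : 0 ≤ k - 2 := by linarith
        positivity
      linarith
    have h8 : cF2 z / M * u ^ 3 = 64 * c1 ^ 3 / z / M * u ^ 3 +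
        4 * z * c1 * c3 ^ 2 / M * u ^ 3 := by unfold cF2; ring
    have h9 : 0 ≤ 4 * z * c1 * c3 ^ 2 / M * u ^ 3 := by positivity
    have h9' : 0 ≤ 64 * c1 ^ 3 / z / M * u ^ 3 := by positivity
    rcases le_or_gt (8 * c1 * u) (z * k) with hc | hc
    · -- z k c1 u ≤ z² k²/8
      have h10 : z * (k * (c1 * u)) ≤ z ^ 2 * k ^ 2 / 8 := by
        have : z * k * (8 * c1 * u) ≤ z * k * (z * k) :=
          mul_le_mul_of_nonneg_left hc (by positivity)
        nlinarith only [this]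
      rw [h8]
      linarith
    · have h10 : z * M ≤ 8 * c1 * u := by
        have : z * M ≤ z * k := by gcongr
        linarith
      have h11 : z * (k * (c1 * u)) ≤ 8 * c1 ^ 2 * u ^ 2 := by
        have : c1 * u * (z * k) ≤ c1 * u * (8 * c1 * u) :=
          mul_le_mul_of_nonneg_left hc.le (by positivity)
        nlinarith only [this]
      have h12 : 8 * c1 ^ 2 * u ^ 2 ≤ 64 * c1 ^ 3 / z / M * u ^ 3 := by
        rw [div_div, div_mul_eq_mul_div, le_div_iff₀ (by positivity)]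
        have : 8 * c1 ^ 2 * u ^ 2 * (z * M) ≤ 8 * c1 ^ 2 * u ^ 2 * (8 * c1 * u) :=
          mul_le_mul_of_nonneg_left h10 (by positivity)
        linarith
      have h13 : 0 ≤ z ^ 2 * k ^ 2 / 8 := by positivity
      rw [h8]
      linarith

section
variable {N K : ℕ}

theorem Ub_lower {r : ℝ} (R : Fin K → E3) (hR : Function.Injective R) (c : E3) (hr : 0 < r) :
    ENNReal.ofReal ((kb R (r, c) : ℝ) * ((kb R (r, c) : ℝ) - 1) / (4 * r)) ≤ Ub R (r, c) := by
  rw [Ub_eq]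
  apply ENNReal.ofReal_le_ofReal
  exact rep_lower (fun i : Sb R (r, c) => R i)
    (fun i j hij => Subtype.ext (hR hij)) c hr (fun i => i.2)

/-- general form of the crude estimates -/
theorem crude_gen {z cA cB : ℝ} (hz : 0 < z) (hcA : 0 ≤ cA) (hcB : 0 ≤ cB) (R : Fin K → E3)
    (hR : Function.Injective R)
    {ψ : Conf N → ℂ} (hd : Measurable (dens ψ)) (b : ℝ × E3) (hb : 0 < b.1)
    (hX : X3 ψ b ≠ ∞)
    (H : ∀ u : ℝ, 0 ≤ u → u ^ 3 = b.1 ^ 6 * (X3 ψ b).toReal →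
      nub ψ b ≤ ENNReal.ofReal (c3 * u) → 1 ≤ (kb R b : ℝ) →
      z * (kb R b * (c1 * u)) ≤ z ^ 2 * ((kb R b : ℝ) * (kb R b - 1) / 4) +
        (cA * kb R b + cB * u ^ 3)) :
    ENNReal.ofReal z * AbN R ψ b ≤ ENNReal.ofReal (z ^ 2) * Ub R b +
      (ENNReal.ofReal (cA * b.1⁻¹) * kb R b + ENNReal.ofReal (cB * b.1 ^ 5) * X3 ψ b) := by
  rcases Nat.eq_zero_or_pos (kb R b) with h0 | h0
  · have h1 := AbN_holder R hd b hb
    rw [h0, Nat.cast_zero, zero_mul] at h1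
    rw [le_antisymm h1 zero_le, mul_zero]
    exact zero_le
  have hk1 : (1 : ℝ) ≤ (kb R b : ℝ) := by exact_mod_cast h0
  set X := (X3 ψ b).toReal with hXdef
  have hX0 : 0 ≤ X := ENNReal.toReal_nonneg
  have hXe : X3 ψ b = ENNReal.ofReal X := (ENNReal.ofReal_toReal hX).symm
  set u : ℝ := b.1 ^ 2 * X ^ (1 / 3 : ℝ) with hu
  have hu0 : 0 ≤ u := by positivity
  have hu3 : u ^ 3 = b.1 ^ 6 * X := by
    have e : (X ^ (1 / 3 : ℝ)) ^ 3 = X := by
      rw [← Real.rpow_natCast, ← Real.rpow_mul hX0]; norm_num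
    rw [hu, mul_pow, e]
    ring
  have hXr : (X3 ψ b) ^ (1 / 3 : ℝ) = ENNReal.ofReal (X ^ (1 / 3 : ℝ)) := by
    rw [hXe, ENNReal.ofReal_rpow_of_nonneg hX0 (by norm_num)]
  have hA := AbN_holder R hd b hb
  have hc1 := c1_nonneg
  have hc3 := c3_nonneg
  rw [hXr, ← ENNReal.ofReal_mul (by positivity), ← ENNReal.ofReal_natCast,
    ← ENNReal.ofReal_mul (Nat.cast_nonneg _)] at hA
  have hN := nub_holder hd b hb
  rw [hXr, ← ENNReal.ofReal_mul (by positivity)] at hN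
  have hN' : nub ψ b ≤ ENNReal.ofReal (c3 * u) := by
    refine hN.trans (le_of_eq ?_)
    congr 1
    rw [hu]; ring
  have key := H u hu0 hu3 hN' hk1
  have hU : ENNReal.ofReal ((kb R b : ℝ) * ((kb R b : ℝ) - 1) / (4 * b.1)) ≤ Ub R b :=
    Ub_lower R hR b.2 hb
  have hkk : 0 ≤ (kb R b : ℝ) * ((kb R b : ℝ) - 1) := by
    have : (0 : ℝ) ≤ kb R b - 1 := by linarith
    positivity
  calc ENNReal.ofReal z * AbN R ψ b
      ≤ ENNReal.ofReal z * ENNReal.ofReal (kb R b * (c1 * b.1 * X ^ (1 / 3 : ℝ))) := by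
        gcongr
    _ = ENNReal.ofReal (b.1⁻¹ * (z * (kb R b * (c1 * u)))) := by
        rw [← ENNReal.ofReal_mul hz.le]
        congr 1
        rw [hu]
        field_simp
    _ ≤ ENNReal.ofReal (b.1⁻¹ * (z ^ 2 * ((kb R b : ℝ) * (kb R b - 1) / 4) +
        (cA * kb R b + cB * u ^ 3))) := by
        apply ENNReal.ofReal_le_ofReal
        exact mul_le_mul_of_nonneg_left key (by positivity)
    _ = ENNReal.ofReal (z ^ 2) * ENNReal.ofReal ((kb R b : ℝ) * ((kb R b : ℝ) - 1) / (4 * b.1)) +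
        (ENNReal.ofReal (cA * b.1⁻¹) * kb R b + ENNReal.ofReal (cB * b.1 ^ 5) * X3 ψ b) := by
        rw [hXe, ← ENNReal.ofReal_natCast, ← ENNReal.ofReal_mul (sq_nonneg z),
          ← ENNReal.ofReal_mul (by positivity), ← ENNReal.ofReal_mul (by positivity),
          ← ENNReal.ofReal_add (by positivity) (by positivity),
          ← ENNReal.ofReal_add (by positivity) (by positivity)]
        congr 1
        rw [hu3]
        field_simp
    _ ≤ _ := by gcongr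

/-- crude estimate, all balls -/
theorem crude_ball {z : ℝ} (hz : 0 < z) (R : Fin K → E3) (hR : Function.Injective R)
    {ψ : Conf N → ℂ} (hd : Measurable (dens ψ)) (b : ℝ × E3) (hb : 0 < b.1)
    (hX : X3 ψ b ≠ ∞) :
    ENNReal.ofReal z * AbN R ψ b ≤ ENNReal.ofReal (z ^ 2) * Ub R b +
      (ENNReal.ofReal (cF1 z * b.1⁻¹) * kb R b +
        ENNReal.ofReal (cF1 z * b.1 ^ 5) * X3 ψ b) := by
  refine crude_gen hz (cF1_nonneg z) (cF1_nonneg z) R hR hd b hb hX fun u hu _ _ hk => ?_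
  have := alg_F1 (z := z) hu hk
  linarith

/-- estimate for balls with many particles -/
theorem dense_ball {z M ν : ℝ} (hz : 0 < z) (hM : 2 ≤ M) (R : Fin K → E3)
    (hR : Function.Injective R)
    {ψ : Conf N → ℂ} (hd : Measurable (dens ψ)) (b : ℝ × E3) (hb : 0 < b.1)
    (hX : X3 ψ b ≠ ∞) (hnu : nub ψ b = ENNReal.ofReal ν) (h : M < kb R b ∨ M < 2 * ν) :
    ENNReal.ofReal z * AbN R ψ b ≤ ENNReal.ofReal (z ^ 2) * Ub R b +
      ENNReal.ofReal (cF2 z / M * b.1 ^ 5) * X3 ψ b := by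
  have hM0 : 0 < M := by linarith
  have hcF := cF2_nonneg hz
  have := crude_gen (cA := 0) (cB := cF2 z / M) hz le_rfl (by positivity) R hR hd b hb hX
    fun u hu _ hν hk => by
      have hν' : ν ≤ c3 * u := by
        rw [hnu] at hν
        by_contra hcon
        push Not at hcon
        have h0 : 0 ≤ c3 * u := mul_nonneg c3_nonneg hu
        have := (ENNReal.ofReal_lt_ofReal_iff (by linarith)).2 hcon
        exact absurd hν (not_le.2 this)
      have := alg_F2 hz hM hu hk hν' h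
      linarith
  simpa using this

end

end Pool.Agent.Lib_helper90c
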