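import Pool.Agent.Lib_helper90c.UpperJ

/-!
# The many-body problem: definitions

`N` negative particles of charge `-1` and mass `1/2` (no statistics), `K` static nuclei of charge
`z` at the positions `R`.
-/

set_option autoImplicit false

open MeasureTheory Set Metric Filter
open scoped ENNReal NNReal Topology

namespace Pool.Agent.Lib_helper90c

/-- positions of `N` particles in `ℝ³` -/
abbrev Conf (N : ℕ) : Type := Fin N → E3

/-- `|∇_i ψ|²` at the configuration `x`, as the sum of the squares of the three partial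
derivatives in the coordinates of particle `i` -/
noncomputable def gradSq {N : ℕ} (ψ : Conf N → ℂ) (i : Fin N) (x : Conf N) : ℝ :=
  ∑ a : Fin 3, ‖fderiv ℝ ψ x (Pi.single i (EuclideanSpace.single a (1 : ℝ)))‖ ^ 2

/-- the kinetic energy `⟨ψ, -∑ Δ_i ψ⟩ = ∑_i ∫ |∇_i ψ|²` -/
noncomputable def kinetic {N : ℕ} (ψ : Conf N → ℂ) : ℝ := ∫ x, ∑ i, gradSq ψ i x

/-- the total Coulomb potential `∑_{i<j} 1/|x_i-x_j| - z ∑_{i,k} 1/|x_i-R_k| + z² ∑_{k<l}
1/|R_k-R_l|` -/
noncomputable def coulomb (z : ℝ) {K N : ℕ} (R : Fin K → E3) (x : Conf N) : ℝ :=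
  (∑ i, ∑ j ∈ Finset.Ioi i, ‖x i - x j‖⁻¹) - z * (∑ i, ∑ k, ‖x i - R k‖⁻¹) +
    z ^ 2 * (∑ k, ∑ l ∈ Finset.Ioi k, ‖R k - R l‖⁻¹)

/-- `⟨ψ, H_{N,R} ψ⟩` -/
noncomputable def energy (z : ℝ) {K N : ℕ} (R : Fin K → E3) (ψ : Conf N → ℂ) : ℝ :=
  kinetic ψ + ∫ x, coulomb z R x * ‖ψ x‖ ^ 2

/-- normalised smooth compactly supported wave functions -/
structure Trial {N : ℕ} (ψ : Conf N → ℂ) : Prop where
  smooth : ContDiff ℝ (⊤ : ℕ∞) ψ
  compact : HasCompactSupport ψ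
  normalized : ∫ x, ‖ψ x‖ ^ 2 = 1

/-- the ground state energy `E₀(N)`: infimum over the positions of the `K = N / z` nuclei (pairwise
distinct, as otherwise the energy is `+∞`) and over the wave functions -/
noncomputable def groundEnergy (z : ℝ) (N : ℕ) : ℝ :=
  sInf {E : ℝ | ∃ (K : ℕ) (R : Fin K → E3) (ψ : Conf N → ℂ), (K : ℝ) * z = N ∧
    Function.Injective R ∧ Trial ψ ∧ E = energy z R ψ}

/-- smooth compactly supported normalised one-particle functions -/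
structure Trial1 (u : E3 → ℂ) : Prop where
  smooth : ContDiff ℝ (⊤ : ℕ∞) u
  compact : HasCompactSupport u
  normalized : ∫ x, ‖u x‖ ^ 2 = 1

/-- `|∇u|²` -/
noncomputable def grad1 (u : E3 → ℂ) (x : E3) : ℝ :=
  ∑ a : Fin 3, ‖fderiv ℝ u x (EuclideanSpace.single a (1 : ℝ))‖ ^ 2

/-- the limiting functional -/
noncomputable def limFun (z : ℝ) (u : E3 → ℂ) : ℝ :=
  (∫ x, grad1 u x) + estar z * (∫ x, (‖u x‖ ^ 2) ^ (4 / 3 : ℝ))

/-- the limit -/
noncomputable def limE (z : ℝ) : ℝ := sInf {E : ℝ | ∃ u : E3 → ℂ, Trial1 u ∧ E = limFun z u}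

end Pool.Agent.Lib_helper90c
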