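import Pool.Agent.Lib_helper90c.NBody

/-!
# The energy as a sum of finite nonnegative pieces
-/

set_option autoImplicit false

open MeasureTheory Set Metric Filter
open scoped ENNReal NNReal Topology

namespace Pool.Agent.Lib_helper90c

theorem sum_Ioi_eq {n : ℕ} (f : Fin n → Fin n → ℝ) (hs : ∀ i j, f i j = f j i)
    (h0 : ∀ i, f i i = 0) : ∑ i, ∑ j ∈ Finset.Ioi i, f i j = (1 / 2) * ∑ i, ∑ j, f i j := by
  have h1 : ∀ i, ∑ j, f i j = ∑ j ∈ Finset.Ioi i, f i j + ∑ j ∈ Finset.Iio i, f i j := by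
    intro i
    have hu : (Finset.univ : Finset (Fin n)) = (Finset.Ioi i ∪ Finset.Iio i) ∪ {i} := by
      ext j
      simp only [Finset.mem_univ, Finset.mem_union, Finset.mem_Ioi, Finset.mem_Iio,
        Finset.mem_singleton, true_iff]
      rcases lt_trichotomy i j with h | h | h
      · exact Or.inl (Or.inl h)
      · exact Or.inr h.symm
      · exact Or.inl (Or.inr h)
    rw [hu, Finset.sum_union, Finset.sum_union, Finset.sum_singleton, h0, add_zero]
    · rw [Finset.disjoint_left]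
      intro j hj hj'
      exact absurd (Finset.mem_Ioi.1 hj) (not_lt.2 (Finset.mem_Iio.1 hj').le)
    · rw [Finset.disjoint_singleton_right]
      simp
  have h2 : ∑ i, ∑ j ∈ Finset.Iio i, f i j = ∑ i, ∑ j ∈ Finset.Ioi i, f i j := by
    rw [Finset.sum_comm' (s' := Finset.Ioi) (t' := Finset.univ)]
    · refine Finset.sum_congr rfl fun i _ => Finset.sum_congr rfl fun j _ => hs _ _
    · intro i j; simp
  simp only [h1, Finset.sum_add_distrib, h2]
  ring

theorem rep_eq_Ioi {n : ℕ} (R : Fin n → E3) : ∑ k, ∑ l ∈ Finset.Ioi k, ‖R k - R l‖⁻¹ = rep R := by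
  rw [sum_Ioi_eq _ (fun i j => by rw [norm_sub_rev]) (fun i => by simp)]
  rfl

section
variable {N : ℕ}

/-- the probability density `|ψ|²` -/
noncomputable def dens (ψ : Conf N → ℂ) (x : Conf N) : ℝ≥0∞ := ENNReal.ofReal (‖ψ x‖ ^ 2)

theorem measurable_dens {ψ : Conf N → ℂ} (h : Continuous ψ) : Measurable (dens ψ) := by
  unfold dens; fun_prop

theorem exists_bound {ψ : Conf N → ℂ} (hc : Continuous ψ) (hs : HasCompactSupport ψ) :
    ∃ M ρ0 : ℝ, 0 < ρ0 ∧ ∀ x, dens ψ x ≤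
      ENNReal.ofReal M * prodD ((ball (0 : E3) ρ0).indicator 1) x := by
  obtain ⟨C, hC⟩ := hc.bounded_above_of_compact_support hs
  obtain ⟨R, hR⟩ := hs.isBounded.subset_closedBall (0 : Conf N)
  refine ⟨C ^ 2, |R| + 1, by positivity, fun x => ?_⟩
  by_cases hx : ψ x = 0
  · unfold dens; rw [hx]; simp
  · have h1 : x ∈ closedBall (0 : Conf N) R := hR (subset_tsupport ψ hx)
    have h2 : prodD ((ball (0 : E3) (|R| + 1)).indicator 1) x = 1 := by
      unfold prodD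
      apply Finset.prod_eq_one
      intro k _
      rw [indicator_of_mem]; · rfl
      rw [mem_ball_zero_iff]
      have h3 : ‖x k‖ ≤ ‖x‖ := norm_le_pi_norm x k
      have h4 := mem_closedBall_zero_iff.1 h1
      have := le_abs_self R
      linarith
    rw [h2, mul_one]
    exact ENNReal.ofReal_le_ofReal (pow_le_pow_left₀ (norm_nonneg _) (hC x) 2)

/-- electron-nucleus attraction (without the factor `z`) -/
noncomputable def Aen {K : ℕ} (R : Fin K → E3) (ψ : Conf N → ℂ) : ℝ≥0∞ :=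
  ∑ i, ∑ k, ∫⁻ x, ENNReal.ofReal ‖x i - R k‖⁻¹ * dens ψ x

/-- electron-electron repulsion -/
noncomputable def Pee (ψ : Conf N → ℂ) : ℝ≥0∞ :=
  2⁻¹ * ∑ i, ∑ j, ∫⁻ x, ENNReal.ofReal ‖x i - x j‖⁻¹ * dens ψ x

theorem lt_top_en {ψ : Conf N → ℂ} (hc : Continuous ψ) (hs : HasCompactSupport ψ) (i : Fin N)
    (y : E3) : ∫⁻ x, ENNReal.ofReal ‖x i - y‖⁻¹ * dens ψ x < ∞ := by
  obtain ⟨M, ρ0, hρ0, hw⟩ := exists_bound hc hs
  exact lintegral_coul_lt_top i hρ0 hw (fun _ => y) measurable_const fun _ _ => rfl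

theorem lt_top_ee {ψ : Conf N → ℂ} (hc : Continuous ψ) (hs : HasCompactSupport ψ)
    (i j : Fin N) : ∫⁻ x, ENNReal.ofReal ‖x i - x j‖⁻¹ * dens ψ x < ∞ := by
  by_cases hij : i = j
  · subst hij
    simp
  · obtain ⟨M, ρ0, hρ0, hw⟩ := exists_bound hc hs
    refine lintegral_coul_lt_top i hρ0 hw (fun x => x j) (measurable_pi_apply j) fun x y => ?_
    exact Function.update_of_ne (Ne.symm hij) _ _

theorem integral_coul {ψ : Conf N → ℂ} {k : Conf N → ℝ} (hk : Measurable k) (hk0 : ∀ x, 0 ≤ k x)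
    (hc : Continuous ψ) (hfin : ∫⁻ x, ENNReal.ofReal (k x) * dens ψ x < ∞) :
    Integrable (fun x => k x * ‖ψ x‖ ^ 2) ∧
      ∫ x, k x * ‖ψ x‖ ^ 2 = (∫⁻ x, ENNReal.ofReal (k x) * dens ψ x).toReal := by
  have e : ∀ x, ENNReal.ofReal (k x * ‖ψ x‖ ^ 2) = ENNReal.ofReal (k x) * dens ψ x := by
    intro x; unfold dens; rw [ENNReal.ofReal_mul (hk0 x)]
  have hm : Measurable fun x => k x * ‖ψ x‖ ^ 2 := hk.mul (hc.norm.pow 2).measurable
  have h1 : ∫⁻ x, ENNReal.ofReal (k x * ‖ψ x‖ ^ 2) < ∞ := by simp only [e]; exact hfin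
  constructor
  · refine ⟨hm.aestronglyMeasurable, ?_⟩
    rw [hasFiniteIntegral_iff_ofReal (Eventually.of_forall fun x =>
      mul_nonneg (hk0 x) (sq_nonneg _))]
    exact h1
  · rw [integral_eq_lintegral_of_nonneg_ae (Eventually.of_forall fun x =>
      mul_nonneg (hk0 x) (sq_nonneg _)) hm.aestronglyMeasurable]
    simp only [e]

theorem Pee_lt_top {ψ : Conf N → ℂ} (hc : Continuous ψ) (hs : HasCompactSupport ψ) :
    Pee ψ < ∞ := by
  unfold Pee
  refine ENNReal.mul_lt_top (by norm_num) ?_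
  refine ENNReal.sum_lt_top.2 fun i _ => ENNReal.sum_lt_top.2 fun j _ => lt_top_ee hc hs i j

theorem Aen_lt_top {K : ℕ} (R : Fin K → E3) {ψ : Conf N → ℂ} (hc : Continuous ψ)
    (hs : HasCompactSupport ψ) : Aen R ψ < ∞ := by
  unfold Aen
  exact ENNReal.sum_lt_top.2 fun i _ => ENNReal.sum_lt_top.2 fun j _ => lt_top_en hc hs i (R j)

theorem energy_eq (z : ℝ) {K : ℕ} (R : Fin K → E3) {ψ : Conf N → ℂ} (h : Trial ψ) :
    energy z R ψ = kinetic ψ + (Pee ψ).toReal - z * (Aen R ψ).toReal + z ^ 2 * rep R := by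
  have hc := h.smooth.continuous
  have hs := h.compact
  have hm2 : ∀ i j : Fin N, Measurable fun x : Conf N => ‖x i - x j‖⁻¹ := by
    intro i j
    exact ((measurable_pi_apply i).sub (measurable_pi_apply j)).norm.inv
  have hm1 : ∀ (i : Fin N) (y : E3), Measurable fun x : Conf N => ‖x i - y‖⁻¹ := by
    intro i y
    exact ((measurable_pi_apply i).sub measurable_const).norm.inv
  have hee : ∀ i j : Fin N, _ := fun i j =>
    integral_coul (hm2 i j) (fun x => by positivity) hc (lt_top_ee hc hs i j)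
  have hen : ∀ (i : Fin N) (k : Fin K), _ := fun i k =>
    integral_coul (hm1 i (R k)) (fun x => by positivity) hc (lt_top_en hc hs i (R k))
  have hcoul : ∀ x : Conf N, coulomb z R x * ‖ψ x‖ ^ 2 =
      (1 / 2) * (∑ i, ∑ j, ‖x i - x j‖⁻¹ * ‖ψ x‖ ^ 2) -
        z * (∑ i, ∑ k, ‖x i - R k‖⁻¹ * ‖ψ x‖ ^ 2) + z ^ 2 * rep R * ‖ψ x‖ ^ 2 := by
    intro x
    unfold coulomb
    rw [rep_eq_Ioi, rep_eq_Ioi]
    unfold rep
    simp only [← Finset.sum_mul]
    ring
  unfold energy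
  simp only [hcoul]
  have i1 : Integrable fun x : Conf N => (1 / 2) * (∑ i, ∑ j, ‖x i - x j‖⁻¹ * ‖ψ x‖ ^ 2) :=
    (integrable_finsetSum _ fun i _ => integrable_finsetSum _ fun j _ => (hee i j).1).const_mul _
  have i2 : Integrable fun x : Conf N => z * (∑ i, ∑ k, ‖x i - R k‖⁻¹ * ‖ψ x‖ ^ 2) :=
    (integrable_finsetSum _ fun i _ => integrable_finsetSum _ fun j _ => (hen i j).1).const_mul _
  have i3 : Integrable fun x : Conf N => z ^ 2 * rep R * ‖ψ x‖ ^ 2 := by
    apply Integrable.const_mul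
    by_contra hn
    have := h.normalized
    rw [integral_undef hn] at this
    exact zero_ne_one this
  have i12 : Integrable fun x : Conf N => (1 / 2) * (∑ i, ∑ j, ‖x i - x j‖⁻¹ * ‖ψ x‖ ^ 2) -
      z * (∑ i, ∑ k, ‖x i - R k‖⁻¹ * ‖ψ x‖ ^ 2) := i1.sub i2
  rw [integral_add i12 i3, integral_sub i1 i2, integral_const_mul, integral_const_mul,
    integral_const_mul, h.normalized,
    integral_finsetSum _ fun i _ => integrable_finsetSum _ fun j _ => (hee i j).1,
    integral_finsetSum _ fun i _ => integrable_finsetSum _ fun j _ => (hen i j).1]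
  have e1 : ∑ i, ∫ x : Conf N, ∑ j, ‖x i - x j‖⁻¹ * ‖ψ x‖ ^ 2 =
      ∑ i, ∑ j, (∫⁻ x : Conf N, ENNReal.ofReal ‖x i - x j‖⁻¹ * dens ψ x).toReal := by
    refine Finset.sum_congr rfl fun i _ => ?_
    rw [integral_finsetSum _ fun j _ => (hee i j).1]
    exact Finset.sum_congr rfl fun j _ => (hee i j).2
  have e2 : ∑ i, ∫ x : Conf N, ∑ k, ‖x i - R k‖⁻¹ * ‖ψ x‖ ^ 2 =
      ∑ i, ∑ k, (∫⁻ x : Conf N, ENNReal.ofReal ‖x i - R k‖⁻¹ * dens ψ x).toReal := by
    refine Finset.sum_congr rfl fun i _ => ?_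
    rw [integral_finsetSum _ fun j _ => (hen i j).1]
    exact Finset.sum_congr rfl fun j _ => (hen i j).2
  have e3 : (Pee ψ).toReal = (1 / 2) *
      ∑ i, ∑ j, (∫⁻ x : Conf N, ENNReal.ofReal ‖x i - x j‖⁻¹ * dens ψ x).toReal := by
    unfold Pee
    rw [ENNReal.toReal_mul, ENNReal.toReal_inv]
    congr 1
    · norm_num
    · rw [ENNReal.toReal_sum fun i _ => (ENNReal.sum_lt_top.2 fun j _ => lt_top_ee hc hs i j).ne]
      refine Finset.sum_congr rfl fun i _ => ?_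
      rw [ENNReal.toReal_sum fun j _ => (lt_top_ee hc hs i j).ne]
  have e4 : (Aen R ψ).toReal =
      ∑ i, ∑ k, (∫⁻ x : Conf N, ENNReal.ofReal ‖x i - R k‖⁻¹ * dens ψ x).toReal := by
    unfold Aen
    rw [ENNReal.toReal_sum fun i _ => (ENNReal.sum_lt_top.2 fun j _ => lt_top_en hc hs i (R j)).ne]
    refine Finset.sum_congr rfl fun i _ => ?_
    rw [ENNReal.toReal_sum fun j _ => (lt_top_en hc hs i (R j)).ne]
  rw [e1, e2, e3, e4]
  ring

end

end Pool.Agent.Lib_helper90c
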