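import Pool.Agent.Lib_helper90c.Master

/-!
# The jellium constant
-/

set_option autoImplicit false

open MeasureTheory Set Metric Filter
open scoped ENNReal NNReal Topology

namespace Pool.Agent.Lib_helper90c

/-- asymptotic lower bounds for the jellium energy per volume in balls -/
def estarSet (z : ℝ) : Set ℝ :=
  {a | ∃ r0, 0 < r0 ∧ ∀ r, r0 ≤ r → ∀ (n : ℕ) (p : Fin n → E3), Function.Injective p →
    (∀ i, p i ∈ ball (0 : E3) r) → a * vB r ≤ jel z r p}

/-- the jellium ground state energy per volume, background density one -/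
noncomputable def estar (z : ℝ) : ℝ := sSup (estarSet z)

theorem master_mem {κ z Λ a : ℝ} (hκ : 0 < κ) (hz : 0 < z) (hΛ0 : 0 ≤ Λ) (low : ℝ → ℝ)
    (hm : Measurable low) (hlow0 : ∀ r, 0 < r → 0 ≤ low r)
    (hlow : ∀ r, 0 < r → ∀ (n : ℕ) (p : Fin n → E3), Function.Injective p →
      (∀ i, p i ∈ ball (0 : E3) r) → -low r ≤ jel z r p)
    (hΛ : ∫⁻ r in Ioi (0 : ℝ), ENNReal.ofReal (om κ r) * ENNReal.ofReal (low r) ≤
      ENNReal.ofReal Λ) (ha : a < -(Λ + 3 * κ * z)) : a ∈ estarSet z := by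
  obtain ⟨C, hC0, hC⟩ := master hκ hz hΛ0 low hm hlow0 hlow hΛ
  set g := -(Λ + 3 * κ * z) - a with hg
  have hg0 : 0 < g := by linarith
  have hpi := Real.pi_pos
  refine ⟨max 1 (C / (g * (4 * Real.pi / 3))), by positivity, fun r hr n p hinj hp => ?_⟩
  have hr1 : 1 ≤ r := (le_max_left _ _).trans hr
  have hr2 : C / (g * (4 * Real.pi / 3)) ≤ r := (le_max_right _ _).trans hr
  have h1 := hC r hr1 n p hinj hp
  rw [div_le_iff₀ (by positivity)] at hr2
  have h2 : 0 ≤ g * vB r - C * r ^ 2 := by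
    have : g * vB r - C * r ^ 2 = r ^ 2 * (r * (g * (4 * Real.pi / 3)) - C) := by
      unfold vB; ring
    rw [this]
    exact mul_nonneg (sq_nonneg _) (by linarith)
  have h3 : g * vB r = -(Λ + 3 * κ * z) * vB r - a * vB r := by rw [hg]; ring
  linarith

theorem lowT_le {z r : ℝ} (hz : 0 ≤ z) (hr : 0 < r) :
    lowT z r ≤ (2 * Real.pi * z + 4 * Real.pi ^ 2) * (r ^ 2 + r ^ 9) := by
  have hpi := Real.pi_pos
  have q2 := pow_le_two_nine hr (j := 2) (by norm_num) (by norm_num)
  have q5 := pow_le_two_nine hr (j := 5) (by norm_num) (by norm_num)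
  unfold lowT
  rw [add_mul]
  gcongr

theorem estarSet_nonempty {z : ℝ} (hz : 0 < z) : (estarSet z).Nonempty := by
  have hpi := Real.pi_pos
  set A : ℝ := 2 * Real.pi * z + 4 * Real.pi ^ 2 with hA
  have hA0 : 0 ≤ A := by positivity
  set Λ : ℝ := A * (mC 0 * 1 + mC 7 * 1 / 1 ^ 7) with hΛ
  have hΛ0 : 0 ≤ Λ := by have := mC_pos 0; have := mC_pos 7; positivity
  refine ⟨-(Λ + 3 * 1 * z) - 1, master_mem one_pos hz hΛ0 (lowT z)
    (by unfold lowT; fun_prop) (fun r hr => lowT_nonneg hz.le hr.le)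
    (fun r hr n p hinj hp => jel_ge_lowT hz.le hr p hinj hp) ?_ (by linarith)⟩
  rw [hΛ, ← lintegral_om_two_nine one_pos hA0]
  apply setLIntegral_mono' measurableSet_Ioi
  intro r hr
  gcongr
  exact lowT_le hz.le hr

/-- radius of the neutral ball -/
noncomputable def nR (z : ℝ) (n : ℕ) : ℝ := (z * n / (4 * Real.pi / 3)) ^ (1 / 3 : ℝ)

theorem nR_pos {z : ℝ} (hz : 0 < z) {n : ℕ} (hn : 0 < n) : 0 < nR z n := by
  unfold nR
  have : (0 : ℝ) < n := by exact_mod_cast hn
  positivity

theorem vB_nR {z : ℝ} (hz : 0 < z) (n : ℕ) : vB (nR z n) = z * n := by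
  unfold vB nR
  rw [← Real.rpow_natCast, ← Real.rpow_mul (by positivity)]
  norm_num
  field_simp

theorem vB_lt_iff {r s : ℝ} (hr : 0 ≤ r) (hs : 0 ≤ s) : vB r < vB s ↔ r < s := by
  unfold vB
  rw [mul_lt_mul_iff_right₀ (by positivity), pow_lt_pow_iff_left₀ hr hs (by norm_num)]

theorem vB_le_iff {r s : ℝ} (hr : 0 ≤ r) (hs : 0 ≤ s) : vB r ≤ vB s ↔ r ≤ s := by
  unfold vB
  rw [mul_le_mul_iff_right₀ (by positivity), pow_le_pow_iff_left₀ hr hs (by norm_num)]

theorem estarSet_le_zero {z a : ℝ} (hz : 0 < z) (ha : a ∈ estarSet z) : a ≤ 0 := by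
  obtain ⟨r0, hr0, h⟩ := ha
  by_contra hneg
  push Not at hneg
  -- a neutral ball of radius at least `r0`
  obtain ⟨n, hn⟩ := exists_nat_gt (vB r0 / z)
  have hn0 : 0 < n := by
    have h1 : (0 : ℝ) < n := lt_of_le_of_lt (div_nonneg (vB_nonneg hr0.le) hz.le) hn
    exact_mod_cast h1
  have hR := nR_pos hz hn0
  have hRr : r0 ≤ nR z n := by
    rw [← vB_le_iff hr0.le hR.le, vB_nR hz]
    rw [div_lt_iff₀ hz] at hn
    linarith
  have key : ∀ r, 0 < r → r < nR z n → a * vB (nR z n) ≤ selfE r / 2 := by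
    intro r hr hrR
    obtain ⟨X, hinj, hX, hj⟩ := exists_neutral (z := z) (fun i : Fin 0 => i.elim0)
      (fun i => i.elim0) hr hrR (fun i => i.elim0) n (by rw [vB_nR hz]; simp)
    have h1 := jel_Fin (fun n' p' => h _ hRr n' p') _ hinj hX
    have h2 : jel z r (fun i : Fin 0 => (i.elim0 : E3)) = selfE r / 2 := by
      unfold jel rep; simp
    rw [h2] at hj
    have h3 : 0 ≤ (z * (Fintype.card (Fin 0) : ℝ) - vB r) ^ 2 / (2 * nR z n) := by positivity
    linarith
  have hlim : Tendsto (fun r : ℝ => selfE r / 2) (𝓝[>] 0) (𝓝 0) := by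
    have : Continuous fun r : ℝ => selfE r / 2 := by unfold selfE; fun_prop
    have h1 := (this.tendsto 0).mono_left (nhdsWithin_le_nhds (s := Ioi (0:ℝ)))
    simpa [selfE] using h1
  have hev : ∀ᶠ r in 𝓝[>] (0 : ℝ), a * vB (nR z n) ≤ selfE r / 2 := by
    filter_upwards [Ioo_mem_nhdsGT hR] with r hr
    exact key r hr.1 hr.2
  have h2 := ge_of_tendsto hlim hev
  have h3 : 0 < a * vB (nR z n) := mul_pos hneg (vB_pos hR)
  linarith

theorem estar_nonpos {z : ℝ} (hz : 0 < z) : estar z ≤ 0 :=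
  csSup_le (estarSet_nonempty hz) fun _ ha => estarSet_le_zero hz ha

theorem estar_bdd {z : ℝ} (hz : 0 < z) : BddAbove (estarSet z) :=
  ⟨0, fun _ ha => estarSet_le_zero hz ha⟩

theorem estar_lower {z δ : ℝ} (hz : 0 < z) (hδ : 0 < δ) :
    ∃ r0, 0 < r0 ∧ ∀ r, r0 ≤ r → ∀ (n : ℕ) (p : Fin n → E3), Function.Injective p →
      (∀ i, p i ∈ ball (0 : E3) r) → (estar z - δ) * vB r ≤ jel z r p := by
  obtain ⟨a, ⟨r0, hr0, h⟩, ha⟩ := exists_lt_of_lt_csSup (estarSet_nonempty hz)
    (show estar z - δ < sSup (estarSet z) by unfold estar; linarith)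
  refine ⟨r0, hr0, fun r hr n p hinj hp => ?_⟩
  refine le_trans ?_ (h r hr n p hinj hp)
  exact mul_le_mul_of_nonneg_right ha.le (vB_nonneg (hr0.le.trans hr))

theorem lintegral_om_vB {κ : ℝ} (hκ : 0 < κ) {A : ℝ} (hA : 0 ≤ A) :
    ∫⁻ r in Ioi (0 : ℝ), ENNReal.ofReal (om κ r) * ENNReal.ofReal (A * vB r) =
      ENNReal.ofReal A := by
  have h1 : ∀ r ∈ Ioi (0 : ℝ), ENNReal.ofReal (om κ r) * ENNReal.ofReal (A * vB r) =
      ENNReal.ofReal (A * (4 * Real.pi / 3)) *
        (ENNReal.ofReal (om κ r) * ENNReal.ofReal (r ^ (1 + 2))) := by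
    intro r hr
    have hr0 : 0 < r := hr
    unfold vB
    rw [← mul_assoc A, ENNReal.ofReal_mul (by positivity)]
    ring
  have hm := measurable_om κ
  rw [setLIntegral_congr_fun measurableSet_Ioi h1, lintegral_const_mul _ (by fun_prop),
    lintegral_om_pow hκ, ← ENNReal.ofReal_mul (by positivity)]
  congr 1
  unfold mC
  have := Real.pi_pos.ne'
  field_simp
  norm_num
  ring

/-- lower bound for the mass of a window of radii -/
theorem mass_window {ℓ q : ℝ} (hℓ : 0 < ℓ) (hq : 1 < q) :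
    ENNReal.ofReal (4 / 3 * Real.exp (-(2 * q)) * (q - 1)) ≤
      ∫⁻ r in Icc ℓ (q * ℓ), ENNReal.ofReal (om ℓ⁻¹ r) * ENNReal.ofReal (vB r) := by
  have hpi := Real.pi_pos
  have h1 : ∀ r ∈ Icc ℓ (q * ℓ), ENNReal.ofReal (4 / 3 * Real.exp (-(2 * q)) * ℓ⁻¹) ≤
      ENNReal.ofReal (om ℓ⁻¹ r) * ENNReal.ofReal (vB r) := by
    intro r hr
    have hr0 : 0 < r := hℓ.trans_le hr.1
    rw [← ENNReal.ofReal_mul (om_nonneg (by positivity) hr0)]
    apply ENNReal.ofReal_le_ofReal
    have e : om ℓ⁻¹ r * vB r = Real.exp (-(2 * ℓ⁻¹ * r)) *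
        (4 / 3 * (2 * (ℓ⁻¹) ^ 3 * r ^ 2 + (ℓ⁻¹) ^ 2 * r)) := by
      unfold om vB
      have := hpi.ne'
      field_simp
    rw [e]
    have e1 : Real.exp (-(2 * q)) ≤ Real.exp (-(2 * ℓ⁻¹ * r)) := by
      apply Real.exp_le_exp.2
      have : ℓ⁻¹ * r ≤ q := by
        rw [inv_mul_le_iff₀ hℓ]; linarith [hr.2]
      linarith
    have e2 : 4 / 3 * ℓ⁻¹ ≤ 4 / 3 * (2 * (ℓ⁻¹) ^ 3 * r ^ 2 + (ℓ⁻¹) ^ 2 * r) := by
      have h3 : ℓ⁻¹ ≤ (ℓ⁻¹) ^ 2 * r := by
        have : (ℓ⁻¹) ^ 2 * r = ℓ⁻¹ * (ℓ⁻¹ * r) := by ring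
        rw [this]
        have h4 : 1 ≤ ℓ⁻¹ * r := by
          rw [← inv_mul_cancel₀ hℓ.ne']
          exact mul_le_mul_of_nonneg_left hr.1 (by positivity)
        exact le_mul_of_one_le_right (by positivity) h4
      have h5 : 0 ≤ 2 * (ℓ⁻¹) ^ 3 * r ^ 2 := by positivity
      linarith
    calc 4 / 3 * Real.exp (-(2 * q)) * ℓ⁻¹ = Real.exp (-(2 * q)) * (4 / 3 * ℓ⁻¹) := by ring
      _ ≤ _ := mul_le_mul e1 e2 (by positivity) (Real.exp_pos _).le
  calc ENNReal.ofReal (4 / 3 * Real.exp (-(2 * q)) * (q - 1))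
      = ∫⁻ _r in Icc ℓ (q * ℓ), ENNReal.ofReal (4 / 3 * Real.exp (-(2 * q)) * ℓ⁻¹) := by
        rw [setLIntegral_const, Real.volume_Icc, ← ENNReal.ofReal_mul (by positivity)]
        congr 1
        field_simp
    _ ≤ _ := setLIntegral_mono' measurableSet_Icc h1

/-- Theorem G: near optimal configurations exist at some radius in every window. -/
theorem exists_window {z ε q : ℝ} (hz : 0 < z) (hε : 0 < ε) (hq : 1 < q) :
    ∃ ℓ0, 0 < ℓ0 ∧ ∀ ℓ, ℓ0 ≤ ℓ → ∃ r, r ∈ Icc ℓ (q * ℓ) ∧ ∃ (n : ℕ) (p : Fin n → E3),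
      Function.Injective p ∧ (∀ i, p i ∈ ball (0 : E3) r) ∧ jel z r p < (estar z + ε) * vB r := by
  classical
  have hpi := Real.pi_pos
  set e := estar z with he
  -- reduce to the case `e + ε ≤ 0`
  have hred : ∃ ε', 0 < ε' ∧ ε' ≤ ε ∧ (e + ε' ≤ 0 ∨ e = 0) := by
    rcases (estar_nonpos hz).eq_or_lt with h | h
    · exact ⟨ε, hε, le_rfl, Or.inr h⟩
    · refine ⟨min ε (-e), lt_min hε (by linarith), min_le_left _ _, Or.inl ?_⟩
      have := min_le_right ε (-e)
      linarith
  set m : ℝ := 4 / 3 * Real.exp (-(2 * q)) * (q - 1) with hm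
  have hm0 : 0 < m := by
    have := Real.exp_pos (-(2 * q))
    have : 0 < q - 1 := by linarith
    positivity
  rcases (estar_nonpos hz).eq_or_lt with h0 | h0
  · -- `e = 0`
    -- neutral balls have small energy: use the iid configuration
    obtain ⟨ε', hε', _, _⟩ := hred
    refine ⟨(z / (4 * Real.pi / 3 * (q ^ 3 - 1))) ^ (1 / 3 : ℝ) + 1, by
      have : 0 < q ^ 3 - 1 := by
        have := one_lt_pow₀ hq (n := 3) (by norm_num)
        linarith
      positivity, fun ℓ hℓ => ?_⟩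
    have hq3 : 0 < q ^ 3 - 1 := by
      have := one_lt_pow₀ hq (n := 3) (by norm_num)
      linarith
    have hb0 : 0 < (z / (4 * Real.pi / 3 * (q ^ 3 - 1))) ^ (1 / 3 : ℝ) := by positivity
    have hℓ0 : 0 < ℓ := by linarith
    have hℓ3 : z ≤ vB (q * ℓ) - vB ℓ := by
      have h1 : ((z / (4 * Real.pi / 3 * (q ^ 3 - 1))) ^ (1 / 3 : ℝ)) ^ 3 ≤ ℓ ^ 3 :=
        pow_le_pow_left₀ hb0.le (by linarith) 3
      rw [← Real.rpow_natCast, ← Real.rpow_mul (by positivity)] at h1
      norm_num at h1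
      rw [div_le_iff₀ (by positivity)] at h1
      unfold vB
      nlinarith
    -- an integer in the window
    set n := ⌊vB (q * ℓ) / z⌋₊ with hn
    have h1 : (n : ℝ) ≤ vB (q * ℓ) / z := Nat.floor_le (by
      have := vB_nonneg (show 0 ≤ q * ℓ by positivity)
      positivity)
    have h2 : vB (q * ℓ) / z < n + 1 := Nat.lt_floor_add_one _
    rw [le_div_iff₀ hz] at h1
    rw [div_lt_iff₀ hz] at h2
    have hn0 : 0 < n := by
      rcases Nat.eq_zero_or_pos n with h | h
      · rw [h] at h2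
        have := vB_pos hℓ0
        simp only [Nat.cast_zero, zero_add, one_mul] at h2
        linarith
      · exact h
    have hR := nR_pos hz hn0
    have hvR := vB_nR hz n
    refine ⟨nR z n, ⟨?_, ?_⟩, ?_⟩
    · rw [← vB_le_iff hℓ0.le hR.le, hvR]; nlinarith
    · rw [← vB_le_iff hR.le (by positivity), hvR]; linarith
    -- configuration
    have hlim : Tendsto (fun r : ℝ => selfE r / 2) (𝓝[>] 0) (𝓝 0) := by
      have : Continuous fun r : ℝ => selfE r / 2 := by unfold selfE; fun_prop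
      have h1 := (this.tendsto 0).mono_left (nhdsWithin_le_nhds (s := Ioi (0:ℝ)))
      simpa [selfE] using h1
    have hpos : 0 < (e + ε) * vB (nR z n) := by
      rw [he, h0, zero_add]; exact mul_pos hε (vB_pos hR)
    have hev := (hlim.eventually (gt_mem_nhds hpos)).and (Ioo_mem_nhdsGT hR)
    obtain ⟨r, hr1, hr2⟩ := hev.exists
    obtain ⟨X, hinj, hX, hj⟩ := exists_neutral (z := z) (fun i : Fin 0 => i.elim0)
      (fun i => i.elim0) hr2.1 hr2.2 (fun i => i.elim0) n (by rw [vB_nR hz]; simp)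
    have h2' : jel z r (fun i : Fin 0 => (i.elim0 : E3)) = selfE r / 2 := by
      unfold jel rep; simp
    rw [h2'] at hj
    have h3 : 0 ≤ (z * (Fintype.card (Fin 0) : ℝ) - vB r) ^ 2 / (2 * nR z n) := by positivity
    have eq := (Fintype.equivFin (Fin 0 ⊕ Fin n)).symm
    refine ⟨_, _, hinj.comp eq.injective, fun i => hX _, ?_⟩
    rw [jel_reindex]
    linarith
  · obtain ⟨ε', hε', hε'ε, hc⟩ := hred
    have hc' : e + ε' ≤ 0 := by
      rcases hc with h | h
      · exact h
      · exact absurd h h0.ne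
    set δ := ε' * m / 2 / (1 + m) with hδ
    have hδ0 : 0 < δ := by positivity
    obtain ⟨r0, hr0, hlow0⟩ := estar_lower hz hδ0
    -- constant for small radii
    set A : ℝ := 2 * Real.pi * z + 4 * Real.pi ^ 2 * r0 ^ 3 with hA
    have hA0 : 0 < A := by positivity
    set D : ℝ := A * mC 0 + 3 * z with hD
    have hD0 : 0 < D := by have := mC_pos 0; positivity
    refine ⟨max r0 (8 * D / (ε' * m)), by positivity, fun ℓ hℓ => ?_⟩
    have hℓr0 : r0 ≤ ℓ := (le_max_left _ _).trans hℓ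
    have hℓ2 : 8 * D / (ε' * m) ≤ ℓ := (le_max_right _ _).trans hℓ
    have hℓ0 : 0 < ℓ := hr0.trans_le hℓr0
    by_contra hcon
    push Not at hcon
    have hcon2 : ∀ r ∈ Icc ℓ (q * ℓ), ∀ (n : ℕ) (p : Fin n → E3), Function.Injective p →
        (∀ i, p i ∈ ball (0 : E3) r) → (e + ε') * vB r ≤ jel z r p := by
      intro r hr n p hinj hp
      refine le_trans ?_ (hcon r hr n p hinj hp)
      exact mul_le_mul_of_nonneg_right (by linarith) (vB_nonneg (hℓ0.le.trans hr.1))
    set low : ℝ → ℝ := fun r => if r < r0 then lowT z r else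
      if r ∈ Icc ℓ (q * ℓ) then (-(e + ε')) * vB r else (-e + δ) * vB r with hlow
    have hlowm : Measurable low := by
      refine Measurable.ite measurableSet_Iio (by unfold lowT; fun_prop) ?_
      exact Measurable.ite measurableSet_Icc (by unfold vB; fun_prop) (by unfold vB; fun_prop)
    have hlownn : ∀ r, 0 < r → 0 ≤ low r := by
      intro r hr
      simp only [hlow]
      split_ifs with h1 h2
      · exact lowT_nonneg hz.le hr.le
      · exact mul_nonneg (by linarith) (vB_nonneg hr.le)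
      · exact mul_nonneg (by linarith) (vB_nonneg hr.le)
    have hlowb : ∀ r, 0 < r → ∀ (n : ℕ) (p : Fin n → E3), Function.Injective p →
        (∀ i, p i ∈ ball (0 : E3) r) → -low r ≤ jel z r p := by
      intro r hr n p hinj hp
      simp only [hlow]
      split_ifs with h1 h2
      · exact jel_ge_lowT hz.le hr p hinj hp
      · have := hcon2 r h2 n p hinj hp
        linarith
      · have := hlow0 r (not_lt.1 h1) n p hinj hp
        linarith
    -- the integral
    set κ : ℝ := ℓ⁻¹ with hκ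
    have hκ0 : 0 < κ := by positivity
    set Λ : ℝ := A * mC 0 * κ + (-e + δ) - (δ + ε') * m with hΛ
    have hpt : ∀ r ∈ Ioi (0 : ℝ), ENNReal.ofReal (om κ r) * ENNReal.ofReal (low r) +
        ENNReal.ofReal (δ + ε') * (Icc ℓ (q * ℓ)).indicator (fun r =>
          ENNReal.ofReal (om κ r) * ENNReal.ofReal (vB r)) r ≤
        ENNReal.ofReal A * (ENNReal.ofReal (om κ r) * ENNReal.ofReal (r ^ (0 + 2))) +
        ENNReal.ofReal (om κ r) * ENNReal.ofReal ((-e + δ) * vB r) := by
      intro r hr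
      have hr' : 0 < r := hr
      have hv := vB_nonneg hr'.le
      by_cases hmem : r ∈ Icc ℓ (q * ℓ)
      · rw [indicator_of_mem hmem]
        have h1 : ¬ r < r0 := not_lt.2 (hℓr0.trans hmem.1)
        have h2 : low r = (-(e + ε')) * vB r := by
          simp only [hlow]; rw [if_neg h1, if_pos hmem]
        rw [h2]
        refine le_trans (le_of_eq ?_) (le_add_left le_rfl)
        rw [show (-e + δ) * vB r = (-(e + ε')) * vB r + (δ + ε') * vB r by ring,
          ENNReal.ofReal_add (mul_nonneg (by linarith) hv) (by positivity),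
          ENNReal.ofReal_mul (p := δ + ε') (by positivity)]
        ring
      · rw [indicator_of_notMem hmem, mul_zero, add_zero]
        by_cases h1 : r < r0
        · refine le_trans ?_ (le_add_right le_rfl)
          have h2 : low r = lowT z r := by simp only [hlow]; rw [if_pos h1]
          rw [h2, mul_left_comm, ← ENNReal.ofReal_mul hA0.le]
          gcongr
          unfold lowT
          rw [hA]
          have : r ^ 3 ≤ r0 ^ 3 := pow_le_pow_left₀ hr'.le h1.le 3
          have h4 : r ^ 5 ≤ r0 ^ 3 * r ^ 2 := by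
            have : r ^ 5 = r ^ 3 * r ^ 2 := by ring
            rw [this]; gcongr
          have h5 := mul_le_mul_of_nonneg_left h4 (show 0 ≤ 4 * Real.pi ^ 2 by positivity)
          simp only [zero_add]
          linarith
        · refine le_trans ?_ (le_add_left le_rfl)
          have h2 : low r = (-e + δ) * vB r := by
            simp only [hlow]; rw [if_neg h1, if_neg hmem]
          rw [h2]
    have hom := measurable_om κ
    have hvm : Measurable vB := by unfold vB; fun_prop
    have hI := setLIntegral_mono' (μ := volume) measurableSet_Ioi hpt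
    have hsubI : Icc ℓ (q * ℓ) ∩ Ioi (0 : ℝ) = Icc ℓ (q * ℓ) :=
      inter_eq_left.2 (fun r hr => hℓ0.trans_le (mem_Icc.1 hr).1)
    have hmind : Measurable ((Icc ℓ (q * ℓ)).indicator fun r => ENNReal.ofReal (om κ r) *
        ENNReal.ofReal (vB r)) :=
      (by fun_prop : Measurable fun r => ENNReal.ofReal (om κ r) *
          ENNReal.ofReal (vB r)).indicator measurableSet_Icc
    rw [lintegral_add_left (by fun_prop), lintegral_add_left (by fun_prop),
      lintegral_const_mul _ hmind, lintegral_const_mul _ (by fun_prop), lintegral_om_pow hκ0,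
      lintegral_om_vB hκ0 (by linarith),
      lintegral_indicator measurableSet_Icc, Measure.restrict_restrict measurableSet_Icc,
      hsubI] at hI
    have hw := mass_window hℓ0 hq
    have hI2 : (∫⁻ r in Ioi (0 : ℝ), ENNReal.ofReal (om κ r) * ENNReal.ofReal (low r)) +
        ENNReal.ofReal ((δ + ε') * m) ≤ ENNReal.ofReal (A * mC 0 * κ + (-e + δ)) := by
      refine le_trans ?_ (hI.trans (le_of_eq ?_))
      · rw [ENNReal.ofReal_mul (by positivity)]
        gcongr
      · rw [← ENNReal.ofReal_mul hA0.le, ← ENNReal.ofReal_add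
          (by have := mC_pos 0; positivity) (by linarith)]
        congr 1
        simp; ring
    have hΛint : ∫⁻ r in Ioi (0 : ℝ), ENNReal.ofReal (om κ r) * ENNReal.ofReal (low r) ≤
        ENNReal.ofReal Λ := by
      rw [hΛ, ENNReal.ofReal_sub _ (by positivity)]
      exact ENNReal.le_sub_of_add_le_right ENNReal.ofReal_ne_top hI2
    -- the constant in front
    have hκD : κ * D ≤ ε' * m / 8 := by
      rw [hκ, inv_mul_le_iff₀ hℓ0]
      rw [div_le_iff₀ (by positivity)] at hℓ2
      linarith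
    have hδm : δ * (1 + m) = ε' * m / 2 := by rw [hδ]; field_simp
    have hδle : δ ≤ ε' * m / 2 := by nlinarith
    by_cases hΛneg : 0 ≤ Λ
    · have hlt : e + ε' * m / 8 < -(Λ + 3 * κ * z) := by
        rw [hΛ]
        have : κ * D = A * mC 0 * κ + 3 * κ * z := by rw [hD]; ring
        nlinarith [mul_pos hδ0 hm0, mul_pos hε' hm0]
      have hmem := master_mem hκ0 hz hΛneg low hlowm hlownn hlowb hΛint hlt
      have h2 := le_csSup (estar_bdd hz) hmem
      have h3 : sSup (estarSet z) = e := rfl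
      rw [h3] at h2
      have := mul_pos hε' hm0
      linarith
    · -- impossible or immediate
      push Not at hΛneg
      have hΛ0' : ∫⁻ r in Ioi (0 : ℝ), ENNReal.ofReal (om κ r) * ENNReal.ofReal (low r) ≤
          ENNReal.ofReal 0 := by
        refine hΛint.trans ?_
        rw [ENNReal.ofReal_of_nonpos hΛneg.le]; simp
      have hlt : e + ε' * m / 8 < -(0 + 3 * κ * z) ∨ -(0 + 3 * κ * z) ≤ e + ε' * m / 8 :=
        lt_or_ge _ _
      rcases hlt with hlt | hge
      · have hmem := master_mem hκ0 hz le_rfl low hlowm hlownn hlowb hΛ0' hlt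
        have h2 := le_csSup (estar_bdd hz) hmem
        have h3 : sSup (estarSet z) = e := rfl
        rw [h3] at h2
        have := mul_pos hε' hm0
        linarith
      · have : κ * D = A * mC 0 * κ + 3 * κ * z := by rw [hD]; ring
        have h5 : 0 ≤ A * mC 0 * κ := by have := mC_pos 0; positivity
        have hm43 : m ≤ 4 / 3 := by
          have h6 : (q - 2) + 1 ≤ Real.exp (q - 2) := Real.add_one_le_exp _
          have h7 : Real.exp (q - 2) ≤ Real.exp (2 * q) := Real.exp_le_exp.2 (by linarith)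
          have h8 : Real.exp (-(2 * q)) * (q - 1) ≤ 1 := by
            rw [Real.exp_neg, inv_mul_le_iff₀ (Real.exp_pos _)]; linarith
          rw [hm]; linarith
        have h9 : ε' * m ≤ ε' * (4 / 3) := mul_le_mul_of_nonneg_left hm43 hε'.le
        linarith

end Pool.Agent.Lib_helper90c
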