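import Pool.Agent.Lib_helper90c.LowerE

/-!
# The limit theorem
-/

set_option autoImplicit false

open MeasureTheory Set Metric Filter
open scoped ENNReal NNReal Topology

namespace Pool.Agent.Lib_helper90c

/-- algebra of the crude bound -/
theorem crude_alg {C T x κ E a1 a2 a3 : ℝ} (hx : 0 < x) (hκ : 0 < κ) (hT : 0 ≤ T)
    (hκ2 : κ ^ 2 * x = T + x ^ 5) (ha1 : 0 ≤ a1) (ha2 : 0 ≤ a2) (ha3 : 0 ≤ a3)
    (hC : C = a1 + a2 + a3)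
    (h : T - (a1 * (κ * x ^ 3) + (a2 * (κ * x ^ 3) + a3 * (κ / κ ^ 6 * T ^ 3))) ≤ E) :
    T ≤ 2 * E + (1 + 4 * C ^ 2) * x ^ 5 := by
  have h1 : κ / κ ^ 6 * T ^ 3 ≤ κ * x ^ 3 := by
    have h2 : T ^ 3 ≤ (κ ^ 2 * x) ^ 3 := by
      apply pow_le_pow_left₀ hT
      rw [hκ2]
      have : 0 < x ^ 5 := by positivity
      linarith
    calc κ / κ ^ 6 * T ^ 3 ≤ κ / κ ^ 6 * (κ ^ 2 * x) ^ 3 := by gcongr
      _ = κ * x ^ 3 := by field_simp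
  have h3 : a3 * (κ / κ ^ 6 * T ^ 3) ≤ a3 * (κ * x ^ 3) := mul_le_mul_of_nonneg_left h1 ha3
  have h4 : T - C * (κ * x ^ 3) ≤ E := by
    rw [hC]
    linarith
  have h5 : 0 ≤ C * (κ * x ^ 3) := by
    have : 0 ≤ C := by rw [hC]; positivity
    positivity
  have h7 : 2 * (C * (κ * x ^ 3)) ≤ κ ^ 2 * x / 2 + 2 * C ^ 2 * x ^ 5 := by
    have : κ ^ 2 * x / 2 + 2 * C ^ 2 * x ^ 5 - 2 * (C * (κ * x ^ 3)) =
        x / 2 * (κ - 2 * C * x ^ 2) ^ 2 := by ring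
    have h6 : 0 ≤ x / 2 * (κ - 2 * C * x ^ 2) ^ 2 := by positivity
    linarith
  have h8 : (1 + 4 * C ^ 2) * x ^ 5 = x ^ 5 + 2 * (2 * C ^ 2 * x ^ 5) := by ring
  rw [h8]
  linarith

/-- bound on the kinetic energy in terms of the energy -/
theorem kinetic_bound {z : ℝ} (hz : 0 < z) : ∃ B : ℝ, 0 < B ∧ ∀ (N K : ℕ) (x : ℝ), 0 < x →
    x ^ 3 = N → (K : ℝ) * z = N → ∀ (R : Fin K → E3) (ψ : Conf N → ℂ), Function.Injective R →
    Trial ψ → kinetic ψ ≤ 2 * energy z R ψ + B * x ^ 5 := by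
  obtain ⟨S, hS, hsob⟩ := sobolev1
  have hcF := cF1_nonneg z
  have hpi := Real.pi_pos
  have hm0 := mC_pos 0
  have hm6 := mC_pos 6
  set a1 : ℝ := (1 + z) / 2 with ha1
  set a2 : ℝ := cF1 z * (4 * Real.pi / 3 * mC 0) / z with ha2
  set a3 : ℝ := cF1 z * (4 * Real.pi / 3 * mC 6) * S ^ 3 with ha3
  refine ⟨1 + 4 * (a1 + a2 + a3) ^ 2, by positivity, fun N K x hx hN hK R ψ hR h => ?_⟩
  have hT := kinetic_nonneg ψ
  set T := kinetic ψ with hTdef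
  set κ : ℝ := Real.sqrt ((T + x ^ 5) / x) with hκdef
  have hpos : 0 < (T + x ^ 5) / x := by positivity
  have hκ : 0 < κ := Real.sqrt_pos.2 hpos
  have hκ2 : κ ^ 2 * x = T + x ^ 5 := by
    rw [hκdef, Real.sq_sqrt hpos.le]; field_simp
  have h1 := crude_real hκ hz hS hsob R hR h
  rw [← hTdef] at h1
  have hKz : (K : ℝ) = x ^ 3 / z := by rw [hN, ← hK]; field_simp
  refine crude_alg hx hκ hT hκ2 (by positivity) (by positivity) (by positivity) rfl ?_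
  refine le_trans (le_of_eq ?_) h1
  rw [hKz, ← hN, ha1, ha2, ha3]
  field_simp

/-- algebra of the fine bound -/
theorem fine_alg {z ε B S T x L M W δ' cn c0 c6 c7 f1 f2 : ℝ} (hz : 0 < z) (hε : 0 < ε)
    (hB : 0 < B) (hS : 0 < S) (hx : 1 ≤ x) (hL : 1 ≤ L) (hM : 2 ≤ M) (hW : 1 ≤ W) (hT : 0 ≤ T)
    (hTB : T ≤ B * x ^ 5) (hδ : 0 ≤ δ') (hc6 : 0 ≤ c6)
    (hc7 : 0 ≤ c7) (hf1 : 0 ≤ f1) (hf2 : 0 ≤ f2)
    (g1 : 7 * (1 + z) ≤ ε * (2 * L))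
    (g2 : 7 * ((192 * z + 480) * B * M ^ 2 * W * L) ≤ ε * x)
    (g3 : 7 * (δ' * (1 + S ^ 3 * B ^ 3)) ≤ ε)
    (g4 : 7 * (cn * c0) ≤ ε * L)
    (g5 : 7 * (f2 * c6 * L ^ 5 * (S ^ 3 * B ^ 3)) ≤ ε * M)
    (g6 : 7 * f1 ≤ ε * (z * W))
    (g7 : 7 * (f1 * c7 * L ^ 5 * (S ^ 3 * B ^ 3)) ≤ ε * W) :
    (x ^ 2 / L) * (x ^ 3 + z ^ 2 * (x ^ 3 / z)) / 2 +
      ((192 * z + 480) * M ^ 2 * (W * L / x ^ 2) * T +
      (δ' * (x ^ 2 * x ^ 3 + (x ^ 10)⁻¹ * (S * T) ^ 3) +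
      (cn * c0 * (x ^ 2 / L) * x ^ 3 +
      (f2 / M * c6 * ((x ^ 2 / L) / (x ^ 2 / L) ^ 6) * (S * T) ^ 3 +
      (f1 * (W * L / x ^ 2)⁻¹ * (x ^ 3 / z) +
      f1 * (W * L / x ^ 2)⁻¹ * c7 * ((x ^ 2 / L) / (x ^ 2 / L) ^ 7) * (S * T) ^ 3))))) ≤
      ε * x ^ 5 := by
  have hx0 : 0 < x := by linarith
  have hL0 : 0 < L := by linarith
  have hM0 : 0 < M := by linarith
  have hW0 : 0 < W := by linarith
  have hY : (S * T) ^ 3 ≤ S ^ 3 * B ^ 3 * x ^ 15 := by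
    calc (S * T) ^ 3 ≤ (S * (B * x ^ 5)) ^ 3 := by gcongr
      _ = S ^ 3 * B ^ 3 * x ^ 15 := by ring
  have hY0 : 0 ≤ (S * T) ^ 3 := by positivity
  have t1 : (x ^ 2 / L) * (x ^ 3 + z ^ 2 * (x ^ 3 / z)) / 2 ≤ ε / 7 * x ^ 5 := by
    have e : (x ^ 2 / L) * (x ^ 3 + z ^ 2 * (x ^ 3 / z)) / 2 = (1 + z) / (2 * L) * x ^ 5 := by
      field_simp
    rw [e]
    refine mul_le_mul_of_nonneg_right ?_ (by positivity)
    rw [div_le_div_iff₀ (by positivity) (by norm_num)]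
    linarith
  have t2 : (192 * z + 480) * M ^ 2 * (W * L / x ^ 2) * T ≤ ε / 7 * x ^ 5 := by
    calc (192 * z + 480) * M ^ 2 * (W * L / x ^ 2) * T
        ≤ (192 * z + 480) * M ^ 2 * (W * L / x ^ 2) * (B * x ^ 5) := by gcongr
      _ = ((192 * z + 480) * B * M ^ 2 * W * L) * x ^ 3 := by field_simp
      _ ≤ (ε / 7 * x) * x ^ 3 := by
          refine mul_le_mul_of_nonneg_right ?_ (by positivity)
          linarith
      _ = ε / 7 * x ^ 4 := by ring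
      _ ≤ ε / 7 * x ^ 5 := by
          refine mul_le_mul_of_nonneg_left ?_ (by positivity)
          exact pow_le_pow_right₀ hx (by norm_num)
  have t3 : δ' * (x ^ 2 * x ^ 3 + (x ^ 10)⁻¹ * (S * T) ^ 3) ≤ ε / 7 * x ^ 5 := by
    calc δ' * (x ^ 2 * x ^ 3 + (x ^ 10)⁻¹ * (S * T) ^ 3)
        ≤ δ' * (x ^ 2 * x ^ 3 + (x ^ 10)⁻¹ * (S ^ 3 * B ^ 3 * x ^ 15)) := by gcongr
      _ = (δ' * (1 + S ^ 3 * B ^ 3)) * x ^ 5 := by field_simp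
      _ ≤ ε / 7 * x ^ 5 := by
          refine mul_le_mul_of_nonneg_right ?_ (by positivity)
          linarith
  have t4 : cn * c0 * (x ^ 2 / L) * x ^ 3 ≤ ε / 7 * x ^ 5 := by
    have e : cn * c0 * (x ^ 2 / L) * x ^ 3 = (cn * c0) / L * x ^ 5 := by ring
    rw [e]
    refine mul_le_mul_of_nonneg_right ?_ (by positivity)
    rw [div_le_div_iff₀ (by positivity) (by norm_num)]
    linarith
  have t5 : f2 / M * c6 * ((x ^ 2 / L) / (x ^ 2 / L) ^ 6) * (S * T) ^ 3 ≤ ε / 7 * x ^ 5 := by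
    calc f2 / M * c6 * ((x ^ 2 / L) / (x ^ 2 / L) ^ 6) * (S * T) ^ 3
        ≤ f2 / M * c6 * ((x ^ 2 / L) / (x ^ 2 / L) ^ 6) * (S ^ 3 * B ^ 3 * x ^ 15) := by gcongr
      _ = (f2 * c6 * L ^ 5 * (S ^ 3 * B ^ 3)) / M * x ^ 5 := by field_simp
      _ ≤ ε / 7 * x ^ 5 := by
          refine mul_le_mul_of_nonneg_right ?_ (by positivity)
          rw [div_le_div_iff₀ (by positivity) (by norm_num)]
          linarith
  have t6 : f1 * (W * L / x ^ 2)⁻¹ * (x ^ 3 / z) ≤ ε / 7 * x ^ 5 := by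
    have e : f1 * (W * L / x ^ 2)⁻¹ * (x ^ 3 / z) = f1 / (z * W * L) * x ^ 5 := by field_simp
    rw [e]
    refine mul_le_mul_of_nonneg_right ?_ (by positivity)
    rw [div_le_div_iff₀ (by positivity) (by norm_num)]
    have h1 : ε * (z * W) * 1 ≤ ε * (z * W) * L := by gcongr
    linarith
  have t7 : f1 * (W * L / x ^ 2)⁻¹ * c7 * ((x ^ 2 / L) / (x ^ 2 / L) ^ 7) * (S * T) ^ 3 ≤
      ε / 7 * x ^ 5 := by
    calc f1 * (W * L / x ^ 2)⁻¹ * c7 * ((x ^ 2 / L) / (x ^ 2 / L) ^ 7) * (S * T) ^ 3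
        ≤ f1 * (W * L / x ^ 2)⁻¹ * c7 * ((x ^ 2 / L) / (x ^ 2 / L) ^ 7) *
          (S ^ 3 * B ^ 3 * x ^ 15) := by gcongr
      _ = (f1 * c7 * L ^ 5 * (S ^ 3 * B ^ 3)) / W * x ^ 5 := by field_simp
      _ ≤ ε / 7 * x ^ 5 := by
          refine mul_le_mul_of_nonneg_right ?_ (by positivity)
          rw [div_le_div_iff₀ (by positivity) (by norm_num)]
          linarith
  linarith

theorem exists_ge (ε a : ℝ) (hε : 0 < ε) (m : ℝ) : ∃ L : ℝ, m ≤ L ∧ a ≤ ε * L := by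
  refine ⟨max m (a / ε), le_max_left _ _, ?_⟩
  calc a = ε * (a / ε) := by field_simp
    _ ≤ ε * max m (a / ε) := mul_le_mul_of_nonneg_left (le_max_right _ _) hε.le

/-- choice of the parameters -/
theorem exists_params {z ε B S cn c0 c6 c7 f1 f2 : ℝ} (hz : 0 < z) (hε : 0 < ε) :
    ∃ L M W x0 : ℝ, 1 ≤ L ∧ 2 ≤ M ∧ 1 ≤ W ∧ 1 ≤ x0 ∧
    7 * (1 + z) ≤ ε * (2 * L) ∧
    7 * ((192 * z + 480) * B * M ^ 2 * W * L) ≤ ε * x0 ∧
    7 * (cn * c0) ≤ ε * L ∧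
    7 * (f2 * c6 * L ^ 5 * (S ^ 3 * B ^ 3)) ≤ ε * M ∧
    7 * f1 ≤ ε * (z * W) ∧
    7 * (f1 * c7 * L ^ 5 * (S ^ 3 * B ^ 3)) ≤ ε * W := by
  obtain ⟨L1, hL1, hL1'⟩ := exists_ge ε (7 * (1 + z)) hε 1
  obtain ⟨L, hL, hL'⟩ := exists_ge ε (7 * (cn * c0)) hε L1
  obtain ⟨M, hM, hM'⟩ := exists_ge ε (7 * (f2 * c6 * L ^ 5 * (S ^ 3 * B ^ 3))) hε 2
  obtain ⟨W1, hW1, hW1'⟩ := exists_ge (ε * z) (7 * f1) (by positivity) 1
  obtain ⟨W, hW, hW'⟩ := exists_ge ε (7 * (f1 * c7 * L ^ 5 * (S ^ 3 * B ^ 3))) hε W1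
  obtain ⟨x0, hx0, hx0'⟩ := exists_ge ε (7 * ((192 * z + 480) * B * M ^ 2 * W * L)) hε 1
  refine ⟨L, M, W, x0, hL1.trans hL, hM, hW1.trans hW, hx0, ?_, hx0', hL', hM', ?_, hW'⟩
  · have h1 : ε * L1 ≤ ε * L := mul_le_mul_of_nonneg_left hL hε.le
    have h2 : 0 ≤ ε * L := mul_nonneg hε.le (by linarith)
    linarith
  · have h1 : ε * z * W1 ≤ ε * z * W := mul_le_mul_of_nonneg_left hW (by positivity)
    linarith

/-- Lower bound on the energy. -/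
theorem lower_E {z ε : ℝ} (hz : 0 < z) (hε : 0 < ε) :
    ∃ x0 : ℝ, 0 < x0 ∧ ∀ (N K : ℕ) (x : ℝ), x0 ≤ x → x ^ 3 = N → (K : ℝ) * z = N →
      ∀ (R : Fin K → E3) (ψ : Conf N → ℂ), Function.Injective R → Trial ψ →
        (limE z - ε) * x ^ 5 ≤ energy z R ψ := by
  obtain ⟨B, hB, hkin⟩ := kinetic_bound hz
  obtain ⟨S, hS, hsob⟩ := sobolev1
  have hcF := cF1_nonneg z
  have hcF2 := cF2_nonneg hz
  have hpi := Real.pi_pos
  have hm0 := mC_pos 0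
  have hm6 := mC_pos 6
  have hm7 := mC_pos 7
  have hL0 := limE_nonpos z
  obtain ⟨δ', hδ'0, hδ'⟩ : ∃ δ' : ℝ, 0 < δ' ∧ 7 * (δ' * (1 + S ^ 3 * B ^ 3)) ≤ ε := by
    refine ⟨ε / (7 * (1 + S ^ 3 * B ^ 3)), by positivity, le_of_eq ?_⟩
    field_simp
  obtain ⟨r0, hr0, hlow⟩ := estar_lower hz hδ'0
  have hcN := cN_nonneg hz.le hr0.le
  obtain ⟨L, M, W, x0, hL1, hM2, hW1, hx01, g1, g2, g4, g5, g6, g7⟩ :=
    exists_params (B := B) (S := S) (cn := cN z r0) (c0 := 4 * Real.pi / 3 * mC 0)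
      (c6 := 4 * Real.pi / 3 * mC 6) (c7 := 4 * Real.pi / 3 * mC 7) (f1 := cF1 z) (f2 := cF2 z)
      hz hε
  have hLpos : 0 < L := by linarith
  have hWpos : 0 < W := by linarith
  refine ⟨x0, by linarith, fun N K x hx hN hK R ψ hR h => ?_⟩
  by_contra hcon
  push Not at hcon
  have hx1 : 1 ≤ x := hx01.trans hx
  have hxpos : 0 < x := by linarith
  have hx5 : 0 < x ^ 5 := by positivity
  have hneg : energy z R ψ ≤ 0 := by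
    have : (limE z - ε) * x ^ 5 ≤ 0 := mul_nonpos_of_nonpos_of_nonneg (by linarith) hx5.le
    linarith
  have hTB : kinetic ψ ≤ B * x ^ 5 := by
    have := hkin N K x hxpos hN hK R ψ hR h
    linarith
  have hT0 := kinetic_nonneg ψ
  have hκ : 0 < x ^ 2 / L := by positivity
  have hRm : 0 < W * L / x ^ 2 := by positivity
  have hKz : (K : ℝ) = x ^ 3 / z := by rw [hN, ← hK]; field_simp
  have g2' : 7 * ((192 * z + 480) * B * M ^ 2 * W * L) ≤ ε * x :=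
    g2.trans (mul_le_mul_of_nonneg_left hx hε.le)
  have hfine := fine_real hκ hz hr0 hδ'0.le hlow hM2 hRm hxpos hN hS hsob R hR h
  have halg := fine_alg (T := kinetic ψ) (cn := cN z r0) (c0 := 4 * Real.pi / 3 * mC 0)
    (c6 := 4 * Real.pi / 3 * mC 6) (c7 := 4 * Real.pi / 3 * mC 7)
    (f1 := cF1 z) (f2 := cF2 z) (δ' := δ') hz hε hB hS hx1 hL1 hM2 hW1 hT0 hTB hδ'0.le
    (by positivity) (by positivity) hcF hcF2 g1 g2' hδ' g4 g5 g6 g7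
  rw [hKz, ← hN] at hfine
  have e : (limE z - ε) * x ^ 5 = limE z * x ^ 5 - ε * x ^ 5 := by ring
  rw [e] at hcon
  linarith

end Pool.Agent.Lib_helper90c
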