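import Pool.Agent.Lib_helper90c.SobN

/-!
# Gagliardo–Nirenberg inequality with the sharp constant of the limiting functional
-/

set_option autoImplicit false

open MeasureTheory Set Metric Filter
open scoped ENNReal NNReal Topology

namespace Pool.Agent.Lib_helper90c

section oneparticle

theorem integrable_grad1' {u : E3 → ℂ} (h : ContDiff ℝ (⊤ : ℕ∞) u) (hs : HasCompactSupport u) :
    Integrable (grad1 u) := by
  apply (continuous_grad1 h).integrable_of_hasCompactSupport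
  have h1 : HasCompactSupport (fderiv ℝ u) := hs.fderiv ℝ
  refine h1.mono ?_
  intro x hx
  by_contra hn
  apply hx
  unfold grad1
  have : fderiv ℝ u x = 0 := by
    by_contra h; exact hn h
  simp [this]

theorem integrable_normSq {u : E3 → ℂ} (h : ContDiff ℝ (⊤ : ℕ∞) u) (hs : HasCompactSupport u) :
    Integrable (fun x => ‖u x‖ ^ 2) :=
  (h.continuous.norm.pow 2).integrable_of_hasCompactSupport (hasCompactSupport_normSq hs)

theorem integrable_q {u : E3 → ℂ} (h : ContDiff ℝ (⊤ : ℕ∞) u) (hs : HasCompactSupport u) :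
    Integrable (fun x => (‖u x‖ ^ 2) ^ (4 / 3 : ℝ)) := by
  refine Continuous.integrable_of_hasCompactSupport ?_ ?_
  · exact (h.continuous.norm.pow 2).rpow_const fun x => Or.inr (by norm_num)
  · refine (hasCompactSupport_normSq hs).mono ?_
    intro x hx
    by_contra hn
    apply hx
    have : ‖u x‖ ^ 2 = 0 := by by_contra h; exact hn h
    show (‖u x‖ ^ 2) ^ (4 / 3 : ℝ) = 0
    rw [this, Real.zero_rpow (by norm_num)]

theorem lintegral_g {u : E3 → ℂ} (h : ContDiff ℝ (⊤ : ℕ∞) u) (hs : HasCompactSupport u) :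
    ∫⁻ y, ENNReal.ofReal (grad1 u y) = ENNReal.ofReal (∫ y, grad1 u y) := by
  rw [ofReal_integral_eq_lintegral_ofReal (integrable_grad1' h hs)
    (Eventually.of_forall fun x => grad1_nonneg u x)]

theorem lintegral_m {u : E3 → ℂ} (h : ContDiff ℝ (⊤ : ℕ∞) u) (hs : HasCompactSupport u) :
    ∫⁻ y, ENNReal.ofReal (‖u y‖ ^ 2) = ENNReal.ofReal (∫ y, ‖u y‖ ^ 2) := by
  rw [ofReal_integral_eq_lintegral_ofReal (integrable_normSq h hs)
    (Eventually.of_forall fun x => sq_nonneg _)]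

theorem lintegral_q {u : E3 → ℂ} (h : ContDiff ℝ (⊤ : ℕ∞) u) (hs : HasCompactSupport u) :
    ∫⁻ y, ENNReal.ofReal (‖u y‖ ^ 2) ^ (4 / 3 : ℝ) =
      ENNReal.ofReal (∫ y, (‖u y‖ ^ 2) ^ (4 / 3 : ℝ)) := by
  rw [ofReal_integral_eq_lintegral_ofReal (integrable_q h hs)
    (Eventually.of_forall fun x => by positivity)]
  congr 1
  ext y
  rw [ENNReal.ofReal_rpow_of_nonneg (by positivity) (by norm_num)]

/-- crude Gagliardo–Nirenberg -/
theorem gn_crude {S : ℝ} (hS : 0 < S) (hsob : ∀ u : E3 → ℂ, ContDiff ℝ 1 u → HasCompactSupport u →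
    (∫⁻ y, ENNReal.ofReal (‖u y‖ ^ 2) ^ 3) ^ (1 / 3 : ℝ) ≤
      ENNReal.ofReal S * ∫⁻ y, ENNReal.ofReal (grad1 u y)) {u : E3 → ℂ} (h : Trial1 u) :
    (∫ y, (‖u y‖ ^ 2) ^ (4 / 3 : ℝ)) ^ 2 ≤ S * ∫ y, grad1 u y := by
  set w : E3 → ℝ≥0∞ := fun y => ENNReal.ofReal (‖u y‖ ^ 2) with hw
  have hwm : Measurable w := (h.smooth.continuous.norm.pow 2).measurable.ennreal_ofReal
  have hpq : (6 / 5 : ℝ).HolderConjugate 6 := by
    rw [Real.holderConjugate_iff]; norm_num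
  have h1 := ENNReal.lintegral_mul_le_Lp_mul_Lq (volume : Measure E3) hpq
    (f := fun y => w y ^ (5 / 6 : ℝ)) (g := fun y => w y ^ (1 / 2 : ℝ))
    (hwm.pow_const _).aemeasurable (hwm.pow_const _).aemeasurable
  have e1 : ∀ y, w y ^ (5 / 6 : ℝ) * w y ^ (1 / 2 : ℝ) = w y ^ (4 / 3 : ℝ) := by
    intro y
    rw [← ENNReal.rpow_add_of_nonneg _ _ (by norm_num) (by norm_num)]
    norm_num
  have e2 : ∀ y, (w y ^ (5 / 6 : ℝ)) ^ (6 / 5 : ℝ) = w y := by
    intro y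
    rw [← ENNReal.rpow_mul]; norm_num
  have e3 : ∀ y, (w y ^ (1 / 2 : ℝ)) ^ (6 : ℝ) = w y ^ 3 := by
    intro y
    rw [← ENNReal.rpow_mul, ← ENNReal.rpow_natCast]; norm_num
  simp only [Pi.mul_apply, e1, e2, e3] at h1
  have hm := lintegral_m h.smooth h.compact
  rw [h.normalized, ENNReal.ofReal_one] at hm
  have hq := lintegral_q h.smooth h.compact
  have hg := lintegral_g h.smooth h.compact
  have hs := hsob u (h.smooth.of_le (by exact_mod_cast le_top)) h.compact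
  rw [hm, hq, ENNReal.one_rpow, one_mul] at h1
  rw [hg, ← ENNReal.ofReal_mul hS.le] at hs
  have hQ0 : 0 ≤ ∫ y, (‖u y‖ ^ 2) ^ (4 / 3 : ℝ) := integral_nonneg fun y => by positivity
  have hG0 : 0 ≤ ∫ y, grad1 u y := integral_nonneg fun y => grad1_nonneg u y
  have h2 : (ENNReal.ofReal (∫ y, (‖u y‖ ^ 2) ^ (4 / 3 : ℝ))) ^ 2 ≤
      ENNReal.ofReal (S * ∫ y, grad1 u y) := by
    refine le_trans (pow_le_pow_left' h1 2) (le_trans (le_of_eq ?_) hs)
    have e6 : (1 / 6 : ℝ) * ((2 : ℕ) : ℝ) = 1 / 3 := by norm_num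
    rw [← ENNReal.rpow_natCast, ← ENNReal.rpow_mul, e6]
  rw [← ENNReal.ofReal_pow hQ0, ENNReal.ofReal_le_ofReal_iff (by positivity)] at h2
  exact h2

theorem limFun_bddBelow (z : ℝ) : BddBelow {E : ℝ | ∃ u : E3 → ℂ, Trial1 u ∧ E = limFun z u} := by
  obtain ⟨S, hS, hsob⟩ := sobolev1
  refine ⟨-(estar z ^ 2 * S / 4), ?_⟩
  rintro E ⟨u, hu, rfl⟩
  have h := gn_crude hS hsob hu
  unfold limFun
  set Q := ∫ y, (‖u y‖ ^ 2) ^ (4 / 3 : ℝ) with hQ
  set G := ∫ y, grad1 u y with hG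
  have h1 : Q ^ 2 / S ≤ G := by rw [div_le_iff₀ hS]; linarith
  have h2 : Q ^ 2 / S + estar z * Q + estar z ^ 2 * S / 4 =
      (Q + estar z * S / 2) ^ 2 / S := by field_simp; ring
  have h3 : 0 ≤ (Q + estar z * S / 2) ^ 2 / S := by positivity
  linarith

theorem limE_le (z : ℝ) {u : E3 → ℂ} (h : Trial1 u) : limE z ≤ limFun z u :=
  csInf_le (limFun_bddBelow z) ⟨u, h, rfl⟩

theorem limFun_scl (z : ℝ) {s : ℝ} (hs : 0 < s) {u : E3 → ℂ} (h : Trial1 u) :
    limFun z (scl s u) = s ^ 2 * (∫ x, grad1 u x) +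
      s * (estar z * ∫ x, (‖u x‖ ^ 2) ^ (4 / 3 : ℝ)) := by
  unfold limFun
  rw [integral_grad1_scl hs h]
  have e1 : ∀ x, (‖scl s u x‖ ^ 2) ^ (4 / 3 : ℝ) = s ^ 4 * (‖u (s • x)‖ ^ 2) ^ (4 / 3 : ℝ) := by
    intro x
    rw [normSq_scl hs, Real.mul_rpow (by positivity) (by positivity), ← Real.rpow_natCast s 3,
      ← Real.rpow_mul hs.le, ← Real.rpow_natCast s 4]
    norm_num
  simp only [e1]
  rw [integral_const_mul, integral_comp_smul3 hs (fun x => (‖u x‖ ^ 2) ^ (4 / 3 : ℝ))]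
  field_simp

theorem exists_trial1 : ∃ u : E3 → ℂ, Trial1 u := by
  let f : ContDiffBump (0 : E3) := ⟨1, 2, by norm_num, by norm_num⟩
  have hf : ContDiff ℝ (⊤ : ℕ∞) (f : E3 → ℝ) := f.contDiff
  have hfs : HasCompactSupport (f : E3 → ℝ) := f.hasCompactSupport
  have hint : Integrable fun x => (f x) ^ 2 :=
    (hf.continuous.pow 2).integrable_of_hasCompactSupport (by
      refine hfs.mono fun x hx => ?_
      by_contra hn
      apply hx
      have : f x = 0 := by by_contra h; exact hn h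
      simp [this])
  have hpos : 0 < ∫ x, (f x) ^ 2 := by
    rw [integral_pos_iff_support_of_nonneg (fun x => sq_nonneg _) hint]
    have hsub : ball (0 : E3) 1 ⊆ Function.support fun x => (f x) ^ 2 := by
      intro x hx
      have : f x = 1 := f.one_of_mem_closedBall (ball_subset_closedBall hx)
      rw [Function.mem_support, this]
      norm_num
    refine lt_of_lt_of_le ?_ (measure_mono hsub)
    exact measure_ball_pos _ _ one_pos
  set c : ℝ := ∫ x, (f x) ^ 2 with hc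
  refine ⟨fun x => ((Real.sqrt c)⁻¹ : ℂ) * ((f x : ℝ) : ℂ), ?_, ?_, ?_⟩
  · exact contDiff_const.mul (Complex.ofRealCLM.contDiff.comp hf)
  · refine hfs.mono fun x hx => ?_
    by_contra hn
    apply hx
    have : f x = 0 := by by_contra h; exact hn h
    simp [this]
  · have e : ∀ x, ‖((Real.sqrt c)⁻¹ : ℂ) * ((f x : ℝ) : ℂ)‖ ^ 2 = c⁻¹ * (f x) ^ 2 := by
      intro x
      rw [norm_mul, mul_pow, norm_inv, Complex.norm_real, Complex.norm_real, Real.norm_eq_abs,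
        Real.norm_eq_abs, sq_abs, inv_pow, sq_abs, Real.sq_sqrt hpos.le]
    simp only [e]
    rw [integral_const_mul, ← hc, inv_mul_cancel₀ hpos.ne']

theorem limE_nonpos (z : ℝ) : limE z ≤ 0 := by
  obtain ⟨u, hu⟩ := exists_trial1
  set G := ∫ x, grad1 u x with hG
  set Q := estar z * ∫ x, (‖u x‖ ^ 2) ^ (4 / 3 : ℝ) with hQ
  have h1 : ∀ s : ℝ, 0 < s → limE z ≤ s ^ 2 * G + s * Q := by
    intro s hs
    have := limE_le z (trial1_scl hs hu)
    rw [limFun_scl z hs hu] at this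
    exact this
  have h2 : Tendsto (fun s : ℝ => s ^ 2 * G + s * Q) (𝓝[>] 0) (𝓝 (0 ^ 2 * G + 0 * Q)) := by
    apply Tendsto.mono_left _ nhdsWithin_le_nhds
    exact Continuous.tendsto (by fun_prop) 0
  have h3 : (0 : ℝ) ^ 2 * G + 0 * Q = 0 := by ring
  rw [h3] at h2
  exact ge_of_tendsto h2 (by filter_upwards [self_mem_nhdsWithin] with s hs using h1 s hs)

/-- sharp inequality, normalised functions -/
theorem gn_sharp1 {z : ℝ} (hz : 0 < z) {u : E3 → ℂ} (h : Trial1 u) :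
    ((-estar z) * ∫ y, (‖u y‖ ^ 2) ^ (4 / 3 : ℝ)) ^ 2 ≤ 4 * (-limE z) * ∫ y, grad1 u y := by
  set G := ∫ x, grad1 u x with hG
  set Q := ∫ x, (‖u x‖ ^ 2) ^ (4 / 3 : ℝ) with hQ
  have he := estar_nonpos hz
  have hL := limE_nonpos z
  have hQ0 : 0 ≤ Q := integral_nonneg fun y => by positivity
  have hG0 : 0 ≤ G := integral_nonneg fun y => grad1_nonneg u y
  have h1 : ∀ s : ℝ, 0 ≤ G * (s * s) + (-((-estar z) * Q)) * s + (-limE z) := by
    intro s
    rcases le_or_gt s 0 with hs | hs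
    · have : 0 ≤ (-estar z) * Q := mul_nonneg (by linarith) hQ0
      have h4 : 0 ≤ (-((-estar z) * Q)) * s := by nlinarith
      have h5 : 0 ≤ G * (s * s) := mul_nonneg hG0 (mul_self_nonneg s)
      linarith
    · have h3 := limE_le z (trial1_scl hs h)
      rw [limFun_scl z hs h] at h3
      have e : G * (s * s) + (-((-estar z) * Q)) * s = s ^ 2 * G + s * (estar z * Q) := by ring
      rw [e]
      linarith
  have h2 := discrim_le_zero h1
  unfold discrim at h2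
  nlinarith only [h2]

/-- sharp inequality, general functions -/
theorem gn_sharp {z : ℝ} (hz : 0 < z) {u : E3 → ℂ} (h : ContDiff ℝ (⊤ : ℕ∞) u)
    (hs : HasCompactSupport u) :
    (ENNReal.ofReal (-estar z) * ∫⁻ y, ENNReal.ofReal (‖u y‖ ^ 2) ^ (4 / 3 : ℝ)) ^ 2 ≤
      ENNReal.ofReal (4 * (-limE z)) * (∫⁻ y, ENNReal.ofReal (grad1 u y)) *
        (∫⁻ y, ENNReal.ofReal (‖u y‖ ^ 2)) ^ (5 / 3 : ℝ) := by
  have he := estar_nonpos hz
  have hL := limE_nonpos z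
  rw [lintegral_q h hs, lintegral_g h hs, lintegral_m h hs]
  set m := ∫ y, ‖u y‖ ^ 2 with hm
  set G := ∫ x, grad1 u x with hG
  set Q := ∫ x, (‖u x‖ ^ 2) ^ (4 / 3 : ℝ) with hQ
  have hQ0 : 0 ≤ Q := integral_nonneg fun y => by positivity
  have hG0 : 0 ≤ G := integral_nonneg fun y => grad1_nonneg u y
  have hm0 : 0 ≤ m := integral_nonneg fun y => sq_nonneg _
  rcases hm0.eq_or_lt with h0 | h0
  · -- u = 0
    have hu : ∀ x, ‖u x‖ ^ 2 = 0 := by
      have h1 := (integral_eq_zero_iff_of_nonneg (fun x => sq_nonneg (‖u x‖))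
        (integrable_normSq h hs)).1 h0.symm
      have h2 := (h.continuous.norm.pow 2).ae_eq_iff_eq (volume : Measure E3)
        (g := fun _ => (0 : ℝ)) continuous_const
      have h3 := h2.1 h1
      intro x
      exact congrFun h3 x
    have hQz : Q = 0 := by
      rw [hQ]
      simp only [hu]
      rw [Real.zero_rpow (by norm_num)]
      simp
    rw [hQz]
    simp
  · set c : ℝ := (Real.sqrt m)⁻¹ with hc
    have hsm : 0 < Real.sqrt m := Real.sqrt_pos.2 h0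
    have hc2 : c ^ 2 = m⁻¹ := by rw [hc, inv_pow, Real.sq_sqrt h0.le]
    set v : E3 → ℂ := fun x => (c : ℂ) * u x with hv
    have hvn : ∀ x, ‖v x‖ ^ 2 = m⁻¹ * ‖u x‖ ^ 2 := by
      intro x
      rw [hv]
      simp only
      rw [norm_mul, mul_pow, Complex.norm_real, Real.norm_eq_abs, sq_abs, hc2]
    have hvg : ∀ x, grad1 v x = m⁻¹ * grad1 u x := by
      intro x
      have hd : Differentiable ℝ u := h.differentiable (by simp)
      unfold grad1
      rw [Finset.mul_sum]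
      refine Finset.sum_congr rfl fun a _ => ?_
      have h2 : HasFDerivAt v ((c : ℂ) • fderiv ℝ u x) x := (hd x).hasFDerivAt.const_mul _
      rw [h2.fderiv]
      show ‖(c : ℂ) • (fderiv ℝ u x) (EuclideanSpace.single a (1 : ℝ))‖ ^ 2 = _
      rw [norm_smul, mul_pow, Complex.norm_real, Real.norm_eq_abs, sq_abs, hc2]
    have hvt : Trial1 v := by
      refine ⟨contDiff_const.mul h, hs.mul_left, ?_⟩
      simp only [hvn]
      rw [integral_const_mul, ← hm, inv_mul_cancel₀ h0.ne']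
    have h1 := gn_sharp1 hz hvt
    have e1 : ∫ y, (‖v y‖ ^ 2) ^ (4 / 3 : ℝ) = (m⁻¹) ^ (4 / 3 : ℝ) * Q := by
      have : ∀ y, (‖v y‖ ^ 2) ^ (4 / 3 : ℝ) = (m⁻¹) ^ (4 / 3 : ℝ) * (‖u y‖ ^ 2) ^ (4 / 3 : ℝ) := by
        intro y
        rw [hvn, Real.mul_rpow (by positivity) (by positivity)]
      simp only [this]
      rw [integral_const_mul]
    have e2 : ∫ y, grad1 v y = m⁻¹ * G := by
      simp only [hvg]
      rw [integral_const_mul]
    rw [e1, e2] at h1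
    have hmp : 0 < m ^ (4 / 3 : ℝ) := by positivity
    have e3 : (m⁻¹) ^ (4 / 3 : ℝ) = (m ^ (4 / 3 : ℝ))⁻¹ := Real.inv_rpow h0.le _
    have e4 : (m ^ (4 / 3 : ℝ)) ^ 2 = m ^ (5 / 3 : ℝ) * m := by
      rw [← Real.rpow_natCast, ← Real.rpow_mul h0.le]
      nth_rewrite 3 [← Real.rpow_one m]
      rw [← Real.rpow_add h0]
      norm_num
    have h2 : ((-estar z) * Q) ^ 2 ≤ 4 * (-limE z) * G * m ^ (5 / 3 : ℝ) := by
      have h3 : ((-estar z) * Q) ^ 2 = (m ^ (4 / 3 : ℝ)) ^ 2 *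
          ((-estar z) * ((m⁻¹) ^ (4 / 3 : ℝ) * Q)) ^ 2 := by
        rw [e3]; field_simp
      rw [h3]
      calc (m ^ (4 / 3 : ℝ)) ^ 2 * ((-estar z) * ((m⁻¹) ^ (4 / 3 : ℝ) * Q)) ^ 2
          ≤ (m ^ (4 / 3 : ℝ)) ^ 2 * (4 * (-limE z) * (m⁻¹ * G)) :=
            mul_le_mul_of_nonneg_left h1 (by positivity)
        _ = 4 * (-limE z) * G * m ^ (5 / 3 : ℝ) := by
            rw [e4]; field_simp
    have hE0 : 0 ≤ -estar z := by linarith
    have hL0 : 0 ≤ -limE z := by linarith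
    rw [← ENNReal.ofReal_mul hE0, ← ENNReal.ofReal_pow (by positivity),
      ENNReal.ofReal_rpow_of_nonneg hm0 (by norm_num), ← ENNReal.ofReal_mul (by positivity),
      ← ENNReal.ofReal_mul (by positivity)]
    exact ENNReal.ofReal_le_ofReal h2

end oneparticle

section manybody
variable {N : ℕ}

/-- kinetic energy as an iterated integral -/
theorem kin_eq {ψ : Conf N → ℂ} (h : Trial ψ) :
    kin ψ = ∑ i, ∫⁻ x, ∫⁻ y, kd ψ i (Function.update x i y) ∂volume ∂(mu i) := by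
  unfold kin
  refine Finset.sum_congr rfl fun i _ => ?_
  exact lintegral_disint i (measurable_kd h.smooth i)

theorem num_eq {ψ : Conf N → ℂ} (h : Trial ψ) :
    (N : ℝ≥0∞) = ∑ i, ∫⁻ x, ∫⁻ y, dens ψ (Function.update x i y) ∂volume ∂(mu i) := by
  have hd := measurable_dens h.smooth.continuous
  have : ∀ i : Fin N, ∫⁻ x, ∫⁻ y, dens ψ (Function.update x i y) ∂volume ∂(mu i) = 1 := by
    intro i
    rw [← lintegral_disint i hd]
    exact lintegral_dens h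
  simp only [this]
  simp

theorem measurable_kslice {ψ : Conf N → ℂ} (h : Trial ψ) (i : Fin N) :
    Measurable fun x : Conf N => ∫⁻ y, kd ψ i (Function.update x i y) :=
  (measurable_slice_comp (measurable_kd h.smooth i) i).lintegral_prod_right'

theorem measurable_dslice {ψ : Conf N → ℂ} (h : Trial ψ) (i : Fin N) :
    Measurable fun x : Conf N => ∫⁻ y, dens ψ (Function.update x i y) :=
  (measurable_slice_comp (measurable_dens h.smooth.continuous) i).lintegral_prod_right'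

theorem kd_slice {ψ : Conf N → ℂ} (h : Trial ψ) (i : Fin N) (x : Conf N) (y : E3) :
    kd ψ i (Function.update x i y) = ENNReal.ofReal (grad1 (slice ψ x i) y) := by
  rw [grad1_slice (h.smooth.differentiable (by simp))]; rfl

theorem dens_slice (ψ : Conf N → ℂ) (i : Fin N) (x : Conf N) (y : E3) :
    dens ψ (Function.update x i y) = ENNReal.ofReal (‖slice ψ x i y‖ ^ 2) := rfl

/-- Sobolev inequality for the one-particle density -/
theorem R3_le {S : ℝ} (hsob : ∀ u : E3 → ℂ, ContDiff ℝ 1 u → HasCompactSupport u →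
    (∫⁻ y, ENNReal.ofReal (‖u y‖ ^ 2) ^ 3) ^ (1 / 3 : ℝ) ≤
      ENNReal.ofReal S * ∫⁻ y, ENNReal.ofReal (grad1 u y)) {ψ : Conf N → ℂ} (h : Trial ψ) :
    R3 ψ ≤ (ENNReal.ofReal S * kin ψ) ^ 3 := by
  have hd := measurable_dens h.smooth.continuous
  have hρ := measurable_rho hd
  have hfin := R3_ne_top h.smooth.continuous h.compact
  by_cases h0 : R3 ψ = 0
  · rw [h0]; exact zero_le
  have hpq : (3 : ℝ).HolderConjugate (3 / 2) := by
    rw [Real.holderConjugate_iff]; norm_num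
  have h1 := dual_bound hpq hd (g := fun y => rho (dens ψ) y ^ 2) (hρ.pow_const 2)
  have e1 : ∀ y, rho (dens ψ) y ^ 2 * rho (dens ψ) y = rho (dens ψ) y ^ 3 := fun y => by ring
  have e2 : ∀ y, (rho (dens ψ) y ^ 2) ^ (3 / 2 : ℝ) = rho (dens ψ) y ^ 3 := by
    intro y
    rw [← ENNReal.rpow_natCast, ← ENNReal.rpow_mul, ← ENNReal.rpow_natCast]
    norm_num
  simp only [e1, e2] at h1
  have h2 : ∑ i, ∫⁻ x, (∫⁻ y, dens ψ (Function.update x i y) ^ (3 : ℝ)) ^ (1 / 3 : ℝ) ∂(mu i) ≤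
      ENNReal.ofReal S * kin ψ := by
    rw [kin_eq h, Finset.mul_sum]
    refine Finset.sum_le_sum fun i _ => ?_
    rw [← lintegral_const_mul _ (measurable_kslice h i)]
    apply lintegral_mono
    intro x
    have hs := hsob (slice ψ x i) ((contDiff_slice h.smooth x i).of_le
      (by exact_mod_cast le_top)) (hasCompactSupport_slice h.compact x i)
    have e3 : ∀ y, dens ψ (Function.update x i y) ^ (3 : ℝ) =
        ENNReal.ofReal (‖slice ψ x i y‖ ^ 2) ^ 3 := by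
      intro y
      rw [dens_slice, ← ENNReal.rpow_natCast]; norm_num
    simp only [e3, kd_slice h]
    exact hs
  have h3 : R3 ψ ≤ (R3 ψ) ^ (2 / 3 : ℝ) * (ENNReal.ofReal S * kin ψ) := by
    have e4 : (1 : ℝ) / (3 / 2) = 2 / 3 := by norm_num
    rw [e4] at h1
    exact h1.trans (mul_le_mul' le_rfl h2)
  have hne : (R3 ψ) ^ (2 / 3 : ℝ) ≠ 0 := by
    rw [Ne, ENNReal.rpow_eq_zero_iff]
    rintro (⟨h4, _⟩ | ⟨h4, _⟩)
    · exact h0 h4
    · exact hfin h4
  have hnt : (R3 ψ) ^ (2 / 3 : ℝ) ≠ ∞ := ENNReal.rpow_ne_top_of_nonneg (by norm_num) hfin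
  have h4 : (R3 ψ) ^ (1 / 3 : ℝ) ≤ ENNReal.ofReal S * kin ψ := by
    have e5 : R3 ψ = (R3 ψ) ^ (2 / 3 : ℝ) * (R3 ψ) ^ (1 / 3 : ℝ) := by
      rw [← ENNReal.rpow_add _ _ h0 hfin]
      norm_num
    have h5 : (R3 ψ) ^ (2 / 3 : ℝ) * (R3 ψ) ^ (1 / 3 : ℝ) ≤
        (R3 ψ) ^ (2 / 3 : ℝ) * (ENNReal.ofReal S * kin ψ) := by
      rw [← e5]; exact h3
    exact (ENNReal.mul_le_mul_iff_right hne hnt).1 h5
  calc R3 ψ = ((R3 ψ) ^ (1 / 3 : ℝ)) ^ 3 := by
        rw [← ENNReal.rpow_natCast, ← ENNReal.rpow_mul]; norm_num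
    _ ≤ _ := pow_le_pow_left' h4 3

/-- Gagliardo–Nirenberg inequality for the one-particle density -/
theorem R43_le {z : ℝ} (hz : 0 < z) {ψ : Conf N → ℂ} (h : Trial ψ) :
    ENNReal.ofReal (-estar z) * R43 ψ ≤
      ENNReal.ofReal (4 * (-limE z)) ^ (1 / 2 : ℝ) * (kin ψ) ^ (1 / 2 : ℝ) *
        (N : ℝ≥0∞) ^ (5 / 6 : ℝ) := by
  have hd := measurable_dens h.smooth.continuous
  have hρ := measurable_rho hd
  have hfin := R43_ne_top h.smooth.continuous h.compact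
  by_cases h0 : R43 ψ = 0
  · rw [h0, mul_zero]; exact zero_le
  set E := ENNReal.ofReal (-estar z) with hE
  set A := ENNReal.ofReal (4 * (-limE z)) with hA
  have hpq : (4 / 3 : ℝ).HolderConjugate 4 := by
    rw [Real.holderConjugate_iff]; norm_num
  have h1 := dual_bound hpq hd (g := fun y => rho (dens ψ) y ^ (1 / 3 : ℝ)) (hρ.pow_const _)
  have e1 : ∀ y, rho (dens ψ) y ^ (1 / 3 : ℝ) * rho (dens ψ) y =
      rho (dens ψ) y ^ (4 / 3 : ℝ) := by
    intro y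
    nth_rewrite 2 [← ENNReal.rpow_one (rho (dens ψ) y)]
    rw [← ENNReal.rpow_add_of_nonneg _ _ (by norm_num) (by norm_num)]
    norm_num
  have e2 : ∀ y, (rho (dens ψ) y ^ (1 / 3 : ℝ)) ^ (4 : ℝ) = rho (dens ψ) y ^ (4 / 3 : ℝ) := by
    intro y
    rw [← ENNReal.rpow_mul]
    norm_num
  simp only [e1, e2] at h1
  have e3 : (1 : ℝ) / (4 / 3) = 3 / 4 := by norm_num
  rw [e3] at h1
  set Z := ∑ i, ∫⁻ x, (∫⁻ y, dens ψ (Function.update x i y) ^ (4 / 3 : ℝ)) ^ (3 / 4 : ℝ) ∂(mu i)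
    with hZ
  -- pointwise
  have hpt : ∀ (i : Fin N) (x : Conf N),
      E ^ (3 / 4 : ℝ) * (∫⁻ y, dens ψ (Function.update x i y) ^ (4 / 3 : ℝ)) ^ (3 / 4 : ℝ) ≤
      A ^ (3 / 8 : ℝ) * ((∫⁻ y, kd ψ i (Function.update x i y)) ^ (3 / 8 : ℝ) *
        (∫⁻ y, dens ψ (Function.update x i y)) ^ (5 / 8 : ℝ)) := by
    intro i x
    have hs := gn_sharp hz (contDiff_slice h.smooth x i) (hasCompactSupport_slice h.compact x i)
    simp only [dens_slice, kd_slice h]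
    have h2 := ENNReal.rpow_le_rpow hs (show (0 : ℝ) ≤ 3 / 8 by norm_num)
    rw [ENNReal.mul_rpow_of_nonneg _ _ (by norm_num : (0 : ℝ) ≤ 3 / 8),
      ENNReal.mul_rpow_of_nonneg _ _ (by norm_num : (0 : ℝ) ≤ 3 / 8), ← ENNReal.rpow_mul,
      ← ENNReal.rpow_natCast, ← ENNReal.rpow_mul,
      ENNReal.mul_rpow_of_nonneg _ _ (by norm_num)] at h2
    have e4 : ((2 : ℕ) : ℝ) * (3 / 8) = 3 / 4 := by norm_num
    have e5 : (5 / 3 : ℝ) * (3 / 8) = 5 / 8 := by norm_num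
    rw [e4, e5] at h2
    refine h2.trans (le_of_eq ?_)
    rw [mul_assoc]
  -- integrate
  have hmk := measurable_kslice h
  have hmd := measurable_dslice h
  have hsum : E ^ (3 / 4 : ℝ) * Z ≤ A ^ (3 / 8 : ℝ) *
      ((kin ψ) ^ (3 / 8 : ℝ) * (N : ℝ≥0∞) ^ (5 / 8 : ℝ)) := by
    have hpq2 : (8 / 3 : ℝ).HolderConjugate (8 / 5) := by
      rw [Real.holderConjugate_iff]; norm_num
    have step1 : ∀ i : Fin N, E ^ (3 / 4 : ℝ) *
        ∫⁻ x, (∫⁻ y, dens ψ (Function.update x i y) ^ (4 / 3 : ℝ)) ^ (3 / 4 : ℝ) ∂(mu i) ≤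
        A ^ (3 / 8 : ℝ) *
          ((∫⁻ x, ∫⁻ y, kd ψ i (Function.update x i y) ∂volume ∂(mu i)) ^ (3 / 8 : ℝ) *
          (∫⁻ x, ∫⁻ y, dens ψ (Function.update x i y) ∂volume ∂(mu i)) ^ (5 / 8 : ℝ)) := by
      intro i
      have hmq : Measurable fun x : Conf N =>
          (∫⁻ y, dens ψ (Function.update x i y) ^ (4 / 3 : ℝ)) ^ (3 / 4 : ℝ) := by
        have : Measurable fun x : Conf N =>
            ∫⁻ y, dens ψ (Function.update x i y) ^ (4 / 3 : ℝ) :=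
          ((measurable_slice_comp hd i).pow_const _).lintegral_prod_right'
        exact this.pow_const _
      have hmkd : Measurable fun x : Conf N =>
          (∫⁻ y, kd ψ i (Function.update x i y)) ^ (3 / 8 : ℝ) *
          (∫⁻ y, dens ψ (Function.update x i y)) ^ (5 / 8 : ℝ) :=
        ((hmk i).pow_const _).mul ((hmd i).pow_const _)
      rw [← lintegral_const_mul _ hmq]
      refine (lintegral_mono (hpt i)).trans ?_
      rw [lintegral_const_mul _ hmkd]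
      refine mul_le_mul' le_rfl ?_
      have hh := ENNReal.lintegral_mul_le_Lp_mul_Lq (mu i) hpq2
        ((hmk i).pow_const (3 / 8 : ℝ)).aemeasurable ((hmd i).pow_const (5 / 8 : ℝ)).aemeasurable
      simp only [Pi.mul_apply, ← ENNReal.rpow_mul] at hh
      have e6 : (3 / 8 : ℝ) * (8 / 3) = 1 := by norm_num
      have e7 : (5 / 8 : ℝ) * (8 / 5) = 1 := by norm_num
      have e8 : (1 : ℝ) / (8 / 3) = 3 / 8 := by norm_num
      have e9 : (1 : ℝ) / (8 / 5) = 5 / 8 := by norm_num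
      simp only [e6, e7, e8, e9, ENNReal.rpow_one] at hh
      exact hh
    calc E ^ (3 / 4 : ℝ) * Z
        = ∑ i, E ^ (3 / 4 : ℝ) * ∫⁻ x,
          (∫⁻ y, dens ψ (Function.update x i y) ^ (4 / 3 : ℝ)) ^ (3 / 4 : ℝ) ∂(mu i) := by
          rw [hZ, Finset.mul_sum]
      _ ≤ ∑ i : Fin N, A ^ (3 / 8 : ℝ) *
          ((∫⁻ x, ∫⁻ y, kd ψ i (Function.update x i y) ∂volume ∂(mu i)) ^ (3 / 8 : ℝ) *
          (∫⁻ x, ∫⁻ y, dens ψ (Function.update x i y) ∂volume ∂(mu i)) ^ (5 / 8 : ℝ)) :=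
          Finset.sum_le_sum fun i _ => step1 i
      _ ≤ A ^ (3 / 8 : ℝ) * ((kin ψ) ^ (3 / 8 : ℝ) * (N : ℝ≥0∞) ^ (5 / 8 : ℝ)) := by
          rw [← Finset.mul_sum]
          refine mul_le_mul' le_rfl ?_
          have hh := ENNReal.inner_le_Lp_mul_Lq Finset.univ
            (fun i : Fin N => (∫⁻ x, ∫⁻ y, kd ψ i (Function.update x i y) ∂volume ∂(mu i)) ^
              (3 / 8 : ℝ))
            (fun i : Fin N => (∫⁻ x, ∫⁻ y, dens ψ (Function.update x i y) ∂volume ∂(mu i)) ^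
              (5 / 8 : ℝ)) hpq2
          simp only [← ENNReal.rpow_mul] at hh
          have e6 : (3 / 8 : ℝ) * (8 / 3) = 1 := by norm_num
          have e7 : (5 / 8 : ℝ) * (8 / 5) = 1 := by norm_num
          have e8 : (1 : ℝ) / (8 / 3) = 3 / 8 := by norm_num
          have e9 : (1 : ℝ) / (8 / 5) = 5 / 8 := by norm_num
          simp only [e6, e7, e8, e9, ENNReal.rpow_one] at hh
          rw [← kin_eq h, ← num_eq h] at hh
          exact hh
  -- conclude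
  have hne : (R43 ψ) ^ (1 / 4 : ℝ) ≠ 0 := by
    rw [Ne, ENNReal.rpow_eq_zero_iff]
    rintro (⟨h4, _⟩ | ⟨h4, _⟩)
    · exact h0 h4
    · exact hfin h4
  have hnt : (R43 ψ) ^ (1 / 4 : ℝ) ≠ ∞ := ENNReal.rpow_ne_top_of_nonneg (by norm_num) hfin
  have h4 : (R43 ψ) ^ (3 / 4 : ℝ) ≤ Z := by
    have e5 : R43 ψ = (R43 ψ) ^ (1 / 4 : ℝ) * (R43 ψ) ^ (3 / 4 : ℝ) := by
      rw [← ENNReal.rpow_add _ _ h0 hfin]
      norm_num
    have h5 : (R43 ψ) ^ (1 / 4 : ℝ) * (R43 ψ) ^ (3 / 4 : ℝ) ≤ (R43 ψ) ^ (1 / 4 : ℝ) * Z := by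
      rw [← e5]; exact h1
    exact (ENNReal.mul_le_mul_iff_right hne hnt).1 h5
  have h6 : (E * R43 ψ) ^ (3 / 4 : ℝ) ≤ A ^ (3 / 8 : ℝ) *
      ((kin ψ) ^ (3 / 8 : ℝ) * (N : ℝ≥0∞) ^ (5 / 8 : ℝ)) := by
    rw [ENNReal.mul_rpow_of_nonneg _ _ (by norm_num)]
    exact (mul_le_mul' le_rfl h4).trans hsum
  have h7 := ENNReal.rpow_le_rpow h6 (show (0 : ℝ) ≤ 4 / 3 by norm_num)
  rw [ENNReal.mul_rpow_of_nonneg _ _ (by norm_num : (0 : ℝ) ≤ 4 / 3),
    ENNReal.mul_rpow_of_nonneg _ _ (by norm_num : (0 : ℝ) ≤ 4 / 3), ← ENNReal.rpow_mul,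
    ← ENNReal.rpow_mul, ← ENNReal.rpow_mul, ← ENNReal.rpow_mul] at h7
  have e6 : (3 / 4 : ℝ) * (4 / 3) = 1 := by norm_num
  have e7 : (3 / 8 : ℝ) * (4 / 3) = 1 / 2 := by norm_num
  have e8 : (5 / 8 : ℝ) * (4 / 3) = 5 / 6 := by norm_num
  rw [e6, e7, e8, ENNReal.rpow_one, ← mul_assoc] at h7
  exact h7

end manybody

end Pool.Agent.Lib_helper90c
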