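import Pool.Agent.Lib_helper90c.H1Approx

/-!
# Coulomb energies of `H¹` functions
-/

set_option autoImplicit false
set_option linter.unusedSectionVars false

open MeasureTheory Set Metric Filter
open scoped ENNReal NNReal Topology

namespace Pool.Agent.Lib_helper90c

theorem enorm_sq_eq (c : ℂ) : ‖c‖ₑ ^ 2 = ENNReal.ofReal (‖c‖ ^ 2) := by
  rw [← ofReal_norm, ENNReal.ofReal_pow (norm_nonneg _)]

/-- Coulomb uncertainty inequality, one particle -/
theorem coul_one {S : ℝ} (hsob : ∀ u : E3 → ℂ, ContDiff ℝ 1 u → HasCompactSupport u →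
    (∫⁻ y, ENNReal.ofReal (‖u y‖ ^ 2) ^ 3) ^ (1 / 3 : ℝ) ≤
      ENNReal.ofReal S * ∫⁻ y, ENNReal.ofReal (grad1 u y)) {f : E3 → ℂ} (hf : ContDiff ℝ 1 f)
    (hs : HasCompactSupport f) (c : E3) :
    ∫⁻ y, ENNReal.ofReal ‖y - c‖⁻¹ * ENNReal.ofReal (‖f y‖ ^ 2) ≤
      ENNReal.ofReal (c1 * S) * (∫⁻ y, ENNReal.ofReal (grad1 f y)) +
        ∫⁻ y, ENNReal.ofReal (‖f y‖ ^ 2) := by
  have hwm : Measurable fun y => ENNReal.ofReal (‖f y‖ ^ 2) := by
    have := hf.continuous; fun_prop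
  have hkm : Measurable fun y : E3 => ENNReal.ofReal ‖y - c‖⁻¹ := by fun_prop
  have hB : MeasurableSet (ball c 1) := measurableSet_ball
  rw [← lintegral_add_compl _ hB]
  refine add_le_add ?_ ?_
  · refine (holder3 hkm hwm).trans ?_
    have h1 := lintegral_inv_ball one_pos c (mem_ball_self one_pos)
    rw [Real.one_rpow, ENNReal.ofReal_one, one_mul] at h1
    have h2 : (∫⁻ x in ball c 1, ENNReal.ofReal (‖f x‖ ^ 2) ^ 3) ^ (1 / 3 : ℝ) ≤
        ENNReal.ofReal S * ∫⁻ y, ENNReal.ofReal (grad1 f y) :=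
      (ENNReal.rpow_le_rpow (setLIntegral_le_lintegral _ _) (by norm_num)).trans (hsob f hf hs)
    calc (∫⁻ x in ball c 1, ENNReal.ofReal ‖x - c‖⁻¹ ^ (3 / 2 : ℝ)) ^ (2 / 3 : ℝ) *
          (∫⁻ x in ball c 1, ENNReal.ofReal (‖f x‖ ^ 2) ^ 3) ^ (1 / 3 : ℝ)
        ≤ cH ^ (2 / 3 : ℝ) * (ENNReal.ofReal S * ∫⁻ y, ENNReal.ofReal (grad1 f y)) :=
          mul_le_mul' (ENNReal.rpow_le_rpow h1 (by norm_num)) h2
      _ = _ := by
          rw [← ofReal_c1, ← mul_assoc, ← ENNReal.ofReal_mul c1_nonneg]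
  · calc ∫⁻ y in (ball c 1)ᶜ, ENNReal.ofReal ‖y - c‖⁻¹ * ENNReal.ofReal (‖f y‖ ^ 2)
        ≤ ∫⁻ y in (ball c 1)ᶜ, ENNReal.ofReal (‖f y‖ ^ 2) := by
          apply setLIntegral_mono' hB.compl
          intro y hy
          have h1 : ENNReal.ofReal ‖y - c‖⁻¹ ≤ 1 := by
            rw [ENNReal.ofReal_le_one]
            apply inv_le_one_of_one_le₀
            rw [mem_compl_iff, mem_ball_iff_norm, not_lt] at hy
            exact hy
          calc _ ≤ 1 * ENNReal.ofReal (‖f y‖ ^ 2) := by gcongr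
            _ = _ := one_mul _
      _ ≤ _ := setLIntegral_le_lintegral _ _

section
variable {N : ℕ}

/-- Coulomb uncertainty inequality, many particles -/
theorem coul_many {S : ℝ} (hsob : ∀ u : E3 → ℂ, ContDiff ℝ 1 u → HasCompactSupport u →
    (∫⁻ y, ENNReal.ofReal (‖u y‖ ^ 2) ^ 3) ^ (1 / 3 : ℝ) ≤
      ENNReal.ofReal S * ∫⁻ y, ENNReal.ofReal (grad1 u y)) {u : Conf N → ℂ}
    (hu : ContDiff ℝ (⊤ : ℕ∞) u) (hs : HasCompactSupport u) (i : Fin N) {Y : Conf N → E3}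
    (hYm : Measurable Y) (hY : ∀ x y, Y (Function.update x i y) = Y x) :
    ∫⁻ x, ENNReal.ofReal ‖x i - Y x‖⁻¹ * dens u x ≤
      ENNReal.ofReal (c1 * S) * (∫⁻ x, kd u i x) + ∫⁻ x, dens u x := by
  have hd := measurable_dens hu.continuous
  have hk := measurable_kd hu i
  have hm1 : Measurable fun x : Conf N => ENNReal.ofReal ‖x i - Y x‖⁻¹ :=
    ((measurable_pi_apply i).sub hYm).norm.inv.ennreal_ofReal
  rw [← lintegral_const_mul _ hk, ← lintegral_add_left (hk.const_mul _)]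
  refine lintegral_update_le i (hm1.mul hd) ((hk.const_mul _).add hd) fun x => ?_
  have hdx : ∀ y, dens u (Function.update x i y) = ENNReal.ofReal (‖slice u x i y‖ ^ 2) :=
    fun y => rfl
  have hkx : ∀ y, kd u i (Function.update x i y) = ENNReal.ofReal (grad1 (slice u x i) y) :=
    fun y => by rw [grad1_slice (hu.differentiable (by simp))]; rfl
  simp only [hdx, hkx, Function.update_self, hY]
  have hc := contDiff_one hu x i
  have hcc := hc.continuous
  have hg : Continuous (grad1 (slice u x i)) := continuous_grad1 (contDiff_slice hu x i)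
  have hgm : Measurable fun y => ENNReal.ofReal (grad1 (slice u x i) y) :=
    hg.measurable.ennreal_ofReal
  rw [lintegral_add_left (hgm.const_mul _), lintegral_const_mul _ hgm]
  exact coul_one hsob hc (hasCompactSupport_slice hs x i) (Y x)

/-- general formula for the Coulomb energy -/
theorem integral_coul' {ψ : Conf N → ℂ} {k : Conf N → ℝ} (hk : Measurable k) (hk0 : ∀ x, 0 ≤ k x)
    (hm : Measurable ψ) (hfin : ∫⁻ x, ENNReal.ofReal (k x) * dens ψ x < ∞) :
    Integrable (fun x => k x * ‖ψ x‖ ^ 2) ∧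
      ∫ x, k x * ‖ψ x‖ ^ 2 = (∫⁻ x, ENNReal.ofReal (k x) * dens ψ x).toReal := by
  have e : ∀ x, ENNReal.ofReal (k x * ‖ψ x‖ ^ 2) = ENNReal.ofReal (k x) * dens ψ x := by
    intro x; unfold dens; rw [ENNReal.ofReal_mul (hk0 x)]
  have hm : Measurable fun x => k x * ‖ψ x‖ ^ 2 := hk.mul (hm.norm.pow_const 2)
  have h1 : ∫⁻ x, ENNReal.ofReal (k x * ‖ψ x‖ ^ 2) < ∞ := by simp only [e]; exact hfin
  constructor
  · refine ⟨hm.aestronglyMeasurable, ?_⟩
    rw [hasFiniteIntegral_iff_ofReal (Eventually.of_forall fun x =>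
      mul_nonneg (hk0 x) (sq_nonneg _))]
    exact h1
  · rw [integral_eq_lintegral_of_nonneg_ae (Eventually.of_forall fun x =>
      mul_nonneg (hk0 x) (sq_nonneg _)) hm.aestronglyMeasurable]
    simp only [e]

theorem coulomb_eq (z : ℝ) {K : ℕ} (R : Fin K → E3) {ψ : Conf N → ℂ} (hm : Measurable ψ)
    (hf1 : ∀ i j : Fin N, ∫⁻ x, ENNReal.ofReal ‖x i - x j‖⁻¹ * dens ψ x < ∞)
    (hf2 : ∀ (i : Fin N) (k : Fin K), ∫⁻ x, ENNReal.ofReal ‖x i - R k‖⁻¹ * dens ψ x < ∞)
    (hn : Integrable fun x : Conf N => ‖ψ x‖ ^ 2) :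
    Integrable (fun x => coulomb z R x * ‖ψ x‖ ^ 2) ∧ ∫ x, coulomb z R x * ‖ψ x‖ ^ 2 =
      (Pee ψ).toReal - z * (Aen R ψ).toReal + z ^ 2 * rep R * ∫ x, ‖ψ x‖ ^ 2 := by
  have hm2 : ∀ i j : Fin N, Measurable fun x : Conf N => ‖x i - x j‖⁻¹ := by
    intro i j
    exact ((measurable_pi_apply i).sub (measurable_pi_apply j)).norm.inv
  have hm1 : ∀ (i : Fin N) (y : E3), Measurable fun x : Conf N => ‖x i - y‖⁻¹ := by
    intro i y
    exact ((measurable_pi_apply i).sub measurable_const).norm.inv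
  have hee : ∀ i j : Fin N, _ := fun i j =>
    integral_coul' (hm2 i j) (fun x => by positivity) hm (hf1 i j)
  have hen : ∀ (i : Fin N) (k : Fin K), _ := fun i k =>
    integral_coul' (hm1 i (R k)) (fun x => by positivity) hm (hf2 i k)
  have hcoul : ∀ x : Conf N, coulomb z R x * ‖ψ x‖ ^ 2 =
      (1 / 2) * (∑ i, ∑ j, ‖x i - x j‖⁻¹ * ‖ψ x‖ ^ 2) -
        z * (∑ i, ∑ k, ‖x i - R k‖⁻¹ * ‖ψ x‖ ^ 2) + z ^ 2 * rep R * ‖ψ x‖ ^ 2 := by
    intro x
    unfold coulomb
    rw [rep_eq_Ioi, rep_eq_Ioi]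
    unfold rep
    simp only [← Finset.sum_mul]
    ring
  simp only [hcoul]
  have i1 : Integrable fun x : Conf N => (1 / 2) * (∑ i, ∑ j, ‖x i - x j‖⁻¹ * ‖ψ x‖ ^ 2) :=
    (integrable_finsetSum _ fun i _ => integrable_finsetSum _ fun j _ => (hee i j).1).const_mul _
  have i2 : Integrable fun x : Conf N => z * (∑ i, ∑ k, ‖x i - R k‖⁻¹ * ‖ψ x‖ ^ 2) :=
    (integrable_finsetSum _ fun i _ => integrable_finsetSum _ fun j _ => (hen i j).1).const_mul _
  have i3 : Integrable fun x : Conf N => z ^ 2 * rep R * ‖ψ x‖ ^ 2 := hn.const_mul _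
  have i12 : Integrable fun x : Conf N => (1 / 2) * (∑ i, ∑ j, ‖x i - x j‖⁻¹ * ‖ψ x‖ ^ 2) -
      z * (∑ i, ∑ k, ‖x i - R k‖⁻¹ * ‖ψ x‖ ^ 2) := i1.sub i2
  refine ⟨i12.add i3, ?_⟩
  rw [integral_add i12 i3, integral_sub i1 i2, integral_const_mul, integral_const_mul,
    integral_const_mul,
    integral_finsetSum _ fun i _ => integrable_finsetSum _ fun j _ => (hee i j).1,
    integral_finsetSum _ fun i _ => integrable_finsetSum _ fun j _ => (hen i j).1]
  have e1 : ∑ i, ∫ x : Conf N, ∑ j, ‖x i - x j‖⁻¹ * ‖ψ x‖ ^ 2 =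
      ∑ i, ∑ j, (∫⁻ x : Conf N, ENNReal.ofReal ‖x i - x j‖⁻¹ * dens ψ x).toReal := by
    refine Finset.sum_congr rfl fun i _ => ?_
    rw [integral_finsetSum _ fun j _ => (hee i j).1]
    exact Finset.sum_congr rfl fun j _ => (hee i j).2
  have e2 : ∑ i, ∫ x : Conf N, ∑ k, ‖x i - R k‖⁻¹ * ‖ψ x‖ ^ 2 =
      ∑ i, ∑ k, (∫⁻ x : Conf N, ENNReal.ofReal ‖x i - R k‖⁻¹ * dens ψ x).toReal := by
    refine Finset.sum_congr rfl fun i _ => ?_
    rw [integral_finsetSum _ fun j _ => (hen i j).1]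
    exact Finset.sum_congr rfl fun j _ => (hen i j).2
  have e3 : (Pee ψ).toReal = (1 / 2) *
      ∑ i, ∑ j, (∫⁻ x : Conf N, ENNReal.ofReal ‖x i - x j‖⁻¹ * dens ψ x).toReal := by
    unfold Pee
    rw [ENNReal.toReal_mul, ENNReal.toReal_inv]
    congr 1
    · norm_num
    · rw [ENNReal.toReal_sum fun i _ => (ENNReal.sum_lt_top.2 fun j _ => hf1 i j).ne]
      refine Finset.sum_congr rfl fun i _ => ?_
      rw [ENNReal.toReal_sum fun j _ => (hf1 i j).ne]
  have e4 : (Aen R ψ).toReal =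
      ∑ i, ∑ k, (∫⁻ x : Conf N, ENNReal.ofReal ‖x i - R k‖⁻¹ * dens ψ x).toReal := by
    unfold Aen
    rw [ENNReal.toReal_sum fun i _ => (ENNReal.sum_lt_top.2 fun j _ => hf2 i j).ne]
    refine Finset.sum_congr rfl fun i _ => ?_
    rw [ENNReal.toReal_sum fun j _ => (hf2 i j).ne]
  rw [e1, e2, e3, e4]

/-- scaling of the energies -/
theorem dens_smul (c : ℝ) (u : Conf N → ℂ) (x : Conf N) :
    dens (fun x => (c : ℂ) * u x) x = ENNReal.ofReal (c ^ 2) * dens u x := by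
  unfold dens
  rw [norm_mul, mul_pow, Complex.norm_real, Real.norm_eq_abs, sq_abs,
    ENNReal.ofReal_mul (sq_nonneg _)]

theorem kd_smul (c : ℝ) {u : Conf N → ℂ} (hu : Differentiable ℝ u) (i : Fin N) (x : Conf N) :
    kd (fun x => (c : ℂ) * u x) i x = ENNReal.ofReal (c ^ 2) * kd u i x := by
  unfold kd gradSq
  rw [← ENNReal.ofReal_mul (sq_nonneg _), Finset.mul_sum]
  congr 1
  refine Finset.sum_congr rfl fun a _ => ?_
  have h2 : HasFDerivAt (fun x => (c : ℂ) * u x) ((c : ℂ) • fderiv ℝ u x) x :=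
    (hu x).hasFDerivAt.const_mul _
  rw [h2.fderiv]
  show ‖(c : ℂ) • (fderiv ℝ u x) (Pi.single i (EuclideanSpace.single a (1 : ℝ)))‖ ^ 2 = _
  rw [norm_smul, mul_pow, Complex.norm_real, Real.norm_eq_abs, sq_abs]

theorem Pee_smul (c : ℝ) {u : Conf N → ℂ} (hu : Continuous u) :
    Pee (fun x => (c : ℂ) * u x) = ENNReal.ofReal (c ^ 2) * Pee u := by
  have hd := measurable_dens hu
  unfold Pee
  simp only [dens_smul]
  have e : ∀ i j : Fin N, ∫⁻ x : Conf N, ENNReal.ofReal ‖x i - x j‖⁻¹ *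
      (ENNReal.ofReal (c ^ 2) * dens u x) =
      ENNReal.ofReal (c ^ 2) * ∫⁻ x : Conf N, ENNReal.ofReal ‖x i - x j‖⁻¹ * dens u x := by
    intro i j
    have hm : Measurable fun x : Conf N => ENNReal.ofReal ‖x i - x j‖⁻¹ * dens u x :=
      (measurable_inv_pi i j).ennreal_ofReal.mul hd
    rw [← lintegral_const_mul _ hm]
    congr 1; ext x; ring
  simp only [e, ← Finset.mul_sum]
  ring

theorem Aen_smul (c : ℝ) {K : ℕ} (R : Fin K → E3) {u : Conf N → ℂ} (hu : Continuous u) :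
    Aen R (fun x => (c : ℂ) * u x) = ENNReal.ofReal (c ^ 2) * Aen R u := by
  have hd := measurable_dens hu
  unfold Aen
  simp only [dens_smul]
  have e : ∀ (i : Fin N) (k : Fin K), ∫⁻ x : Conf N, ENNReal.ofReal ‖x i - R k‖⁻¹ *
      (ENNReal.ofReal (c ^ 2) * dens u x) =
      ENNReal.ofReal (c ^ 2) * ∫⁻ x : Conf N, ENNReal.ofReal ‖x i - R k‖⁻¹ * dens u x := by
    intro i k
    have hm : Measurable fun x : Conf N => ENNReal.ofReal ‖x i - R k‖⁻¹ * dens u x :=
      (measurable_inv_pt i (R k)).ennreal_ofReal.mul hd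
    rw [← lintegral_const_mul _ hm]
    congr 1; ext x; ring
  simp only [e, ← Finset.mul_sum]

/-- The variational inequality for unnormalised functions. -/
theorem energy_ge_gen {z g : ℝ} {K : ℕ} (R : Fin K → E3)
    (hg : ∀ ψ : Conf N → ℂ, Trial ψ → g ≤ energy z R ψ) {u : Conf N → ℂ}
    (hu : ContDiff ℝ (⊤ : ℕ∞) u) (hs : HasCompactSupport u) :
    g * (∫⁻ x, dens u x).toReal ≤ (kin u).toReal + (Pee u).toReal - z * (Aen R u).toReal +
      z ^ 2 * rep R * (∫⁻ x, dens u x).toReal := by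
  have hint : Integrable fun x : Conf N => ‖u x‖ ^ 2 :=
    (hu.continuous.norm.pow 2).integrable_of_hasCompactSupport (by
      refine hs.mono fun x hx => ?_
      by_contra hn
      apply hx
      have : u x = 0 := by by_contra h; exact hn h
      simp [this])
  have hse : ∫⁻ x, dens u x = ENNReal.ofReal (∫ x, ‖u x‖ ^ 2) := by
    rw [ofReal_integral_eq_lintegral_ofReal hint (Eventually.of_forall fun x => sq_nonneg _)]
    rfl
  set s : ℝ := ∫ x, ‖u x‖ ^ 2 with hsd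
  have hs0 : 0 ≤ s := integral_nonneg fun x => sq_nonneg _
  rw [hse, ENNReal.toReal_ofReal hs0]
  rcases hs0.eq_or_lt with h0 | h0
  · have hu0 : u = 0 := by
      have h1 := (integral_eq_zero_iff_of_nonneg (fun x => sq_nonneg (‖u x‖)) hint).1 h0.symm
      have h2 := (hu.continuous.norm.pow 2).ae_eq_iff_eq (volume : Measure (Conf N))
        (g := fun _ => (0 : ℝ)) continuous_const
      have h3 := h2.1 h1
      ext x
      have h4 := congrFun h3 x
      simpa using h4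
    have hdens : ∀ x, dens u x = 0 := by
      intro x; unfold dens; rw [hu0]; simp
    have hA : Aen R u = 0 := by unfold Aen; simp [hdens]
    rw [← h0, hA]
    simp only [mul_zero, ENNReal.toReal_zero, sub_zero, add_zero]
    positivity
  · set c : ℝ := (Real.sqrt s)⁻¹ with hc
    have hsq : 0 < Real.sqrt s := Real.sqrt_pos.2 h0
    have hc2 : c ^ 2 = s⁻¹ := by rw [hc, inv_pow, Real.sq_sqrt h0.le]
    have hv : Trial (fun x => (c : ℂ) * u x) := by
      refine ⟨contDiff_const.mul hu, hs.mul_left, ?_⟩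
      have e : ∀ x, ‖(c : ℂ) * u x‖ ^ 2 = s⁻¹ * ‖u x‖ ^ 2 := by
        intro x
        rw [norm_mul, mul_pow, Complex.norm_real, Real.norm_eq_abs, sq_abs, hc2]
      simp only [e]
      rw [integral_const_mul, ← hsd, inv_mul_cancel₀ h0.ne']
    have h1 := hg _ hv
    rw [energy_eq z R hv] at h1
    have hk : kinetic (fun x => (c : ℂ) * u x) = s⁻¹ * (kin u).toReal := by
      have h2 : (kin (fun x => (c : ℂ) * u x)).toReal = kinetic (fun x => (c : ℂ) * u x) := by
        rw [kin_eq_ofReal hv, ENNReal.toReal_ofReal (kinetic_nonneg _)]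
      rw [← h2]
      unfold kin
      simp only [kd_smul c (hu.differentiable (by simp))]
      have e : ∀ i : Fin N, ∫⁻ x, ENNReal.ofReal (c ^ 2) * kd u i x =
          ENNReal.ofReal (c ^ 2) * ∫⁻ x, kd u i x := fun i =>
        lintegral_const_mul _ (measurable_kd hu i)
      simp only [e, ← Finset.mul_sum]
      rw [ENNReal.toReal_mul, ENNReal.toReal_ofReal (sq_nonneg _), hc2]
    rw [hk, Pee_smul c hu.continuous, Aen_smul c R hu.continuous, ENNReal.toReal_mul,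
      ENNReal.toReal_mul, ENNReal.toReal_ofReal (sq_nonneg _), hc2] at h1
    have h3 := mul_le_mul_of_nonneg_right h1 h0.le
    have e : (s⁻¹ * (kin u).toReal + s⁻¹ * (Pee u).toReal - z * (s⁻¹ * (Aen R u).toReal) +
        z ^ 2 * rep R) * s = (kin u).toReal + (Pee u).toReal - z * (Aen R u).toReal +
        z ^ 2 * rep R * s := by field_simp
    rw [e] at h3
    exact h3

end

end Pool.Agent.Lib_helper90c
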