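import Pool.Agent.Lib_helper90c.H1Energy

/-!
# The energy of `H¹` functions is bounded below by the infimum over smooth functions
-/

set_option autoImplicit false
set_option linter.unusedSectionVars false

open MeasureTheory Set Metric Filter
open scoped ENNReal NNReal Topology

namespace Pool.Agent.Lib_helper90c

theorem n2_tendsto {α : Type} [MeasurableSpace α] {ν : Measure α} {f : α → ℂ} {F : ℕ → α → ℂ}
    (hF : ∀ n, AEStronglyMeasurable (F n) ν) (hf : AEStronglyMeasurable f ν)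
    (hfin : ∫⁻ x, ‖f x‖ₑ ^ 2 ∂ν ≠ ∞)
    (h : Tendsto (fun n => ∫⁻ x, ‖F n x - f x‖ₑ ^ 2 ∂ν) atTop (𝓝 0)) :
    Tendsto (fun n => ∫⁻ x, ‖F n x‖ₑ ^ 2 ∂ν) atTop (𝓝 (∫⁻ x, ‖f x‖ₑ ^ 2 ∂ν)) := by
  have hfL : MemLp f 2 ν := (memLp_iff_n2 hf).2 hfin
  have e : ∀ g : α → ℂ, ∫⁻ x, ‖g x‖ₑ ^ 2 ∂ν = (eLpNorm g 2 ν) ^ 2 := fun g =>
    (sq_eLpNorm_two g).symm
  have hd : Tendsto (fun n => eLpNorm (F n - f) 2 ν) atTop (𝓝 0) := by
    have h1 : ∀ n, eLpNorm (F n - f) 2 ν = (∫⁻ x, ‖F n x - f x‖ₑ ^ 2 ∂ν) ^ (1 / 2 : ℝ) := by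
      intro n
      have : ∫⁻ x, ‖F n x - f x‖ₑ ^ 2 ∂ν = (eLpNorm (F n - f) 2 ν) ^ 2 := e (F n - f)
      rw [this, ← ENNReal.rpow_natCast, ← ENNReal.rpow_mul]
      norm_num
    simp only [h1]
    have h2 := (ENNReal.continuous_rpow_const (y := (1 / 2 : ℝ))).tendsto (0 : ℝ≥0∞)
    rw [ENNReal.zero_rpow_of_pos (by norm_num)] at h2
    exact h2.comp h
  simp only [e]
  refine (ENNReal.continuous_pow 2).tendsto _ |>.comp ?_
  have hup : ∀ n, eLpNorm (F n) 2 ν ≤ eLpNorm f 2 ν + eLpNorm (F n - f) 2 ν := by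
    intro n
    have := eLpNorm_add_le hf ((hF n).sub hf) (p := 2) (by norm_num)
    simpa using this
  have hlo : ∀ n, eLpNorm f 2 ν - eLpNorm (F n - f) 2 ν ≤ eLpNorm (F n) 2 ν := by
    intro n
    rw [tsub_le_iff_right]
    have := eLpNorm_add_le (hF n) (hf.sub (hF n)) (p := 2) (by norm_num)
    rw [eLpNorm_sub_comm] at this
    simpa using this
  have t1 : Tendsto (fun n => eLpNorm f 2 ν + eLpNorm (F n - f) 2 ν) atTop
      (𝓝 (eLpNorm f 2 ν)) := by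
    simpa using hd.const_add (eLpNorm f 2 ν)
  have t2 : Tendsto (fun n => eLpNorm f 2 ν - eLpNorm (F n - f) 2 ν) atTop
      (𝓝 (eLpNorm f 2 ν)) := by
    have := ENNReal.Tendsto.sub (tendsto_const_nhds (x := eLpNorm f 2 ν)) hd (Or.inl hfL.2.ne)
    simpa using this
  exact tendsto_of_tendsto_of_tendsto_of_le_of_le t2 t1 hlo hup

/-- weighted version -/
theorem n2_tendsto_weight {α : Type} [MeasurableSpace α] {ν : Measure α} {k : α → ℝ≥0∞}
    (hk : Measurable k) {f : α → ℂ} {F : ℕ → α → ℂ}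
    (hF : ∀ n, Measurable (F n)) (hf : Measurable f)
    (hfin : ∫⁻ x, k x * ‖f x‖ₑ ^ 2 ∂ν ≠ ∞)
    (h : Tendsto (fun n => ∫⁻ x, k x * ‖F n x - f x‖ₑ ^ 2 ∂ν) atTop (𝓝 0)) :
    Tendsto (fun n => ∫⁻ x, k x * ‖F n x‖ₑ ^ 2 ∂ν) atTop (𝓝 (∫⁻ x, k x * ‖f x‖ₑ ^ 2 ∂ν)) := by
  have e : ∀ g : α → ℂ, Measurable g → ∫⁻ x, k x * ‖g x‖ₑ ^ 2 ∂ν =
      ∫⁻ x, ‖g x‖ₑ ^ 2 ∂(ν.withDensity k) := by
    intro g hg
    rw [lintegral_withDensity_eq_lintegral_mul _ hk (hg.enorm.pow_const 2)]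
    rfl
  have e2 : ∀ n, ∫⁻ x, k x * ‖F n x - f x‖ₑ ^ 2 ∂ν =
      ∫⁻ x, ‖F n x - f x‖ₑ ^ 2 ∂(ν.withDensity k) := fun n => e _ ((hF n).sub hf)
  simp only [e2] at h
  rw [e f hf] at hfin ⊢
  have e3 : ∀ n, ∫⁻ x, k x * ‖F n x‖ₑ ^ 2 ∂ν =
      ∫⁻ x, ‖F n x‖ₑ ^ 2 ∂(ν.withDensity k) := fun n => e _ (hF n)
  simp only [e3]
  exact n2_tendsto (fun n => (hF n).aestronglyMeasurable) hf.aestronglyMeasurable hfin h

section
variable {N : ℕ}

/-- direction of the coordinate `a` of particle `i` -/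
noncomputable def dirV (q : Fin N × Fin 3) : Conf N :=
  Pi.single q.1 (EuclideanSpace.single q.2 (1 : ℝ))

theorem kd_eq {u : Conf N → ℂ} (i : Fin N) (x : Conf N) :
    kd u i x = ∑ a : Fin 3, ‖fderiv ℝ u x (dirV (i, a))‖ₑ ^ 2 := by
  unfold kd gradSq
  rw [ENNReal.ofReal_sum_of_nonneg fun a _ => sq_nonneg _]
  refine Finset.sum_congr rfl fun a _ => ?_
  rw [enorm_sq_eq]
  rfl

theorem lintegral_kd {u : Conf N → ℂ} (hu : ContDiff ℝ (⊤ : ℕ∞) u) (i : Fin N) :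
    ∫⁻ x, kd u i x = ∑ a : Fin 3, ∫⁻ x, ‖fderiv ℝ u x (dirV (i, a))‖ₑ ^ 2 := by
  simp only [kd_eq]
  rw [lintegral_finsetSum]
  intro a _
  have : Continuous fun x => fderiv ℝ u x (dirV (i, a)) :=
    (hu.continuous_fderiv (by simp)).clm_apply continuous_const
  exact this.measurable.enorm.pow_const 2

/-- weighted distance of an approximating sequence -/
theorem weight_dist {S : ℝ} (hS : 0 < S)
    (hsob : ∀ u : E3 → ℂ, ContDiff ℝ 1 u → HasCompactSupport u →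
    (∫⁻ y, ENNReal.ofReal (‖u y‖ ^ 2) ^ 3) ^ (1 / 3 : ℝ) ≤
      ENNReal.ofReal S * ∫⁻ y, ENNReal.ofReal (grad1 u y)) {ψ : Conf N → ℂ}
    {G : Fin N × Fin 3 → Conf N → ℂ} (hψ : AEStronglyMeasurable ψ volume)
    (hG : ∀ q, AEStronglyMeasurable (G q) volume) {u : ℕ → Conf N → ℂ}
    (hu : ∀ n, ContDiff ℝ (⊤ : ℕ∞) (u n)) (hs : ∀ n, HasCompactSupport (u n))
    (h1 : ∀ n : ℕ, ∫⁻ x, ‖u n x - ψ x‖ₑ ^ 2 ≤ ENNReal.ofReal (1 / ((n : ℝ) + 1)))
    (h2 : ∀ (n : ℕ) q, ∫⁻ x, ‖fderiv ℝ (u n) x (dirV q) - G q x‖ₑ ^ 2 ≤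
      ENNReal.ofReal (1 / ((n : ℝ) + 1)))
    {ns : ℕ → ℕ} (hns : StrictMono ns)
    (hae : ∀ᵐ x : Conf N, Tendsto (fun k => u (ns k) x) atTop (𝓝 (ψ x)))
    (i : Fin N) {Y : Conf N → E3}
    (hYm : Measurable Y) (hY : ∀ x y, Y (Function.update x i y) = Y x) (n : ℕ) :
    ∫⁻ x, ENNReal.ofReal ‖x i - Y x‖⁻¹ * ‖u n x - ψ x‖ₑ ^ 2 ≤
      ENNReal.ofReal ((3 * (c1 * S) + 1) * (4 * (1 / ((n : ℝ) + 1)))) := by
  have hc1 := c1_nonneg
  set δ : ℝ := 1 / ((n : ℝ) + 1) with hδ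
  have hδ0 : 0 < δ := by positivity
  have hkm : Measurable fun x : Conf N => ENNReal.ofReal ‖x i - Y x‖⁻¹ :=
    ((measurable_pi_apply i).sub hYm).norm.inv.ennreal_ofReal
  -- the differences
  have hdiff : ∀ k, n ≤ k → ∫⁻ x, ENNReal.ofReal ‖x i - Y x‖⁻¹ *
      ‖u n x - u (ns k) x‖ₑ ^ 2 ≤ ENNReal.ofReal ((3 * (c1 * S) + 1) * (4 * δ)) := by
    intro k hk
    have hnk : n ≤ ns k := hk.trans hns.le_apply
    have hδk : 1 / ((ns k : ℝ) + 1) ≤ δ := by
      rw [hδ]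
      have : (n : ℝ) ≤ ns k := by exact_mod_cast hnk
      gcongr
    have hw : ContDiff ℝ (⊤ : ℕ∞) (fun x => u n x - u (ns k) x) := (hu n).sub (hu (ns k))
    have hws : HasCompactSupport (fun x => u n x - u (ns k) x) := (hs n).sub (hs (ns k))
    have h3 := coul_many hsob hw hws i hYm hY
    have e1 : ∀ x, dens (fun x => u n x - u (ns k) x) x = ‖u n x - u (ns k) x‖ₑ ^ 2 := by
      intro x; rw [enorm_sq_eq]; rfl
    simp only [e1] at h3
    refine h3.trans ?_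
    have b1 : ∫⁻ x, ‖u n x - u (ns k) x‖ₑ ^ 2 ≤ ENNReal.ofReal (4 * δ) := by
      have h4 := n2_add_le (f := fun x => u n x - ψ x) (g := fun x => ψ x - u (ns k) x)
        (ν := (volume : Measure (Conf N))) ((hu n).continuous.aestronglyMeasurable.sub hψ)
      simp only [sub_add_sub_cancel] at h4
      refine h4.trans ?_
      have h5 : ∫⁻ x, ‖ψ x - u (ns k) x‖ₑ ^ 2 ≤ ENNReal.ofReal δ := by
        have e2 : ∀ x, ‖ψ x - u (ns k) x‖ₑ = ‖u (ns k) x - ψ x‖ₑ := fun x => enorm_sub_rev _ _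
        simp only [e2]
        exact (h1 (ns k)).trans (ENNReal.ofReal_le_ofReal hδk)
      calc 2 * (∫⁻ x, ‖u n x - ψ x‖ₑ ^ 2) + 2 * (∫⁻ x, ‖ψ x - u (ns k) x‖ₑ ^ 2)
          ≤ 2 * ENNReal.ofReal δ + 2 * ENNReal.ofReal δ :=
            add_le_add (mul_le_mul' le_rfl (h1 n)) (mul_le_mul' le_rfl h5)
        _ = ENNReal.ofReal (4 * δ) := by
            rw [ENNReal.ofReal_mul (by norm_num), ← add_mul]; norm_num
    have b2 : ∫⁻ x, kd (fun x => u n x - u (ns k) x) i x ≤ ENNReal.ofReal (3 * (4 * δ)) := by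
      rw [lintegral_kd hw]
      calc ∑ a : Fin 3, ∫⁻ x, ‖fderiv ℝ (fun x => u n x - u (ns k) x) x (dirV (i, a))‖ₑ ^ 2
          ≤ ∑ _a : Fin 3, ENNReal.ofReal (4 * δ) := by
            refine Finset.sum_le_sum fun a _ => ?_
            have hfd : ∀ x, fderiv ℝ (fun x => u n x - u (ns k) x) x (dirV (i, a)) =
                (fderiv ℝ (u n) x (dirV (i, a)) - G (i, a) x) +
                  (G (i, a) x - fderiv ℝ (u (ns k)) x (dirV (i, a))) := by
              intro x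
              rw [fderiv_fun_sub (((hu n).differentiable (by simp)) x)
                (((hu (ns k)).differentiable (by simp)) x)]
              simp
            simp only [hfd]
            have hcn : Continuous fun x => fderiv ℝ (u n) x (dirV (i, a)) :=
              ((hu n).continuous_fderiv (by simp)).clm_apply continuous_const
            have h4 := n2_add_le (f := fun x => fderiv ℝ (u n) x (dirV (i, a)) - G (i, a) x)
              (g := fun x => G (i, a) x - fderiv ℝ (u (ns k)) x (dirV (i, a)))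
              (ν := (volume : Measure (Conf N))) (hcn.aestronglyMeasurable.sub (hG _))
            refine h4.trans ?_
            have h5 : ∫⁻ x, ‖G (i, a) x - fderiv ℝ (u (ns k)) x (dirV (i, a))‖ₑ ^ 2 ≤
                ENNReal.ofReal δ := by
              have e2 : ∀ x, ‖G (i, a) x - fderiv ℝ (u (ns k)) x (dirV (i, a))‖ₑ =
                  ‖fderiv ℝ (u (ns k)) x (dirV (i, a)) - G (i, a) x‖ₑ :=
                fun x => enorm_sub_rev _ _
              simp only [e2]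
              exact (h2 (ns k) _).trans (ENNReal.ofReal_le_ofReal hδk)
            calc 2 * (∫⁻ x, ‖fderiv ℝ (u n) x (dirV (i, a)) - G (i, a) x‖ₑ ^ 2) +
                  2 * (∫⁻ x, ‖G (i, a) x - fderiv ℝ (u (ns k)) x (dirV (i, a))‖ₑ ^ 2)
                ≤ 2 * ENNReal.ofReal δ + 2 * ENNReal.ofReal δ :=
                  add_le_add (mul_le_mul' le_rfl (h2 n _)) (mul_le_mul' le_rfl h5)
              _ = ENNReal.ofReal (4 * δ) := by
                  rw [ENNReal.ofReal_mul (by norm_num), ← add_mul]; norm_num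
        _ = ENNReal.ofReal (3 * (4 * δ)) := by
            rw [Finset.sum_const, Finset.card_univ, Fintype.card_fin, nsmul_eq_mul,
              ENNReal.ofReal_mul (p := 3) (by norm_num)]
            norm_num
    calc ENNReal.ofReal (c1 * S) * (∫⁻ x, kd (fun x => u n x - u (ns k) x) i x) +
          ∫⁻ x, ‖u n x - u (ns k) x‖ₑ ^ 2
        ≤ ENNReal.ofReal (c1 * S) * ENNReal.ofReal (3 * (4 * δ)) + ENNReal.ofReal (4 * δ) := by
          gcongr
      _ = _ := by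
          rw [← ENNReal.ofReal_mul (by positivity), ← ENNReal.ofReal_add (by positivity)
            (by positivity)]
          congr 1; ring
  -- Fatou
  have hmk : ∀ k, Measurable fun x : Conf N => ENNReal.ofReal ‖x i - Y x‖⁻¹ *
      ‖u n x - u (ns k) x‖ₑ ^ 2 := fun k =>
    hkm.mul (((hu n).continuous.sub (hu (ns k)).continuous).measurable.enorm.pow_const 2)
  have hF := lintegral_liminf_le (u := atTop) hmk (μ := (volume : Measure (Conf N)))
  have hpt : ∀ᵐ x : Conf N, ENNReal.ofReal ‖x i - Y x‖⁻¹ * ‖u n x - ψ x‖ₑ ^ 2 =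
      liminf (fun k => ENNReal.ofReal ‖x i - Y x‖⁻¹ * ‖u n x - u (ns k) x‖ₑ ^ 2) atTop := by
    filter_upwards [hae] with x hx
    symm
    apply Tendsto.liminf_eq
    have h3 : Tendsto (fun k => ‖u n x - u (ns k) x‖ₑ ^ 2) atTop (𝓝 (‖u n x - ψ x‖ₑ ^ 2)) :=
      (ENNReal.continuous_pow 2).tendsto _ |>.comp ((hx.const_sub (u n x)).enorm)
    exact ENNReal.Tendsto.const_mul h3 (Or.inr ENNReal.ofReal_ne_top)
  rw [lintegral_congr_ae hpt]
  refine hF.trans ?_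
  have hev : ∀ᶠ k in atTop, (∫⁻ x, ENNReal.ofReal ‖x i - Y x‖⁻¹ *
      ‖u n x - u (ns k) x‖ₑ ^ 2) ≤ ENNReal.ofReal ((3 * (c1 * S) + 1) * (4 * δ)) := by
    filter_upwards [eventually_ge_atTop n] with k hk using hdiff k hk
  refine (liminf_le_liminf hev).trans (le_of_eq ?_)
  exact liminf_const _

/-- Every `H¹` function has energy at least the infimum over smooth functions. -/
theorem h1_lower {z g : ℝ} {K : ℕ} (R : Fin K → E3)
    (hg : ∀ ψ : Conf N → ℂ, Trial ψ → g ≤ energy z R ψ) {ψ : Conf N → ℂ}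
    {G : Fin N × Fin 3 → Conf N → ℂ} (hψm : Measurable ψ) (hψ : MemLp ψ 2)
    (hGm : ∀ q, Measurable (G q)) (hG : ∀ q, MemLp (G q) 2)
    (hw : ∀ q, WeakD ψ (G q) (dirV q)) (hn : ∫ x, ‖ψ x‖ ^ 2 = 1) :
    g ≤ (∑ i, ∑ a, ∫ x, ‖G (i, a) x‖ ^ 2) + ∫ x, coulomb z R x * ‖ψ x‖ ^ 2 := by
  obtain ⟨S, hS, hsob⟩ := sobolev1
  have hc1 := c1_nonneg
  choose u hu hs h1 h2 using fun n : ℕ => h1_approx (v := dirV) hψm hψ hGm hG hw
    (ε := 1 / ((n : ℝ) + 1)) (by positivity)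
  have hum : ∀ n, Measurable (u n) := fun n => (hu n).continuous.measurable
  have hlim0 : Tendsto (fun n : ℕ => ENNReal.ofReal (1 / ((n : ℝ) + 1))) atTop (𝓝 0) := by
    have := ENNReal.tendsto_ofReal (tendsto_one_div_add_atTop_nhds_zero_nat (𝕜 := ℝ))
    simpa using this
  have hD : Tendsto (fun n => ∫⁻ x, ‖u n x - ψ x‖ₑ ^ 2) atTop (𝓝 0) :=
    tendsto_of_tendsto_of_tendsto_of_le_of_le tendsto_const_nhds hlim0 (fun _ => zero_le) h1
  have hDq : ∀ q, Tendsto (fun n => ∫⁻ x, ‖fderiv ℝ (u n) x (dirV q) - G q x‖ₑ ^ 2) atTop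
      (𝓝 0) := fun q =>
    tendsto_of_tendsto_of_tendsto_of_le_of_le tendsto_const_nhds hlim0 (fun _ => zero_le)
      fun n => h2 n q
  -- almost everywhere convergent subsequence
  obtain ⟨ns, hns, hae⟩ : ∃ ns : ℕ → ℕ, StrictMono ns ∧
      ∀ᵐ x : Conf N, Tendsto (fun k => u (ns k) x) atTop (𝓝 (ψ x)) := by
    have hd : Tendsto (fun n => eLpNorm (u n - ψ) 2 (volume : Measure (Conf N))) atTop (𝓝 0) := by
      have h3 : ∀ n, eLpNorm (u n - ψ) 2 (volume : Measure (Conf N)) =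
          (∫⁻ x, ‖u n x - ψ x‖ₑ ^ 2) ^ (1 / 2 : ℝ) := by
        intro n
        have : ∫⁻ x, ‖u n x - ψ x‖ₑ ^ 2 = (eLpNorm (u n - ψ) 2 volume) ^ 2 :=
          (sq_eLpNorm_two (u n - ψ)).symm
        rw [this, ← ENNReal.rpow_natCast, ← ENNReal.rpow_mul]
        norm_num
      simp only [h3]
      have h4 := (ENNReal.continuous_rpow_const (y := (1 / 2 : ℝ))).tendsto (0 : ℝ≥0∞)
      rw [ENNReal.zero_rpow_of_pos (by norm_num)] at h4
      exact h4.comp hD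
    have hmeas := tendstoInMeasure_of_tendsto_eLpNorm (p := 2) (by norm_num)
      (fun n => (hum n).aestronglyMeasurable) hψm.aestronglyMeasurable hd
    exact hmeas.exists_seq_tendsto_ae
  -- the weights
  have hW : ∀ (i : Fin N) (Y : Conf N → E3), Measurable Y →
      (∀ x y, Y (Function.update x i y) = Y x) →
      ∫⁻ x, ENNReal.ofReal ‖x i - Y x‖⁻¹ * dens ψ x < ∞ ∧
      Tendsto (fun n => ∫⁻ x, ENNReal.ofReal ‖x i - Y x‖⁻¹ * dens (u n) x) atTop
        (𝓝 (∫⁻ x, ENNReal.ofReal ‖x i - Y x‖⁻¹ * dens ψ x)) := by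
    intro i Y hYm hY
    have hkm : Measurable fun x : Conf N => ENNReal.ofReal ‖x i - Y x‖⁻¹ :=
      ((measurable_pi_apply i).sub hYm).norm.inv.ennreal_ofReal
    have hwd := weight_dist hS hsob hψm.aestronglyMeasurable
      (fun q => (hGm q).aestronglyMeasurable) hu hs h1 h2 hns hae i hYm hY
    have e : ∀ f : Conf N → ℂ, ∀ x, dens f x = ‖f x‖ₑ ^ 2 := fun f x => by
      rw [enorm_sq_eq]; rfl
    have hfin : ∫⁻ x, ENNReal.ofReal ‖x i - Y x‖⁻¹ * ‖ψ x‖ₑ ^ 2 < ∞ := by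
      have h3 : ∫⁻ x, ENNReal.ofReal ‖x i - Y x‖⁻¹ * ‖ψ x‖ₑ ^ 2 ≤
          2 * (∫⁻ x, ENNReal.ofReal ‖x i - Y x‖⁻¹ * ‖u 0 x - ψ x‖ₑ ^ 2) +
          2 * ∫⁻ x, ENNReal.ofReal ‖x i - Y x‖⁻¹ * ‖u 0 x‖ₑ ^ 2 := by
        rw [← lintegral_const_mul' _ _ (by norm_num), ← lintegral_const_mul' _ _ (by norm_num),
          ← lintegral_add_left]
        · apply lintegral_mono
          intro x
          have h4 : ‖ψ x‖ₑ ^ 2 ≤ 2 * ‖u 0 x - ψ x‖ₑ ^ 2 + 2 * ‖u 0 x‖ₑ ^ 2 := by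
            have h5 := enorm_add_sq_le (ψ x - u 0 x) (u 0 x)
            rw [sub_add_cancel, enorm_sub_rev] at h5
            exact h5
          calc ENNReal.ofReal ‖x i - Y x‖⁻¹ * ‖ψ x‖ₑ ^ 2
              ≤ ENNReal.ofReal ‖x i - Y x‖⁻¹ * (2 * ‖u 0 x - ψ x‖ₑ ^ 2 + 2 * ‖u 0 x‖ₑ ^ 2) :=
                mul_le_mul' le_rfl h4
            _ = _ := by ring
        · exact (hkm.mul (((hum 0).sub hψm).enorm.pow_const 2)).const_mul 2
      refine lt_of_le_of_lt h3 (ENNReal.add_lt_top.2 ⟨ENNReal.mul_lt_top (by norm_num)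
        (lt_of_le_of_lt (hwd 0) ENNReal.ofReal_lt_top), ENNReal.mul_lt_top (by norm_num) ?_⟩)
      have h4 := coul_many hsob (hu 0) (hs 0) i hYm hY
      simp only [e] at h4
      refine lt_of_le_of_lt h4 (ENNReal.add_lt_top.2 ⟨ENNReal.mul_lt_top ENNReal.ofReal_lt_top ?_,
        ?_⟩)
      · rw [lintegral_kd (hu 0)]
        refine ENNReal.sum_lt_top.2 fun a _ => ?_
        have hc : Continuous fun x => fderiv ℝ (u 0) x (dirV (i, a)) :=
          ((hu 0).continuous_fderiv (by simp)).clm_apply continuous_const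
        have hcs : HasCompactSupport fun x => fderiv ℝ (u 0) x (dirV (i, a)) := by
          refine ((hs 0).fderiv ℝ).mono fun x hx => ?_
          by_contra hcon
          apply hx
          have : fderiv ℝ (u 0) x = 0 := by by_contra h; exact hcon h
          simp [this]
        exact lt_top_iff_ne_top.2 ((memLp_iff_n2 hc.aestronglyMeasurable).1
          (hc.memLp_of_hasCompactSupport hcs))
      · exact lt_top_iff_ne_top.2 ((memLp_iff_n2 (hum 0).aestronglyMeasurable).1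
          ((hu 0).continuous.memLp_of_hasCompactSupport (hs 0)))
    have hlimW : Tendsto (fun n => ∫⁻ x, ENNReal.ofReal ‖x i - Y x‖⁻¹ * ‖u n x - ψ x‖ₑ ^ 2)
        atTop (𝓝 0) := by
      have h5 : Tendsto (fun n : ℕ => ENNReal.ofReal ((3 * (c1 * S) + 1) *
          (4 * (1 / ((n : ℝ) + 1))))) atTop (𝓝 0) := by
        have h6 := ENNReal.tendsto_ofReal ((tendsto_one_div_add_atTop_nhds_zero_nat
          (𝕜 := ℝ)).const_mul 4 |>.const_mul (3 * (c1 * S) + 1))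
        simpa using h6
      exact tendsto_of_tendsto_of_tendsto_of_le_of_le tendsto_const_nhds h5 (fun _ => zero_le) hwd
    simp only [e]
    exact ⟨hfin, n2_tendsto_weight hkm hum hψm hfin.ne hlimW⟩
  have hWee : ∀ i j : Fin N, ∫⁻ x, ENNReal.ofReal ‖x i - x j‖⁻¹ * dens ψ x < ∞ ∧
      Tendsto (fun n => ∫⁻ x, ENNReal.ofReal ‖x i - x j‖⁻¹ * dens (u n) x) atTop
        (𝓝 (∫⁻ x, ENNReal.ofReal ‖x i - x j‖⁻¹ * dens ψ x)) := by
    intro i j
    by_cases hij : i = j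
    · subst hij
      simp
    · exact hW i (fun x => x j) (measurable_pi_apply j)
        (fun x y => Function.update_of_ne (Ne.symm hij) _ _)
  have hWen : ∀ (i : Fin N) (k : Fin K), ∫⁻ x, ENNReal.ofReal ‖x i - R k‖⁻¹ * dens ψ x < ∞ ∧
      Tendsto (fun n => ∫⁻ x, ENNReal.ofReal ‖x i - R k‖⁻¹ * dens (u n) x) atTop
        (𝓝 (∫⁻ x, ENNReal.ofReal ‖x i - R k‖⁻¹ * dens ψ x)) := fun i k =>
    hW i (fun _ => R k) measurable_const (fun _ _ => rfl)
  -- norms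
  have hint : Integrable fun x : Conf N => ‖ψ x‖ ^ 2 := by
    by_contra hcon
    rw [integral_undef hcon] at hn
    exact zero_ne_one hn
  have hdψ : ∫⁻ x, dens ψ x = 1 := by
    have : ∫⁻ x, dens ψ x = ENNReal.ofReal (∫ x, ‖ψ x‖ ^ 2) := by
      rw [ofReal_integral_eq_lintegral_ofReal hint (Eventually.of_forall fun x => sq_nonneg _)]
      rfl
    rw [this, hn, ENNReal.ofReal_one]
  have e : ∀ f : Conf N → ℂ, ∀ x, dens f x = ‖f x‖ₑ ^ 2 := fun f x => by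
    rw [enorm_sq_eq]; rfl
  have hdens : Tendsto (fun n => ∫⁻ x, dens (u n) x) atTop (𝓝 1) := by
    rw [← hdψ]
    simp only [e]
    exact n2_tendsto (fun n => (hum n).aestronglyMeasurable) hψm.aestronglyMeasurable
      ((memLp_iff_n2 hψ.1).1 hψ) hD
  have hkin : Tendsto (fun n => kin (u n)) atTop
      (𝓝 (∑ i, ∑ a : Fin 3, ∫⁻ x, ‖G (i, a) x‖ₑ ^ 2)) := by
    have e2 : ∀ n, kin (u n) = ∑ i, ∑ a : Fin 3, ∫⁻ x, ‖fderiv ℝ (u n) x (dirV (i, a))‖ₑ ^ 2 := by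
      intro n
      unfold kin
      exact Finset.sum_congr rfl fun i _ => lintegral_kd (hu n) i
    simp only [e2]
    refine tendsto_finsetSum _ fun i _ => tendsto_finsetSum _ fun a _ => ?_
    refine n2_tendsto (fun n => ?_) (hGm _).aestronglyMeasurable
      ((memLp_iff_n2 (hG _).1).1 (hG _)) (hDq _)
    exact (((hu n).continuous_fderiv (by simp)).clm_apply continuous_const).aestronglyMeasurable
  have hPee : Tendsto (fun n => Pee (u n)) atTop (𝓝 (Pee ψ)) := by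
    unfold Pee
    refine ENNReal.Tendsto.const_mul ?_ (Or.inr (by norm_num))
    exact tendsto_finsetSum _ fun i _ => tendsto_finsetSum _ fun j _ => (hWee i j).2
  have hAen : Tendsto (fun n => Aen R (u n)) atTop (𝓝 (Aen R ψ)) := by
    unfold Aen
    exact tendsto_finsetSum _ fun i _ => tendsto_finsetSum _ fun k _ => (hWen i k).2
  have hPfin : Pee ψ ≠ ∞ := by
    unfold Pee
    exact ENNReal.mul_ne_top (by norm_num) (ENNReal.sum_lt_top.2 fun i _ =>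
      ENNReal.sum_lt_top.2 fun j _ => (hWee i j).1).ne
  have hAfin : Aen R ψ ≠ ∞ := by
    unfold Aen
    exact (ENNReal.sum_lt_top.2 fun i _ => ENNReal.sum_lt_top.2 fun j _ => (hWen i j).1).ne
  have hGfin : (∑ i, ∑ a : Fin 3, ∫⁻ x, ‖G (i, a) x‖ₑ ^ 2) ≠ ∞ :=
    (ENNReal.sum_lt_top.2 fun i _ => ENNReal.sum_lt_top.2 fun a _ =>
      lt_top_iff_ne_top.2 ((memLp_iff_n2 (hG _).1).1 (hG (i, a)))).ne
  -- limits of real numbers
  have r1 := (ENNReal.tendsto_toReal (a := 1) (by norm_num)).comp hdens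
  have r2 := (ENNReal.tendsto_toReal hGfin).comp hkin
  have r3 := (ENNReal.tendsto_toReal hPfin).comp hPee
  have r4 := (ENNReal.tendsto_toReal hAfin).comp hAen
  have key : g * (1 : ℝ≥0∞).toReal ≤ (∑ i, ∑ a : Fin 3, ∫⁻ x, ‖G (i, a) x‖ₑ ^ 2).toReal +
      (Pee ψ).toReal - z * (Aen R ψ).toReal + z ^ 2 * rep R * (1 : ℝ≥0∞).toReal := by
    refine le_of_tendsto_of_tendsto' (r1.const_mul g)
      (((r2.add r3).sub (r4.const_mul z)).add (r1.const_mul (z ^ 2 * rep R))) fun n => ?_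
    exact energy_ge_gen R hg (hu n) (hs n)
  rw [ENNReal.toReal_one, mul_one, mul_one] at key
  have hsumG : (∑ i, ∑ a : Fin 3, ∫⁻ x, ‖G (i, a) x‖ₑ ^ 2).toReal =
      ∑ i, ∑ a : Fin 3, ∫ x, ‖G (i, a) x‖ ^ 2 := by
    have hf : ∀ q, ∫⁻ x, ‖G q x‖ₑ ^ 2 ≠ ∞ := fun q => (memLp_iff_n2 (hG _).1).1 (hG q)
    rw [ENNReal.toReal_sum fun i _ => (ENNReal.sum_lt_top.2 fun a _ =>
      lt_top_iff_ne_top.2 (hf (i, a))).ne]
    refine Finset.sum_congr rfl fun i _ => ?_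
    rw [ENNReal.toReal_sum fun a _ => hf (i, a)]
    refine Finset.sum_congr rfl fun a _ => ?_
    simp only [enorm_sq_eq]
    rw [integral_eq_lintegral_of_nonneg_ae (Eventually.of_forall fun x => sq_nonneg _)
      ((hGm _).norm.pow_const 2).aestronglyMeasurable]
  have hcoul := coulomb_eq z R hψm (fun i j => (hWee i j).1) (fun i k => (hWen i k).1) hint
  rw [hcoul.2, hn, ← hsumG]
  linarith

end

end Pool.Agent.Lib_helper90c
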