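import Pool.Agent.Lib_helper90c.Limit

/-!
# Mollification in `L²`
-/

set_option autoImplicit false

open MeasureTheory Set Metric Filter
open scoped ENNReal NNReal Topology Convolution

namespace Pool.Agent.Lib_helper90c

section
variable {V : Type} [NormedAddCommGroup V] [NormedSpace ℝ V] [FiniteDimensional ℝ V]
  [MeasurableSpace V] [BorelSpace V] {μ : Measure V} [μ.IsAddHaarMeasure]

theorem sq_eLpNorm_two {α : Type} [MeasurableSpace α] {ν : Measure α} (g : α → ℂ) :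
    (eLpNorm g 2 ν) ^ 2 = ∫⁻ x, ‖g x‖ₑ ^ 2 ∂ν := by
  have h := eLpNorm_nnreal_pow_eq_lintegral (f := g) (μ := ν) (p := 2) (by norm_num)
  have e1 : eLpNorm g ((2 : ℝ≥0) : ℝ≥0∞) ν ^ ((2 : ℝ≥0) : ℝ) = (eLpNorm g 2 ν) ^ 2 := by
    rw [← ENNReal.rpow_natCast]; norm_num
  rw [e1] at h
  rw [h]
  congr 1
  ext x
  rw [← ENNReal.rpow_natCast]
  norm_num

/-- continuity of translations in `L²` -/
theorem translate_L2 {f : V → ℂ} (hf : MemLp f 2 μ) {ε : ℝ} (hε : 0 < ε) :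
    ∃ r > 0, ∀ t : V, ‖t‖ < r → ∫⁻ x, ‖f (x - t) - f x‖ₑ ^ 2 ∂μ ≤ ENNReal.ofReal ε := by
  let g : V → C(V, V) := fun t => ⟨fun x => x - t, by fun_prop⟩
  have hg : Continuous g := by
    let G : C(V × V, V) := ⟨fun q => q.2 - q.1, by fun_prop⟩
    have : g = fun t => G.curry t := by
      ext t x; rfl
    rw [this]
    exact G.curry.continuous
  have hgm : ∀ t, MeasurePreserving (g t) μ μ := fun t => measurePreserving_sub_right μ t
  have hcont : Continuous fun t => Lp.compMeasurePreserving (g t) (hgm t) (hf.toLp f) :=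
    Continuous.compMeasurePreservingLp (f := fun _ : V => hf.toLp f) continuous_const hg hgm
      (by norm_num)
  have h0 := (hcont.tendsto 0)
  rw [Metric.tendsto_nhds] at h0
  have h1 := h0 (Real.sqrt ε) (Real.sqrt_pos.2 hε)
  rw [Metric.eventually_nhds_iff] at h1
  obtain ⟨r, hr, h⟩ := h1
  refine ⟨r, hr, fun t ht => ?_⟩
  have h2 := h (y := t) (by rwa [dist_zero_right])
  rw [dist_eq_norm, Lp.toLp_compMeasurePreserving, Lp.toLp_compMeasurePreserving,
    ← MemLp.toLp_sub, Lp.norm_toLp] at h2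
  have h3 : ∫⁻ x, ‖f (x - t) - f x‖ₑ ^ 2 ∂μ =
      (eLpNorm ((f ∘ (g t)) - (f ∘ (g 0))) 2 μ) ^ 2 := by
    rw [sq_eLpNorm_two]
    congr 1
    ext x
    simp [g]
  rw [h3]
  have hfin : eLpNorm ((f ∘ (g t)) - (f ∘ (g 0))) 2 μ ≠ ∞ :=
    ((hf.comp_measurePreserving (hgm t)).sub (hf.comp_measurePreserving (hgm 0))).2.ne
  have h4 : eLpNorm ((f ∘ (g t)) - (f ∘ (g 0))) 2 μ ≤ ENNReal.ofReal (Real.sqrt ε) := by
    rw [← ENNReal.ofReal_toReal hfin]
    exact ENNReal.ofReal_le_ofReal h2.le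
  calc (eLpNorm ((f ∘ (g t)) - (f ∘ (g 0))) 2 μ) ^ 2 ≤ ENNReal.ofReal (Real.sqrt ε) ^ 2 :=
        pow_le_pow_left' h4 2
    _ = ENNReal.ofReal ε := by
        rw [← ENNReal.ofReal_pow (Real.sqrt_nonneg _), Real.sq_sqrt hε.le]

/-- Cauchy–Schwarz for a probability density -/
theorem cs_density {α : Type} [MeasurableSpace α] {ν : Measure α} {w F : α → ℝ≥0∞}
    (hw : Measurable w) (hF : Measurable F) (h1 : ∫⁻ t, w t ∂ν = 1) :
    (∫⁻ t, w t * F t ∂ν) ^ 2 ≤ ∫⁻ t, w t * F t ^ 2 ∂ν := by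
  have hpq : (2 : ℝ).HolderConjugate 2 := by
    rw [Real.holderConjugate_iff]; norm_num
  have h := ENNReal.lintegral_mul_le_Lp_mul_Lq ν hpq (f := fun t => w t ^ (1 / 2 : ℝ))
    (g := fun t => w t ^ (1 / 2 : ℝ) * F t) (hw.pow_const _).aemeasurable
    ((hw.pow_const _).mul hF).aemeasurable
  have e1 : ∀ t, w t ^ (1 / 2 : ℝ) * (w t ^ (1 / 2 : ℝ) * F t) = w t * F t := by
    intro t
    rw [← mul_assoc, ← ENNReal.rpow_add_of_nonneg _ _ (by norm_num) (by norm_num)]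
    norm_num
  have e2 : ∀ t, (w t ^ (1 / 2 : ℝ)) ^ (2 : ℝ) = w t := by
    intro t
    rw [← ENNReal.rpow_mul]; norm_num
  have e3 : ∀ t, (w t ^ (1 / 2 : ℝ) * F t) ^ (2 : ℝ) = w t * F t ^ 2 := by
    intro t
    rw [ENNReal.mul_rpow_of_nonneg _ _ (by norm_num), e2, ← ENNReal.rpow_natCast]
    norm_num
  simp only [Pi.mul_apply, e1, e2, e3, h1, ENNReal.one_rpow, one_mul] at h
  calc (∫⁻ t, w t * F t ∂ν) ^ 2 ≤ ((∫⁻ t, w t * F t ^ 2 ∂ν) ^ (1 / 2 : ℝ)) ^ 2 :=
        pow_le_pow_left' h 2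
    _ = ∫⁻ t, w t * F t ^ 2 ∂ν := by
        rw [← ENNReal.rpow_natCast, ← ENNReal.rpow_mul]; norm_num

theorem mollify_L2 {f : V → ℂ} (hfm : Measurable f) (hf : MemLp f 2 μ) {ε r : ℝ}
    (hr : ∀ t : V, ‖t‖ < r → ∫⁻ x, ‖f (x - t) - f x‖ₑ ^ 2 ∂μ ≤ ENNReal.ofReal ε)
    (φ : ContDiffBump (0 : V)) (hφ : φ.rOut < r) :
    ∫⁻ x, ‖(φ.normed μ ⋆[ContinuousLinearMap.lsmul ℝ ℝ, μ] f) x - f x‖ₑ ^ 2 ∂μ ≤
      ENNReal.ofReal ε := by
  have hloc : LocallyIntegrable f μ := hf.locallyIntegrable (by norm_num)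
  have hηc : Continuous (φ.normed μ) := φ.contDiff_normed (n := 0).continuous
  have hηs : HasCompactSupport (φ.normed μ) := φ.hasCompactSupport_normed
  have hη0 : ∀ t, 0 ≤ φ.normed μ t := fun t => φ.nonneg_normed t
  set w : V → ℝ≥0∞ := fun t => ENNReal.ofReal (φ.normed μ t) with hw
  have hwm : Measurable w := hηc.measurable.ennreal_ofReal
  have hw1 : ∫⁻ t, w t ∂μ = 1 := by
    rw [hw, ← ofReal_integral_eq_lintegral_ofReal φ.integrable_normed
      (Eventually.of_forall hη0), φ.integral_normed, ENNReal.ofReal_one]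
  have hpt : ∀ x, ‖(φ.normed μ ⋆[ContinuousLinearMap.lsmul ℝ ℝ, μ] f) x - f x‖ₑ ≤
      ∫⁻ t, w t * ‖f (x - t) - f x‖ₑ ∂μ := by
    intro x
    have hex : Integrable (fun t => φ.normed μ t • f (x - t)) μ :=
      (hηs.convolutionExists_left (ContinuousLinearMap.lsmul ℝ ℝ) hηc hloc x)
    have hex2 : Integrable (fun t => φ.normed μ t • f x) μ := φ.integrable_normed.smul_const _
    have e1 : (φ.normed μ ⋆[ContinuousLinearMap.lsmul ℝ ℝ, μ] f) x - f x =
        ∫ t, φ.normed μ t • (f (x - t) - f x) ∂μ := by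
      have e2 : ∫ t, φ.normed μ t • f x ∂μ = f x := by
        rw [integral_smul_const, φ.integral_normed, one_smul]
      rw [convolution_def]
      simp only [ContinuousLinearMap.lsmul_apply, smul_sub]
      rw [integral_sub hex hex2, e2]
    rw [e1]
    refine (enorm_integral_le_lintegral_enorm _).trans (le_of_eq ?_)
    congr 1
    ext t
    rw [enorm_smul, hw]
    simp only
    rw [Real.enorm_of_nonneg (hη0 t)]
  have hm2 : Measurable fun q : V × V => ‖f (q.1 - q.2) - f q.1‖ₑ :=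
    ((hfm.comp (measurable_fst.sub measurable_snd)).sub (hfm.comp measurable_fst)).enorm
  calc ∫⁻ x, ‖(φ.normed μ ⋆[ContinuousLinearMap.lsmul ℝ ℝ, μ] f) x - f x‖ₑ ^ 2 ∂μ
      ≤ ∫⁻ x, (∫⁻ t, w t * ‖f (x - t) - f x‖ₑ ∂μ) ^ 2 ∂μ :=
        lintegral_mono fun x => pow_le_pow_left' (hpt x) 2
    _ ≤ ∫⁻ x, ∫⁻ t, w t * ‖f (x - t) - f x‖ₑ ^ 2 ∂μ ∂μ := by
        apply lintegral_mono
        intro x
        exact cs_density hwm (hm2.comp (measurable_const.prodMk measurable_id)) hw1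
    _ = ∫⁻ t, ∫⁻ x, w t * ‖f (x - t) - f x‖ₑ ^ 2 ∂μ ∂μ := by
        rw [lintegral_lintegral_swap]
        exact ((hwm.comp measurable_snd).mul (hm2.pow_const 2)).aemeasurable
    _ = ∫⁻ t, w t * ∫⁻ x, ‖f (x - t) - f x‖ₑ ^ 2 ∂μ ∂μ := by
        congr 1
        ext t
        rw [lintegral_const_mul]
        exact (hm2.comp (measurable_id.prodMk measurable_const)).pow_const 2
    _ ≤ ∫⁻ t, w t * ENNReal.ofReal ε ∂μ := by
        apply lintegral_mono
        intro t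
        by_cases ht : ‖t‖ < r
        · exact mul_le_mul' le_rfl (hr t ht)
        · have : φ.normed μ t = 0 := by
            have h2 : t ∉ Function.support (φ.normed μ) := by
              rw [φ.support_normed_eq, mem_ball_zero_iff]
              intro h3
              exact ht (h3.trans hφ)
            simpa using h2
          simp only [hw, this, ENNReal.ofReal_zero, zero_mul]
          exact le_rfl
    _ = ENNReal.ofReal ε := by
        rw [lintegral_mul_const _ hwm, hw1, one_mul]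

end

end Pool.Agent.Lib_helper90c
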