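import Pool.Agent.Lib_helper90c.Back

/-!
# Filling a background by i.i.d. points
-/

set_option autoImplicit false

open MeasureTheory Set Metric Filter
open scoped ENNReal NNReal Topology

namespace Pool.Agent.Lib_helper90c

theorem BM.null_singleton {β : Measure E3} (h : BM β) (x : E3) : β {x} = 0 := by
  obtain ⟨C, R, hR, hle⟩ := h
  refine le_antisymm ((hle {x}).trans ?_) zero_le
  rw [Measure.smul_apply]
  have : (volume : Measure E3).restrict (ball 0 R) {x} = 0 := by
    refine le_antisymm ((Measure.restrict_apply_le _ _).trans ?_) zero_le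
    simp
  rw [this, smul_zero]

theorem goodMeas_of_BM {η : Measure E3} (hη : BM η) {Z : ℝ} (hZ : 0 < Z)
    (hm : η univ = ENNReal.ofReal Z) : GoodMeas ((ENNReal.ofReal Z)⁻¹ • η) := by
  have := hη.isFinite
  have hZ0 : ENNReal.ofReal Z ≠ 0 := (ENNReal.ofReal_pos.2 hZ).ne'
  have hne : (ENNReal.ofReal Z)⁻¹ ≠ ∞ := ENNReal.inv_ne_top.2 hZ0
  refine ⟨⟨?_⟩, ⟨fun x => ?_⟩, fun y => ?_, ?_⟩
  · rw [Measure.smul_apply, hm, smul_eq_mul, ENNReal.inv_mul_cancel hZ0 ENNReal.ofReal_ne_top]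
  · rw [Measure.smul_apply, hη.null_singleton, smul_zero]
  · have := hη.pot y
    simp only [norm_sub_rev y] at this
    exact this.smul_measure hne
  · have h1 : (fun y => ∫ x, ‖x - y‖⁻¹ ∂((ENNReal.ofReal Z)⁻¹ • η)) =
        fun y => ((ENNReal.ofReal Z)⁻¹).toReal * Pot η y := by
      ext y
      rw [integral_smul_measure, smul_eq_mul]
      unfold Pot
      simp only [norm_sub_rev]
    rw [h1]
    exact ((hη.integrable_Pot η).const_mul _).smul_measure hne

section
variable {ι : Type} [Fintype ι]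

theorem JE_zero (z : ℝ) (X : Fin 0 → E3) : JE z 0 X = 0 := by
  unfold JE rep; simp

theorem merge_iid {z : ℝ} (hz : 0 < z) {β η : Measure E3} (hβ : BM β) (hη : BM η) (m : ℕ)
    (hm : η univ = ENNReal.ofReal (z * m)) (q : ι → E3) (hqinj : Function.Injective q) :
    ∃ X : Fin m → E3, Function.Injective (Sum.elim q X) ∧
      JE z (β + η) (Sum.elim q X) ≤ JE z β q := by
  have := hη.isFinite
  have := hβ.isFinite
  rcases Nat.eq_zero_or_pos m with h0 | hpos
  · subst h0
    have hη0 : η = 0 := by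
      rw [← Measure.measure_univ_eq_zero, hm]; simp
    subst hη0
    refine ⟨Fin.elim0, ?_, ?_⟩
    · rw [Sum.elim_injective]
      exact ⟨hqinj, fun i => i.elim0, fun i j => j.elim0⟩
    · rw [JE_add z hβ hη, JE_zero]
      unfold cross Pot
      simp
  · have hm1 : (1 : ℝ) ≤ m := by exact_mod_cast hpos
    have hm0 : (0 : ℝ) < m := by linarith
    set Z := z * (m : ℝ) with hZ
    have hZ0 : 0 < Z := by positivity
    have hgood := goodMeas_of_BM hη hZ0 hm
    set ν := (ENNReal.ofReal Z)⁻¹ • η with hν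
    have hint : ∀ f : E3 → ℝ, ∫ x, f x ∂ν = Z⁻¹ * ∫ x, f x ∂η := by
      intro f
      rw [hν, integral_smul_measure, smul_eq_mul, ENNReal.toReal_inv,
        ENNReal.toReal_ofReal hZ0.le]
    have hν_int : ∀ f : E3 → ℝ, Integrable f η → Integrable f ν := fun f hf =>
      hf.smul_measure (ENNReal.inv_ne_top.2 (ENNReal.ofReal_pos.2 hZ0).ne')
    set G : E3 → ℝ := fun x => z ^ 2 * (∑ i, ‖x - q i‖⁻¹) - z * Pot β x - z * Pot η x with hG
    have i1 : Integrable (fun x : E3 => z ^ 2 * (∑ i, ‖x - q i‖⁻¹)) ν :=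
      (integrable_finsetSum _ fun i _ => hgood.pot (q i)).const_mul _
    have i2 : Integrable (fun x : E3 => z * Pot β x) ν :=
      (hν_int _ (hβ.integrable_Pot η)).const_mul _
    have i3 : Integrable (fun x : E3 => z * Pot η x) ν :=
      (hν_int _ (hη.integrable_Pot η)).const_mul _
    have i12 : Integrable (fun x : E3 => z ^ 2 * (∑ i, ‖x - q i‖⁻¹) - z * Pot β x) ν := i1.sub i2
    have hGint : Integrable G ν := i12.sub i3
    obtain ⟨X, hXinj, -, hXS, hX⟩ := exists_iid hgood z ∅ (measure_empty) (range q)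
      (finite_range q) m G hGint
    refine ⟨X, ?_, ?_⟩
    · rw [Sum.elim_injective]
      exact ⟨hqinj, hXinj, fun i j h => hXS j ⟨i, h⟩⟩
    · have hsym : ∀ y, ∫ x, ‖x - y‖⁻¹ ∂ν = Z⁻¹ * Pot η y := by
        intro y
        rw [hint]
        unfold Pot
        simp only [norm_sub_rev]
      have hA2 : ∫ y, ∫ x, ‖x - y‖⁻¹ ∂ν ∂ν = Z⁻¹ * (Z⁻¹ * ∫ x, Pot η x ∂η) := by
        simp only [hsym]
        rw [integral_const_mul, hint]
      have hGval : ∫ x, G x ∂ν = z ^ 2 * (∑ i, Z⁻¹ * Pot η (q i)) - z * (Z⁻¹ * ∫ x, Pot β x ∂η) -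
          z * (Z⁻¹ * ∫ x, Pot η x ∂η) := by
        rw [hG, integral_sub i12 i3, integral_sub i1 i2, integral_const_mul, integral_const_mul,
          integral_const_mul, integral_finsetSum _ fun i _ => hgood.pot (q i), hint, hint]
        simp only [hsym]
      rw [hA2, hGval] at hX
      rw [JE_add z hβ hη]
      unfold cross
      have hJ : JE z η X = z ^ 2 * rep X - z * (∑ j, Pot η (X j)) + (∫ x, Pot η x ∂η) / 2 := rfl
      rw [hJ]
      have hsum : ∑ j, G (X j) = z ^ 2 * (∑ i, ∑ j, ‖q i - X j‖⁻¹) - z * (∑ j, Pot β (X j)) -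
          z * (∑ j, Pot η (X j)) := by
        simp only [hG, Finset.sum_sub_distrib, ← Finset.mul_sum]
        rw [Finset.sum_comm]
        simp only [norm_sub_rev]
      rw [hsum] at hX
      have hD : 0 ≤ ∫ x, Pot η x ∂η := integral_nonneg fun x => Pot_nonneg _ _
      set D := ∫ x, Pot η x ∂η with hDdef
      have e1 : (m : ℝ) * (z ^ 2 * (∑ i, Z⁻¹ * Pot η (q i)) - z * (Z⁻¹ * ∫ x, Pot β x ∂η) -
          z * (Z⁻¹ * D)) = z * (∑ i, Pot η (q i)) - (∫ x, Pot β x ∂η) - D := by
        rw [← Finset.mul_sum, hZ]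
        field_simp
      have e2 : (m : ℝ) * ((m : ℝ) - 1) / 2 * z ^ 2 * (Z⁻¹ * (Z⁻¹ * D)) =
          D / 2 - D / (2 * m) := by
        rw [hZ]; field_simp
      rw [e1, e2] at hX
      have e3 : 0 ≤ D / (2 * m) := by positivity
      linarith

end

end Pool.Agent.Lib_helper90c
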