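import Pool.Agent.Lib_helper90c.BallSum

/-!
# Localisation of the jellium energy into balls
-/

set_option autoImplicit false

open MeasureTheory Set Metric Filter
open scoped ENNReal NNReal Topology

namespace Pool.Agent.Lib_helper90c

section
variable {ι : Type} [Fintype ι]

/-- attraction of the points of `p` in `b` to the background in `b ∩ B_R` -/
noncomputable def Ab (p : ι → E3) (R : ℝ) (b : ℝ × E3) : ℝ≥0∞ :=
  ∑ i, ib b (p i) * ∫⁻ y in ball (0 : E3) R, ib b y * ENNReal.ofReal ‖p i - y‖⁻¹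

/-- self energy of the background in `b ∩ B_R` (double integral) -/
noncomputable def Db (R : ℝ) (b : ℝ × E3) : ℝ≥0∞ :=
  ∫⁻ x in ball (0 : E3) R, ∫⁻ y in ball (0 : E3) R, ib b x * ib b y * ENNReal.ofReal ‖x - y‖⁻¹

theorem integrableOn_Yk (κ : ℝ) (hκ : 0 ≤ κ) (x c : E3) (R : ℝ) :
    IntegrableOn (fun y => Yk κ x y) (ball c R) := by
  refine Integrable.mono' (integrableOn_ball_inv c x R) (measurable_Yk_right κ x).aestronglyMeasurable ?_
  exact Eventually.of_forall fun y => by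
    rw [Real.norm_eq_abs, abs_of_nonneg (Yk_nonneg _ _ _)]
    exact Yk_le hκ _ _

theorem measurable_inner (x : E3) (R : ℝ) :
    Measurable fun b : ℝ × E3 => ∫⁻ y in ball (0 : E3) R, ib b y * ENNReal.ofReal ‖x - y‖⁻¹ := by
  have h : Measurable fun q : (ℝ × E3) × E3 => ib q.1 q.2 * ENNReal.ofReal ‖x - q.2‖⁻¹ :=
    measurable_ib.mul (by fun_prop)
  exact Measurable.lintegral_prod_right'
    (f := fun q : (ℝ × E3) × E3 => ib q.1 q.2 * ENNReal.ofReal ‖x - q.2‖⁻¹) h

theorem measurable_Ab (p : ι → E3) (R : ℝ) : Measurable (Ab p R) := by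
  unfold Ab
  exact Finset.measurable_sum _ fun i _ => (measurable_ib_left _).mul (measurable_inner _ _)

theorem measurable_ib11 : Measurable fun q : ((ℝ × E3) × E3) × E3 => ib q.1.1 q.1.2 := by
  have h : Measurable fun q : ((ℝ × E3) × E3) × E3 => q.1 := measurable_fst
  have h2 := measurable_ib.comp h
  exact h2

theorem measurable_ib12 : Measurable fun q : ((ℝ × E3) × E3) × E3 => ib q.1.1 q.2 := by
  have h : Measurable fun q : ((ℝ × E3) × E3) × E3 => (q.1.1, q.2) :=
    (measurable_fst.comp measurable_fst).prodMk measurable_snd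
  have h2 := measurable_ib.comp h
  exact h2

theorem measurable_Db_inner (R : ℝ) : Measurable fun q : (ℝ × E3) × E3 =>
    ∫⁻ y in ball (0 : E3) R, ib q.1 q.2 * ib q.1 y * ENNReal.ofReal ‖q.2 - y‖⁻¹ := by
  have a3 : Measurable fun q : ((ℝ × E3) × E3) × E3 => ENNReal.ofReal ‖q.1.2 - q.2‖⁻¹ := by
    fun_prop
  have h : Measurable fun q : ((ℝ × E3) × E3) × E3 => ib q.1.1 q.1.2 * ib q.1.1 q.2 *
      ENNReal.ofReal ‖q.1.2 - q.2‖⁻¹ := (measurable_ib11.mul measurable_ib12).mul a3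
  exact h.lintegral_prod_right'

theorem measurable_Db (R : ℝ) : Measurable (Db R) := by
  unfold Db
  exact (measurable_Db_inner R).lintegral_prod_right'

theorem lintegral_Ab {κ : ℝ} (hκ : 0 < κ) (p : ι → E3) (R : ℝ) :
    ∫⁻ b, Ab p R b ∂(bm κ) = ENNReal.ofReal (∑ i, ∫ y in ball (0 : E3) R, Yk κ (p i) y) := by
  unfold Ab
  have hm : ∀ i, Measurable fun b : ℝ × E3 => ib b (p i) * ∫⁻ y in ball (0 : E3) R,
      ib b y * ENNReal.ofReal ‖p i - y‖⁻¹ :=
    fun i => (measurable_ib_left _).mul (measurable_inner _ _)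
  rw [lintegral_finsetSum _ fun i _ => hm i,
    ENNReal.ofReal_sum_of_nonneg fun i _ => integral_nonneg fun y => Yk_nonneg _ _ _]
  refine Finset.sum_congr rfl fun i _ => ?_
  have h1 : ∀ b : ℝ × E3, ib b (p i) * ∫⁻ y in ball (0 : E3) R, ib b y * ENNReal.ofReal ‖p i - y‖⁻¹ =
      ∫⁻ y in ball (0 : E3) R, ib b (p i) * ib b y * ENNReal.ofReal ‖p i - y‖⁻¹ := by
    intro b
    have hm : Measurable fun y => ib b y * ENNReal.ofReal ‖p i - y‖⁻¹ :=
      (measurable_ib_right b).mul (by fun_prop)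
    rw [← lintegral_const_mul _ hm]
    simp only [mul_assoc]
  simp only [h1]
  rw [lintegral_lintegral_swap
    (f := fun (b : ℝ × E3) (y : E3) => ib b (p i) * ib b y * ENNReal.ofReal ‖p i - y‖⁻¹)]
  swap
  · have a1 : Measurable fun q : (ℝ × E3) × E3 => ib q.1 (p i) := by
      have : Measurable fun q : (ℝ × E3) × E3 => q.1 := measurable_fst
      exact (measurable_ib_left (p i)).comp this
    have a3 : Measurable fun q : (ℝ × E3) × E3 => ENNReal.ofReal ‖p i - q.2‖⁻¹ := by fun_prop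
    exact ((a1.mul measurable_ib).mul a3).aemeasurable
  simp only [mix_Yk hκ]
  rw [ofReal_integral_eq_lintegral_ofReal (integrableOn_Yk κ hκ.le _ _ _)
    (Eventually.of_forall fun y => Yk_nonneg _ _ _)]

theorem integral_Yk_nonneg (κ : ℝ) (x c : E3) (R : ℝ) : 0 ≤ ∫ y in ball c R, Yk κ x y :=
  integral_nonneg fun y => Yk_nonneg _ _ _

theorem integrableOn_integral_Yk {κ : ℝ} (hκ : 0 ≤ κ) {R : ℝ} (hR : 0 ≤ R) :
    IntegrableOn (fun x => ∫ y in ball (0 : E3) R, Yk κ x y) (ball (0 : E3) R) := by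
  have h6 := integrableOn_ballPot 0 0 (s := R) hR
  simp only [sub_zero] at h6
  refine Integrable.mono' h6 ?_ ?_
  · exact ((measurable_Yk κ).stronglyMeasurable.integral_prod_right').aestronglyMeasurable
  · refine Eventually.of_forall fun x => ?_
    rw [Real.norm_eq_abs, abs_of_nonneg (integral_Yk_nonneg _ _ _ _)]
    have := integral_ball_inv 0 x hR
    rw [sub_zero] at this
    rw [← this]
    exact integral_mono (integrableOn_Yk κ hκ x 0 R) (integrableOn_ball_inv 0 x R)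
      fun y => Yk_le hκ x y

theorem lintegral_Db {κ : ℝ} (hκ : 0 < κ) {R : ℝ} (hR : 0 ≤ R) :
    ∫⁻ b, Db R b ∂(bm κ) =
      ENNReal.ofReal (∫ x in ball (0 : E3) R, ∫ y in ball (0 : E3) R, Yk κ x y) := by
  unfold Db
  rw [lintegral_lintegral_swap (f := fun (b : ℝ × E3) (x : E3) =>
    ∫⁻ y in ball (0 : E3) R, ib b x * ib b y * ENNReal.ofReal ‖x - y‖⁻¹)
    (measurable_Db_inner R).aemeasurable]
  have h1 : ∀ x : E3, ∫⁻ b, (∫⁻ y in ball (0 : E3) R, ib b x * ib b y * ENNReal.ofReal ‖x - y‖⁻¹)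
      ∂(bm κ) = ENNReal.ofReal (∫ y in ball (0 : E3) R, Yk κ x y) := by
    intro x
    rw [lintegral_lintegral_swap
      (f := fun (b : ℝ × E3) (y : E3) => ib b x * ib b y * ENNReal.ofReal ‖x - y‖⁻¹)]
    · simp only [mix_Yk hκ]
      rw [ofReal_integral_eq_lintegral_ofReal (integrableOn_Yk κ hκ.le _ _ _)
        (Eventually.of_forall fun y => Yk_nonneg _ _ _)]
    · have a1 : Measurable fun q : (ℝ × E3) × E3 => ib q.1 x := by
        have : Measurable fun q : (ℝ × E3) × E3 => q.1 := measurable_fst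
        exact (measurable_ib_left x).comp this
      have a3 : Measurable fun q : (ℝ × E3) × E3 => ENNReal.ofReal ‖x - q.2‖⁻¹ := by fun_prop
      exact ((a1.mul measurable_ib).mul a3).aemeasurable
  simp only [h1]
  rw [ofReal_integral_eq_lintegral_ofReal (integrableOn_integral_Yk hκ.le hR)
    (Eventually.of_forall fun x => integral_Yk_nonneg _ _ _ _)]

/-- Yukawa jellium energy -/
noncomputable def jelY (κ z R : ℝ) (p : ι → E3) : ℝ :=
  z ^ 2 * ((1 / 2) * ∑ i, ∑ j, Yk κ (p i) (p j)) -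
    z * (∑ i, ∫ y in ball (0 : E3) R, Yk κ (p i) y) +
    (∫ x in ball (0 : E3) R, ∫ y in ball (0 : E3) R, Yk κ x y) / 2

theorem jelY_le {κ z R : ℝ} (hκ : 0 ≤ κ) (hR : 0 ≤ R) (p : ι → E3)
    (hinj : Function.Injective p) :
    jelY κ z R p - κ * z ^ 2 * Fintype.card ι / 2 ≤ jel z R p := by
  classical
  -- apply positivity with points and background
  have hfin : IsFiniteMeasure ((volume : Measure E3).restrict (ball 0 R)) :=
    ⟨by simpa using (measure_ball_lt_top (x := (0 : E3)) (r := R) (μ := volume))⟩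
  let q : Option ι → ℝ := fun o => o.elim (-1) (fun _ => z)
  let ν : Option ι → Measure E3 := fun o =>
    o.elim ((volume : Measure E3).restrict (ball 0 R)) (fun i => Measure.dirac (p i))
  have hνfin : ∀ o, IsFiniteMeasure (ν o) := by
    intro o
    cases o with
    | none => exact hfin
    | some i => show IsFiniteMeasure (Measure.dirac (p i)); infer_instance
  have h := pd_wk hκ q ν
  rw [Fintype.sum_option] at h
  simp only [Fintype.sum_option] at h
  -- evaluate the terms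
  have hwkx : ∀ x y : E3, x ≠ y → wk κ ‖x - y‖ = ‖x - y‖⁻¹ - Yk κ x y := fun x y hxy =>
    wk_eq (norm_ne_zero_iff.2 (sub_ne_zero.2 hxy))
  have hsing : ∀ x : E3, ∀ᵐ y ∂((volume : Measure E3).restrict (ball 0 R)), y ≠ x := by
    intro x
    refine ae_restrict_of_ae ?_
    simp [ae_iff]
  have hpt : ∀ x : E3, ∫ y in ball (0 : E3) R, wk κ ‖x - y‖ =
      ballPot R ‖x‖ - ∫ y in ball (0 : E3) R, Yk κ x y := by
    intro x
    have e1 := integral_ball_inv 0 x hR
    rw [sub_zero] at e1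
    rw [← e1, ← integral_sub (integrableOn_ball_inv 0 x R) (integrableOn_Yk κ hκ x 0 R)]
    apply integral_congr_ae
    filter_upwards [hsing x] with y hy
    exact hwkx x y hy.symm
  have t00 : ∫ x, ∫ y, wk κ ‖x - y‖ ∂(ν none) ∂(ν none) =
      selfE R - ∫ x in ball (0 : E3) R, ∫ y in ball (0 : E3) R, Yk κ x y := by
    show ∫ x in ball (0 : E3) R, ∫ y in ball (0 : E3) R, wk κ ‖x - y‖ = _
    simp only [hpt]
    have h6 := integrableOn_ballPot 0 0 (s := R) hR
    simp only [sub_zero] at h6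
    rw [integral_sub h6 (integrableOn_integral_Yk hκ hR), integral_selfE hR]
  have t01 : ∀ i, ∫ x, ∫ y, wk κ ‖x - y‖ ∂(ν (some i)) ∂(ν none) =
      ballPot R ‖p i‖ - ∫ y in ball (0 : E3) R, Yk κ (p i) y := by
    intro i
    show ∫ x in ball (0 : E3) R, ∫ y, wk κ ‖x - y‖ ∂(Measure.dirac (p i)) = _
    simp only [integral_dirac]
    rw [← hpt (p i)]
    simp only [norm_sub_rev]
  have t10 : ∀ i, ∫ x, ∫ y, wk κ ‖x - y‖ ∂(ν none) ∂(ν (some i)) =
      ballPot R ‖p i‖ - ∫ y in ball (0 : E3) R, Yk κ (p i) y := by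
    intro i
    show ∫ x, (∫ y in ball (0 : E3) R, wk κ ‖x - y‖) ∂(Measure.dirac (p i)) = _
    rw [integral_dirac, hpt (p i)]
  have t11 : ∀ i j, ∫ x, ∫ y, wk κ ‖x - y‖ ∂(ν (some j)) ∂(ν (some i)) =
      ‖p i - p j‖⁻¹ - Yk κ (p i) (p j) + if i = j then κ else 0 := by
    intro i j
    show ∫ x, (∫ y, wk κ ‖x - y‖ ∂(Measure.dirac (p j))) ∂(Measure.dirac (p i)) = _
    rw [integral_dirac, integral_dirac]
    split_ifs with hij
    · subst hij
      simp [wk_zero, Yk]
    · rw [hwkx _ _ (hinj.ne hij), add_zero]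
  simp only [t00, t01, t10, t11] at h
  have hq0 : q none = -1 := rfl
  have hq1 : ∀ i, q (some i) = z := fun i => rfl
  simp only [hq0, hq1] at h
  unfold jelY jel rep
  simp only [Finset.sum_add_distrib, Finset.sum_sub_distrib, mul_sub, mul_add,
    ← Finset.mul_sum, Finset.sum_ite_eq, Finset.mem_univ, if_true, Finset.sum_const,
    Finset.card_univ, nsmul_eq_mul] at h
  nlinarith [h]

/-- Localisation of the jellium energy. -/
theorem jel_localize {κ z R : ℝ} (hκ : 0 < κ) (hz : 0 ≤ z) (hR : 0 ≤ R) (p : ι → E3)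
    (hinj : Function.Injective p) (L : ℝ × E3 → ℝ≥0∞) (hLm : Measurable L) {C : ℝ} (hC : 0 ≤ C)
    (hL : ∀ᵐ b ∂(bm κ), ENNReal.ofReal z * Ab p R b ≤
      ENNReal.ofReal (z ^ 2) * Ub p b + 2⁻¹ * Db R b + L b)
    (hLC : ∫⁻ b, L b ∂(bm κ) ≤ ENNReal.ofReal C) :
    -C - κ * z ^ 2 * Fintype.card ι / 2 ≤ jel z R p := by
  have h1 := lintegral_mono_ae hL
  rw [lintegral_const_mul _ (measurable_Ab p R), lintegral_Ab hκ,
    lintegral_add_right _ hLm, lintegral_add_right _ ((measurable_Db R).const_mul _),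
    lintegral_const_mul _ (measurable_Ub p), lintegral_const_mul _ (measurable_Db R),
    lintegral_Ub hκ, lintegral_Db hκ hR] at h1
  have hA0 : 0 ≤ ∑ i, ∫ y in ball (0 : E3) R, Yk κ (p i) y :=
    Finset.sum_nonneg fun i _ => integral_Yk_nonneg _ _ _ _
  have hU0 : 0 ≤ (1 / 2) * ∑ i, ∑ j, Yk κ (p i) (p j) := by
    have : 0 ≤ ∑ i, ∑ j, Yk κ (p i) (p j) :=
      Finset.sum_nonneg fun i _ => Finset.sum_nonneg fun j _ => Yk_nonneg _ _ _
    positivity
  have hD0 : 0 ≤ ∫ x in ball (0 : E3) R, ∫ y in ball (0 : E3) R, Yk κ x y :=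
    integral_nonneg fun x => integral_Yk_nonneg _ _ _ _
  have h2 : (2⁻¹ : ℝ≥0∞) = ENNReal.ofReal (1 / 2) := by
    rw [one_div, ENNReal.ofReal_inv_of_pos (by norm_num)]; norm_num
  rw [h2, ← ENNReal.ofReal_mul hz, ← ENNReal.ofReal_mul (sq_nonneg z),
    ← ENNReal.ofReal_mul (by norm_num), ← ENNReal.ofReal_add (mul_nonneg (sq_nonneg z) hU0)
      (mul_nonneg (by norm_num) hD0)] at h1
  have h3 := h1.trans (add_le_add_right hLC _)
  have hsum : 0 ≤ z ^ 2 * (1 / 2 * ∑ i, ∑ j, Yk κ (p i) (p j)) +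
      1 / 2 * ∫ x in ball (0 : E3) R, ∫ y in ball (0 : E3) R, Yk κ x y :=
    add_nonneg (mul_nonneg (sq_nonneg z) hU0) (mul_nonneg (by norm_num) hD0)
  rw [← ENNReal.ofReal_add hsum hC, ENNReal.ofReal_le_ofReal_iff (add_nonneg hsum hC)] at h3
  have h4 := jelY_le hκ.le hR p hinj (z := z)
  unfold jelY at h4
  linarith

end

end Pool.Agent.Lib_helper90c
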