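import Pool.Agent.Lib_helper90c.Pot

/-!
# Jellium in a ball: definitions and choice lemmas
-/

set_option autoImplicit false

open MeasureTheory Set Metric Filter
open scoped ENNReal NNReal Topology

namespace Pool.Agent.Lib_helper90c

/-- Coulomb repulsion `∑_{i<j} 1/|p_i - p_j|`. -/
noncomputable def rep {ι : Type*} [Fintype ι] (p : ι → E3) : ℝ :=
  (1 / 2) * ∑ i, ∑ j, ‖p i - p j‖⁻¹

theorem rep_nonneg {ι : Type*} [Fintype ι] (p : ι → E3) : 0 ≤ rep p := by
  unfold rep; positivity

theorem rep_reindex {ι κ : Type*} [Fintype ι] [Fintype κ] (e : κ ≃ ι) (p : ι → E3) :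
    rep (p ∘ e) = rep p := by
  unfold rep
  congr 1
  rw [← e.sum_comp (fun i => ∑ j, ‖p i - p j‖⁻¹)]
  refine Finset.sum_congr rfl fun i _ => ?_
  rw [← e.sum_comp (fun j => ‖p (e i) - p j‖⁻¹)]
  rfl

theorem rep_sumElim {ι κ : Type*} [Fintype ι] [Fintype κ] (p : ι → E3) (q : κ → E3) :
    rep (Sum.elim p q) = rep p + rep q + ∑ i, ∑ j, ‖p i - q j‖⁻¹ := by
  unfold rep
  rw [Fintype.sum_sum_type]
  simp only [Fintype.sum_sum_type, Sum.elim_inl, Sum.elim_inr, Finset.sum_add_distrib]
  have : ∑ x : κ, ∑ x_1 : ι, ‖q x - p x_1‖⁻¹ = ∑ i, ∑ j, ‖p i - q j‖⁻¹ := by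
    rw [Finset.sum_comm]
    simp only [norm_sub_rev]
  rw [this]
  ring

theorem rep_smul {ι : Type*} [Fintype ι] (p : ι → E3) {s : ℝ} (hs : 0 < s) :
    rep (fun i => s • p i) = s⁻¹ * rep p := by
  unfold rep
  simp only [← smul_sub, norm_smul, Real.norm_eq_abs, abs_of_pos hs, mul_inv]
  simp only [← Finset.mul_sum]
  ring

/-- Jellium energy: nuclei of charge `z` at `p i`, uniform background of density `-1` in the
ball of radius `r`. -/
noncomputable def jel (z r : ℝ) {ι : Type*} [Fintype ι] (p : ι → E3) : ℝ :=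
  z ^ 2 * rep p - z * ∑ i, ballPot r ‖p i‖ + selfE r / 2

theorem jel_reindex (z r : ℝ) {ι κ : Type*} [Fintype ι] [Fintype κ] (e : κ ≃ ι) (p : ι → E3) :
    jel z r (p ∘ e) = jel z r p := by
  unfold jel
  rw [rep_reindex]
  congr 3
  exact e.sum_comp (fun i => ballPot r ‖p i‖)

/-- One random point. -/
theorem exists_point {ν : Measure E3} [IsProbabilityMeasure ν] [NullSingletonClass ν] {G : E3 → ℝ}
    (hG : Integrable G ν) (N : Set E3) (hN : ν N = 0) (S : Set E3) (hS : S.Finite) :
    ∃ x, x ∉ N ∧ x ∉ S ∧ G x ≤ ∫ a, G a ∂ν := by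
  have h : ν (N ∪ S) = 0 := by
    rw [measure_union_null_iff]
    exact ⟨hN, hS.measure_zero ν⟩
  obtain ⟨x, hx, hx'⟩ := exists_notMem_null_le_integral hG h
  exact ⟨x, fun h => hx (Or.inl h), fun h => hx (Or.inr h), hx'⟩

/-- A probability measure for which Coulomb potentials are integrable. -/
structure GoodMeas (ν : Measure E3) : Prop where
  prob : IsProbabilityMeasure ν
  noatoms : NullSingletonClass ν
  pot : ∀ y : E3, Integrable (fun x => ‖x - y‖⁻¹) ν
  pot2 : Integrable (fun y => ∫ x, ‖x - y‖⁻¹ ∂ν) ν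

/-- Random i.i.d. placement of `m` points. -/
theorem exists_iid {ν : Measure E3} (hν : GoodMeas ν) (z : ℝ) (N : Set E3) (hN : ν N = 0)
    (S : Set E3) (hS : S.Finite) (m : ℕ) :
    ∀ (G : E3 → ℝ), Integrable G ν →
    ∃ X : Fin m → E3, Function.Injective X ∧ (∀ i, X i ∉ N) ∧ (∀ i, X i ∉ S) ∧
      z ^ 2 * rep X + ∑ i, G (X i) ≤
        (m : ℝ) * (∫ a, G a ∂ν) + (m : ℝ) * ((m : ℝ) - 1) / 2 * z ^ 2 *
          ∫ y, ∫ x, ‖x - y‖⁻¹ ∂ν ∂ν := by
  have := hν.prob
  have := hν.noatoms
  induction m generalizing S with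
  | zero =>
    intro G _
    refine ⟨Fin.elim0, fun i => i.elim0, fun i => i.elim0, fun i => i.elim0, ?_⟩
    simp [rep]
  | succ m ih =>
    intro G hG
    have hpot2 := hν.pot2
    obtain ⟨y, hyN, hyS, hy⟩ := exists_point
      (G := fun y => G y + (m : ℝ) * z ^ 2 * ∫ x, ‖x - y‖⁻¹ ∂ν)
      (hG.add (hpot2.const_mul _)) N hN S hS
    have hGy : Integrable (fun x => G x + z ^ 2 * ‖x - y‖⁻¹) ν :=
      hG.add ((hν.pot y).const_mul _)
    obtain ⟨X, hXinj, hXN, hXS, hX⟩ := ih (S ∪ {y}) (hS.union (finite_singleton y))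
      (fun x => G x + z ^ 2 * ‖x - y‖⁻¹) hGy
    refine ⟨Fin.cons y X, ?_, ?_, ?_, ?_⟩
    · rw [Fin.cons_injective_iff]
      refine ⟨?_, hXinj⟩
      rintro ⟨i, hi⟩
      exact hXS i (Or.inr hi)
    · intro i
      refine Fin.cases ?_ (fun j => ?_) i
      · simpa using hyN
      · simpa using hXN j
    · intro i
      refine Fin.cases ?_ (fun j => ?_) i
      · simpa using hyS
      · simpa using fun h => hXS j (Or.inl h)
    · have hrep : rep (Fin.cons y X : Fin (m + 1) → E3) = rep X + ∑ i, ‖X i - y‖⁻¹ := by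
        unfold rep
        rw [Fin.sum_univ_succ]
        simp only [Fin.sum_univ_succ, Fin.cons_zero, Fin.cons_succ, sub_self, norm_zero, inv_zero,
          zero_add, Finset.sum_add_distrib]
        have : ∑ x, ‖y - X x‖⁻¹ = ∑ i, ‖X i - y‖⁻¹ := by simp only [norm_sub_rev]
        rw [this]
        ring
      rw [hrep, Fin.sum_univ_succ]
      simp only [Fin.cons_zero, Fin.cons_succ]
      rw [integral_add hG ((hν.pot y).const_mul _), integral_const_mul] at hX
      rw [integral_add hG (hpot2.const_mul _), integral_const_mul] at hy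
      have e1 : ∑ i, (G (X i) + z ^ 2 * ‖X i - y‖⁻¹) =
          ∑ i, G (X i) + z ^ 2 * ∑ i, ‖X i - y‖⁻¹ := by
        rw [Finset.sum_add_distrib, Finset.mul_sum]
      rw [e1] at hX
      push_cast
      linarith

/-- Uniform measure on a bounded measurable set of positive volume. -/
theorem goodMeas_uniform {A : Set E3} {R : ℝ} (hAR : A ⊆ ball 0 R)
    (hA0 : volume A ≠ 0) : GoodMeas ((volume A)⁻¹ • volume.restrict A) := by
  have hfin : volume A ≠ ∞ := ((measure_mono hAR).trans_lt measure_ball_lt_top).ne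
  have hR : 0 ≤ R := by
    by_contra h
    rw [ball_eq_empty.2 (not_le.1 h).le] at hAR
    exact hA0 (by rw [subset_empty_iff.1 hAR, measure_empty])
  have hpot : ∀ y : E3, IntegrableOn (fun x => ‖x - y‖⁻¹) A := fun y => by
    have := (integrableOn_ball_inv 0 y R).mono_set hAR
    simpa only [norm_sub_rev y] using this
  have hle : ∀ y : E3, ∫ x in A, ‖x - y‖⁻¹ ≤ 2 * Real.pi * R ^ 2 := fun y => by
    have h1 : ∫ x in A, ‖x - y‖⁻¹ ≤ ∫ x in ball (0 : E3) R, ‖x - y‖⁻¹ := by
      apply setIntegral_mono_set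
      · have := integrableOn_ball_inv 0 y R
        simpa only [norm_sub_rev y] using this
      · exact Eventually.of_forall fun x => by positivity
      · exact LE.le.eventuallyLE hAR
    have h2 := integral_ball_inv 0 y hR
    simp only [norm_sub_rev y] at h2
    rw [h2] at h1
    exact h1.trans (ballPot_le hR (norm_nonneg _))
  refine ⟨?_, ?_, ?_, ?_⟩
  · exact ⟨by simp [ENNReal.inv_mul_cancel hA0 hfin]⟩
  · exact ⟨fun x => by rw [Measure.smul_apply, measure_singleton]; simp⟩
  · intro y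
    exact Integrable.smul_measure (hpot y) (ENNReal.inv_ne_top.2 hA0)
  · have hm : Measurable fun q : E3 × E3 => ‖q.2 - q.1‖⁻¹ := by fun_prop
    apply Integrable.smul_measure _ (ENNReal.inv_ne_top.2 hA0)
    have : IsFiniteMeasure (volume.restrict A) := ⟨by simpa using hfin.lt_top⟩
    refine Integrable.mono' (integrable_const ((volume A)⁻¹.toReal * (2 * Real.pi * R ^ 2)))
      ?_ ?_
    · exact (hm.stronglyMeasurable.integral_prod_right'
        (ν := (volume A)⁻¹ • volume.restrict A)).aestronglyMeasurable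
    · refine Eventually.of_forall fun y => ?_
      rw [integral_smul_measure, smul_eq_mul, Real.norm_eq_abs, abs_of_nonneg (by
        apply mul_nonneg ENNReal.toReal_nonneg
        exact integral_nonneg fun x => by positivity)]
      exact mul_le_mul_of_nonneg_left (hle y) ENNReal.toReal_nonneg

end Pool.Agent.Lib_helper90c
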