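import Pool.Agent.Lib_helper90c.BallPot

/-!
# Volume of the intersection of two balls of equal radius, and the exponential as a mixture
-/

set_option autoImplicit false

open MeasureTheory Set Metric
open scoped ENNReal NNReal

namespace Pool.Agent.Lib_helper90c

theorem mkE_mem_ball_ax {s r t : ℝ} {u : E2} :
    mkE (s, u) ∈ ball (ax t) r ↔
      (-r < s - t ∧ s - t < r) ∧ u ∈ ball (0 : E2) (Real.sqrt (r ^ 2 - (s - t) ^ 2)) := by
  have h : mkE (s, u) - ax t = mkE (s - t, u) := by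
    ext i
    refine Fin.cases ?_ (fun j => ?_) i
    · simp [mkE, ax]
    · simp [mkE, ax]
  rw [mem_ball_iff_norm, h, ← mem_ball_zero_iff, mkE_mem_ball]

theorem volume_disc (a : ℝ) (ha : 0 ≤ a) :
    volume (ball (0 : E2) (Real.sqrt a)) = ENNReal.ofReal (Real.pi * a) := by
  rw [EuclideanSpace.volume_ball_fin_two, ← ENNReal.ofReal_pow (Real.sqrt_nonneg _),
    Real.sq_sqrt ha]
  rw [← ENNReal.ofReal_mul ha, mul_comm]

/-- volume of the lens, slices -/
theorem volume_lens_slice (r t : ℝ) (ht : 0 ≤ t) :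
    volume (ball (0 : E3) r ∩ ball (ax t) r) =
      ∫⁻ s in Ioo (t - r) r, ENNReal.ofReal
        (Real.pi * min (r ^ 2 - s ^ 2) (r ^ 2 - (s - t) ^ 2)) := by
  rw [← lintegral_indicator_one (measurableSet_ball.inter measurableSet_ball), lintegral_cyl]
  swap
  · exact (measurable_one).indicator (measurableSet_ball.inter measurableSet_ball)
  rw [← lintegral_indicator measurableSet_Ioo]
  congr 1
  ext s
  by_cases hs : s ∈ Ioo (t - r) r
  · rw [indicator_of_mem hs]
    have h1 : 0 ≤ r ^ 2 - s ^ 2 := by nlinarith [hs.1, hs.2]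
    have h2 : 0 ≤ r ^ 2 - (s - t) ^ 2 := by nlinarith [hs.1, hs.2]
    have h3 : 0 ≤ min (r ^ 2 - s ^ 2) (r ^ 2 - (s - t) ^ 2) := le_min h1 h2
    rw [← volume_disc _ h3, ← lintegral_indicator_one measurableSet_ball]
    congr 1
    ext u
    have hiff : mkE (s, u) ∈ ball (0 : E3) r ∩ ball (ax t) r ↔
        u ∈ ball (0 : E2) (Real.sqrt (min (r ^ 2 - s ^ 2) (r ^ 2 - (s - t) ^ 2))) := by
      rw [mem_inter_iff, mkE_mem_ball, mkE_mem_ball_ax, mem_ball_zero_iff, mem_ball_zero_iff,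
        mem_ball_zero_iff, Real.lt_sqrt (norm_nonneg _), Real.lt_sqrt (norm_nonneg _),
        Real.lt_sqrt (norm_nonneg _), lt_min_iff]
      constructor
      · rintro ⟨⟨_, h⟩, ⟨_, h'⟩⟩; exact ⟨h, h'⟩
      · rintro ⟨h, h'⟩
        exact ⟨⟨⟨by linarith [hs.1], hs.2⟩, h⟩, ⟨⟨by linarith [hs.1], by linarith [hs.2]⟩, h'⟩⟩
    by_cases hu : u ∈ ball (0 : E2) (Real.sqrt (min (r ^ 2 - s ^ 2) (r ^ 2 - (s - t) ^ 2)))
    · rw [indicator_of_mem hu, indicator_of_mem (hiff.2 hu)]; rfl
    · rw [indicator_of_notMem hu, indicator_of_notMem (fun h => hu (hiff.1 h))]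
  · rw [indicator_of_notMem hs]
    have h1 : (fun u : E2 => (ball (0 : E3) r ∩ ball (ax t) r).indicator (1 : E3 → ℝ≥0∞)
        (mkE (s, u))) = fun _ => 0 := by
      ext u
      rw [indicator_of_notMem]
      rintro ⟨h, h'⟩
      rw [mkE_mem_ball] at h
      rw [mkE_mem_ball_ax] at h'
      exact hs ⟨by linarith [h'.1.1], h.1.2⟩
    rw [h1, lintegral_zero]

theorem integral_lens_aux (r t : ℝ) (ht : 0 ≤ t) (htr : t ≤ 2 * r) :
    ∫ s in (t - r)..r, Real.pi * min (r ^ 2 - s ^ 2) (r ^ 2 - (s - t) ^ 2) =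
      Real.pi / 12 * (16 * r ^ 3 - 12 * r ^ 2 * t + t ^ 3) := by
  have hc : Continuous fun s : ℝ => Real.pi * min (r ^ 2 - s ^ 2) (r ^ 2 - (s - t) ^ 2) := by
    fun_prop
  rw [← intervalIntegral.integral_add_adjacent_intervals (b := t / 2)
    (hc.intervalIntegrable _ _) (hc.intervalIntegrable _ _)]
  have h1 : ∫ s in (t - r)..(t / 2), Real.pi * min (r ^ 2 - s ^ 2) (r ^ 2 - (s - t) ^ 2) =
      ∫ s in (t - r)..(t / 2), Real.pi * (r ^ 2 - (s - t) ^ 2) := by
    apply intervalIntegral.integral_congr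
    intro s hs
    rw [uIcc_of_le (by linarith)] at hs
    show Real.pi * min (r ^ 2 - s ^ 2) (r ^ 2 - (s - t) ^ 2) = Real.pi * (r ^ 2 - (s - t) ^ 2)
    rw [min_eq_right]
    nlinarith [hs.2]
  have h2 : ∫ s in (t / 2)..r, Real.pi * min (r ^ 2 - s ^ 2) (r ^ 2 - (s - t) ^ 2) =
      ∫ s in (t / 2)..r, Real.pi * (r ^ 2 - s ^ 2) := by
    apply intervalIntegral.integral_congr
    intro s hs
    rw [uIcc_of_le (by linarith)] at hs
    show Real.pi * min (r ^ 2 - s ^ 2) (r ^ 2 - (s - t) ^ 2) = Real.pi * (r ^ 2 - s ^ 2)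
    rw [min_eq_left]
    nlinarith [hs.1]
  have i1 := intervalIntegral.integral_eq_sub_of_hasDerivAt (a := t - r) (b := t / 2)
    (f := fun s : ℝ => Real.pi * (r ^ 2 * s - (s - t) ^ 3 / 3))
    (f' := fun s : ℝ => Real.pi * (r ^ 2 - (s - t) ^ 2))
    (fun s _ => ((((hasDerivAt_id' s).const_mul (r ^ 2)).sub
        ((((hasDerivAt_id' s).sub_const t).pow 3).div_const 3)).const_mul Real.pi).congr_deriv
        (by norm_num)) (by apply Continuous.intervalIntegrable; fun_prop)
  have i2 := intervalIntegral.integral_eq_sub_of_hasDerivAt (a := t / 2) (b := r)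
    (f := fun s : ℝ => Real.pi * (r ^ 2 * s - s ^ 3 / 3))
    (f' := fun s : ℝ => Real.pi * (r ^ 2 - s ^ 2))
    (fun s _ => ((((hasDerivAt_id' s).const_mul (r ^ 2)).sub
        (((hasDerivAt_id' s).pow 3).div_const 3)).const_mul Real.pi).congr_deriv
        (by norm_num)) (by apply Continuous.intervalIntegrable; fun_prop)
  rw [h1, h2, i1, i2]
  ring

theorem volume_lens_ax (r t : ℝ) (ht : 0 ≤ t) (htr : t ≤ 2 * r) :
    volume (ball (0 : E3) r ∩ ball (ax t) r) =
      ENNReal.ofReal (Real.pi / 12 * (16 * r ^ 3 - 12 * r ^ 2 * t + t ^ 3)) := by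
  rw [volume_lens_slice r t ht, ← integral_lens_aux r t ht htr]
  have hc : Continuous fun s : ℝ => Real.pi * min (r ^ 2 - s ^ 2) (r ^ 2 - (s - t) ^ 2) := by
    fun_prop
  rw [intervalIntegral.integral_of_le (by linarith), integral_Ioc_eq_integral_Ioo,
    ofReal_integral_eq_lintegral_ofReal]
  · exact (hc.integrableOn_Icc (a := t - r) (b := r)).mono_set Ioo_subset_Icc_self
  · filter_upwards [self_mem_ae_restrict measurableSet_Ioo] with s hs
    exact mul_nonneg Real.pi_pos.le (le_min (by nlinarith [hs.1, hs.2]) (by nlinarith [hs.1, hs.2]))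

theorem volume_lens (r : ℝ) (x y : E3) (h : ‖x - y‖ ≤ 2 * r) :
    volume (ball x r ∩ ball y r) =
      ENNReal.ofReal (Real.pi / 12 * (16 * r ^ 3 - 12 * r ^ 2 * ‖x - y‖ + ‖x - y‖ ^ 3)) := by
  rw [← volume_lens_ax r ‖x - y‖ (norm_nonneg _) h]
  obtain ⟨f, hf⟩ := exists_isometry_ax (y - x)
  have hxy : ‖x - y‖ = ‖y - x‖ := norm_sub_rev _ _
  rw [← hxy] at hf
  have h1 : ball x r ∩ ball y r = (fun z => z - x) ⁻¹' (ball 0 r ∩ ball (y - x) r) := by
    ext z
    simp only [mem_inter_iff, mem_ball_iff_norm, mem_preimage, sub_zero, sub_sub_sub_cancel_right]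
  have h2 : ball (0 : E3) r ∩ ball (ax ‖x - y‖) r = f ⁻¹' (ball 0 r ∩ ball (y - x) r) := by
    ext z
    simp only [mem_inter_iff, mem_ball_iff_norm, mem_preimage, sub_zero]
    rw [← hf, ← map_sub, f.norm_map, f.norm_map]
  rw [h1, h2, f.measurePreserving.measure_preimage
    (measurableSet_ball.inter measurableSet_ball).nullMeasurableSet]
  exact (measurePreserving_sub_right volume x).measure_preimage
    (measurableSet_ball.inter measurableSet_ball).nullMeasurableSet

theorem volume_lens_eq_zero (r : ℝ) (x y : E3) (h : 2 * r < ‖x - y‖) :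
    volume (ball x r ∩ ball y r) = 0 := by
  have : ball x r ∩ ball y r = ∅ := by
    ext z
    simp only [mem_inter_iff, mem_ball_iff_norm, mem_empty_iff_false, iff_false, not_and, not_lt]
    intro hz
    have := norm_sub_le_norm_sub_add_norm_sub x z y
    rw [norm_sub_rev x z] at this
    linarith
  rw [this, measure_empty]

end Pool.Agent.Lib_helper90c
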