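import Pool.Agent.Lib_helper90c.Final

/-!
# Existence of the limit
-/

set_option autoImplicit false

open MeasureTheory Set Metric Filter
open scoped ENNReal NNReal Topology

namespace Pool.Agent.Lib_helper90c

/-- the set of energies -/
def enSet (z : ℝ) (N : ℕ) : Set ℝ :=
  {E : ℝ | ∃ (K : ℕ) (R : Fin K → E3) (ψ : Conf N → ℂ), (K : ℝ) * z = N ∧
    Function.Injective R ∧ Trial ψ ∧ E = energy z R ψ}

theorem enSet_bddBelow {z : ℝ} (hz : 0 < z) {N : ℕ} (hN : 0 < N) : BddBelow (enSet z N) := by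
  obtain ⟨B, hB, hk⟩ := kinetic_bound hz
  have hN' : (0 : ℝ) < N := by exact_mod_cast hN
  set x : ℝ := (N : ℝ) ^ (1 / 3 : ℝ) with hx
  have hx0 : 0 < x := by positivity
  have hx3 : x ^ 3 = N := by
    rw [hx, ← Real.rpow_natCast, ← Real.rpow_mul hN'.le]; norm_num
  refine ⟨-(B * x ^ 5 / 2), ?_⟩
  rintro E ⟨K, R, ψ, hK, hR, hψ, rfl⟩
  have h1 := hk N K x hx0 hx3 hK R ψ hR hψ
  have h2 := kinetic_nonneg ψ
  linarith

theorem limit_exists {z : ℝ} (hz : 0 < z) :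
    Tendsto (fun N : ℕ => groundEnergy z N / (N : ℝ) ^ (5 / 3 : ℝ))
      (atTop ⊓ 𝓟 {N : ℕ | ∃ K : ℕ, (K : ℝ) * z = N}) (𝓝 (limE z)) := by
  rw [Metric.tendsto_nhds]
  intro ε hε
  -- upper bound
  have hlt : sInf {E : ℝ | ∃ u : E3 → ℂ, Trial1 u ∧ E = limFun z u} < limE z + ε / 4 := by
    have : limE z = sInf {E : ℝ | ∃ u : E3 → ℂ, Trial1 u ∧ E = limFun z u} := rfl
    rw [← this]; linarith
  obtain ⟨u0, hu0⟩ := exists_trial1
  have hne : {E : ℝ | ∃ u : E3 → ℂ, Trial1 u ∧ E = limFun z u}.Nonempty :=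
    ⟨limFun z u0, u0, hu0, rfl⟩
  obtain ⟨E, ⟨u, hu, rfl⟩, hEu⟩ := exists_lt_of_csInf_lt hne hlt
  obtain ⟨N0, hN0, hup⟩ := upper_E hz hu (ε := ε / 4) (by linarith)
  obtain ⟨x0, hx0, hlow⟩ := lower_E hz (ε := ε / 2) (by linarith)
  have hev1 : ∀ᶠ N : ℕ in atTop, N0 ≤ (N : ℝ) :=
    tendsto_natCast_atTop_atTop.eventually_ge_atTop N0
  have hev2 : ∀ᶠ N : ℕ in atTop, x0 ^ 3 ≤ (N : ℝ) :=
    tendsto_natCast_atTop_atTop.eventually_ge_atTop (x0 ^ 3)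
  have hev3 : ∀ᶠ N : ℕ in atTop, 0 < N := eventually_gt_atTop 0
  rw [eventually_inf_principal]
  filter_upwards [hev1, hev2, hev3] with N h1 h2 h3 hadm
  obtain ⟨K, hK⟩ := hadm
  have hN' : (0 : ℝ) < N := by exact_mod_cast h3
  set x : ℝ := (N : ℝ) ^ (1 / 3 : ℝ) with hx
  have hxpos : 0 < x := by positivity
  have hx3 : x ^ 3 = N := by
    rw [hx, ← Real.rpow_natCast, ← Real.rpow_mul hN'.le]; norm_num
  have hx5 : (N : ℝ) ^ (5 / 3 : ℝ) = x ^ 5 := by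
    rw [hx, ← Real.rpow_natCast, ← Real.rpow_mul hN'.le]; norm_num
  have hxx0 : x0 ≤ x := by
    rw [← hx3] at h2
    exact (pow_le_pow_iff_left₀ hx0.le hxpos.le (by norm_num)).1 h2
  have hp : 0 < x ^ 5 := by positivity
  have hbdd := enSet_bddBelow hz h3
  obtain ⟨R, ψ, hR, hψ, hE⟩ := hup N h1 K hK
  have hmem : energy z R ψ ∈ enSet z N := ⟨K, R, ψ, hK, hR, hψ, rfl⟩
  have hU : groundEnergy z N ≤ x ^ 5 * (limFun z u + ε / 4) := by
    rw [← hx5]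
    exact (csInf_le hbdd hmem).trans hE
  have hL : (limE z - ε / 2) * x ^ 5 ≤ groundEnergy z N := by
    refine le_csInf ⟨_, hmem⟩ ?_
    rintro E ⟨K', R', ψ', hK', hR', hψ', rfl⟩
    exact hlow N K' x hxx0 hx3 hK' R' ψ' hR' hψ'
  rw [hx5, Real.dist_eq, abs_lt]
  constructor
  · have : limE z - ε / 2 ≤ groundEnergy z N / x ^ 5 := by
      rw [le_div_iff₀ hp]; exact hL
    linarith
  · have : groundEnergy z N / x ^ 5 ≤ limFun z u + ε / 4 := by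
      rw [div_le_iff₀ hp, mul_comm]; exact hU
    linarith

end Pool.Agent.Lib_helper90c
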