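import Pool.Agent.Lib_helper90c.LocN

/-!
# Ball quantities and the localisation theorem
-/

set_option autoImplicit false

open MeasureTheory Set Metric Filter
open scoped ENNReal NNReal Topology

namespace Pool.Agent.Lib_helper90c

section
variable {N K : ℕ}

/-- electron repulsion inside the ball `b` -/
noncomputable def Pb (ψ : Conf N → ℂ) (b : ℝ × E3) : ℝ≥0∞ :=
  2⁻¹ * ∑ i, ∑ j, ∫⁻ x, ib b (x i) * ib b (x j) * ENNReal.ofReal ‖x i - x j‖⁻¹ * dens ψ x

/-- attraction inside the ball `b` -/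
noncomputable def AbN (R : Fin K → E3) (ψ : Conf N → ℂ) (b : ℝ × E3) : ℝ≥0∞ :=
  ∑ i, ∑ k, ∫⁻ x, ib b (x i) * ib b (R k) * ENNReal.ofReal ‖x i - R k‖⁻¹ * dens ψ x

/-- kinetic energy density of particle `i` -/
noncomputable def kd (ψ : Conf N → ℂ) (i : Fin N) (x : Conf N) : ℝ≥0∞ :=
  ENNReal.ofReal (gradSq ψ i x)

/-- kinetic energy inside the ball `b` -/
noncomputable def Tb (ψ : Conf N → ℂ) (b : ℝ × E3) : ℝ≥0∞ :=
  ∑ i, ∫⁻ x, ib b (x i) * kd ψ i x

/-- total kinetic energy -/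
noncomputable def kin (ψ : Conf N → ℂ) : ℝ≥0∞ := ∑ i, ∫⁻ x, kd ψ i x

/-- expected number of electrons in the ball `b` -/
noncomputable def nub (ψ : Conf N → ℂ) (b : ℝ × E3) : ℝ≥0∞ :=
  ∑ i, ∫⁻ x, ib b (x i) * dens ψ x

theorem continuous_gradSq {ψ : Conf N → ℂ} (h : ContDiff ℝ (⊤ : ℕ∞) ψ) (i : Fin N) :
    Continuous (gradSq ψ i) := by
  have h1 : Continuous (fderiv ℝ ψ) := h.continuous_fderiv (by simp)
  unfold gradSq
  exact continuous_finsetSum _ fun a _ => ((h1.clm_apply continuous_const).norm.pow 2)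

theorem measurable_kd {ψ : Conf N → ℂ} (h : ContDiff ℝ (⊤ : ℕ∞) ψ) (i : Fin N) :
    Measurable (kd ψ i) := (continuous_gradSq h i).measurable.ennreal_ofReal

theorem gradSq_nonneg (ψ : Conf N → ℂ) (i : Fin N) (x : Conf N) : 0 ≤ gradSq ψ i x := by
  unfold gradSq; positivity

theorem measurable_ib_pi (i : Fin N) :
    Measurable fun q : (ℝ × E3) × Conf N => ib q.1 (q.2 i) := by
  have h : Measurable fun q : (ℝ × E3) × Conf N => (q.1, q.2 i) :=
    measurable_fst.prodMk ((measurable_pi_apply i).comp measurable_snd)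
  have h2 := measurable_ib.comp h
  exact h2

theorem measurable_ib_pt (y : E3) : Measurable fun q : (ℝ × E3) × Conf N => ib q.1 y := by
  have h : Measurable fun q : (ℝ × E3) × Conf N => q.1 := measurable_fst
  have h2 := (measurable_ib_left y).comp h
  exact h2

theorem measurable_ib_x (b : ℝ × E3) (i : Fin N) : Measurable fun x : Conf N => ib b (x i) :=
  (measurable_ib_right b).comp (measurable_pi_apply i)

/-- swapping the integration over balls and configurations, one particle -/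
theorem swap1 (κ : ℝ) (i : Fin N) {F : Conf N → ℝ≥0∞} (hF : Measurable F) {g : ℝ → ℝ≥0∞}
    (hg : Measurable g) :
    ∫⁻ b, g b.1 * (∫⁻ x, ib b (x i) * F x) ∂(bm κ) =
      ∫⁻ x, (∫⁻ b, g b.1 * ib b (x i) ∂(bm κ)) * F x := by
  have hj : Measurable fun q : (ℝ × E3) × Conf N => g q.1.1 * (ib q.1 (q.2 i) * F q.2) :=
    (hg.comp (measurable_fst.comp measurable_fst)).mul
      ((measurable_ib_pi i).mul (hF.comp measurable_snd))
  have e1 : ∀ b : ℝ × E3, g b.1 * ∫⁻ x, ib b (x i) * F x =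
      ∫⁻ x : Conf N, g b.1 * (ib b (x i) * F x) := by
    intro b
    have hm : Measurable fun x : Conf N => ib b (x i) * F x := (measurable_ib_x b i).mul hF
    rw [lintegral_const_mul _ hm]
  simp only [e1]
  rw [lintegral_lintegral_swap (f := fun (b : ℝ × E3) (x : Conf N) =>
    g b.1 * (ib b (x i) * F x)) hj.aemeasurable]
  congr 1
  ext x
  have hm : Measurable fun b : ℝ × E3 => g b.1 * ib b (x i) :=
    (hg.comp measurable_fst).mul (measurable_ib_left _)
  rw [← lintegral_mul_const _ hm]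
  congr 1
  ext b
  ring

theorem lintegral_Tb {κ : ℝ} (hκ : 0 < κ) {ψ : Conf N → ℂ} (h : ContDiff ℝ (⊤ : ℕ∞) ψ) :
    Measurable (Tb ψ) ∧ ∫⁻ b, Tb ψ b ∂(bm κ) = kin ψ := by
  have hk := measurable_kd h
  have hm : ∀ i, Measurable fun b : ℝ × E3 => ∫⁻ x, ib b (x i) * kd ψ i x := by
    intro i
    have : Measurable fun q : (ℝ × E3) × Conf N => ib q.1 (q.2 i) * kd ψ i q.2 :=
      (measurable_ib_pi i).mul ((hk i).comp measurable_snd)
    exact this.lintegral_prod_right'
  refine ⟨Finset.measurable_sum _ fun i _ => hm i, ?_⟩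
  unfold Tb kin
  rw [lintegral_finsetSum _ fun i _ => hm i]
  refine Finset.sum_congr rfl fun i _ => ?_
  have := swap1 κ i (hk i) (g := fun _ => 1) measurable_const
  simp only [one_mul, mix_one hκ] at this
  exact this

theorem measurable_Pb {ψ : Conf N → ℂ} (hd : Measurable (dens ψ)) : Measurable (Pb ψ) := by
  unfold Pb
  refine Measurable.const_mul ?_ _
  refine Finset.measurable_sum _ fun i _ => Finset.measurable_sum _ fun j _ => ?_
  have : Measurable fun q : (ℝ × E3) × Conf N => ib q.1 (q.2 i) * ib q.1 (q.2 j) *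
      ENNReal.ofReal ‖q.2 i - q.2 j‖⁻¹ * dens ψ q.2 :=
    (((measurable_ib_pi i).mul (measurable_ib_pi j)).mul
      ((measurable_inv_pi i j).ennreal_ofReal.comp measurable_snd)).mul (hd.comp measurable_snd)
  exact this.lintegral_prod_right'

theorem measurable_AbN (R : Fin K → E3) {ψ : Conf N → ℂ} (hd : Measurable (dens ψ)) :
    Measurable (AbN R ψ) := by
  unfold AbN
  refine Finset.measurable_sum _ fun i _ => Finset.measurable_sum _ fun k _ => ?_
  have : Measurable fun q : (ℝ × E3) × Conf N => ib q.1 (q.2 i) * ib q.1 (R k) *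
      ENNReal.ofReal ‖q.2 i - R k‖⁻¹ * dens ψ q.2 :=
    (((measurable_ib_pi i).mul (measurable_ib_pt (R k))).mul
      ((measurable_inv_pt i (R k)).ennreal_ofReal.comp measurable_snd)).mul
        (hd.comp measurable_snd)
  exact this.lintegral_prod_right'

theorem lintegral_Pb {κ : ℝ} (hκ : 0 < κ) {ψ : Conf N → ℂ} (hd : Measurable (dens ψ)) :
    ∫⁻ b, Pb ψ b ∂(bm κ) = PeeY κ ψ := by
  unfold Pb PeeY
  have hj : ∀ i j : Fin N, Measurable fun q : (ℝ × E3) × Conf N => ib q.1 (q.2 i) *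
      ib q.1 (q.2 j) * ENNReal.ofReal ‖q.2 i - q.2 j‖⁻¹ * dens ψ q.2 := fun i j =>
    (((measurable_ib_pi i).mul (measurable_ib_pi j)).mul
      ((measurable_inv_pi i j).ennreal_ofReal.comp measurable_snd)).mul (hd.comp measurable_snd)
  have hm : ∀ i j : Fin N, Measurable fun b : ℝ × E3 => ∫⁻ x, ib b (x i) * ib b (x j) *
      ENNReal.ofReal ‖x i - x j‖⁻¹ * dens ψ x := fun i j => (hj i j).lintegral_prod_right'
  rw [lintegral_const_mul _ (Finset.measurable_sum _ fun i _ => Finset.measurable_sum _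
    fun j _ => hm i j), lintegral_finsetSum _ fun i _ => Finset.measurable_sum _ fun j _ => hm i j]
  congr 1
  refine Finset.sum_congr rfl fun i _ => ?_
  rw [lintegral_finsetSum _ fun j _ => hm i j]
  refine Finset.sum_congr rfl fun j _ => ?_
  rw [lintegral_lintegral_swap (f := fun (b : ℝ × E3) (x : Conf N) => ib b (x i) * ib b (x j) *
      ENNReal.ofReal ‖x i - x j‖⁻¹ * dens ψ x) (hj i j).aemeasurable]
  congr 1
  ext x
  have hmb : Measurable fun b : ℝ × E3 => ib b (x i) * ib b (x j) *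
      ENNReal.ofReal ‖x i - x j‖⁻¹ :=
    ((measurable_ib_left _).mul (measurable_ib_left _)).mul_const _
  rw [lintegral_mul_const _ hmb, mix_Yk hκ]

theorem lintegral_AbN {κ : ℝ} (hκ : 0 < κ) (R : Fin K → E3) {ψ : Conf N → ℂ}
    (hd : Measurable (dens ψ)) : ∫⁻ b, AbN R ψ b ∂(bm κ) = AenY κ R ψ := by
  unfold AbN AenY
  have hj : ∀ (i : Fin N) (k : Fin K), Measurable fun q : (ℝ × E3) × Conf N => ib q.1 (q.2 i) *
      ib q.1 (R k) * ENNReal.ofReal ‖q.2 i - R k‖⁻¹ * dens ψ q.2 := fun i k =>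
    (((measurable_ib_pi i).mul (measurable_ib_pt (R k))).mul
      ((measurable_inv_pt i (R k)).ennreal_ofReal.comp measurable_snd)).mul
        (hd.comp measurable_snd)
  have hm : ∀ (i : Fin N) (k : Fin K), Measurable fun b : ℝ × E3 => ∫⁻ x, ib b (x i) *
      ib b (R k) * ENNReal.ofReal ‖x i - R k‖⁻¹ * dens ψ x :=
    fun i j => (hj i j).lintegral_prod_right'
  rw [lintegral_finsetSum _ fun i _ => Finset.measurable_sum _ fun j _ => hm i j]
  refine Finset.sum_congr rfl fun i _ => ?_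
  rw [lintegral_finsetSum _ fun j _ => hm i j]
  refine Finset.sum_congr rfl fun k _ => ?_
  rw [lintegral_lintegral_swap (f := fun (b : ℝ × E3) (x : Conf N) => ib b (x i) * ib b (R k) *
      ENNReal.ofReal ‖x i - R k‖⁻¹ * dens ψ x) (hj i k).aemeasurable]
  congr 1
  ext x
  have hmb : Measurable fun b : ℝ × E3 => ib b (x i) * ib b (R k) *
      ENNReal.ofReal ‖x i - R k‖⁻¹ :=
    ((measurable_ib_left _).mul (measurable_ib_left _)).mul_const _
  rw [lintegral_mul_const _ hmb, mix_Yk hκ]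

theorem PeeY_le {κ : ℝ} (hκ : 0 ≤ κ) (ψ : Conf N → ℂ) : PeeY κ ψ ≤ Pee ψ := by
  unfold PeeY Pee
  gcongr with i _ j _
  exact Yk_le hκ _ _

/-- The localisation theorem. -/
theorem loc_main {κ z : ℝ} (hκ : 0 < κ) (hz : 0 ≤ z) (R : Fin K → E3)
    (hR : Function.Injective R) {ψ : Conf N → ℂ} (h : Trial ψ) (Err : ℝ × E3 → ℝ≥0∞)
    (hErr : Measurable Err)
    (hb : ∀ᵐ b ∂(bm κ), ENNReal.ofReal z * AbN R ψ b ≤
      Pb ψ b + ENNReal.ofReal (z ^ 2) * Ub R b + Err b) :
    ENNReal.ofReal z * Aen R ψ ≤ Pee ψ + ENNReal.ofReal (z ^ 2) * ENNReal.ofReal (rep R) +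
      ENNReal.ofReal (κ * (N + z ^ 2 * K) / 2) + ∫⁻ b, Err b ∂(bm κ) := by
  have hd := measurable_dens h.smooth.continuous
  have h1 := lintegral_mono_ae hb
  rw [lintegral_const_mul _ (measurable_AbN R hd), lintegral_AbN hκ R hd,
    lintegral_add_right _ hErr, lintegral_add_right _ ((measurable_Ub R).const_mul _),
    lintegral_Pb hκ hd, lintegral_const_mul _ (measurable_Ub R), lintegral_Ub hκ] at h1
  have h2 := pd_integrated hκ.le hz R hR h
  have hUY : ENNReal.ofReal ((1 / 2) * ∑ k, ∑ l, Yk κ (R k) (R l)) = UY κ R := rfl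
  rw [hUY] at h1
  set X := PeeY κ ψ + ENNReal.ofReal (z ^ 2) * UY κ R with hX
  have hXfin : X ≠ ∞ := by
    rw [hX]
    refine ENNReal.add_ne_top.2 ⟨?_, ENNReal.mul_ne_top ENNReal.ofReal_ne_top
      ENNReal.ofReal_ne_top⟩
    exact ((PeeY_le hκ.le ψ).trans_lt (Pee_lt_top h.smooth.continuous h.compact)).ne
  have h3 : ENNReal.ofReal z * Aen R ψ + X ≤
      (Pee ψ + ENNReal.ofReal (z ^ 2) * ENNReal.ofReal (rep R) +
      ENNReal.ofReal (κ * (N + z ^ 2 * K) / 2) + ∫⁻ b, Err b ∂(bm κ)) + X := by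
    calc ENNReal.ofReal z * Aen R ψ + X
        = ENNReal.ofReal z * Aen R ψ + PeeY κ ψ + ENNReal.ofReal (z ^ 2) * UY κ R := by
          rw [hX]; ring
      _ ≤ ENNReal.ofReal z * AenY κ R ψ + Pee ψ +
          ENNReal.ofReal (z ^ 2) * ENNReal.ofReal (rep R) +
          ENNReal.ofReal (κ * (N + z ^ 2 * K) / 2) := h2
      _ ≤ (X + ∫⁻ b, Err b ∂(bm κ)) + Pee ψ +
          ENNReal.ofReal (z ^ 2) * ENNReal.ofReal (rep R) +
          ENNReal.ofReal (κ * (N + z ^ 2 * K) / 2) := by gcongr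
      _ = _ := by ring
  exact (ENNReal.add_le_add_iff_right hXfin).1 h3

end

end Pool.Agent.Lib_helper90c
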