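import Pool.Agent.Lib_helper90c.BallPoinc

/-!
# Localisation of the Coulomb energy of the many-body problem into balls
-/

set_option autoImplicit false

open MeasureTheory Set Metric Filter
open scoped ENNReal NNReal Topology

namespace Pool.Agent.Lib_helper90c

section
variable {N K : ℕ}

theorem wk_coul {κ : ℝ} {x y : E3} (h : x ≠ y) : wk κ ‖x - y‖ = ‖x - y‖⁻¹ - Yk κ x y :=
  wk_eq (norm_ne_zero_iff.2 (sub_ne_zero.2 h))

theorem Yk_self (κ : ℝ) (x : E3) : Yk κ x x = 0 := by simp [Yk]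

theorem pd_real {κ z : ℝ} (hκ : 0 ≤ κ) (R : Fin K → E3) (hR : Function.Injective R) (x : Conf N)
    (hx : ∀ i j, i ≠ j → x i ≠ x j) (hxR : ∀ i k, x i ≠ R k) :
    z * (∑ i, ∑ k, ‖x i - R k‖⁻¹) + (1 / 2) * (∑ i, ∑ j, Yk κ (x i) (x j)) +
      z ^ 2 * ((1 / 2) * ∑ k, ∑ l, Yk κ (R k) (R l)) ≤
    z * (∑ i, ∑ k, Yk κ (x i) (R k)) + (1 / 2) * (∑ i, ∑ j, ‖x i - x j‖⁻¹) +
      z ^ 2 * rep R + κ * (N + z ^ 2 * K) / 2 := by
  classical
  have h := pd_wk_points hκ (Sum.elim (fun _ : Fin N => (-1 : ℝ)) (fun _ : Fin K => z))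
    (Sum.elim x R)
  simp only [Fintype.sum_sum_type, Sum.elim_inl, Sum.elim_inr, Finset.sum_add_distrib] at h
  have e1 : ∀ i j : Fin N, wk κ ‖x i - x j‖ =
      ‖x i - x j‖⁻¹ - Yk κ (x i) (x j) + if i = j then κ else 0 := by
    intro i j
    by_cases hij : i = j
    · subst hij
      simp [wk_zero, Yk_self]
    · rw [wk_coul (hx i j hij), if_neg hij, add_zero]
  have e2 : ∀ k l : Fin K, wk κ ‖R k - R l‖ =
      ‖R k - R l‖⁻¹ - Yk κ (R k) (R l) + if k = l then κ else 0 := by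
    intro k l
    by_cases hkl : k = l
    · subst hkl
      simp [wk_zero, Yk_self]
    · rw [wk_coul (hR.ne hkl), if_neg hkl, add_zero]
  have e3 : ∀ (i : Fin N) (k : Fin K), wk κ ‖x i - R k‖ = ‖x i - R k‖⁻¹ - Yk κ (x i) (R k) :=
    fun i k => wk_coul (hxR i k)
  have e4 : ∑ k : Fin K, ∑ i : Fin N, z * -1 * wk κ ‖R k - x i‖ =
      ∑ i : Fin N, ∑ k : Fin K, -1 * z * wk κ ‖x i - R k‖ := by
    rw [Finset.sum_comm]
    refine Finset.sum_congr rfl fun i _ => Finset.sum_congr rfl fun k _ => ?_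
    rw [norm_sub_rev]; ring
  rw [e4] at h
  simp only [e1, e2, e3, mul_add, mul_sub, Finset.sum_add_distrib, Finset.sum_sub_distrib,
    ← Finset.mul_sum, Finset.sum_ite_eq, Finset.mem_univ, if_true, Finset.sum_const,
    Finset.card_univ, Fintype.card_fin, nsmul_eq_mul] at h
  unfold rep
  nlinarith [h]

theorem ae_ne_pair {i j : Fin N} (hij : i ≠ j) : ∀ᵐ x : Conf N, x i ≠ x j := by
  have hm : MeasurableSet {x : Conf N | x i = x j} :=
    measurableSet_eq_fun (measurable_pi_apply i) (measurable_pi_apply j)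
  have h0 : volume {x : Conf N | x i = x j} = 0 := by
    rw [← lintegral_indicator_one hm]
    have : ∫⁻ x : Conf N, ({x : Conf N | x i = x j}.indicator 1 x : ℝ≥0∞) =
        ∫⁻ _x : Conf N, (0 : ℝ≥0∞) := by
      refine lintegral_update_eq i (measurable_one.indicator hm) measurable_const fun x => ?_
      simp only [lintegral_zero]
      have e : ∀ y : E3, ({x : Conf N | x i = x j}.indicator 1 (Function.update x i y) : ℝ≥0∞) =
          ({x j} : Set E3).indicator 1 y := by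
        intro y
        have h1 : Function.update x i y ∈ {x : Conf N | x i = x j} ↔ y ∈ ({x j} : Set E3) := by
          simp [Function.update_of_ne hij.symm]
        by_cases hy : y ∈ ({x j} : Set E3)
        · rw [indicator_of_mem hy, indicator_of_mem (h1.2 hy)]; rfl
        · rw [indicator_of_notMem hy, indicator_of_notMem (fun h => hy (h1.1 h))]
      simp only [e]
      rw [lintegral_indicator_one (measurableSet_singleton _)]
      simp
    rw [this]; simp
  rw [ae_iff]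
  simpa using h0

theorem ae_ne_point (i : Fin N) (y0 : E3) : ∀ᵐ x : Conf N, x i ≠ y0 := by
  have hm : MeasurableSet {x : Conf N | x i = y0} :=
    measurableSet_eq_fun (measurable_pi_apply i) measurable_const
  have h0 : volume {x : Conf N | x i = y0} = 0 := by
    rw [← lintegral_indicator_one hm]
    have : ∫⁻ x : Conf N, ({x : Conf N | x i = y0}.indicator 1 x : ℝ≥0∞) =
        ∫⁻ _x : Conf N, (0 : ℝ≥0∞) := by
      refine lintegral_update_eq i (measurable_one.indicator hm) measurable_const fun x => ?_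
      simp only [lintegral_zero]
      have e : ∀ y : E3, ({x : Conf N | x i = y0}.indicator 1 (Function.update x i y) : ℝ≥0∞) =
          ({y0} : Set E3).indicator 1 y := by
        intro y
        have h1 : Function.update x i y ∈ {x : Conf N | x i = y0} ↔ y ∈ ({y0} : Set E3) := by
          simp
        by_cases hy : y ∈ ({y0} : Set E3)
        · rw [indicator_of_mem hy, indicator_of_mem (h1.2 hy)]; rfl
        · rw [indicator_of_notMem hy, indicator_of_notMem (fun h => hy (h1.1 h))]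
      simp only [e]
      rw [lintegral_indicator_one (measurableSet_singleton _)]
      simp
    rw [this]; simp
  rw [ae_iff]
  simpa using h0

/-- Yukawa versions -/
noncomputable def AenY (κ : ℝ) (R : Fin K → E3) (ψ : Conf N → ℂ) : ℝ≥0∞ :=
  ∑ i, ∑ k, ∫⁻ x, ENNReal.ofReal (Yk κ (x i) (R k)) * dens ψ x

/-- Yukawa repulsion -/
noncomputable def PeeY (κ : ℝ) (ψ : Conf N → ℂ) : ℝ≥0∞ :=
  2⁻¹ * ∑ i, ∑ j, ∫⁻ x, ENNReal.ofReal (Yk κ (x i) (x j)) * dens ψ x

/-- Yukawa nuclear repulsion -/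
noncomputable def UY (κ : ℝ) (R : Fin K → E3) : ℝ≥0∞ :=
  ENNReal.ofReal ((1 / 2) * ∑ k, ∑ l, Yk κ (R k) (R l))

theorem measurable_norm_pi (i j : Fin N) : Measurable fun x : Conf N => ‖x i - x j‖ :=
  ((measurable_pi_apply i).sub (measurable_pi_apply j)).norm

theorem measurable_norm_pt (i : Fin N) (y : E3) : Measurable fun x : Conf N => ‖x i - y‖ :=
  ((measurable_pi_apply i).sub measurable_const).norm

theorem measurable_Yk_pi (κ : ℝ) (i j : Fin N) : Measurable fun x : Conf N => Yk κ (x i) (x j) := by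
  unfold Yk
  have h := measurable_norm_pi i j
  exact ((h.const_mul κ).neg.exp).mul h.inv

theorem measurable_Yk_pt (κ : ℝ) (i : Fin N) (y : E3) :
    Measurable fun x : Conf N => Yk κ (x i) y := by
  unfold Yk
  have h := measurable_norm_pt i y
  exact ((h.const_mul κ).neg.exp).mul h.inv

theorem measurable_inv_pi (i j : Fin N) : Measurable fun x : Conf N => ‖x i - x j‖⁻¹ :=
  ((measurable_pi_apply i).sub (measurable_pi_apply j)).norm.inv

theorem measurable_inv_pt (i : Fin N) (y : E3) : Measurable fun x : Conf N => ‖x i - y‖⁻¹ :=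
  ((measurable_pi_apply i).sub measurable_const).norm.inv

theorem lintegral_dens {ψ : Conf N → ℂ} (h : Trial ψ) : ∫⁻ x, dens ψ x = 1 := by
  have hint : Integrable fun x => ‖ψ x‖ ^ 2 := by
    by_contra hn
    have := h.normalized
    rw [integral_undef hn] at this
    exact zero_ne_one this
  unfold dens
  rw [← ofReal_integral_eq_lintegral_ofReal hint (Eventually.of_forall fun y => sq_nonneg _),
      h.normalized, ENNReal.ofReal_one]

theorem half_ofReal : (2⁻¹ : ℝ≥0∞) = ENNReal.ofReal (1 / 2) := by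
  rw [one_div, ENNReal.ofReal_inv_of_pos (by norm_num)]; norm_num

theorem sum_sum_lintegral {α β : Type*} [Fintype α] [Fintype β] {ψ : Conf N → ℂ}
    (hd : Measurable (dens ψ)) (g : α → β → Conf N → ℝ) (hg : ∀ a b, Measurable (g a b))
    (h0 : ∀ a b x, 0 ≤ g a b x) :
    ∑ a, ∑ b, ∫⁻ x, ENNReal.ofReal (g a b x) * dens ψ x =
      ∫⁻ x, ENNReal.ofReal (∑ a, ∑ b, g a b x) * dens ψ x := by
  have hm : ∀ a b, Measurable fun x => ENNReal.ofReal (g a b x) * dens ψ x := fun a b =>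
    (hg a b).ennreal_ofReal.mul hd
  have hm2 : ∀ a, Measurable fun x => ∑ b, ENNReal.ofReal (g a b x) * dens ψ x := fun a =>
    Finset.measurable_sum _ fun b _ => hm a b
  have e1 : ∀ a, ∑ b, ∫⁻ x, ENNReal.ofReal (g a b x) * dens ψ x =
      ∫⁻ x, ∑ b, ENNReal.ofReal (g a b x) * dens ψ x := fun a =>
    (lintegral_finsetSum _ fun b _ => hm a b).symm
  simp only [e1]
  rw [← lintegral_finsetSum _ fun a _ => hm2 a]
  congr 1
  ext x
  rw [ENNReal.ofReal_sum_of_nonneg fun a _ => Finset.sum_nonneg fun b _ => h0 a b x,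
    Finset.sum_mul]
  refine Finset.sum_congr rfl fun a _ => ?_
  rw [ENNReal.ofReal_sum_of_nonneg fun b _ => h0 a b x, Finset.sum_mul]

/-- Comparison of the Coulomb energy with the Yukawa energy. -/
theorem pd_integrated {κ z : ℝ} (hκ : 0 ≤ κ) (hz : 0 ≤ z) (R : Fin K → E3)
    (hR : Function.Injective R) {ψ : Conf N → ℂ} (h : Trial ψ) :
    ENNReal.ofReal z * Aen R ψ + PeeY κ ψ + ENNReal.ofReal (z ^ 2) * UY κ R ≤
      ENNReal.ofReal z * AenY κ R ψ + Pee ψ + ENNReal.ofReal (z ^ 2) * ENNReal.ofReal (rep R) +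
        ENNReal.ofReal (κ * (N + z ^ 2 * K) / 2) := by
  have hd := measurable_dens h.smooth.continuous
  have h1 := lintegral_dens h
  have eA : Aen R ψ = ∫⁻ x, ENNReal.ofReal (∑ i, ∑ k, ‖x i - R k‖⁻¹) * dens ψ x :=
    sum_sum_lintegral hd (fun i k x => ‖x i - R k‖⁻¹) (fun i k => measurable_inv_pt i (R k))
      (fun _ _ _ => by positivity)
  have eAY : AenY κ R ψ = ∫⁻ x, ENNReal.ofReal (∑ i, ∑ k, Yk κ (x i) (R k)) * dens ψ x :=
    sum_sum_lintegral hd (fun i k x => Yk κ (x i) (R k)) (fun i k => measurable_Yk_pt κ i (R k))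
      (fun _ _ _ => Yk_nonneg _ _ _)
  have eP : Pee ψ = 2⁻¹ * ∫⁻ x, ENNReal.ofReal (∑ i, ∑ j, ‖x i - x j‖⁻¹) * dens ψ x := by
    unfold Pee
    rw [sum_sum_lintegral hd (fun (i j : Fin N) (x : Conf N) => ‖x i - x j‖⁻¹)
      (fun i j => measurable_inv_pi i j) (fun _ _ _ => by positivity)]
  have ePY : PeeY κ ψ = 2⁻¹ * ∫⁻ x, ENNReal.ofReal (∑ i, ∑ j, Yk κ (x i) (x j)) * dens ψ x := by
    unfold PeeY
    rw [sum_sum_lintegral hd (fun (i j : Fin N) (x : Conf N) => Yk κ (x i) (x j))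
      (fun i j => measurable_Yk_pi κ i j) (fun _ _ _ => Yk_nonneg _ _ _)]
  have mA : Measurable fun x : Conf N => ENNReal.ofReal (∑ i, ∑ k, ‖x i - R k‖⁻¹) * dens ψ x :=
    (Finset.measurable_sum _ fun i _ => Finset.measurable_sum _ fun k _ =>
      measurable_inv_pt i (R k)).ennreal_ofReal.mul hd
  have mAY : Measurable fun x : Conf N =>
      ENNReal.ofReal (∑ i, ∑ k, Yk κ (x i) (R k)) * dens ψ x :=
    (Finset.measurable_sum _ fun i _ => Finset.measurable_sum _ fun k _ =>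
      measurable_Yk_pt κ i (R k)).ennreal_ofReal.mul hd
  have mP : Measurable fun x : Conf N => ENNReal.ofReal (∑ i, ∑ j, ‖x i - x j‖⁻¹) * dens ψ x :=
    (Finset.measurable_sum _ fun i _ => Finset.measurable_sum _ fun j _ =>
      measurable_inv_pi i j).ennreal_ofReal.mul hd
  have mPY : Measurable fun x : Conf N =>
      ENNReal.ofReal (∑ i, ∑ j, Yk κ (x i) (x j)) * dens ψ x :=
    (Finset.measurable_sum _ fun i _ => Finset.measurable_sum _ fun j _ =>
      measurable_Yk_pi κ i j).ennreal_ofReal.mul hd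
  have eC : ∀ C : ℝ≥0∞, C = ∫⁻ x, C * dens ψ x := by
    intro C; rw [lintegral_const_mul _ hd, h1, mul_one]
  rw [eA, eAY, eP, ePY, ← lintegral_const_mul _ mA, ← lintegral_const_mul _ mAY,
    ← lintegral_const_mul _ mP, ← lintegral_const_mul _ mPY,
    eC (ENNReal.ofReal (z ^ 2) * UY κ R), eC (ENNReal.ofReal (z ^ 2) * ENNReal.ofReal (rep R)),
    eC (ENNReal.ofReal (κ * (N + z ^ 2 * K) / 2)),
    ← lintegral_add_left (mA.const_mul _), ← lintegral_add_right _ (hd.const_mul _),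
    ← lintegral_add_left (mAY.const_mul _), ← lintegral_add_right _ (hd.const_mul _),
    ← lintegral_add_right _ (hd.const_mul _)]
  apply lintegral_mono_ae
  have hae1 : ∀ᵐ x : Conf N, ∀ i j, i ≠ j → x i ≠ x j := by
    rw [ae_all_iff]; intro i
    rw [ae_all_iff]; intro j
    by_cases hij : i = j
    · exact Eventually.of_forall fun x h => absurd hij h
    · filter_upwards [ae_ne_pair hij] with x hx _ using hx
  have hae2 : ∀ᵐ x : Conf N, ∀ i k, x i ≠ R k := by
    rw [ae_all_iff]; intro i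
    rw [ae_all_iff]; intro k
    exact ae_ne_point i (R k)
  filter_upwards [hae1, hae2] with x hx hxR
  have hpd := pd_real hκ (z := z) R hR x hx hxR
  have n1 : 0 ≤ ∑ i, ∑ k, ‖x i - R k‖⁻¹ := by positivity
  have n2 : 0 ≤ ∑ i, ∑ j, Yk κ (x i) (x j) :=
    Finset.sum_nonneg fun i _ => Finset.sum_nonneg fun j _ => Yk_nonneg _ _ _
  have n3 : 0 ≤ ∑ k, ∑ l, Yk κ (R k) (R l) :=
    Finset.sum_nonneg fun i _ => Finset.sum_nonneg fun j _ => Yk_nonneg _ _ _
  have n4 : 0 ≤ ∑ i, ∑ k, Yk κ (x i) (R k) :=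
    Finset.sum_nonneg fun i _ => Finset.sum_nonneg fun j _ => Yk_nonneg _ _ _
  have n5 : 0 ≤ ∑ i, ∑ j, ‖x i - x j‖⁻¹ := by positivity
  have n6 := rep_nonneg R
  have n7 : 0 ≤ κ * (N + z ^ 2 * K) / 2 := by positivity
  unfold UY
  have key : ENNReal.ofReal z * ENNReal.ofReal (∑ i, ∑ k, ‖x i - R k‖⁻¹) +
      2⁻¹ * ENNReal.ofReal (∑ i, ∑ j, Yk κ (x i) (x j)) +
      ENNReal.ofReal (z ^ 2) * ENNReal.ofReal ((1 / 2) * ∑ k, ∑ l, Yk κ (R k) (R l)) ≤
      ENNReal.ofReal z * ENNReal.ofReal (∑ i, ∑ k, Yk κ (x i) (R k)) +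
      2⁻¹ * ENNReal.ofReal (∑ i, ∑ j, ‖x i - x j‖⁻¹) +
      ENNReal.ofReal (z ^ 2) * ENNReal.ofReal (rep R) +
      ENNReal.ofReal (κ * (N + z ^ 2 * K) / 2) := by
    rw [half_ofReal, ← ENNReal.ofReal_mul hz, ← ENNReal.ofReal_mul (by norm_num),
      ← ENNReal.ofReal_mul (sq_nonneg z), ← ENNReal.ofReal_mul hz,
      ← ENNReal.ofReal_mul (by norm_num), ← ENNReal.ofReal_mul (sq_nonneg z),
      ← ENNReal.ofReal_add (by positivity) (by positivity),
      ← ENNReal.ofReal_add (by positivity) (by positivity),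
      ← ENNReal.ofReal_add (by positivity) (by positivity),
      ← ENNReal.ofReal_add (by positivity) (by positivity),
      ← ENNReal.ofReal_add (by positivity) (by positivity)]
    exact ENNReal.ofReal_le_ofReal hpd
  have := mul_le_mul' key (le_refl (dens ψ x))
  calc _ = (ENNReal.ofReal z * ENNReal.ofReal (∑ i, ∑ k, ‖x i - R k‖⁻¹) +
      2⁻¹ * ENNReal.ofReal (∑ i, ∑ j, Yk κ (x i) (x j)) +
      ENNReal.ofReal (z ^ 2) * ENNReal.ofReal ((1 / 2) * ∑ k, ∑ l, Yk κ (R k) (R l))) *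
        dens ψ x := by ring
    _ ≤ _ := this
    _ = _ := by ring

end

end Pool.Agent.Lib_helper90c
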