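import Pool.Agent.Lib_helper90c.GN

/-!
# The lower bound
-/

set_option autoImplicit false

open MeasureTheory Set Metric Filter
open scoped ENNReal NNReal Topology

namespace Pool.Agent.Lib_helper90c

section
variable {N K : ℕ}

theorem kinetic_nonneg (ψ : Conf N → ℂ) : 0 ≤ kinetic ψ :=
  integral_nonneg fun x => Finset.sum_nonneg fun i _ => gradSq_nonneg ψ i x

theorem kin_eq_ofReal {ψ : Conf N → ℂ} (h : Trial ψ) : kin ψ = ENNReal.ofReal (kinetic ψ) := by
  have hci := continuous_gradSq h.smooth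
  have hc : Continuous fun x => ∑ i, gradSq ψ i x := continuous_finsetSum _ fun i _ => hci i
  have hcs : HasCompactSupport fun x => ∑ i, gradSq ψ i x := by
    have h1 : HasCompactSupport (fderiv ℝ ψ) := h.compact.fderiv ℝ
    refine h1.mono ?_
    intro x hx
    by_contra hn
    apply hx
    have h2 : fderiv ℝ ψ x = 0 := by by_contra h; exact hn h
    unfold gradSq
    simp [h2]
  have hint : Integrable fun x => ∑ i, gradSq ψ i x := hc.integrable_of_hasCompactSupport hcs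
  unfold kinetic
  rw [ofReal_integral_eq_lintegral_ofReal hint (Eventually.of_forall fun x =>
    Finset.sum_nonneg fun i _ => gradSq_nonneg ψ i x)]
  have e : ∀ x, ENNReal.ofReal (∑ i, gradSq ψ i x) = ∑ i, kd ψ i x := fun x =>
    ENNReal.ofReal_sum_of_nonneg fun i _ => gradSq_nonneg ψ i x
  simp only [e]
  rw [lintegral_finsetSum _ fun i _ => measurable_kd h.smooth i]
  rfl

/-- crude estimate in real numbers -/
theorem crude_real {κ z S : ℝ} (hκ : 0 < κ) (hz : 0 < z) (hS : 0 < S)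
    (hsob : ∀ u : E3 → ℂ, ContDiff ℝ 1 u → HasCompactSupport u →
    (∫⁻ y, ENNReal.ofReal (‖u y‖ ^ 2) ^ 3) ^ (1 / 3 : ℝ) ≤
      ENNReal.ofReal S * ∫⁻ y, ENNReal.ofReal (grad1 u y)) (R : Fin K → E3)
    (hR : Function.Injective R) {ψ : Conf N → ℂ} (h : Trial ψ) :
    kinetic ψ - (κ * (N + z ^ 2 * K) / 2 + (cF1 z * (4 * Real.pi / 3 * mC 0) * κ * K +
      cF1 z * (4 * Real.pi / 3 * mC 6) * (κ / κ ^ 6) * (S * kinetic ψ) ^ 3)) ≤ energy z R ψ := by
  have hc := h.smooth.continuous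
  have hfin := R3_ne_top hc h.compact
  have hT0 := kinetic_nonneg ψ
  have hcF := cF1_nonneg z
  have hpi := Real.pi_pos
  have hm0 := mC_pos 0
  have hm6 := mC_pos 6
  have h1 := crude_total hκ hz R hR h hfin
  have h2 := R3_le hsob h
  rw [kin_eq_ofReal h, ← ENNReal.ofReal_mul hS.le, ← ENNReal.ofReal_pow (by positivity)] at h2
  have hA := Aen_lt_top R hc h.compact
  have hP := Pee_lt_top hc h.compact
  have hrep := rep_nonneg R
  have h3 : ENNReal.ofReal z * Aen R ψ ≤ Pee ψ + ENNReal.ofReal (z ^ 2) * ENNReal.ofReal (rep R) +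
      ENNReal.ofReal (κ * (N + z ^ 2 * K) / 2) +
      (ENNReal.ofReal (cF1 z * (4 * Real.pi / 3 * mC 0) * κ) * K +
        ENNReal.ofReal (cF1 z * (4 * Real.pi / 3 * mC 6) * (κ / κ ^ 6)) *
          ENNReal.ofReal ((S * kinetic ψ) ^ 3)) := h1.trans (by gcongr)
  rw [energy_eq z R h]
  set a := (Aen R ψ).toReal with ha
  set P := (Pee ψ).toReal with hPd
  have hAe : Aen R ψ = ENNReal.ofReal a := (ENNReal.ofReal_toReal hA.ne).symm
  have hPe : Pee ψ = ENNReal.ofReal P := (ENNReal.ofReal_toReal hP.ne).symm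
  have hP0 : 0 ≤ P := ENNReal.toReal_nonneg
  rw [hAe, hPe, ← ENNReal.ofReal_natCast K, ← ENNReal.ofReal_mul hz.le,
    ← ENNReal.ofReal_mul (sq_nonneg z), ← ENNReal.ofReal_mul (by positivity),
    ← ENNReal.ofReal_mul (by positivity),
    ← ENNReal.ofReal_add (by positivity) (by positivity),
    ← ENNReal.ofReal_add (by positivity) (by positivity),
    ← ENNReal.ofReal_add (by positivity) (by positivity),
    ← ENNReal.ofReal_add (by positivity) (by positivity),
    ENNReal.ofReal_le_ofReal_iff (by positivity)] at h3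
  linarith

/-- pointwise bound `ρ^{4/3} ≤ x² ρ + x^{-10} ρ³` -/
theorem pow43_le {x : ℝ} (hx : 0 < x) (t : ℝ≥0∞) :
    t ^ (4 / 3 : ℝ) ≤ ENNReal.ofReal (x ^ 2) * t + ENNReal.ofReal ((x ^ 10)⁻¹) * t ^ 3 := by
  by_cases ht : t = ∞
  · rw [ht, ENNReal.mul_top (ENNReal.ofReal_pos.2 (by positivity)).ne']
    simp
  set s : ℝ := (t.toReal) ^ (1 / 3 : ℝ) with hs
  have hs0 : 0 ≤ s := by positivity
  have ht0 : 0 ≤ t.toReal := ENNReal.toReal_nonneg
  have hs3 : s ^ 3 = t.toReal := by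
    rw [hs, ← Real.rpow_natCast, ← Real.rpow_mul ht0]; norm_num
  have hte : t = ENNReal.ofReal (s ^ 3) := by rw [hs3, ENNReal.ofReal_toReal ht]
  rw [hte, ENNReal.ofReal_rpow_of_nonneg (by positivity) (by norm_num),
    ← ENNReal.ofReal_pow (by positivity), ← ENNReal.ofReal_mul (by positivity),
    ← ENNReal.ofReal_mul (by positivity), ← ENNReal.ofReal_add (by positivity) (by positivity)]
  apply ENNReal.ofReal_le_ofReal
  have e1 : (s ^ 3) ^ (4 / 3 : ℝ) = s ^ 4 := by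
    rw [← Real.rpow_natCast, ← Real.rpow_mul hs0, ← Real.rpow_natCast]; norm_num
  rw [e1]
  rcases le_or_gt s (x ^ 2) with h | h
  · have h1 : s ^ 4 ≤ x ^ 2 * s ^ 3 := by
      have : s ^ 4 = s * s ^ 3 := by ring
      rw [this]; gcongr
    have h2 : 0 ≤ (x ^ 10)⁻¹ * (s ^ 3) ^ 3 := by positivity
    linarith
  · have h1 : x ^ 10 ≤ s ^ 5 := by
      have : x ^ 10 = (x ^ 2) ^ 5 := by ring
      rw [this]; gcongr
    have h2 : s ^ 4 ≤ (x ^ 10)⁻¹ * (s ^ 3) ^ 3 := by
      rw [inv_mul_eq_div, le_div_iff₀ (by positivity)]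
      calc s ^ 4 * x ^ 10 ≤ s ^ 4 * s ^ 5 := by gcongr
        _ = (s ^ 3) ^ 3 := by ring
    have h3 : 0 ≤ x ^ 2 * s ^ 3 := by positivity
    linarith

theorem R43_crude {x : ℝ} (hx : 0 < x) {ψ : Conf N → ℂ} (h : Trial ψ) :
    R43 ψ ≤ ENNReal.ofReal (x ^ 2) * N + ENNReal.ofReal ((x ^ 10)⁻¹) * R3 ψ := by
  have hd := measurable_dens h.smooth.continuous
  have hρ := measurable_rho hd
  have hρ3 : Measurable fun y => rho (dens ψ) y ^ 3 := hρ.pow_const 3
  unfold R43 R3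
  rw [← lintegral_rho h, ← lintegral_const_mul _ hρ, ← lintegral_const_mul _ hρ3,
    ← lintegral_add_left (hρ.const_mul _)]
  exact lintegral_mono fun y => pow43_le hx _

/-- GN inequality in real numbers -/
theorem R43_real {z x : ℝ} (hz : 0 < z) (hx : 0 < x) (hN : x ^ 3 = N) {ψ : Conf N → ℂ}
    (h : Trial ψ) :
    (-estar z) * (R43 ψ).toReal ≤ kinetic ψ + (-limE z) * x ^ 5 := by
  have he := estar_nonpos hz
  have hL := limE_nonpos z
  have hT0 := kinetic_nonneg ψ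
  have hfin := R43_ne_top h.smooth.continuous h.compact
  have h1 := R43_le hz h
  set q := (R43 ψ).toReal with hq
  have hqe : R43 ψ = ENNReal.ofReal q := (ENNReal.ofReal_toReal hfin).symm
  have hq0 : 0 ≤ q := ENNReal.toReal_nonneg
  have hL0 : 0 ≤ -limE z := by linarith
  have hE0 : 0 ≤ -estar z := by linarith
  rw [kin_eq_ofReal h, hqe, ← ENNReal.ofReal_natCast N, ← hN, ← ENNReal.ofReal_mul hE0,
    ENNReal.ofReal_rpow_of_nonneg (by positivity) (by norm_num),
    ENNReal.ofReal_rpow_of_nonneg (by positivity) (by norm_num),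
    ENNReal.ofReal_rpow_of_nonneg (by positivity) (by norm_num),
    ← ENNReal.ofReal_mul (by positivity), ← ENNReal.ofReal_mul (by positivity),
    ENNReal.ofReal_le_ofReal_iff (by positivity)] at h1
  refine h1.trans ?_
  rw [← Real.sqrt_eq_rpow, ← Real.sqrt_eq_rpow]
  have e1 : (x ^ 3) ^ (5 / 6 : ℝ) = Real.sqrt (x ^ 5) := by
    rw [Real.sqrt_eq_rpow, ← Real.rpow_natCast, ← Real.rpow_mul hx.le, ← Real.rpow_natCast x 5,
      ← Real.rpow_mul hx.le]
    norm_num
  rw [e1]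
  have e2 : Real.sqrt (4 * -limE z) * Real.sqrt (kinetic ψ) * Real.sqrt (x ^ 5) =
      2 * (Real.sqrt (kinetic ψ) * Real.sqrt ((-limE z) * x ^ 5)) := by
    rw [Real.sqrt_mul (by norm_num), Real.sqrt_mul hL0]
    have : Real.sqrt 4 = 2 := by
      rw [show (4 : ℝ) = 2 ^ 2 by norm_num, Real.sqrt_sq (by norm_num)]
    rw [this]; ring
  rw [e2]
  have h3 := Real.sq_sqrt hT0
  have h4 := Real.sq_sqrt (show 0 ≤ (-limE z) * x ^ 5 by positivity)
  nlinarith only [h3, h4, sq_nonneg (Real.sqrt (kinetic ψ) - Real.sqrt ((-limE z) * x ^ 5))]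

/-- fine estimate in real numbers -/
theorem fine_real {κ z S δ' r0 M Rm x : ℝ} (hκ : 0 < κ) (hz : 0 < z) (hr0 : 0 < r0)
    (hδ' : 0 ≤ δ')
    (hlow : ∀ r, r0 ≤ r → ∀ (n : ℕ) (p : Fin n → E3), Function.Injective p →
      (∀ i, p i ∈ ball (0 : E3) r) → (estar z - δ') * vB r ≤ jel z r p)
    (hM : 2 ≤ M) (hRm : 0 < Rm) (hx : 0 < x) (hN : x ^ 3 = N) (hS : 0 < S)
    (hsob : ∀ u : E3 → ℂ, ContDiff ℝ 1 u → HasCompactSupport u →
    (∫⁻ y, ENNReal.ofReal (‖u y‖ ^ 2) ^ 3) ^ (1 / 3 : ℝ) ≤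
      ENNReal.ofReal S * ∫⁻ y, ENNReal.ofReal (grad1 u y)) (R : Fin K → E3)
    (hR : Function.Injective R) {ψ : Conf N → ℂ} (h : Trial ψ) :
    limE z * x ^ 5 - (κ * (N + z ^ 2 * K) / 2 + ((192 * z + 480) * M ^ 2 * Rm * kinetic ψ +
      (δ' * (x ^ 2 * N + (x ^ 10)⁻¹ * (S * kinetic ψ) ^ 3) +
      (cN z r0 * (4 * Real.pi / 3 * mC 0) * κ * N +
      (cF2 z / M * (4 * Real.pi / 3 * mC 6) * (κ / κ ^ 6) * (S * kinetic ψ) ^ 3 +
      (cF1 z * Rm⁻¹ * K +
      cF1 z * Rm⁻¹ * (4 * Real.pi / 3 * mC 7) * (κ / κ ^ 7) * (S * kinetic ψ) ^ 3)))))) ≤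
      energy z R ψ := by
  have hc := h.smooth.continuous
  have hfin := R3_ne_top hc h.compact
  have hfin43 := R43_ne_top hc h.compact
  have hT0 := kinetic_nonneg ψ
  have hcF := cF1_nonneg z
  have hcF2 := cF2_nonneg hz
  have hcN := cN_nonneg hz.le hr0.le
  have he := estar_nonpos hz
  have hM0 : 0 < M := by linarith
  have hpi := Real.pi_pos
  have hm0 := mC_pos 0
  have hm6 := mC_pos 6
  have hm7 := mC_pos 7
  have h1 := fine_total hκ hz hr0 hδ' hlow hM hRm R hR h hfin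
  have h2 := R3_le hsob h
  have h43 := R43_crude hx h
  have hGN := R43_real hz hx hN h
  rw [kin_eq_ofReal h, ← ENNReal.ofReal_mul hS.le, ← ENNReal.ofReal_pow (by positivity)] at h2
  have hA := Aen_lt_top R hc h.compact
  have hP := Pee_lt_top hc h.compact
  have hrep := rep_nonneg R
  set q := (R43 ψ).toReal with hq
  have hqe : R43 ψ = ENNReal.ofReal q := (ENNReal.ofReal_toReal hfin43).symm
  have hq0 : 0 ≤ q := ENNReal.toReal_nonneg
  set X := (R3 ψ).toReal with hX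
  have hXe : R3 ψ = ENNReal.ofReal X := (ENNReal.ofReal_toReal hfin).symm
  have hX0 : 0 ≤ X := ENNReal.toReal_nonneg
  set a := (Aen R ψ).toReal with ha
  set P := (Pee ψ).toReal with hPd
  have hAe : Aen R ψ = ENNReal.ofReal a := (ENNReal.ofReal_toReal hA.ne).symm
  have hPe : Pee ψ = ENNReal.ofReal P := (ENNReal.ofReal_toReal hP.ne).symm
  have hP0 : 0 ≤ P := ENNReal.toReal_nonneg
  have hde : 0 ≤ δ' - estar z := by linarith
  rw [hXe, ENNReal.ofReal_le_ofReal_iff (by positivity)] at h2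
  rw [hqe, hXe, ← ENNReal.ofReal_natCast N, ← ENNReal.ofReal_mul (by positivity),
    ← ENNReal.ofReal_mul (by positivity), ← ENNReal.ofReal_add (by positivity) (by positivity),
    ENNReal.ofReal_le_ofReal_iff (by positivity)] at h43
  rw [hAe, hPe, kin_eq_ofReal h, hqe, hXe, ← ENNReal.ofReal_natCast K, ← ENNReal.ofReal_natCast N,
    ← ENNReal.ofReal_mul hz.le,
    ← ENNReal.ofReal_mul (sq_nonneg z), ← ENNReal.ofReal_mul (by positivity),
    ← ENNReal.ofReal_mul hde, ← ENNReal.ofReal_mul (by positivity),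
    ← ENNReal.ofReal_mul (by positivity), ← ENNReal.ofReal_mul (by positivity),
    ← ENNReal.ofReal_mul (by positivity),
    ← ENNReal.ofReal_add (by positivity) (by positivity),
    ← ENNReal.ofReal_add (by positivity) (by positivity),
    ← ENNReal.ofReal_add (by positivity) (by positivity),
    ← ENNReal.ofReal_add (by positivity) (by positivity),
    ← ENNReal.ofReal_add (by positivity) (by positivity),
    ← ENNReal.ofReal_add (by positivity) (by positivity),
    ← ENNReal.ofReal_add (by positivity) (by positivity),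
    ← ENNReal.ofReal_add (by positivity) (by positivity),
    ENNReal.ofReal_le_ofReal_iff (by positivity)] at h1
  rw [energy_eq z R h]
  have g1 : δ' * q ≤ δ' * (x ^ 2 * N + (x ^ 10)⁻¹ * (S * kinetic ψ) ^ 3) := by
    refine mul_le_mul_of_nonneg_left (h43.trans ?_) hδ'
    gcongr
  have g2 : cF2 z / M * (4 * Real.pi / 3 * mC 6) * (κ / κ ^ 6) * X ≤
      cF2 z / M * (4 * Real.pi / 3 * mC 6) * (κ / κ ^ 6) * (S * kinetic ψ) ^ 3 := by
    gcongr
  have g3 : cF1 z * Rm⁻¹ * (4 * Real.pi / 3 * mC 7) * (κ / κ ^ 7) * X ≤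
      cF1 z * Rm⁻¹ * (4 * Real.pi / 3 * mC 7) * (κ / κ ^ 7) * (S * kinetic ψ) ^ 3 := by
    gcongr
  have g4 : (δ' - estar z) * q = δ' * q + (-estar z) * q := by ring
  rw [g4] at h1
  linarith

end

end Pool.Agent.Lib_helper90c
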