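import Pool.Agent.Lib_helper90c.TwoBody

/-!
# The main estimate in one ball
-/

set_option autoImplicit false

open MeasureTheory Set Metric Filter
open scoped ENNReal NNReal Topology

namespace Pool.Agent.Lib_helper90c

section
variable {N K : ℕ}

/-- attraction of the electrons in `b` to a point `y` -/
noncomputable def AkN (ψ : Conf N → ℂ) (b : ℝ × E3) (y : E3) : ℝ≥0∞ :=
  ∑ i, ∫⁻ x, ib b (x i) * (ENNReal.ofReal ‖x i - y‖⁻¹ * dens ψ x)

theorem AbN_eq (R : Fin K → E3) {ψ : Conf N → ℂ} (hd : Measurable (dens ψ)) (b : ℝ × E3) :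
    AbN R ψ b = ∑ k : Sb R b, AkN ψ b (R k) := by
  rw [← sum_ib R b (fun k => AkN ψ b (R k))]
  unfold AbN AkN
  rw [Finset.sum_comm]
  refine Finset.sum_congr rfl fun k _ => ?_
  rw [Finset.mul_sum]
  refine Finset.sum_congr rfl fun i _ => ?_
  have hm : Measurable fun x : Conf N => ib b (x i) * (ENNReal.ofReal ‖x i - R k‖⁻¹ * dens ψ x) :=
    (measurable_ib_x b i).mul (((measurable_pi_apply i).sub_const _).norm.inv.ennreal_ofReal.mul hd)
  rw [← lintegral_const_mul _ hm]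
  congr 1
  ext x
  ring

theorem AkN_le {ψ : Conf N → ℂ} (h : ContDiff ℝ (⊤ : ℕ∞) ψ) (b : ℝ × E3) (hb : 0 < b.1)
    {δ : ℝ} (hδ : 0 < δ) (y : E3) :
    ENNReal.ofReal (vB b.1) * AkN ψ b y ≤
      ENNReal.ofReal ((1 + δ) * ballPot b.1 ‖y - b.2‖) * nub ψ b +
        ENNReal.ofReal ((1 + δ⁻¹) * (128 * Real.pi * b.1 ^ 4)) * Tb ψ b := by
  have hd := measurable_dens h.continuous
  unfold AkN nub Tb
  simp only [Finset.mul_sum]
  rw [← Finset.sum_add_distrib]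
  refine Finset.sum_le_sum fun i _ => ?_
  have h1 := nbU_C h i b hb hδ (A := fun _ => 1) measurable_const (fun x => ⟨1, fun _ _ => rfl⟩)
    (Y := fun _ => y) measurable_const (fun _ _ => rfl)
  simp only [mul_one] at h1
  have hi := measurable_ib_x (N := N) b i
  have hm0 : Measurable fun x : Conf N => ib b (x i) * (ENNReal.ofReal ‖x i - y‖⁻¹ * dens ψ x) :=
    hi.mul (((measurable_pi_apply i).sub_const _).norm.inv.ennreal_ofReal.mul hd)
  have hm1 : Measurable fun x : Conf N => ib b (x i) * dens ψ x := hi.mul hd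
  have hm2 : Measurable fun x : Conf N => ib b (x i) * kd ψ i x := hi.mul (measurable_kd h i)
  rw [← lintegral_const_mul _ hm0, ← lintegral_const_mul _ hm1, ← lintegral_const_mul _ hm2,
    ← lintegral_add_left (hm1.const_mul _)]
  refine le_trans (le_of_eq ?_) (h1.trans (le_of_eq ?_))
  · congr 1; ext x; ring
  · congr 1; ext x; ring

/-- the attraction in terms of the potential of the uniform ball -/
theorem AbN_le_main (R : Fin K → E3) {ψ : Conf N → ℂ} (h : ContDiff ℝ (⊤ : ℕ∞) ψ) (b : ℝ × E3)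
    (hb : 0 < b.1) {δ : ℝ} (hδ : 0 < δ) :
    ENNReal.ofReal (vB b.1) * AbN R ψ b ≤
      ENNReal.ofReal ((1 + δ) * ∑ k : Sb R b, ballPot b.1 ‖R k - b.2‖) * nub ψ b +
        ENNReal.ofReal ((1 + δ⁻¹) * (128 * Real.pi * b.1 ^ 4) * kb R b) * Tb ψ b := by
  have hd := measurable_dens h.continuous
  have hp : ∀ k : Sb R b, 0 ≤ ballPot b.1 ‖R k - b.2‖ := fun k =>
    ballPot_nonneg hb.le (norm_nonneg _)
  rw [AbN_eq R hd b, Finset.mul_sum]
  calc ∑ k : Sb R b, ENNReal.ofReal (vB b.1) * AkN ψ b (R k)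
      ≤ ∑ k : Sb R b, (ENNReal.ofReal ((1 + δ) * ballPot b.1 ‖R k - b.2‖) * nub ψ b +
        ENNReal.ofReal ((1 + δ⁻¹) * (128 * Real.pi * b.1 ^ 4)) * Tb ψ b) :=
        Finset.sum_le_sum fun k _ => AkN_le h b hb hδ (R k)
    _ = _ := by
        rw [Finset.sum_add_distrib, ← Finset.sum_mul, ← ENNReal.ofReal_sum_of_nonneg
          (fun k _ => mul_nonneg (by positivity) (hp k)), ← Finset.mul_sum, Finset.sum_const,
          Finset.card_univ, nsmul_eq_mul]
        congr 1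
        rw [ENNReal.ofReal_mul (q := (kb R b : ℝ)) (by positivity), ENNReal.ofReal_natCast]
        unfold kb
        ring

end

/-- jellium lower bound at density `τ³` -/
theorem jel_scaled {z δ' r0 r τ : ℝ} (hz : 0 < z) (hr0 : 0 < r0) (hδ' : 0 ≤ δ')
    (hlow : ∀ r, r0 ≤ r → ∀ (n : ℕ) (p : Fin n → E3), Function.Injective p →
      (∀ i, p i ∈ ball (0 : E3) r) → (estar z - δ') * vB r ≤ jel z r p)
    {ι : Type} [Fintype ι] (p : ι → E3) (hinj : Function.Injective p)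
    (hp : ∀ i, p i ∈ ball (0 : E3) r) (hr : 0 < r) (hτ : 0 ≤ τ) :
    z * τ ^ 3 * ∑ i, ballPot r ‖p i‖ ≤ z ^ 2 * rep p + τ ^ 6 * selfE r / 2 +
      (δ' - estar z) * τ ^ 4 * vB r + (2 * Real.pi * z + 4 * Real.pi ^ 2 * r0 ^ 3) *
        (τ ^ 3 * r ^ 2) := by
  have he := estar_nonpos hz
  have hrep := rep_nonneg p
  have hs := selfE_nonneg hr.le
  have hv := vB_nonneg hr.le
  have hpi := Real.pi_pos
  have hde : 0 ≤ δ' - estar z := by linarith
  rcases hτ.eq_or_lt with h0 | h0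
  · rw [← h0]
    have : 0 ≤ z ^ 2 * rep p := by positivity
    simpa using this
  · have hsc : jel z (τ * r) (fun i => τ • p i) =
        z ^ 2 * (τ⁻¹ * rep p) - z * (τ ^ 2 * ∑ i, ballPot r ‖p i‖) + τ ^ 5 * selfE r / 2 := by
      unfold jel
      rw [rep_smul p h0]
      have h1 : ∀ i, ballPot (τ * r) ‖τ • p i‖ = τ ^ 2 * ballPot r ‖p i‖ := by
        intro i
        rw [norm_smul, Real.norm_eq_abs, abs_of_pos h0, ballPot_scale h0]
      have h2 : selfE (τ * r) = τ ^ 5 * selfE r := by unfold selfE; ring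
      simp only [h1, h2, ← Finset.mul_sum]
    have hmul : τ * jel z (τ * r) (fun i => τ • p i) =
        z ^ 2 * rep p - z * τ ^ 3 * ∑ i, ballPot r ‖p i‖ + τ ^ 6 * selfE r / 2 := by
      rw [hsc]
      field_simp
    have hinj' : Function.Injective fun i => τ • p i := fun i j hij =>
      hinj (smul_right_injective E3 h0.ne' hij)
    have hp' : ∀ i, τ • p i ∈ ball (0 : E3) (τ * r) := by
      intro i
      have := hp i
      rw [mem_ball_zero_iff] at this ⊢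
      rw [norm_smul, Real.norm_eq_abs, abs_of_pos h0]
      exact mul_lt_mul_of_pos_left this h0
    rcases le_or_gt r0 (τ * r) with hc | hc
    · have h3 := jel_Fin (hlow (τ * r) hc) (fun i => τ • p i) hinj' hp'
      have h4 := mul_le_mul_of_nonneg_left h3 h0.le
      rw [hmul] at h4
      have h5 : τ * ((estar z - δ') * vB (τ * r)) = -((δ' - estar z) * τ ^ 4 * vB r) := by
        unfold vB; ring
      rw [h5] at h4
      have h6 : 0 ≤ (2 * Real.pi * z + 4 * Real.pi ^ 2 * r0 ^ 3) * (τ ^ 3 * r ^ 2) := by positivity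
      linarith
    · have h3 := jel_ge_lowT hz.le (mul_pos h0 hr) (fun i => τ • p i) hinj' hp'
      have h4 := mul_le_mul_of_nonneg_left h3 h0.le
      rw [hmul] at h4
      have h5 : τ * -lowT z (τ * r) = -(2 * Real.pi * z * (τ ^ 3 * r ^ 2) +
          4 * Real.pi ^ 2 * (τ * r) ^ 3 * (τ ^ 3 * r ^ 2)) := by
        unfold lowT; ring
      rw [h5] at h4
      have h6 : (τ * r) ^ 3 ≤ r0 ^ 3 := pow_le_pow_left₀ (by positivity) hc.le 3
      have h7 : 4 * Real.pi ^ 2 * (τ * r) ^ 3 * (τ ^ 3 * r ^ 2) ≤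
          4 * Real.pi ^ 2 * r0 ^ 3 * (τ ^ 3 * r ^ 2) := by gcongr
      have h8 : 0 ≤ (δ' - estar z) * τ ^ 4 * vB r := by positivity
      linarith

theorem c2_le {M r : ℝ} (hM : 1 ≤ M) (hr : 0 < r) :
    c2 (1 / M) r ≤ 2 * (480 * M * r) * (vB r) ^ 2 := by
  have hM0 : 0 < M := by linarith
  have hpi := Real.pi_pos
  have e1 : (1 / M)⁻¹ = M := by rw [one_div, inv_inv]
  have h1 : (1 : ℝ) + 1 / M ≤ 2 := by
    have : 1 / M ≤ 1 := by rw [div_le_one hM0]; exact hM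
    linarith
  unfold c2
  rw [e1]
  have hv := vB_nonneg hr.le
  calc (1 + 1 / M) * vB r * ((1 + M) * (128 * Real.pi * r ^ 4)) +
        (1 + M) * (512 * Real.pi ^ 2 * r ^ 7)
      ≤ 2 * vB r * ((2 * M) * (128 * Real.pi * r ^ 4)) +
        (2 * M) * (512 * Real.pi ^ 2 * r ^ 7) := by
        gcongr <;> linarith
    _ = 2 * (480 * M * r) * (vB r) ^ 2 := by
        unfold vB
        ring

/-- electron repulsion part -/
theorem rep_alg {M r ν P t : ℝ} (hM : 1 ≤ M) (hr : 0 < r) (hν : 0 ≤ ν) (hνM : 2 * ν ≤ M)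
    (hP : 0 ≤ P) (ht : 0 ≤ t)
    (h2 : selfE r * ν ^ 2 ≤ ((1 + 1 / M) * vB r) ^ 2 * (2 * P) + c2 (1 / M) r * M * t +
      selfE r * ν) :
    (ν / vB r) ^ 2 * selfE r / 2 ≤ P + 480 * M ^ 2 * r * t + 6 / 5 * (ν / r) := by
  have hM0 : 0 < M := by linarith
  have hpi := Real.pi_pos
  have hv := vB_pos hr
  have hc := c2_le hM hr
  set D : ℝ := (1 + 1 / M) ^ 2 with hD
  have hD1 : 1 ≤ D := by
    rw [hD]
    have h0 : (0 : ℝ) ≤ 1 / M := by positivity
    exact one_le_pow₀ (by linarith)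
  have hs : selfE r = 6 / (5 * r) * (vB r) ^ 2 := by
    unfold selfE vB
    field_simp
    ring
  have hv2 : 0 < vB r ^ 2 := by positivity
  -- divide by v²
  have h3 : 6 / (5 * r) * ν ^ 2 ≤ D * (2 * P) + 2 * (480 * M * r) * M * t + 6 / (5 * r) * ν := by
    have h4 : 6 / (5 * r) * ν ^ 2 * vB r ^ 2 ≤
        (D * (2 * P) + 2 * (480 * M * r) * M * t + 6 / (5 * r) * ν) * vB r ^ 2 := by
      have h5 : c2 (1 / M) r * M * t ≤ 2 * (480 * M * r) * (vB r) ^ 2 * M * t := by gcongr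
      rw [hs, mul_pow] at h2
      rw [hD]
      linarith
    exact le_of_mul_le_mul_right h4 hv2
  have e1 : (ν / vB r) ^ 2 * selfE r / 2 = 3 / 5 * (ν ^ 2 / r) := by
    rw [hs]; field_simp; ring
  have e2 : 6 / (5 * r) * ν ^ 2 = 6 / 5 * (ν ^ 2 / r) := by field_simp
  have e3 : 6 / (5 * r) * ν = 6 / 5 * (ν / r) := by field_simp
  rw [e2, e3] at h3
  rw [e1]
  set X := ν ^ 2 / r with hX
  set Y := ν / r with hY
  have hX0 : 0 ≤ X := by positivity
  have hY0 : 0 ≤ Y := by positivity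
  have hXY : 2 * X ≤ M * Y := by
    have : M * Y - 2 * X = (M - 2 * ν) * Y := by rw [hX, hY]; ring
    have h6 : 0 ≤ (M - 2 * ν) * Y := mul_nonneg (by linarith) hY0
    linarith
  have hDe : D = 1 + 2 / M + 1 / M ^ 2 := by rw [hD]; field_simp; ring
  set T := 480 * M ^ 2 * r * t with hT
  have hT0 : 0 ≤ T := by positivity
  have e4 : 2 * (480 * M * r) * M * t = 2 * T := by rw [hT]; ring
  rw [e4] at h3
  -- 6/5 X ≤ D 2P + 2T + 6/5 Y ; X ≤ M Y /2; D ≤ 1 + 2/M+1/M²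
  -- 1/D ≥ 1 - 2/M
  have h7 : (1 - 2 / M) * D ≤ 1 := by
    rw [hDe]
    have : (1 - 2 / M) * (1 + 2 / M + 1 / M ^ 2) = 1 - 3 / M ^ 2 - 2 / M ^ 3 := by
      field_simp; ring
    rw [this]
    have q1 : (0 : ℝ) ≤ 3 / M ^ 2 := by positivity
    have q2 : (0 : ℝ) ≤ 2 / M ^ 3 := by positivity
    linarith
  have h8 : 2 / M * X ≤ Y := by
    rw [div_mul_eq_mul_div, div_le_iff₀ hM0]; linarith
  rcases le_or_gt (1 - 2 / M) 0 with hneg | hpos
  · -- then X ≤ (2/M) X ≤ Y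
    have h20 : 1 * X ≤ 2 / M * X := mul_le_mul_of_nonneg_right (by linarith) hX0
    linarith
  · have h9 := mul_le_mul_of_nonneg_left h3 hpos.le
    have h10 : (1 - 2 / M) * D * (2 * P) ≤ 1 * (2 * P) :=
      mul_le_mul_of_nonneg_right h7 (by linarith)
    have hq : (1 - 2 / M) ≤ 1 := by
      have : (0 : ℝ) ≤ 2 / M := by positivity
      linarith
    have h11 : (1 - 2 / M) * (2 * T) ≤ 1 * (2 * T) :=
      mul_le_mul_of_nonneg_right hq (by linarith)
    have h12 : (1 - 2 / M) * (6 / 5 * Y) ≤ 1 * (6 / 5 * Y) :=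
      mul_le_mul_of_nonneg_right hq (by linarith)
    have h13 : (1 - 2 / M) * (D * (2 * P) + 2 * T + 6 / 5 * Y) =
        (1 - 2 / M) * D * (2 * P) + (1 - 2 / M) * (2 * T) + (1 - 2 / M) * (6 / 5 * Y) := by ring
    have h14 : (1 - 2 / M) * (6 / 5 * X) = 6 / 5 * X - 6 / 5 * (2 / M * X) := by ring
    rw [h13, h14] at h9
    linarith

theorem main_alg {z C0 r M ν P t a U Φ k E τ : ℝ} (hz : 0 < z) (hM : 1 ≤ M) (hr : 0 < r)
    (hν : 0 ≤ ν) (hνM : 2 * ν ≤ M) (hP : 0 ≤ P) (ht : 0 ≤ t) (hk0 : 0 ≤ k) (hk : k ≤ M)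
    (hΦ : Φ ≤ k * (2 * Real.pi * r ^ 2)) (hτ : τ ^ 3 * vB r = ν) (hτ0 : 0 ≤ τ)
    (h1 : vB r * a ≤ (1 + 1 / M) * Φ * ν + (1 + (1 / M)⁻¹) * (128 * Real.pi * r ^ 4) * k * t)
    (h2 : selfE r * ν ^ 2 ≤ ((1 + 1 / M) * vB r) ^ 2 * (2 * P) + c2 (1 / M) r * M * t +
      selfE r * ν)
    (h3 : z * τ ^ 3 * Φ ≤ z ^ 2 * U + τ ^ 6 * selfE r / 2 + E + C0 * (τ ^ 3 * r ^ 2)) :
    z * a ≤ P + z ^ 2 * U + (192 * z + 480) * M ^ 2 * r * t + E +
      (3 / (4 * Real.pi) * C0 + 3 / 2 * z + 6 / 5) * (ν / r) := by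
  have hM0 : 0 < M := by linarith
  have hpi := Real.pi_pos
  have hv := vB_pos hr
  have hrep := rep_alg hM hr hν hνM hP ht h2
  have hτν : τ ^ 3 = ν / vB r := by rw [← hτ]; field_simp
  have e6 : τ ^ 6 = (ν / vB r) ^ 2 := by rw [← hτν]; ring
  rw [← e6] at hrep
  have e7 : τ ^ 3 * r ^ 2 = 3 / (4 * Real.pi) * (ν / r) := by
    rw [hτν]; unfold vB; field_simp
  have e1 : (1 / M)⁻¹ = M := by rw [one_div, inv_inv]
  rw [e1] at h1
  have hτ3 : 0 ≤ τ ^ 3 := by positivity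
  -- z a ≤ (1+1/M) z τ³ Φ + 192 z M² r t
  have hA : z * a ≤ (1 + 1 / M) * (z * τ ^ 3 * Φ) + 192 * z * M ^ 2 * r * t := by
    have h4 : (1 + M) * (128 * Real.pi * r ^ 4) * k * t ≤
        (2 * M) * (128 * Real.pi * r ^ 4) * M * t := by
      gcongr; linarith
    have h5 : vB r * (z * a) ≤ vB r * ((1 + 1 / M) * (z * τ ^ 3 * Φ) + 192 * z * M ^ 2 * r * t) := by
      have q1 : vB r * (z * a) = z * (vB r * a) := by ring
      have q2 : vB r * ((1 + 1 / M) * (z * τ ^ 3 * Φ) + 192 * z * M ^ 2 * r * t) =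
          z * ((1 + 1 / M) * Φ * ν + (2 * M) * (128 * Real.pi * r ^ 4) * M * t) := by
        rw [← hτ]; unfold vB; ring
      rw [q1, q2]
      exact mul_le_mul_of_nonneg_left (by linarith) hz.le
    exact le_of_mul_le_mul_left h5 hv
  have hB : 1 / M * (z * τ ^ 3 * Φ) ≤ 3 / 2 * z * (ν / r) := by
    calc 1 / M * (z * τ ^ 3 * Φ) ≤ 1 / M * (z * τ ^ 3 * (M * (2 * Real.pi * r ^ 2))) := by
          gcongr
          exact hΦ.trans (by gcongr)
      _ = z * (2 * Real.pi) * (τ ^ 3 * r ^ 2) := by field_simp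
      _ = 3 / 2 * z * (ν / r) := by rw [e7]; field_simp; norm_num
  rw [e7] at h3
  have e8 : (1 + 1 / M) * (z * τ ^ 3 * Φ) = z * τ ^ 3 * Φ + 1 / M * (z * τ ^ 3 * Φ) := by ring
  rw [e8] at hA
  have e9 : (192 * z + 480) * M ^ 2 * r * t = 192 * z * M ^ 2 * r * t + 480 * M ^ 2 * r * t := by
    ring
  have e10 : (3 / (4 * Real.pi) * C0 + 3 / 2 * z + 6 / 5) * (ν / r) =
      C0 * (3 / (4 * Real.pi) * (ν / r)) + 3 / 2 * z * (ν / r) + 6 / 5 * (ν / r) := by ring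
  rw [e9, e10]
  linarith

/-- constant in front of `ν/r` -/
noncomputable def cN (z r0 : ℝ) : ℝ :=
  3 / (4 * Real.pi) * (2 * Real.pi * z + 4 * Real.pi ^ 2 * r0 ^ 3) + 3 / 2 * z + 6 / 5

theorem cN_nonneg {z r0 : ℝ} (hz : 0 ≤ z) (hr0 : 0 ≤ r0) : 0 ≤ cN z r0 := by
  unfold cN; positivity

/-- The main estimate in one ball. -/
theorem main_ball {N K : ℕ} {z δ' r0 M : ℝ} (hz : 0 < z) (hr0 : 0 < r0) (hδ' : 0 ≤ δ')
    (hlow : ∀ r, r0 ≤ r → ∀ (n : ℕ) (p : Fin n → E3), Function.Injective p →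
      (∀ i, p i ∈ ball (0 : E3) r) → (estar z - δ') * vB r ≤ jel z r p)
    (hM : 1 ≤ M) (R : Fin K → E3) (hR : Function.Injective R) {ψ : Conf N → ℂ} (h : Trial ψ)
    (b : ℝ × E3) (hb : 0 < b.1) {ν τ : ℝ} (hν0 : 0 ≤ ν) (hνM : 2 * ν ≤ M)
    (hnu : nub ψ b = ENNReal.ofReal ν) (hk : (kb R b : ℝ) ≤ M) (hτ0 : 0 ≤ τ)
    (hτ : τ ^ 3 * vB b.1 = ν) :
    ENNReal.ofReal z * AbN R ψ b ≤ Pb ψ b + ENNReal.ofReal (z ^ 2) * Ub R b +
      (ENNReal.ofReal ((192 * z + 480) * M ^ 2 * b.1) * Tb ψ b +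
      ENNReal.ofReal ((δ' - estar z) * (τ ^ 4 * vB b.1)) +
      ENNReal.ofReal (cN z r0 * (ν / b.1))) := by
  have hpi := Real.pi_pos
  have hM0 : 0 < M := by linarith
  have hv := vB_pos hb
  have hs := selfE_nonneg hb.le
  have he := estar_nonpos hz
  have hcN := cN_nonneg hz.le hr0.le
  have hcf : 0 < (192 * z + 480) * M ^ 2 * b.1 := by positivity
  by_cases hPt : Pb ψ b = ∞
  · rw [hPt]; simp
  by_cases hTt : Tb ψ b = ∞
  · rw [hTt, ENNReal.mul_top (ENNReal.ofReal_pos.2 hcf).ne']; simp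
  set P := (Pb ψ b).toReal with hP
  set t := (Tb ψ b).toReal with ht
  have hPe : Pb ψ b = ENNReal.ofReal P := (ENNReal.ofReal_toReal hPt).symm
  have hTe : Tb ψ b = ENNReal.ofReal t := (ENNReal.ofReal_toReal hTt).symm
  have hP0 : 0 ≤ P := ENNReal.toReal_nonneg
  have ht0 : 0 ≤ t := ENNReal.toReal_nonneg
  set Φ : ℝ := ∑ k : Sb R b, ballPot b.1 ‖R k - b.2‖ with hΦ
  have hΦ0 : 0 ≤ Φ := Finset.sum_nonneg fun k _ => ballPot_nonneg hb.le (norm_nonneg _)
  have hΦle : Φ ≤ (kb R b : ℝ) * (2 * Real.pi * b.1 ^ 2) := by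
    calc Φ ≤ ∑ _k : Sb R b, 2 * Real.pi * b.1 ^ 2 :=
          Finset.sum_le_sum fun i _ => ballPot_le hb.le (norm_nonneg _)
      _ = _ := by rw [Finset.sum_const, Finset.card_univ, nsmul_eq_mul]; rfl
  have hδ : (0 : ℝ) < 1 / M := by positivity
  have hA := AbN_le_main R h.smooth b hb hδ
  rw [hnu, hTe, ← ENNReal.ofReal_mul (by positivity), ← ENNReal.ofReal_mul (by positivity),
    ← ENNReal.ofReal_add (by positivity) (by positivity)] at hA
  have hAt : AbN R ψ b ≠ ∞ := by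
    intro hcon
    rw [hcon, ENNReal.mul_top (ENNReal.ofReal_pos.2 hv).ne'] at hA
    exact absurd hA (by simp)
  set a := (AbN R ψ b).toReal with ha
  have hAe : AbN R ψ b = ENNReal.ofReal a := (ENNReal.ofReal_toReal hAt).symm
  rw [hAe, ← ENNReal.ofReal_mul hv.le, ENNReal.ofReal_le_ofReal_iff (by positivity)] at hA
  have h2 := two_body hν0 hνM hδ b hb h hnu
  have hc2 : 0 ≤ c2 (1 / M) b.1 := by unfold c2; positivity
  have e2 : (2 : ℝ≥0∞) * Pb ψ b = ENNReal.ofReal (2 * P) := by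
    rw [hPe, ENNReal.ofReal_mul (by norm_num)]; norm_num
  rw [e2, hTe, ← ENNReal.ofReal_mul (by positivity), ← ENNReal.ofReal_mul (by positivity),
    ← ENNReal.ofReal_add (by positivity) (by positivity),
    ← ENNReal.ofReal_add (by positivity) (by positivity),
    ENNReal.ofReal_le_ofReal_iff (by positivity)] at h2
  have h3 := jel_scaled hz hr0 hδ' hlow (fun k : Sb R b => R k - b.2)
    (fun i j hij => Subtype.ext (hR (sub_left_injective hij)))
    (fun i => by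
      have := i.2
      rw [mem_ball_iff_norm] at this
      rwa [mem_ball_zero_iff]) hb hτ0
  have hrep : rep (fun i : Sb R b => R i - b.2) = rep (fun i : Sb R b => R i) := by
    unfold rep; simp only [sub_sub_sub_cancel_right]
  rw [hrep] at h3
  have hU := Ub_eq R b
  have hU0 := rep_nonneg (fun i : Sb R b => R i)
  rw [← hΦ] at hA h3
  have h4 := main_alg (C0 := 2 * Real.pi * z + 4 * Real.pi ^ 2 * r0 ^ 3) (a := a) (P := P)
    (t := t) (Φ := Φ) (E := (δ' - estar z) * τ ^ 4 * vB b.1) hz hM hb hν0 hνM hP0 ht0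
    (Nat.cast_nonneg _) hk hΦle hτ hτ0 hA h2 h3
  have hde : 0 ≤ δ' - estar z := by linarith
  rw [hAe, hPe, hTe, hU, ← ENNReal.ofReal_mul hz.le, ← ENNReal.ofReal_mul (sq_nonneg z),
    ← ENNReal.ofReal_mul hcf.le, ← ENNReal.ofReal_add hP0 (by positivity),
    ← ENNReal.ofReal_add (by positivity) (by positivity),
    ← ENNReal.ofReal_add (by positivity) (by positivity),
    ← ENNReal.ofReal_add (by positivity) (by positivity)]
  apply ENNReal.ofReal_le_ofReal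
  refine h4.trans (le_of_eq ?_)
  unfold cN
  ring

end Pool.Agent.Lib_helper90c
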