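import Pool.Agent.Lib_helper90c.Moments

/-!
# Master localisation bound for jellium
-/

set_option autoImplicit false

open MeasureTheory Set Metric Filter
open scoped ENNReal NNReal Topology

namespace Pool.Agent.Lib_helper90c

/-- trivial lower bound for the energy of a ball -/
noncomputable def lowT (z r : ℝ) : ℝ := 2 * Real.pi * z * r ^ 2 + 4 * Real.pi ^ 2 * r ^ 5

theorem lowT_nonneg {z r : ℝ} (hz : 0 ≤ z) (hr : 0 ≤ r) : 0 ≤ lowT z r := by
  unfold lowT; positivity

theorem alg_triv {z r : ℝ} (hz : 0 ≤ z) (hr : 0 < r) (k : ℕ) :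
    z * (k * (2 * Real.pi * r ^ 2)) ≤ z ^ 2 * ((k : ℝ) * ((k : ℝ) - 1) / (4 * r)) + lowT z r := by
  rcases Nat.eq_zero_or_pos k with h | h
  · subst h
    have := lowT_nonneg hz hr.le
    simpa using this
  · have h1 : (1 : ℝ) ≤ k := by exact_mod_cast h
    have e : z ^ 2 * ((k : ℝ) * ((k : ℝ) - 1) / (4 * r)) + lowT z r -
        z * (k * (2 * Real.pi * r ^ 2)) =
        (z * (k - 1) - 4 * Real.pi * r ^ 3) ^ 2 / (4 * r) + z ^ 2 * (k - 1) / (4 * r) := by
      unfold lowT
      field_simp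
      ring
    have e1 : 0 ≤ (z * (k - 1) - 4 * Real.pi * r ^ 3) ^ 2 / (4 * r) := by positivity
    have e2 : 0 ≤ z ^ 2 * (k - 1) / (4 * r) := by
      apply div_nonneg (mul_nonneg (sq_nonneg _) (by linarith)) (by positivity)
    linarith

theorem setLIntegral_ib (b : ℝ × E3) (R : ℝ) (f : E3 → ℝ≥0∞) :
    ∫⁻ y in ball (0 : E3) R, ib b y * f y = ∫⁻ y in ball b.2 b.1 ∩ ball 0 R, f y := by
  have h1 : ∀ y, ib b y * f y = (ball b.2 b.1).indicator f y := by
    intro y
    unfold ib
    by_cases h : y ∈ ball b.2 b.1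
    · rw [indicator_of_mem h, indicator_of_mem h]; simp
    · rw [indicator_of_notMem h, indicator_of_notMem h, zero_mul]
  simp only [h1]
  rw [lintegral_indicator measurableSet_ball, Measure.restrict_restrict measurableSet_ball]

section
variable {ι : Type} [Fintype ι]

theorem Ab_le (p : ι → E3) (R : ℝ) (b : ℝ × E3) (hb : 0 < b.1) :
    Ab p R b ≤ ENNReal.ofReal (kb p b * (2 * Real.pi * b.1 ^ 2)) := by
  have h1 : ∀ x : E3, ∫⁻ y in ball (0 : E3) R, ib b y * ENNReal.ofReal ‖x - y‖⁻¹ ≤
      ENNReal.ofReal (2 * Real.pi * b.1 ^ 2) := by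
    intro x
    rw [setLIntegral_ib]
    refine (lintegral_mono_set inter_subset_left).trans ?_
    rw [lintegral_ball_inv' b.2 x hb.le]
    exact ENNReal.ofReal_le_ofReal (ballPot_le hb.le (norm_nonneg _))
  unfold Ab
  calc ∑ i, ib b (p i) * ∫⁻ y in ball (0 : E3) R, ib b y * ENNReal.ofReal ‖p i - y‖⁻¹
      ≤ ∑ i, ib b (p i) * ENNReal.ofReal (2 * Real.pi * b.1 ^ 2) := by
        gcongr with i; exact h1 _
    _ = ENNReal.ofReal (kb p b * (2 * Real.pi * b.1 ^ 2)) := by
        rw [← Finset.sum_mul, sum_ib_one, ENNReal.ofReal_mul (Nat.cast_nonneg _),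
          ENNReal.ofReal_natCast]

theorem jel_ge_of_card (z : ℝ) {r : ℝ} (hr : 0 < r) (p : ι → E3) (hz : 0 ≤ z)
    (hinj : Function.Injective p) (hp : ∀ i, p i ∈ ball (0 : E3) r) :
    z ^ 2 * ((Fintype.card ι : ℝ) * ((Fintype.card ι : ℝ) - 1) / (4 * r)) -
      z * (Fintype.card ι * (2 * Real.pi * r ^ 2)) ≤ jel z r p := by
  have h1 := rep_lower p hinj 0 hr hp
  have h2 : ∑ i, ballPot r ‖p i‖ ≤ Fintype.card ι * (2 * Real.pi * r ^ 2) := by
    calc ∑ i, ballPot r ‖p i‖ ≤ ∑ _i : ι, 2 * Real.pi * r ^ 2 :=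
          Finset.sum_le_sum fun i _ => ballPot_le hr.le (norm_nonneg _)
      _ = _ := by rw [Finset.sum_const, Finset.card_univ, nsmul_eq_mul]
  have h3 := selfE_nonneg hr.le
  unfold jel
  have h4 := mul_le_mul_of_nonneg_left h1 (sq_nonneg z)
  have h5 := mul_le_mul_of_nonneg_left h2 hz
  linarith

theorem jel_ge_lowT {z r : ℝ} (hz : 0 ≤ z) (hr : 0 < r) (p : ι → E3)
    (hinj : Function.Injective p) (hp : ∀ i, p i ∈ ball (0 : E3) r) :
    -lowT z r ≤ jel z r p := by
  have h1 := jel_ge_of_card z hr p hz hinj hp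
  have h2 := alg_triv hz hr (Fintype.card ι)
  linarith

theorem jel_Fin {z r a : ℝ} (h : ∀ (n : ℕ) (p : Fin n → E3), Function.Injective p →
    (∀ i, p i ∈ ball (0 : E3) r) → a ≤ jel z r p) (p : ι → E3)
    (hinj : Function.Injective p) (hp : ∀ i, p i ∈ ball (0 : E3) r) : a ≤ jel z r p := by
  have e := (Fintype.equivFin ι).symm
  rw [← jel_reindex z r e p]
  exact h _ _ (hinj.comp e.injective) fun i => hp _

/-- the ball inside -/
theorem interior_bound {z R : ℝ} (hz : 0 ≤ z) (p : ι → E3) (hinj : Function.Injective p)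
    (b : ℝ × E3) (hb : 0 < b.1) (hin : ‖b.2‖ + b.1 ≤ R) {l : ℝ} (hl0 : 0 ≤ l)
    (hl : ∀ (n : ℕ) (p : Fin n → E3), Function.Injective p →
      (∀ i, p i ∈ ball (0 : E3) b.1) → -l ≤ jel z b.1 p) :
    ENNReal.ofReal z * Ab p R b ≤
      ENNReal.ofReal (z ^ 2) * Ub p b + 2⁻¹ * Db R b + ENNReal.ofReal l := by
  have hsub : ball b.2 b.1 ∩ ball (0 : E3) R = ball b.2 b.1 := by
    apply inter_eq_left.2
    apply ball_subset_ball'
    rw [dist_zero_right]; linarith
  have hA : Ab p R b = ENNReal.ofReal (∑ i : Sb p b, ballPot b.1 ‖p i - b.2‖) := by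
    unfold Ab
    simp only [setLIntegral_ib, hsub, lintegral_ball_inv' b.2 _ hb.le]
    rw [sum_ib p b (fun i => ENNReal.ofReal (ballPot b.1 ‖p i - b.2‖)),
      ENNReal.ofReal_sum_of_nonneg fun i _ => ballPot_nonneg hb.le (norm_nonneg _)]
  have hD : Db R b = ENNReal.ofReal (selfE b.1) := by
    unfold Db
    rw [← lintegral_lintegral_ball_inv b.2 hb.le]
    have h1 : ∀ x : E3, ∫⁻ y in ball (0 : E3) R, ib b x * ib b y * ENNReal.ofReal ‖x - y‖⁻¹ =
        ib b x * ∫⁻ y in ball b.2 b.1, ENNReal.ofReal ‖x - y‖⁻¹ := by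
      intro x
      have : ∀ y, ib b x * ib b y * ENNReal.ofReal ‖x - y‖⁻¹ =
        ib b y * (ib b x * ENNReal.ofReal ‖x - y‖⁻¹) := fun y => by ring
      simp only [this]
      rw [setLIntegral_ib, hsub, lintegral_const_mul _ (by fun_prop)]
    simp only [h1]
    rw [setLIntegral_ib, hsub]
  have hU := Ub_eq p b
  have hj := jel_Fin hl (fun i : Sb p b => p i - b.2)
    (fun i j hij => Subtype.ext (hinj (sub_left_injective hij)))
    (fun i => by
      have := i.2
      rw [mem_ball_iff_norm] at this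
      rwa [mem_ball_zero_iff])
  unfold jel at hj
  have hrep : rep (fun i : Sb p b => p i - b.2) = rep (fun i : Sb p b => p i) := by
    unfold rep; simp only [sub_sub_sub_cancel_right]
  rw [hrep] at hj
  have hr0 := rep_nonneg (fun i : Sb p b => p i)
  have hs0 := selfE_nonneg hb.le
  have h2 : (2⁻¹ : ℝ≥0∞) = ENNReal.ofReal (1 / 2) := by
    rw [one_div, ENNReal.ofReal_inv_of_pos (by norm_num)]; norm_num
  rw [hA, hD, hU, h2, ← ENNReal.ofReal_mul hz, ← ENNReal.ofReal_mul (sq_nonneg z),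
    ← ENNReal.ofReal_mul (by norm_num),
    ← ENNReal.ofReal_add (mul_nonneg (sq_nonneg z) hr0) (mul_nonneg (by norm_num) hs0),
    ← ENNReal.ofReal_add (add_nonneg (mul_nonneg (sq_nonneg z) hr0)
      (mul_nonneg (by norm_num) hs0)) hl0]
  apply ENNReal.ofReal_le_ofReal
  linarith

theorem crossing_bound {z R : ℝ} (hz : 0 ≤ z) (p : ι → E3) (hinj : Function.Injective p)
    (b : ℝ × E3) (hb : 0 < b.1) :
    ENNReal.ofReal z * Ab p R b ≤
      ENNReal.ofReal (z ^ 2) * Ub p b + ENNReal.ofReal (lowT z b.1) := by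
  have hr := rep_lower (fun i : Sb p b => p i)
    (fun i j hij => Subtype.ext (hinj hij)) b.2 hb (fun i => i.2)
  have hr0 := rep_nonneg (fun i : Sb p b => p i)
  calc ENNReal.ofReal z * Ab p R b
      ≤ ENNReal.ofReal z * ENNReal.ofReal (kb p b * (2 * Real.pi * b.1 ^ 2)) := by
        gcongr; exact Ab_le p R b hb
    _ ≤ ENNReal.ofReal (z ^ 2) * Ub p b + ENNReal.ofReal (lowT z b.1) := by
        rw [Ub_eq, ← ENNReal.ofReal_mul hz, ← ENNReal.ofReal_mul (sq_nonneg z),
          ← ENNReal.ofReal_add (mul_nonneg (sq_nonneg z) hr0) (lowT_nonneg hz hb.le)]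
        apply ENNReal.ofReal_le_ofReal
        have h1 := alg_triv hz hb (kb p b)
        have h2 := mul_le_mul_of_nonneg_left hr (sq_nonneg z)
        unfold kb at *
        linarith

theorem outside_zero {R : ℝ} (p : ι → E3) (hp : ∀ i, p i ∈ ball (0 : E3) R)
    (b : ℝ × E3) (hout : R + b.1 ≤ ‖b.2‖) : Ab p R b = 0 := by
  unfold Ab
  apply Finset.sum_eq_zero
  intro i _
  have : p i ∉ ball b.2 b.1 := by
    intro h
    rw [mem_ball_iff_norm'] at h
    have h1 := hp i
    rw [mem_ball_zero_iff] at h1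
    have h2 := norm_sub_norm_le b.2 (p i)
    linarith
  unfold ib
  rw [indicator_of_notMem this, zero_mul]

end

theorem volume_crossing {R r : ℝ} (hR : 1 ≤ R) (hr : 0 < r) :
    volume (ball (0 : E3) (R + r) \ closedBall 0 (R - r)) ≤
      ENNReal.ofReal (R ^ 2 * (4 * Real.pi / 3 * (6 * r + 8 * r ^ 3))) := by
  have hpi := Real.pi_pos
  by_cases h : r ≤ R
  · rw [measure_sdiff ?_ measurableSet_closedBall.nullMeasurableSet
      measure_closedBall_lt_top.ne]
    · rw [volume_ball_eq _ (by linarith), Measure.addHaar_closedBall_eq_addHaar_ball,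
        volume_ball_eq _ (by linarith), ← ENNReal.ofReal_sub _ (vB_nonneg (by linarith))]
      apply ENNReal.ofReal_le_ofReal
      unfold vB
      have e : 4 * Real.pi / 3 * (R + r) ^ 3 - 4 * Real.pi / 3 * (R - r) ^ 3 =
        4 * Real.pi / 3 * (6 * R ^ 2 * r + 2 * r ^ 3) := by ring
      rw [e]
      have e2 : R ^ 2 * (4 * Real.pi / 3 * (6 * r + 8 * r ^ 3)) =
        4 * Real.pi / 3 * (6 * R ^ 2 * r + R ^ 2 * (8 * r ^ 3)) := by ring
      rw [e2]
      have h3 : 0 < r ^ 3 := by positivity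
      have h4 : (1:ℝ) ≤ R ^ 2 := by nlinarith
      have h5 : 2 * r ^ 3 ≤ R ^ 2 * (8 * r ^ 3) := by nlinarith
      apply mul_le_mul_of_nonneg_left _ (by positivity)
      linarith
    · apply closedBall_subset_ball'
      simp; linarith
  · push Not at h
    refine (measure_mono sdiff_subset).trans ?_
    rw [volume_ball_eq _ (by linarith)]
    apply ENNReal.ofReal_le_ofReal
    unfold vB
    have h1 : (R + r) ^ 3 ≤ R ^ 2 * (6 * r + 8 * r ^ 3) := by
      have h2 : (R + r) ^ 3 ≤ (2 * r) ^ 3 := pow_le_pow_left₀ (by linarith) (by linarith) 3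
      have h3 : 0 < r ^ 3 := by positivity
      have h4 : (1:ℝ) ≤ R ^ 2 := by nlinarith
      nlinarith [mul_pos hr (show (0:ℝ) < R ^ 2 by positivity)]
    have h5 := mul_le_mul_of_nonneg_left h1 (show 0 ≤ 4 * Real.pi / 3 by positivity)
    linarith

theorem pow_le_two_nine {r : ℝ} (hr : 0 < r) {j : ℕ} (h2 : 2 ≤ j) (h9 : j ≤ 9) :
    r ^ j ≤ r ^ 2 + r ^ 9 := by
  rcases le_total r 1 with h | h
  · have := pow_le_pow_of_le_one hr.le h h2
    have h1 : 0 < r ^ 9 := by positivity
    linarith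
  · have := pow_le_pow_right₀ h h9
    have h1 : 0 < r ^ 2 := by positivity
    linarith

theorem lintegral_om_two_nine {κ : ℝ} (hκ : 0 < κ) {A : ℝ} (hA : 0 ≤ A) :
    ∫⁻ r in Ioi (0 : ℝ), ENNReal.ofReal (om κ r) * ENNReal.ofReal (A * (r ^ 2 + r ^ 9)) =
      ENNReal.ofReal (A * (mC 0 * κ + mC 7 * κ / κ ^ 7)) := by
  have h1 : ∀ r ∈ Ioi (0 : ℝ), ENNReal.ofReal (om κ r) * ENNReal.ofReal (A * (r ^ 2 + r ^ 9)) =
      ENNReal.ofReal A * (ENNReal.ofReal (om κ r) * ENNReal.ofReal (r ^ (0 + 2)) +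
        ENNReal.ofReal (om κ r) * ENNReal.ofReal (r ^ (7 + 2))) := by
    intro r hr
    have hr0 : 0 < r := hr
    rw [ENNReal.ofReal_mul hA, ENNReal.ofReal_add (by positivity) (by positivity)]
    ring
  have hm := measurable_om κ
  rw [setLIntegral_congr_fun measurableSet_Ioi h1, lintegral_const_mul _ (by fun_prop),
    lintegral_add_left (by fun_prop), lintegral_om_pow hκ, lintegral_om_pow hκ,
    ← ENNReal.ofReal_add (by have := mC_pos 0; positivity) (by have := mC_pos 7; positivity),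
    ← ENNReal.ofReal_mul hA]
  simp

/-- Master localisation bound. -/
theorem master {κ z Λ : ℝ} (hκ : 0 < κ) (hz : 0 < z) (hΛ0 : 0 ≤ Λ) (low : ℝ → ℝ)
    (hm : Measurable low) (hlow0 : ∀ r, 0 < r → 0 ≤ low r)
    (hlow : ∀ r, 0 < r → ∀ (n : ℕ) (p : Fin n → E3), Function.Injective p →
      (∀ i, p i ∈ ball (0 : E3) r) → -low r ≤ jel z r p)
    (hΛ : ∫⁻ r in Ioi (0 : ℝ), ENNReal.ofReal (om κ r) * ENNReal.ofReal (low r) ≤
      ENNReal.ofReal Λ) :
    ∃ C, 0 ≤ C ∧ ∀ R, 1 ≤ R → ∀ (n : ℕ) (p : Fin n → E3), Function.Injective p →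
      (∀ i, p i ∈ ball (0 : E3) R) → -(Λ + 3 * κ * z) * vB R - C * R ^ 2 ≤ jel z R p := by
  have hpi := Real.pi_pos
  set A : ℝ := 4 * Real.pi / 3 * (28 * Real.pi * z + 56 * Real.pi ^ 2) with hA
  have hA0 : 0 ≤ A := by positivity
  set C1 : ℝ := A * (mC 0 * κ + mC 7 * κ / κ ^ 7) with hC1
  have hC10 : 0 ≤ C1 := by have := mC_pos 0; have := mC_pos 7; positivity
  refine ⟨C1 + κ * z ^ 2 / 2, by positivity, fun R hR n p hinj hp => ?_⟩
  have hR0 : 0 < R := by linarith
  by_cases hn : 8 * Real.pi * R ^ 3 ≤ z * ((n : ℝ) - 1)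
  · have h1 := jel_ge_of_card z hR0 p hz.le hinj hp
    rw [Fintype.card_fin] at h1
    have h2 : z ^ 2 * ((n : ℝ) * ((n : ℝ) - 1) / (4 * R)) -
        z * (n * (2 * Real.pi * R ^ 2)) =
        z * n * (z * ((n : ℝ) - 1) - 8 * Real.pi * R ^ 3) / (4 * R) := by
      field_simp
      ring
    have h3 : 0 ≤ z * n * (z * ((n : ℝ) - 1) - 8 * Real.pi * R ^ 3) / (4 * R) := by
      apply div_nonneg (mul_nonneg (by positivity) (by linarith)) (by positivity)
    have h4 := vB_nonneg hR0.le
    have h5 : 0 ≤ (Λ + 3 * κ * z) * vB R := by positivity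
    have h6 : 0 ≤ (C1 + κ * z ^ 2 / 2) * R ^ 2 := by positivity
    linarith
  · push Not at hn
    set L : ℝ × E3 → ℝ≥0∞ := fun b =>
      ENNReal.ofReal (low b.1) * {q : ℝ × E3 | ‖q.2‖ + q.1 ≤ R}.indicator 1 b +
      ENNReal.ofReal (lowT z b.1) *
        {q : ℝ × E3 | R < ‖q.2‖ + q.1 ∧ ‖q.2‖ < R + q.1}.indicator 1 b with hL
    have hs1 : MeasurableSet {q : ℝ × E3 | ‖q.2‖ + q.1 ≤ R} :=
      measurableSet_le (by fun_prop) (by fun_prop)
    have hs2 : MeasurableSet {q : ℝ × E3 | R < ‖q.2‖ + q.1 ∧ ‖q.2‖ < R + q.1} := by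
      have h3 : MeasurableSet {q : ℝ × E3 | R < ‖q.2‖ + q.1} :=
        measurableSet_lt (by fun_prop) (by fun_prop)
      have h4 : MeasurableSet {q : ℝ × E3 | ‖q.2‖ < R + q.1} :=
        measurableSet_lt (by fun_prop) (by fun_prop)
      exact h3.inter h4
    have hlT : Measurable (lowT z) := by unfold lowT; fun_prop
    have hLm : Measurable L := by
      have a1 : Measurable fun b : ℝ × E3 => ENNReal.ofReal (low b.1) :=
        (hm.comp measurable_fst).ennreal_ofReal
      have a2 : Measurable fun b : ℝ × E3 => ENNReal.ofReal (lowT z b.1) :=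
        (hlT.comp measurable_fst).ennreal_ofReal
      exact (a1.mul (measurable_one.indicator hs1)).add (a2.mul (measurable_one.indicator hs2))
    have hmain := jel_localize hκ hz.le hR0.le p hinj L hLm
      (C := Λ * vB R + C1 * R ^ 2) (by have := vB_nonneg hR0.le; positivity) ?_ ?_
    · rw [Fintype.card_fin] at hmain
      have h7 : κ * z ^ 2 * n / 2 ≤ κ * z ^ 2 / 2 * R ^ 2 + 3 * κ * z * vB R := by
        have h8 : z * n ≤ z + 8 * Real.pi * R ^ 3 := by linarith
        have h9 := mul_le_mul_of_nonneg_left h8 (show 0 ≤ κ * z / 2 by positivity)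
        have h10 : κ * z ^ 2 / 2 * 1 ≤ κ * z ^ 2 / 2 * R ^ 2 := by
          gcongr; nlinarith
        unfold vB
        nlinarith
      linarith
    · filter_upwards [ae_bm_pos κ] with b hb
      by_cases h1 : ‖b.2‖ + b.1 ≤ R
      · have h2 := interior_bound hz.le p hinj b hb h1 (hlow0 _ hb) (hlow _ hb)
        refine h2.trans (add_le_add_right ?_ _)
        rw [hL]
        simp only
        rw [indicator_of_mem (show b ∈ {q : ℝ × E3 | ‖q.2‖ + q.1 ≤ R} from h1)]
        simp
      · by_cases h3 : ‖b.2‖ < R + b.1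
        · have h2 := crossing_bound (R := R) hz.le p hinj b hb
          refine h2.trans ?_
          rw [hL]
          simp only
          rw [indicator_of_mem (show b ∈ {q : ℝ × E3 | R < ‖q.2‖ + q.1 ∧ ‖q.2‖ < R + q.1} from
            ⟨not_le.1 h1, h3⟩)]
          simp only [Pi.one_apply, mul_one]
          rw [add_assoc]
          gcongr
          exact le_add_left (le_add_left le_rfl)
        · rw [outside_zero p hp b (not_lt.1 h3), mul_zero]
          exact zero_le
    · rw [lintegral_bm _ _ hLm]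
      have hin : ∀ r ∈ Ioi (0 : ℝ), ENNReal.ofReal (om κ r) * ∫⁻ c : E3, L (r, c) ≤
          ENNReal.ofReal (vB R) * (ENNReal.ofReal (om κ r) * ENNReal.ofReal (low r)) +
          ENNReal.ofReal (R ^ 2) *
            (ENNReal.ofReal (om κ r) * ENNReal.ofReal (A * (r ^ 2 + r ^ 9))) := by
        intro r hr
        have hr0 : 0 < r := hr
        have e1 : ∫⁻ c : E3, L (r, c) = ENNReal.ofReal (low r) * volume (closedBall (0 : E3) (R - r))
            + ENNReal.ofReal (lowT z r) *
              volume (ball (0 : E3) (R + r) \ closedBall 0 (R - r)) := by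
          rw [hL]
          simp only
          have i1 : ∀ c : E3, {q : ℝ × E3 | ‖q.2‖ + q.1 ≤ R}.indicator (1 : ℝ × E3 → ℝ≥0∞) (r, c) =
              (closedBall (0 : E3) (R - r)).indicator 1 c := by
            intro c
            simp only [indicator, mem_ofPred_eq, mem_closedBall_zero_iff, Pi.one_apply]
            congr 1
            simp only [eq_iff_iff]
            constructor <;> intro h <;> linarith
          have i2 : ∀ c : E3, {q : ℝ × E3 | R < ‖q.2‖ + q.1 ∧ ‖q.2‖ < R + q.1}.indicator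
              (1 : ℝ × E3 → ℝ≥0∞) (r, c) =
              (ball (0 : E3) (R + r) \ closedBall 0 (R - r)).indicator 1 c := by
            intro c
            simp only [indicator, mem_ofPred_eq, Set.mem_sdiff, mem_ball_zero_iff,
              mem_closedBall_zero_iff, Pi.one_apply, not_le]
            congr 1
            simp only [eq_iff_iff]
            constructor
            · rintro ⟨h, h'⟩; exact ⟨h', by linarith⟩
            · rintro ⟨h, h'⟩; exact ⟨by linarith, h⟩
          simp only [i1, i2]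
          rw [lintegral_add_left ((measurable_one.indicator measurableSet_closedBall).const_mul _),
            lintegral_const_mul _ (measurable_one.indicator measurableSet_closedBall),
            lintegral_const_mul _ (measurable_one.indicator
              (measurableSet_ball.diff measurableSet_closedBall)),
            lintegral_indicator_one measurableSet_closedBall,
            lintegral_indicator_one (measurableSet_ball.diff measurableSet_closedBall)]
        rw [e1, mul_add]
        have v1 : volume (closedBall (0 : E3) (R - r)) ≤ ENNReal.ofReal (vB R) := by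
          rw [← volume_ball_eq 0 hR0.le]
          apply measure_mono
          exact closedBall_subset_ball (by linarith)
        have v2 := volume_crossing hR hr0
        have e2 : ENNReal.ofReal (lowT z r) *
            ENNReal.ofReal (R ^ 2 * (4 * Real.pi / 3 * (6 * r + 8 * r ^ 3))) ≤
            ENNReal.ofReal (R ^ 2) * ENNReal.ofReal (A * (r ^ 2 + r ^ 9)) := by
          rw [← ENNReal.ofReal_mul (lowT_nonneg hz.le hr0.le), ← ENNReal.ofReal_mul (sq_nonneg R)]
          apply ENNReal.ofReal_le_ofReal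
          have q3 := pow_le_two_nine hr0 (j := 3) (by norm_num) (by norm_num)
          have q5 := pow_le_two_nine hr0 (j := 5) (by norm_num) (by norm_num)
          have q6 := pow_le_two_nine hr0 (j := 6) (by norm_num) (by norm_num)
          have q8 := pow_le_two_nine hr0 (j := 8) (by norm_num) (by norm_num)
          have e3 : lowT z r * (R ^ 2 * (4 * Real.pi / 3 * (6 * r + 8 * r ^ 3))) =
            R ^ 2 * (4 * Real.pi / 3 * (12 * Real.pi * z * r ^ 3 + 16 * Real.pi * z * r ^ 5 +
              24 * Real.pi ^ 2 * r ^ 6 + 32 * Real.pi ^ 2 * r ^ 8)) := by unfold lowT; ring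
          have e4 : A * (r ^ 2 + r ^ 9) = 4 * Real.pi / 3 * (12 * Real.pi * z * (r ^ 2 + r ^ 9) +
              16 * Real.pi * z * (r ^ 2 + r ^ 9) + 24 * Real.pi ^ 2 * (r ^ 2 + r ^ 9) +
              32 * Real.pi ^ 2 * (r ^ 2 + r ^ 9)) := by rw [hA]; ring
          rw [e3, e4]
          gcongr
        calc ENNReal.ofReal (om κ r) * (ENNReal.ofReal (low r) * volume (closedBall (0 : E3) (R - r)))
            + ENNReal.ofReal (om κ r) * (ENNReal.ofReal (lowT z r) *
              volume (ball (0 : E3) (R + r) \ closedBall 0 (R - r)))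
            ≤ ENNReal.ofReal (om κ r) * (ENNReal.ofReal (low r) * ENNReal.ofReal (vB R)) +
              ENNReal.ofReal (om κ r) * (ENNReal.ofReal (lowT z r) *
                ENNReal.ofReal (R ^ 2 * (4 * Real.pi / 3 * (6 * r + 8 * r ^ 3)))) := by
              gcongr
          _ ≤ ENNReal.ofReal (om κ r) * (ENNReal.ofReal (low r) * ENNReal.ofReal (vB R)) +
              ENNReal.ofReal (om κ r) * (ENNReal.ofReal (R ^ 2) *
                ENNReal.ofReal (A * (r ^ 2 + r ^ 9))) := by gcongr
          _ = _ := by ring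
      refine (setLIntegral_mono' measurableSet_Ioi hin).trans ?_
      have hmo := measurable_om κ
      rw [lintegral_add_left (by fun_prop), lintegral_const_mul _ (by fun_prop),
        lintegral_const_mul _ (by fun_prop), lintegral_om_two_nine hκ hA0,
        ENNReal.ofReal_add (by have := vB_nonneg hR0.le; positivity) (by positivity)]
      gcongr
      · rw [mul_comm Λ, ENNReal.ofReal_mul (vB_nonneg hR0.le)]
        gcongr
      · rw [← ENNReal.ofReal_mul (sq_nonneg R)]
        apply ENNReal.ofReal_le_ofReal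
        rw [← hC1, mul_comm]

end Pool.Agent.Lib_helper90c
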