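import Pool.Agent.Lib_helper90c.Lens

/-!
# The exponential kernel as a mixture of autocorrelations of balls
-/

set_option autoImplicit false

open MeasureTheory Set Metric Filter
open scoped ENNReal NNReal Topology

namespace Pool.Agent.Lib_helper90c

/-- The radial weight. -/
noncomputable def om (μ r : ℝ) : ℝ :=
  Real.exp (-(2 * μ * r)) * (2 * μ ^ 3 / r + μ ^ 2 / r ^ 2) / Real.pi

theorem om_nonneg {μ r : ℝ} (hμ : 0 < μ) (hr : 0 < r) : 0 ≤ om μ r := by
  unfold om; positivity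

theorem measurable_om (μ : ℝ) : Measurable (om μ) := by
  unfold om; fun_prop

/-- antiderivative -/
noncomputable def omG (μ t r : ℝ) : ℝ :=
  -(Real.exp (-(2 * μ * r)) * (16 * μ ^ 2 * r ^ 2 + 24 * μ * r + 12 - 12 * t * (μ ^ 2 * r + μ) +
    t ^ 3 * μ ^ 2 / r)) / 12

theorem omG_half {μ t : ℝ} (_ : 0 < μ) (ht : 0 ≤ t) : omG μ t (t / 2) = -Real.exp (-(μ * t)) := by
  unfold omG
  have : -(2 * μ * (t / 2)) = -(μ * t) := by ring
  rw [this]
  rcases ht.eq_or_lt with h | h
  · subst h; simp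
  · field_simp
    ring

theorem hasDerivAt_omG {μ t r : ℝ} (hr : 0 < r) :
    HasDerivAt (omG μ t)
      (om μ r * (Real.pi / 12 * (16 * r ^ 3 - 12 * r ^ 2 * t + t ^ 3))) r := by
  have h1 : HasDerivAt (fun r : ℝ => Real.exp (-(2 * μ * r)))
      (Real.exp (-(2 * μ * r)) * (-(2 * μ * 1))) r :=
    (((hasDerivAt_id' r).const_mul (2 * μ)).neg).exp
  have h2 : HasDerivAt (fun r : ℝ => 16 * μ ^ 2 * r ^ 2 + 24 * μ * r + 12 -
      12 * t * (μ ^ 2 * r + μ) + t ^ 3 * μ ^ 2 / r)
      (16 * μ ^ 2 * (2 * r) + 24 * μ * 1 - 12 * t * (μ ^ 2 * 1) + -(t ^ 3 * μ ^ 2) / r ^ 2) r := by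
    have ha : HasDerivAt (fun r : ℝ => 16 * μ ^ 2 * r ^ 2) (16 * μ ^ 2 * (2 * r)) r :=
      (((hasDerivAt_id' r).pow 2).const_mul (16 * μ ^ 2)).congr_deriv (by norm_num)
    have hb : HasDerivAt (fun r : ℝ => 24 * μ * r) (24 * μ * 1) r :=
      (hasDerivAt_id' r).const_mul (24 * μ)
    have hc : HasDerivAt (fun r : ℝ => 12 * t * (μ ^ 2 * r + μ)) (12 * t * (μ ^ 2 * 1)) r :=
      (((hasDerivAt_id' r).const_mul (μ ^ 2)).add_const μ).const_mul (12 * t)
    have hd : HasDerivAt (fun r : ℝ => t ^ 3 * μ ^ 2 / r) (-(t ^ 3 * μ ^ 2) / r ^ 2) r := by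
      have := ((hasDerivAt_inv hr.ne').const_mul (t ^ 3 * μ ^ 2)).congr_deriv
        (g' := -(t ^ 3 * μ ^ 2) / r ^ 2) (by rw [div_eq_mul_inv]; ring)
      simpa only [div_eq_mul_inv] using this
    exact (((ha.add hb).add_const 12).sub hc).add hd
  have h3 := ((h1.mul h2).neg).div_const 12
  refine HasDerivAt.congr_deriv h3 ?_
  unfold om
  have := Real.pi_pos.ne'
  field_simp
  ring

theorem lens_poly_nonneg {r t : ℝ} (hr : 0 ≤ r) (ht : 0 ≤ t) :
    0 ≤ 16 * r ^ 3 - 12 * r ^ 2 * t + t ^ 3 := by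
  have : 16 * r ^ 3 - 12 * r ^ 2 * t + t ^ 3 = (4 * r + t) * (2 * r - t) ^ 2 := by ring
  rw [this]; positivity

theorem tendsto_omG {μ t : ℝ} (hμ : 0 < μ) : Tendsto (omG μ t) atTop (𝓝 0) := by
  have hx : Tendsto (fun r : ℝ => 2 * μ * r) atTop atTop :=
    tendsto_id.const_mul_atTop (by positivity)
  have h0 := (Real.tendsto_pow_mul_exp_neg_atTop_nhds_zero 0).comp hx
  have h1 := (Real.tendsto_pow_mul_exp_neg_atTop_nhds_zero 1).comp hx
  have h2 := (Real.tendsto_pow_mul_exp_neg_atTop_nhds_zero 2).comp hx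
  have hi : Tendsto (fun r : ℝ => r⁻¹) atTop (𝓝 0) := tendsto_inv_atTop_zero
  have h3 := h0.mul hi
  have key := ((((h2.const_mul 4).add (h1.const_mul 12)).add (h0.const_mul 12)).add
    (((h1.const_mul (-6 * t * μ)).add (h0.const_mul (-12 * t * μ))).add
      (h3.const_mul (t ^ 3 * μ ^ 2)))).const_mul (-(1 / 12 : ℝ))
  simp only [mul_zero, add_zero] at key
  refine key.congr fun r => ?_
  simp only [Function.comp, omG, pow_zero, pow_one, one_mul]
  ring

theorem lintegral_om_lens {μ t : ℝ} (hμ : 0 < μ) (ht : 0 ≤ t) :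
    ∫⁻ r in Ioi (t / 2), ENNReal.ofReal
      (om μ r * (Real.pi / 12 * (16 * r ^ 3 - 12 * r ^ 2 * t + t ^ 3))) =
      ENNReal.ofReal (Real.exp (-(μ * t))) := by
  have hpos : ∀ r ∈ Ioi (t / 2), 0 < r := fun r hr => lt_of_le_of_lt (by positivity) hr
  have hcont : ContinuousWithinAt (omG μ t) (Ici (t / 2)) (t / 2) := by
    rcases ht.eq_or_lt with h | h
    · subst h
      have : omG μ 0 = fun r => -(Real.exp (-(2 * μ * r)) * (16 * μ ^ 2 * r ^ 2 + 24 * μ * r + 12))
          / 12 := by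
        ext r; unfold omG; simp
      rw [this]
      apply Continuous.continuousWithinAt
      fun_prop
    · exact (hasDerivAt_omG (half_pos h)).continuousAt.continuousWithinAt
  have hnn : ∀ r ∈ Ioi (t / 2), 0 ≤ om μ r *
      (Real.pi / 12 * (16 * r ^ 3 - 12 * r ^ 2 * t + t ^ 3)) := fun r hr =>
    mul_nonneg (om_nonneg hμ (hpos r hr)) (mul_nonneg (by positivity)
      (lens_poly_nonneg (hpos r hr).le ht))
  have hint := integrableOn_Ioi_deriv_of_nonneg hcont
    (fun r hr => hasDerivAt_omG (hpos r hr)) hnn (tendsto_omG hμ)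
  have hval := integral_Ioi_of_hasDerivAt_of_nonneg hcont
    (fun r hr => hasDerivAt_omG (hpos r hr)) hnn (tendsto_omG hμ)
  rw [← ofReal_integral_eq_lintegral_ofReal hint
    ((ae_restrict_iff' measurableSet_Ioi).2 (Eventually.of_forall hnn)), hval, omG_half hμ ht]
  simp

/-- The measure on the space of balls (radius, centre). -/
noncomputable def bm (μ : ℝ) : Measure (ℝ × E3) :=
  ((volume.restrict (Ioi (0 : ℝ))).withDensity (fun r => ENNReal.ofReal (om μ r))).prod volume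

instance (μ : ℝ) : SFinite (bm μ) := by unfold bm; infer_instance

/-- the open set of pairs (ball, point of the ball) -/
theorem isOpen_ballRel : IsOpen {q : (ℝ × E3) × E3 | q.2 ∈ ball q.1.2 q.1.1} := by
  simp only [mem_ball]
  exact isOpen_lt (by fun_prop) (by fun_prop)

/-- indicator of the ball `p` at the point `x` -/
noncomputable def ib (p : ℝ × E3) (x : E3) : ℝ≥0∞ := (ball p.2 p.1).indicator 1 x

theorem measurable_ib : Measurable fun q : (ℝ × E3) × E3 => ib q.1 q.2 := by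
  have : (fun q : (ℝ × E3) × E3 => ib q.1 q.2) =
      {q : (ℝ × E3) × E3 | q.2 ∈ ball q.1.2 q.1.1}.indicator 1 := by
    ext q
    by_cases h : q.2 ∈ ball q.1.2 q.1.1
    · rw [indicator_of_mem (show q ∈ {q : (ℝ × E3) × E3 | q.2 ∈ ball q.1.2 q.1.1} from h), ib,
        indicator_of_mem h]; rfl
    · rw [indicator_of_notMem (show q ∉ {q : (ℝ × E3) × E3 | q.2 ∈ ball q.1.2 q.1.1} from h), ib,
        indicator_of_notMem h]
  rw [this]
  exact measurable_one.indicator isOpen_ballRel.measurableSet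

theorem measurable_ib_left (x : E3) : Measurable (fun p : ℝ × E3 => ib p x) := by
  have h : Measurable (fun p : ℝ × E3 => (p, x)) := measurable_prodMk_right
  have h2 := measurable_ib.comp h
  exact h2

theorem measurable_ib_right (p : ℝ × E3) : Measurable (fun x : E3 => ib p x) := by
  have h : Measurable (fun x : E3 => (p, x)) := measurable_prodMk_left
  have h2 := measurable_ib.comp h
  exact h2

theorem lintegral_bm (μ : ℝ) (f : ℝ × E3 → ℝ≥0∞) (hf : Measurable f) :
    ∫⁻ p, f p ∂(bm μ) = ∫⁻ r in Ioi (0 : ℝ), ENNReal.ofReal (om μ r) * ∫⁻ c : E3, f (r, c) := by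
  unfold bm
  rw [lintegral_prod _ hf.aemeasurable]
  rw [lintegral_withDensity_eq_lintegral_mul₀ (measurable_om μ).ennreal_ofReal.aemeasurable
    hf.lintegral_prod_right'.aemeasurable]
  rfl

theorem lintegral_ib_ib (r : ℝ) (x y : E3) :
    ∫⁻ c : E3, ib (r, c) x * ib (r, c) y = volume (ball x r ∩ ball y r) := by
  rw [← lintegral_indicator_one (measurableSet_ball.inter measurableSet_ball)]
  congr 1
  ext c
  unfold ib
  simp only [indicator, mem_inter_iff, mem_ball, Pi.one_apply]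
  rw [dist_comm x c, dist_comm y c]
  by_cases h1 : dist c x < r <;> by_cases h2 : dist c y < r <;> simp [h1, h2]

/-- The key identity: the exponential is a mixture of ball autocorrelations. -/
theorem mix_exp {μ : ℝ} (hμ : 0 < μ) (x y : E3) :
    ∫⁻ p, ib p x * ib p y ∂(bm μ) = ENNReal.ofReal (Real.exp (-(μ * ‖x - y‖))) := by
  rw [lintegral_bm μ (fun p => ib p x * ib p y) ((measurable_ib_left x).mul (measurable_ib_left y))]
  simp only [lintegral_ib_ib]
  rw [← lintegral_om_lens hμ (norm_nonneg (x - y)), ← lintegral_indicator measurableSet_Ioi,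
    ← lintegral_indicator measurableSet_Ioi]
  apply lintegral_congr_ae
  have : ∀ᵐ r : ℝ, r ≠ ‖x - y‖ / 2 := by
    simp [ae_iff]
  filter_upwards [this] with r hr
  by_cases h0 : r ∈ Ioi (0 : ℝ)
  · rw [indicator_of_mem h0]
    by_cases h1 : r ∈ Ioi (‖x - y‖ / 2)
    · rw [indicator_of_mem h1, volume_lens r x y (by have := h1.out; linarith),
        ← ENNReal.ofReal_mul (om_nonneg hμ h0)]
    · rw [indicator_of_notMem h1, volume_lens_eq_zero r x y ?_, mul_zero]
      have h2 : r ≤ ‖x - y‖ / 2 := not_lt.1 h1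
      have h3 : r < ‖x - y‖ / 2 := lt_of_le_of_ne h2 hr
      linarith
  · rw [indicator_of_notMem h0, indicator_of_notMem]
    intro h1
    exact h0 (lt_of_le_of_lt (by positivity : (0:ℝ) ≤ ‖x - y‖ / 2) h1)

theorem mix_one {μ : ℝ} (hμ : 0 < μ) (x : E3) : ∫⁻ p, ib p x ∂(bm μ) = 1 := by
  have h := mix_exp hμ x x
  rw [sub_self, norm_zero, mul_zero, neg_zero, Real.exp_zero, ENNReal.ofReal_one] at h
  rw [← h]
  congr 1
  ext p
  unfold ib
  by_cases h1 : x ∈ ball p.2 p.1 <;> simp [indicator, h1]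

end Pool.Agent.Lib_helper90c
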