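import Pool.Agent.Lib_helper90c.JLoc

/-!
# Moments of the radial weight
-/

set_option autoImplicit false

open MeasureTheory Set Metric Filter
open scoped ENNReal NNReal Topology

namespace Pool.Agent.Lib_helper90c

theorem integral_pow_exp {b : ℝ} (hb : 0 < b) (j : ℕ) :
    ∫ t in Ioi (0 : ℝ), t ^ j * Real.exp (-(b * t)) = (j.factorial : ℝ) / b ^ (j + 1) := by
  have h := Real.integral_rpow_mul_exp_neg_mul_Ioi (a := (j : ℝ) + 1) (r := b)
    (by positivity) hb
  rw [Real.Gamma_nat_eq_factorial] at h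
  have h2 : (1 / b) ^ ((j : ℝ) + 1) = 1 / b ^ (j + 1) := by
    rw [← Nat.cast_succ, Real.rpow_natCast, one_div, inv_pow, one_div]
  rw [h2] at h
  rw [← mul_one_div, mul_comm, ← h]
  apply setIntegral_congr_fun measurableSet_Ioi
  intro t ht
  simp only [add_sub_cancel_right, Real.rpow_natCast]

theorem integrableOn_pow_exp {b : ℝ} (hb : 0 < b) (j : ℕ) :
    IntegrableOn (fun t : ℝ => t ^ j * Real.exp (-(b * t))) (Ioi 0) := by
  by_contra h
  have h1 := integral_pow_exp hb j
  rw [integral_undef h] at h1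
  have : (0 : ℝ) < (j.factorial : ℝ) / b ^ (j + 1) := by positivity
  linarith

theorem lintegral_pow_exp {b : ℝ} (hb : 0 < b) (j : ℕ) :
    ∫⁻ t in Ioi (0 : ℝ), ENNReal.ofReal (t ^ j * Real.exp (-(b * t))) =
      ENNReal.ofReal ((j.factorial : ℝ) / b ^ (j + 1)) := by
  rw [← integral_pow_exp hb j, ofReal_integral_eq_lintegral_ofReal (integrableOn_pow_exp hb j)]
  rw [EventuallyLE, ae_restrict_iff' measurableSet_Ioi]
  exact Eventually.of_forall fun t ht => mul_nonneg (pow_nonneg (le_of_lt ht) _) (Real.exp_pos _).le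

/-- moment constants -/
noncomputable def mC (j : ℕ) : ℝ := (j.factorial : ℝ) * (j + 2) / (2 ^ (j + 1) * Real.pi)

theorem mC_pos (j : ℕ) : 0 < mC j := by unfold mC; positivity

theorem lintegral_om_pow {κ : ℝ} (hκ : 0 < κ) (j : ℕ) :
    ∫⁻ r in Ioi (0 : ℝ), ENNReal.ofReal (om κ r) * ENNReal.ofReal (r ^ (j + 2)) =
      ENNReal.ofReal (mC j * κ / κ ^ j) := by
  have h1 : ∀ r ∈ Ioi (0 : ℝ), ENNReal.ofReal (om κ r) * ENNReal.ofReal (r ^ (j + 2)) =
      ENNReal.ofReal (2 * κ ^ 3 / Real.pi) *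
        ENNReal.ofReal (r ^ (j + 1) * Real.exp (-((2 * κ) * r))) +
      ENNReal.ofReal (κ ^ 2 / Real.pi) * ENNReal.ofReal (r ^ j * Real.exp (-((2 * κ) * r))) := by
    intro r hr
    have hr0 : 0 < r := hr
    rw [← ENNReal.ofReal_mul (om_nonneg hκ hr0), ← ENNReal.ofReal_mul (by positivity),
      ← ENNReal.ofReal_mul (by positivity), ← ENNReal.ofReal_add (by positivity) (by positivity)]
    congr 1
    unfold om
    have := Real.pi_pos.ne'
    field_simp
    ring
  rw [setLIntegral_congr_fun measurableSet_Ioi h1, lintegral_add_left (by fun_prop),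
    lintegral_const_mul _ (by fun_prop), lintegral_const_mul _ (by fun_prop),
    lintegral_pow_exp (by positivity), lintegral_pow_exp (by positivity),
    ← ENNReal.ofReal_mul (by positivity), ← ENNReal.ofReal_mul (by positivity),
    ← ENNReal.ofReal_add (by positivity) (by positivity)]
  congr 1
  unfold mC
  have := Real.pi_pos.ne'
  rw [Nat.factorial_succ]
  push_cast
  field_simp
  ring

/-- almost every ball of `bm` has positive radius -/
theorem ae_bm_pos (κ : ℝ) : ∀ᵐ b ∂(bm κ), 0 < b.1 := by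
  unfold bm
  have h : ∀ᵐ r ∂((volume.restrict (Ioi (0 : ℝ))).withDensity
      (fun r => ENNReal.ofReal (om κ r))), 0 < r := by
    have h1 : ∀ᵐ r ∂(volume.restrict (Ioi (0 : ℝ))), 0 < r :=
      (ae_restrict_iff' measurableSet_Ioi).2 (Eventually.of_forall fun r hr => hr)
    exact (withDensity_absolutelyContinuous _ _).ae_le h1
  have h2 : ∀ᵐ b ∂(((volume.restrict (Ioi (0 : ℝ))).withDensity
      (fun r => ENNReal.ofReal (om κ r))).prod (volume : Measure E3)), b.1 ∈ {r : ℝ | 0 < r} :=
    Measure.quasiMeasurePreserving_fst.ae h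
  exact h2

end Pool.Agent.Lib_helper90c
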