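import Pool.Agent.Lib_helper90c.Defs

/-!
# Integrating out one particle
-/

set_option autoImplicit false

open MeasureTheory Set Metric Filter
open scoped ENNReal NNReal Topology

namespace Pool.Agent.Lib_helper90c

section
variable {N : ℕ}

theorem lintegral_update_le (i : Fin N) {f g : Conf N → ℝ≥0∞} (hf : Measurable f)
    (hg : Measurable g) (h : ∀ x, ∫⁻ y, f (Function.update x i y) ≤
      ∫⁻ y, g (Function.update x i y)) : ∫⁻ x, f x ≤ ∫⁻ x, g x := by
  rw [volume_pi]
  refine lintegral_le_of_lmarginal_le {i} hf hg ?_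
  intro x
  rw [lmarginal_singleton, lmarginal_singleton]
  exact h x

theorem lintegral_update_eq (i : Fin N) {f g : Conf N → ℝ≥0∞} (hf : Measurable f)
    (hg : Measurable g) (h : ∀ x, ∫⁻ y, f (Function.update x i y) =
      ∫⁻ y, g (Function.update x i y)) : ∫⁻ x, f x = ∫⁻ x, g x :=
  le_antisymm (lintegral_update_le i hf hg fun x => (h x).le)
    (lintegral_update_le i hg hf fun x => (h x).ge)

/-- product of one-particle densities -/
noncomputable def prodD (ρ : E3 → ℝ≥0∞) (x : Conf N) : ℝ≥0∞ := ∏ k, ρ (x k)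

theorem measurable_prodD {ρ : E3 → ℝ≥0∞} (hρ : Measurable ρ) : Measurable (prodD (N := N) ρ) := by
  unfold prodD
  exact Finset.measurable_prod _ fun k _ => hρ.comp (measurable_pi_apply k)

theorem prodD_update (ρ : E3 → ℝ≥0∞) (i : Fin N) (x : Conf N) (y : E3) :
    prodD ρ (Function.update x i y) = ρ y * ∏ k ∈ Finset.univ.erase i, ρ (x k) := by
  unfold prodD
  rw [← Finset.mul_prod_erase Finset.univ _ (Finset.mem_univ i), Function.update_self]
  congr 1
  apply Finset.prod_congr rfl
  intro k hk
  rw [Function.update_of_ne (Finset.ne_of_mem_erase hk)]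

theorem prodD_split (ρ : E3 → ℝ≥0∞) (i : Fin N) (x : Conf N) :
    prodD ρ x = ρ (x i) * ∏ k ∈ Finset.univ.erase i, ρ (x k) := by
  unfold prodD
  rw [← Finset.mul_prod_erase Finset.univ _ (Finset.mem_univ i)]

theorem measurable_update_pair (i : Fin N) :
    Measurable fun q : Conf N × E3 => Function.update q.1 i q.2 := by
  rw [measurable_pi_iff]
  intro k
  by_cases h : k = i
  · subst h
    simp only [Function.update_self]
    exact measurable_snd
  · simp only [Function.update_of_ne h]
    exact (measurable_pi_apply k).comp measurable_fst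

/-- Integrating out particle `i` in a product state. -/
theorem lintegral_prod_one {ρ : E3 → ℝ≥0∞} (hρ : Measurable ρ) (h1 : ∫⁻ y, ρ y = 1) (i : Fin N)
    {f : Conf N → ℝ≥0∞} (hf : Measurable f) :
    ∫⁻ x, f x * prodD ρ x =
      ∫⁻ x, (∫⁻ y, f (Function.update x i y) * ρ y) * prodD ρ x := by
  have hm : Measurable fun x : Conf N => ∫⁻ y, f (Function.update x i y) * ρ y := by
    have h2 : Measurable fun q : Conf N × E3 => f (Function.update q.1 i q.2) * ρ q.2 :=
      (hf.comp (measurable_update_pair i)).mul (hρ.comp measurable_snd)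
    exact h2.lintegral_prod_right'
  refine lintegral_update_eq i (hf.mul (measurable_prodD hρ)) (hm.mul (measurable_prodD hρ))
    fun x => ?_
  simp only [prodD_update, Function.update_idem]
  have e1 : ∀ y, f (Function.update x i y) * (ρ y * ∏ k ∈ Finset.univ.erase i, ρ (x k)) =
      (f (Function.update x i y) * ρ y) * ∏ k ∈ Finset.univ.erase i, ρ (x k) := fun y => by ring
  have hm1 : Measurable fun y => f (Function.update x i y) * ρ y := by
    have h2 : Measurable fun y => Function.update x i y := measurable_update x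
    exact (hf.comp h2).mul hρ
  simp only [e1]
  rw [lintegral_mul_const _ hm1]
  have e2 : ∀ y, (∫⁻ y, f (Function.update x i y) * ρ y) *
      (ρ y * ∏ k ∈ Finset.univ.erase i, ρ (x k)) =
      ρ y * ((∫⁻ y, f (Function.update x i y) * ρ y) * ∏ k ∈ Finset.univ.erase i, ρ (x k)) :=
    fun y => by ring
  simp only [e2]
  rw [lintegral_mul_const _ hρ, h1, one_mul]

theorem lintegral_prodD {ρ : E3 → ℝ≥0∞} (hρ : Measurable ρ) (h1 : ∫⁻ y, ρ y = 1) :
    ∫⁻ x : Conf N, prodD ρ x = 1 := by
  have h : ∀ s : Finset (Fin N), ∫⁻ x : Conf N, prodD ρ x ∂(volume) =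
      ∫⁻ x : Conf N, prodD ρ x := fun s => rfl
  -- use the marginal over all coordinates
  have key : ∀ s : Finset (Fin N), ∀ x : Conf N,
      (lmarginal (fun _ => (volume : Measure E3)) s (prodD ρ)) x =
        ∏ k ∈ Finset.univ \ s, ρ (x k) := by
    intro s
    induction s using Finset.induction_on with
    | empty => intro x; simp [prodD]
    | insert i s hi ih =>
      intro x
      rw [lmarginal_insert _ (measurable_prodD hρ) hi]
      simp only [ih]
      have e1 : ∀ y, ∏ k ∈ Finset.univ \ s, ρ (Function.update x i y k) =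
          ρ y * ∏ k ∈ Finset.univ \ insert i s, ρ (x k) := by
        intro y
        have hmem : i ∈ Finset.univ \ s := by simp [hi]
        rw [← Finset.mul_prod_erase _ _ hmem, Function.update_self]
        congr 1
        have : (Finset.univ \ s).erase i = Finset.univ \ insert i s := by
          ext k; simp [not_or]
        rw [this]
        apply Finset.prod_congr rfl
        intro k hk
        have hki : k ≠ i := by
          intro h; subst h; simp at hk
        rw [Function.update_of_ne hki]
      simp only [e1]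
      rw [lintegral_mul_const _ hρ, h1, one_mul]
  rw [volume_pi, lintegral_eq_lmarginal_univ (0 : Conf N), key]
  simp

/-- one-body expectation in a product state -/
theorem lintegral_prod_eval {ρ : E3 → ℝ≥0∞} (hρ : Measurable ρ) (h1 : ∫⁻ y, ρ y = 1) (i : Fin N)
    {f : E3 → ℝ≥0∞} (hf : Measurable f) :
    ∫⁻ x : Conf N, f (x i) * prodD ρ x = ∫⁻ y, f y * ρ y := by
  rw [lintegral_prod_one hρ h1 i (f := fun x => f (x i)) (hf.comp (measurable_pi_apply i))]
  simp only [Function.update_self]
  rw [lintegral_const_mul _ (measurable_prodD hρ), lintegral_prodD hρ h1, mul_one]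

/-- two-body expectation in a product state -/
theorem lintegral_prod_eval2 {ρ : E3 → ℝ≥0∞} (hρ : Measurable ρ) (h1 : ∫⁻ y, ρ y = 1)
    {i j : Fin N} (hij : i ≠ j) {f : E3 → E3 → ℝ≥0∞} (hf : Measurable (Function.uncurry f)) :
    ∫⁻ x : Conf N, f (x i) (x j) * prodD ρ x = ∫⁻ y', (∫⁻ y, f y y' * ρ y) * ρ y' := by
  have hm : Measurable fun x : Conf N => f (x i) (x j) := by
    have : Measurable fun x : Conf N => (x i, x j) :=
      (measurable_pi_apply i).prodMk (measurable_pi_apply j)
    exact hf.comp this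
  rw [lintegral_prod_one hρ h1 i hm]
  simp only [Function.update_self, Function.update_of_ne hij.symm]
  have hm2 : Measurable fun y' : E3 => ∫⁻ y, f y y' * ρ y := by
    have h2 : Measurable fun q : E3 × E3 => f q.2 q.1 * ρ q.2 :=
      (hf.comp measurable_swap).mul (hρ.comp measurable_snd)
    exact h2.lintegral_prod_right'
  exact lintegral_prod_eval hρ h1 j hm2

/-- Coulomb singularities are integrable for bounded compactly supported densities -/
theorem lintegral_coul_lt_top (i : Fin N) {w : Conf N → ℝ≥0∞} {M ρ0 : ℝ} (hρ0 : 0 < ρ0)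
    (hw : ∀ x, w x ≤ ENNReal.ofReal M * prodD ((ball (0 : E3) ρ0).indicator 1) x)
    (Y : Conf N → E3) (hY : Measurable Y) (hYi : ∀ x y, Y (Function.update x i y) = Y x) :
    ∫⁻ x, ENNReal.ofReal ‖x i - Y x‖⁻¹ * w x < ∞ := by
  set χ : E3 → ℝ≥0∞ := (ball (0 : E3) ρ0).indicator 1 with hχ
  have hχm : Measurable χ := measurable_one.indicator measurableSet_ball
  set v := ENNReal.ofReal (vB ρ0) with hv
  have hvpos : v ≠ 0 := (ENNReal.ofReal_pos.2 (vB_pos hρ0)).ne'
  have hvtop : v ≠ ∞ := ENNReal.ofReal_ne_top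
  -- normalised density
  set ρ : E3 → ℝ≥0∞ := fun y => v⁻¹ * χ y with hρ
  have hρm : Measurable ρ := hχm.const_mul _
  have hρ1 : ∫⁻ y, ρ y = 1 := by
    rw [hρ, lintegral_const_mul _ hχm, hχ, lintegral_indicator_one measurableSet_ball,
      volume_ball_eq 0 hρ0.le, ENNReal.inv_mul_cancel hvpos hvtop]
  have hprod : ∀ x : Conf N, prodD χ x = v ^ N * prodD ρ x := by
    intro x
    unfold prodD
    simp only [hρ]
    rw [Finset.prod_mul_distrib, Finset.prod_const, Finset.card_univ, Fintype.card_fin,
      ← mul_assoc, ← mul_pow, ENNReal.mul_inv_cancel hvpos hvtop, one_pow, one_mul]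
  have hfm : Measurable fun x : Conf N => ENNReal.ofReal ‖x i - Y x‖⁻¹ := by
    have : Measurable fun x : Conf N => x i := measurable_pi_apply i
    exact ((this.sub hY).norm.inv).ennreal_ofReal
  calc ∫⁻ x, ENNReal.ofReal ‖x i - Y x‖⁻¹ * w x
      ≤ ∫⁻ x, (ENNReal.ofReal M * v ^ N) * (ENNReal.ofReal ‖x i - Y x‖⁻¹ * prodD ρ x) := by
        apply lintegral_mono
        intro x
        calc ENNReal.ofReal ‖x i - Y x‖⁻¹ * w x
            ≤ ENNReal.ofReal ‖x i - Y x‖⁻¹ * (ENNReal.ofReal M * prodD χ x) := by
              gcongr; exact hw x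
          _ = (ENNReal.ofReal M * v ^ N) * (ENNReal.ofReal ‖x i - Y x‖⁻¹ * prodD ρ x) := by
              rw [hprod]; ring
    _ = (ENNReal.ofReal M * v ^ N) * ∫⁻ x, ENNReal.ofReal ‖x i - Y x‖⁻¹ * prodD ρ x :=
        lintegral_const_mul _ (hfm.mul (measurable_prodD hρm))
    _ ≤ (ENNReal.ofReal M * v ^ N) * (v⁻¹ * ENNReal.ofReal (2 * Real.pi * ρ0 ^ 2)) := by
        gcongr
        rw [lintegral_prod_one hρm hρ1 i hfm]
        have h2 : ∀ x : Conf N, ∫⁻ y, ENNReal.ofReal ‖Function.update x i y i -
            Y (Function.update x i y)‖⁻¹ * ρ y ≤ v⁻¹ * ENNReal.ofReal (2 * Real.pi * ρ0 ^ 2) := by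
          intro x
          simp only [Function.update_self, hYi, hρ]
          have e : ∀ y : E3, ENNReal.ofReal ‖y - Y x‖⁻¹ * (v⁻¹ * χ y) =
              v⁻¹ * (ball (0 : E3) ρ0).indicator (fun y => ENNReal.ofReal ‖Y x - y‖⁻¹) y := by
            intro y
            by_cases h : y ∈ ball (0 : E3) ρ0
            · rw [hχ, indicator_of_mem h, indicator_of_mem h, norm_sub_rev]
              simp [mul_comm]
            · rw [hχ, indicator_of_notMem h, indicator_of_notMem h]; simp
          simp only [e]
          have hm3 : Measurable fun y : E3 => ENNReal.ofReal ‖Y x - y‖⁻¹ := by fun_prop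
          rw [lintegral_const_mul _ (hm3.indicator measurableSet_ball),
            lintegral_indicator measurableSet_ball, lintegral_ball_inv' 0 _ hρ0.le]
          gcongr
          exact ballPot_le hρ0.le (norm_nonneg _)
        calc ∫⁻ x, (∫⁻ y, ENNReal.ofReal ‖Function.update x i y i -
              Y (Function.update x i y)‖⁻¹ * ρ y) * prodD ρ x
            ≤ ∫⁻ x : Conf N, (v⁻¹ * ENNReal.ofReal (2 * Real.pi * ρ0 ^ 2)) * prodD ρ x := by
              apply lintegral_mono
              intro x
              exact mul_le_mul_left (h2 x) _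
          _ = v⁻¹ * ENNReal.ofReal (2 * Real.pi * ρ0 ^ 2) := by
              rw [lintegral_const_mul _ (measurable_prodD hρm), lintegral_prodD hρm hρ1, mul_one]
    _ < ∞ := by
        refine ENNReal.mul_lt_top (ENNReal.mul_lt_top ENNReal.ofReal_lt_top
          (ENNReal.pow_lt_top hvtop.lt_top)) (ENNReal.mul_lt_top ?_ ENNReal.ofReal_lt_top)
        exact (ENNReal.inv_ne_top.2 hvpos).lt_top

end

end Pool.Agent.Lib_helper90c
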