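import Pool.Agent.Lib_helper90c.Jel

/-!
# Neutralisation by an annulus
-/

set_option autoImplicit false

open MeasureTheory Set Metric Filter
open scoped ENNReal NNReal Topology

namespace Pool.Agent.Lib_helper90c

/-- open annulus (with inner sphere) -/
def ann (r R : ℝ) : Set E3 := ball 0 R \ ball 0 r

theorem measurableSet_ann (r R : ℝ) : MeasurableSet (ann r R) :=
  measurableSet_ball.diff measurableSet_ball

theorem measureReal_ann {r R : ℝ} (hr : 0 ≤ r) (hR : r ≤ R) :
    (volume : Measure E3).real (ann r R) = vB R - vB r := by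
  unfold ann
  rw [measureReal_sdiff (ball_subset_ball hR) measurableSet_ball
    (measure_ball_lt_top (x := (0 : E3)) (r := R)).ne, measureReal_ball 0 (hr.trans hR),
    measureReal_ball 0 hr]

theorem integral_ann_ball {f : E3 → ℝ} {r R : ℝ} (hR : r ≤ R) (hf : IntegrableOn f (ball 0 R)) :
    ∫ x in ann r R, f x = (∫ x in ball 0 R, f x) - ∫ x in ball 0 r, f x := by
  unfold ann
  rw [setIntegral_sdiff measurableSet_ball hf (ball_subset_ball hR)]

theorem integral_ann_inv (x : E3) {r R : ℝ} (hr : 0 ≤ r) (hR : r ≤ R) :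
    ∫ y in ann r R, ‖x - y‖⁻¹ = ballPot R ‖x‖ - ballPot r ‖x‖ := by
  rw [integral_ann_ball hR (integrableOn_ball_inv 0 x R), integral_ball_inv 0 x (hr.trans hR),
    integral_ball_inv 0 x hr, sub_zero]

theorem ballPot_diff_of_le {r R t : ℝ} (hR : r ≤ R) (h : t ≤ r) :
    ballPot R t - ballPot r t = 2 * Real.pi * (R ^ 2 - r ^ 2) := by
  unfold ballPot
  rw [if_pos h, if_pos (h.trans hR)]
  ring

theorem ballPot_diff_le {r R t : ℝ} (hr : 0 ≤ r) (hR : r ≤ R) (ht : 0 ≤ t) :
    ballPot R t - ballPot r t ≤ 2 * Real.pi * (R ^ 2 - r ^ 2) := by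
  have hpi := Real.pi_pos
  rcases le_or_gt t r with h | h
  · rw [ballPot_diff_of_le hR h]
  · have h0 : 0 < t := lt_of_le_of_lt hr h
    unfold ballPot
    rw [if_neg (not_le.2 h)]
    have key : 3 * r ^ 2 * t ≤ t ^ 3 + 2 * r ^ 3 := by
      have : t ^ 3 + 2 * r ^ 3 - 3 * r ^ 2 * t = (t - r) ^ 2 * (t + 2 * r) := by ring
      nlinarith [mul_nonneg (sq_nonneg (t - r)) (by linarith : 0 ≤ t + 2 * r)]
    split_ifs with h2
    · have e : 4 * Real.pi / 3 * r ^ 3 / t = 2 * Real.pi / 3 * (2 * r ^ 3 / t) := by ring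
      have h3 : 3 * r ^ 2 - t ^ 2 ≤ 2 * r ^ 3 / t := by
        rw [le_div_iff₀ h0]; nlinarith
      rw [e]
      nlinarith [mul_le_mul_of_nonneg_left h3 hpi.le]
    · push Not at h2
      have key2 : 2 * R ^ 3 - 3 * R ^ 2 * t ≤ 2 * r ^ 3 - 3 * r ^ 2 * t := by
        have : 2 * R ^ 3 - 3 * R ^ 2 * t - (2 * r ^ 3 - 3 * r ^ 2 * t) =
          (R - r) * (2 * (R ^ 2 + R * r + r ^ 2) - 3 * t * (R + r)) := by ring
        have h4 : 2 * (R ^ 2 + R * r + r ^ 2) - 3 * t * (R + r) ≤ 0 := by nlinarith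
        nlinarith [mul_nonneg (sub_nonneg.2 hR) (neg_nonneg.2 h4)]
      have e : 4 * Real.pi / 3 * R ^ 3 / t - 4 * Real.pi / 3 * r ^ 3 / t =
        2 * Real.pi / 3 * ((2 * R ^ 3 - 2 * r ^ 3) / t) := by ring
      have h3 : (2 * R ^ 3 - 2 * r ^ 3) / t ≤ 3 * (R ^ 2 - r ^ 2) := by
        rw [div_le_iff₀ h0]; nlinarith
      rw [e]
      nlinarith [mul_le_mul_of_nonneg_left h3 hpi.le]

theorem neutral_alg {z m k P a A2 b v s SR Sr rX rp : ℝ} (ha : a = z * m + z * k - v)
    (hb : b = P * v + a * A2) (hk : SR = Sr + k * P * a)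
    (hX : rX ≤ m * (z ^ 2 * (k * P) - z * b) + m * (m - 1) / 2 * z ^ 2 * A2) :
    z ^ 2 * rp - z * SR + (s + a * P * v + a * b) / 2 + rX ≤
      z ^ 2 * rp - z * Sr + s / 2 - P * (z * k - v) ^ 2 + A2 * (z * k - v) ^ 2 / 2 -
        m * z ^ 2 * A2 / 2 := by
  subst hk hb ha
  linear_combination hX

/-- Neutralisation: a configuration in a ball can be completed to a neutral configuration in a
larger ball without increasing the energy. -/
theorem exists_neutral {z : ℝ} {ι : Type} [Fintype ι] (p : ι → E3) (hinj : Function.Injective p)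
    {r R : ℝ} (hr : 0 < r) (hR : r < R) (hp : ∀ i, p i ∈ ball (0 : E3) r) (m : ℕ)
    (hz : z * ((Fintype.card ι : ℝ) + m) = vB R) :
    ∃ X : Fin m → E3, Function.Injective (Sum.elim p X) ∧
      (∀ i, Sum.elim p X i ∈ ball (0 : E3) R) ∧
      jel z R (Sum.elim p X) ≤ jel z r p - (z * Fintype.card ι - vB r) ^ 2 / (2 * R) := by
  have hR0 : 0 < R := hr.trans hR
  have hvlt : vB r < vB R := by
    unfold vB
    have : r ^ 3 < R ^ 3 := pow_lt_pow_left₀ hR hr.le (by norm_num)
    have := Real.pi_pos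
    nlinarith [mul_pos Real.pi_pos (sub_pos.2 ‹r ^ 3 < R ^ 3›)]
  set a := vB R - vB r with ha
  have ha0 : 0 < a := sub_pos.2 hvlt
  have hvolr : (volume : Measure E3).real (ann r R) = a := measureReal_ann hr.le hR.le
  have hvol0 : volume (ann r R) ≠ 0 := by
    intro h
    rw [Measure.real, h, ENNReal.toReal_zero] at hvolr
    linarith
  set ν := (volume (ann r R))⁻¹ • volume.restrict (ann r R) with hν
  have hgood : GoodMeas ν := goodMeas_uniform sdiff_subset hvol0
  have := hgood.prob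
  have hint : ∀ f : E3 → ℝ, ∫ x, f x ∂ν = a⁻¹ * ∫ x in ann r R, f x := by
    intro f
    rw [hν, integral_smul_measure, smul_eq_mul]
    congr 1
    rw [ENNReal.toReal_inv, ← hvolr]
    rfl
  set P := a⁻¹ * (2 * Real.pi * (R ^ 2 - r ^ 2)) with hP
  -- integrability of bounded potentials
  have hbp : ∀ s : ℝ, 0 ≤ s → Integrable (fun x : E3 => ballPot s ‖x‖) ν := by
    intro s hs
    refine Integrable.mono' (integrable_const (2 * Real.pi * s ^ 2))
      ((measurable_ballPot s).comp (by fun_prop)).aestronglyMeasurable ?_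
    exact Eventually.of_forall fun x => by
      rw [Real.norm_eq_abs, abs_of_nonneg (ballPot_nonneg hs (norm_nonneg _))]
      exact ballPot_le hs (norm_nonneg _)
  have hpotx : ∀ y : E3, ∫ x, ‖x - y‖⁻¹ ∂ν = a⁻¹ * (ballPot R ‖y‖ - ballPot r ‖y‖) := by
    intro y
    rw [hint]
    congr 1
    rw [← integral_ann_inv y hr.le hR.le]
    simp only [norm_sub_rev]
  set b := ∫ x, ballPot R ‖x‖ ∂ν with hb
  have hb' : ∫ x, ballPot r ‖x‖ ∂ν = vB r * P := by
    rw [hint]
    have h1 : ∫ x in ann r R, ballPot r ‖x‖ = ∫ x in ann r R, vB r * ‖(0 : E3) - x‖⁻¹ := by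
      apply setIntegral_congr_fun (measurableSet_ann r R)
      intro x hx
      show ballPot r ‖x‖ = vB r * ‖(0 : E3) - x‖⁻¹
      have h2 : r ≤ ‖x‖ := by
        have := hx.2
        simpa using this
      rw [ballPot_of_ge hr h2, zero_sub, norm_neg]
      rfl
    rw [h1, integral_const_mul, integral_ann_inv 0 hr.le hR.le, norm_zero,
      ballPot_diff_of_le hR.le hr.le, hP]
    ring
  set A2 := ∫ y, ∫ x, ‖x - y‖⁻¹ ∂ν ∂ν with hA2
  have hA2' : A2 = a⁻¹ * (b - vB r * P) := by
    rw [hA2]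
    simp only [hpotx]
    rw [integral_const_mul, integral_sub (hbp R hR0.le) (hbp r hr.le), hb']
  have hA2P : A2 ≤ P := by
    rw [hA2]
    have h1 : ∀ y : E3, ∫ x, ‖x - y‖⁻¹ ∂ν ≤ P := by
      intro y
      rw [hpotx, hP]
      exact mul_le_mul_of_nonneg_left (ballPot_diff_le hr.le hR.le (norm_nonneg _))
        (inv_nonneg.2 ha0.le)
    calc ∫ y, ∫ x, ‖x - y‖⁻¹ ∂ν ∂ν ≤ ∫ _y, P ∂ν := integral_mono hgood.pot2 (integrable_const _) h1
      _ = P := by simp
  have hA20 : 0 ≤ A2 := integral_nonneg fun y => integral_nonneg fun x => by positivity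
  have hPR : 1 / R ≤ P := by
    rw [hP, ha]
    unfold vB
    have h1 : 4 * Real.pi / 3 * R ^ 3 - 4 * Real.pi / 3 * r ^ 3 =
      4 * Real.pi / 3 * (R ^ 3 - r ^ 3) := by ring
    rw [h1]
    have h2 : 0 < R ^ 3 - r ^ 3 := sub_pos.2 (pow_lt_pow_left₀ hR hr.le (by norm_num))
    rw [div_le_iff₀ hR0, mul_inv, mul_assoc, mul_assoc]
    have h3 : (4 * Real.pi / 3)⁻¹ * ((R ^ 3 - r ^ 3)⁻¹ * (2 * Real.pi * (R ^ 2 - r ^ 2) * R)) =
      (3 / 2 * (R ^ 2 - r ^ 2) * R) / (R ^ 3 - r ^ 3) := by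
      have := Real.pi_pos.ne'
      field_simp
      ring
    rw [h3, le_div_iff₀ h2, one_mul]
    nlinarith [mul_pos (sub_pos.2 hR) (sub_pos.2 hR), mul_pos hr hR0,
      mul_pos (mul_pos (sub_pos.2 hR) (sub_pos.2 hR)) hR0,
      mul_pos (mul_pos (sub_pos.2 hR) (sub_pos.2 hR)) hr, mul_pos (mul_pos (sub_pos.2 hR) hR0) hr]
  -- self energy relation
  have hself : selfE R = selfE r + a * P * vB r + a * b := by
    have h1 := integral_selfE hR0.le
    have h2 : ∫ x in ann r R, ballPot R ‖x‖ = a * b := by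
      rw [hb, hint, ← mul_assoc, mul_inv_cancel₀ ha0.ne', one_mul]
    have h3 : ∫ x in ball (0 : E3) r, ballPot R ‖x‖ = selfE r + a * P * vB r := by
      have h4 : ∫ x in ball (0 : E3) r, ballPot R ‖x‖ =
          ∫ x in ball (0 : E3) r, (ballPot r ‖x‖ + 2 * Real.pi * (R ^ 2 - r ^ 2)) := by
        apply setIntegral_congr_fun measurableSet_ball
        intro x hx
        show ballPot R ‖x‖ = ballPot r ‖x‖ + 2 * Real.pi * (R ^ 2 - r ^ 2)
        have h5 := ballPot_diff_of_le hR.le (mem_ball_zero_iff.1 hx).le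
        linarith
      have h6 := integrableOn_ballPot 0 0 (s := r) hr.le
      simp only [sub_zero] at h6
      rw [h4, integral_add h6 (by
        have : IsFiniteMeasure ((volume : Measure E3).restrict (ball 0 r)) :=
          ⟨by simpa using (measure_ball_lt_top (x := (0 : E3)) (r := r) (μ := volume))⟩
        exact integrable_const _), integral_selfE hr.le, setIntegral_const,
        measureReal_ball 0 hr.le, smul_eq_mul, hP]
      field_simp
    have h7 := integrableOn_ballPot 0 0 (s := R) hR0.le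
    simp only [sub_zero] at h7
    have h8 := integral_ann_ball hR.le h7
    linarith
  -- the random points
  set G : E3 → ℝ := fun x => z ^ 2 * ∑ i, ‖x - p i‖⁻¹ - z * ballPot R ‖x‖ with hG
  have hGint : Integrable G ν :=
    ((integrable_finsetSum _ fun i _ => hgood.pot (p i)).const_mul _).sub
      ((hbp R hR0.le).const_mul _)
  obtain ⟨X, hXinj, hXN, hXS, hX⟩ := exists_iid hgood z (ann r R)ᶜ
    (by rw [hν, Measure.smul_apply, Measure.restrict_apply (measurableSet_ann r R).compl]; simp)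
    (range p) (finite_range p) m G hGint
  have hXA : ∀ i, X i ∈ ann r R := fun i => not_not.1 (hXN i)
  refine ⟨X, ?_, ?_, ?_⟩
  · rw [Sum.elim_injective]
    refine ⟨hinj, hXinj, fun i j h => hXS j ⟨i, h⟩⟩
  · rintro (i | j)
    · exact ball_subset_ball hR.le (hp i)
    · exact (hXA j).1
  · have hk : (Fintype.card ι : ℝ) * P * a = ∑ i, (ballPot R ‖p i‖ - ballPot r ‖p i‖) := by
      have : ∀ i, ballPot R ‖p i‖ - ballPot r ‖p i‖ = P * a := by
        intro i
        rw [ballPot_diff_of_le hR.le (mem_ball_zero_iff.1 (hp i)).le, hP]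
        field_simp
      simp only [this, Finset.sum_const, Finset.card_univ, nsmul_eq_mul]
      ring
    have hGval : ∫ x, G x ∂ν = z ^ 2 * (Fintype.card ι * P) - z * b := by
      rw [hG, integral_sub ((integrable_finsetSum _ fun i _ => hgood.pot (p i)).const_mul _)
        ((hbp R hR0.le).const_mul _), integral_const_mul, integral_const_mul,
        integral_finsetSum _ fun i _ => hgood.pot (p i)]
      congr 2
      have : ∀ i, ∫ x, ‖x - p i‖⁻¹ ∂ν = P := by
        intro i
        rw [hpotx, ballPot_diff_of_le hR.le (mem_ball_zero_iff.1 (hp i)).le]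
      simp only [this, Finset.sum_const, Finset.card_univ, nsmul_eq_mul]
    rw [hGval] at hX
    have hjel : jel z R (Sum.elim p X) = z ^ 2 * rep p - z * ∑ i, ballPot R ‖p i‖ + selfE R / 2 +
        (z ^ 2 * rep X + ∑ i, G (X i)) := by
      unfold jel
      rw [rep_sumElim, Fintype.sum_sum_type]
      simp only [Sum.elim_inl, Sum.elim_inr, hG, Finset.sum_sub_distrib, ← Finset.mul_sum]
      have : ∑ i, ∑ j, ‖p i - X j‖⁻¹ = ∑ x, ∑ i, ‖X x - p i‖⁻¹ := by
        rw [Finset.sum_comm]; simp only [norm_sub_rev]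
      rw [this]
      ring
    have hb2 : b = P * vB r + a * A2 := by
      rw [hA2']; field_simp; ring
    rw [Finset.sum_sub_distrib] at hk
    have hm : a = z * m + z * (Fintype.card ι : ℝ) - vB r := by
      rw [ha, ← hz]; ring
    set k : ℝ := (Fintype.card ι : ℝ) with hkdef
    set Q := z * k - vB r with hQ
    have hfin : jel z R (Sum.elim p X) ≤ jel z r p - P * Q ^ 2 + A2 * Q ^ 2 / 2 -
        m * z ^ 2 * A2 / 2 := by
      rw [hjel, hself]
      unfold jel
      exact neutral_alg hm hb2 (by linarith) hX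
    have h9 : Q ^ 2 / (2 * R) = (1 / R) * Q ^ 2 / 2 := by field_simp
    rw [h9]
    have h10 : (1 / R) * Q ^ 2 ≤ P * Q ^ 2 := mul_le_mul_of_nonneg_right hPR (sq_nonneg _)
    have h11 : A2 * Q ^ 2 ≤ P * Q ^ 2 := mul_le_mul_of_nonneg_right hA2P (sq_nonneg _)
    have h12 : 0 ≤ m * z ^ 2 * A2 := by positivity
    linarith

end Pool.Agent.Lib_helper90c
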