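import Pool.Agent.Lib_helper90c.LocB

/-!
# Mean-field estimates in one variable
-/

set_option autoImplicit false

open MeasureTheory Set Metric Filter
open scoped ENNReal NNReal Topology

namespace Pool.Agent.Lib_helper90c

theorem two_term {δ : ℝ} (hδ : 0 < δ) (a b : ℂ) :
    ENNReal.ofReal (‖a‖ ^ 2) ≤ ENNReal.ofReal (1 + δ) * ENNReal.ofReal (‖b‖ ^ 2) +
      ENNReal.ofReal (1 + δ⁻¹) * ENNReal.ofReal (‖a - b‖ ^ 2) := by
  rw [← ENNReal.ofReal_mul (by positivity), ← ENNReal.ofReal_mul (by positivity),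
    ← ENNReal.ofReal_add (by positivity) (by positivity)]
  apply ENNReal.ofReal_le_ofReal
  have h1 : ‖a‖ ≤ ‖b‖ + ‖a - b‖ := by
    have := norm_add_le b (a - b)
    rwa [add_sub_cancel] at this
  have h2 : ‖a‖ ^ 2 ≤ (‖b‖ + ‖a - b‖) ^ 2 := pow_le_pow_left₀ (norm_nonneg _) h1 2
  have h3 : (‖b‖ + ‖a - b‖) ^ 2 ≤ (1 + δ) * ‖b‖ ^ 2 + (1 + δ⁻¹) * ‖a - b‖ ^ 2 := by
    have h4 : 0 ≤ (δ * ‖b‖ - ‖a - b‖) ^ 2 / δ := by positivity
    have h5 : (δ * ‖b‖ - ‖a - b‖) ^ 2 / δ =
        δ * ‖b‖ ^ 2 - 2 * ‖b‖ * ‖a - b‖ + δ⁻¹ * ‖a - b‖ ^ 2 := by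
      field_simp
      ring
    nlinarith
  exact h2.trans h3

theorem oneU {f : E3 → ℂ} (hf : Continuous f) {w : E3 → ℝ≥0∞} (hw : Measurable w) (c : E3)
    {r δ : ℝ} (hr : 0 < r) (hδ : 0 < δ) :
    ENNReal.ofReal (vB r) * ∫⁻ x in ball c r, w x * ENNReal.ofReal (‖f x‖ ^ 2) ≤
      ENNReal.ofReal (1 + δ) * ((∫⁻ x in ball c r, w x) *
        ∫⁻ y in ball c r, ENNReal.ofReal (‖f y‖ ^ 2)) +
      ENNReal.ofReal (1 + δ⁻¹) * ∫⁻ x in ball c r, w x *
        ∫⁻ y in ball c r, ENNReal.ofReal (‖f x - f y‖ ^ 2) := by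
  have hv := volume_ball_eq c hr.le
  have hm2 : Measurable fun q : E3 × E3 => ENNReal.ofReal (‖f q.1 - f q.2‖ ^ 2) := by fun_prop
  have hmD : Measurable fun x : E3 => ∫⁻ y in ball c r, ENNReal.ofReal (‖f x - f y‖ ^ 2) :=
    hm2.lintegral_prod_right'
  have hmn : Measurable fun y : E3 => ENNReal.ofReal (‖f y‖ ^ 2) := by fun_prop
  have hwn : Measurable fun x => w x * ENNReal.ofReal (‖f x‖ ^ 2) := hw.mul hmn
  have hwD : Measurable fun x => w x * ∫⁻ y in ball c r, ENNReal.ofReal (‖f x - f y‖ ^ 2) :=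
    hw.mul hmD
  rw [← lintegral_const_mul _ hwn]
  calc ∫⁻ x in ball c r, ENNReal.ofReal (vB r) * (w x * ENNReal.ofReal (‖f x‖ ^ 2))
      = ∫⁻ x in ball c r, w x * ∫⁻ _y in ball c r, ENNReal.ofReal (‖f x‖ ^ 2) := by
        congr 1
        ext x
        rw [setLIntegral_const, hv]; ring
    _ ≤ ∫⁻ x in ball c r, w x * ∫⁻ y in ball c r, (ENNReal.ofReal (1 + δ) *
          ENNReal.ofReal (‖f y‖ ^ 2) + ENNReal.ofReal (1 + δ⁻¹) *
          ENNReal.ofReal (‖f x - f y‖ ^ 2)) := by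
        gcongr with x y
        exact two_term hδ _ _
    _ = ∫⁻ x in ball c r, (w x * (ENNReal.ofReal (1 + δ) *
          ∫⁻ y in ball c r, ENNReal.ofReal (‖f y‖ ^ 2)) + ENNReal.ofReal (1 + δ⁻¹) *
          (w x * ∫⁻ y in ball c r, ENNReal.ofReal (‖f x - f y‖ ^ 2))) := by
        congr 1
        ext x
        rw [lintegral_add_left (by fun_prop), lintegral_const_mul _ hmn,
          lintegral_const_mul _ (by fun_prop)]
        ring
    _ = _ := by
        rw [lintegral_add_left (hw.mul_const _), lintegral_mul_const _ hw,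
          lintegral_const_mul _ hwD]
        ring

theorem oneL {f : E3 → ℂ} (hf : Continuous f) {w : E3 → ℝ≥0∞} (hw : Measurable w) (c : E3)
    {r δ : ℝ} (hr : 0 < r) (hδ : 0 < δ) :
    (∫⁻ x in ball c r, w x) * ∫⁻ y in ball c r, ENNReal.ofReal (‖f y‖ ^ 2) ≤
      ENNReal.ofReal (1 + δ) * (ENNReal.ofReal (vB r) *
        ∫⁻ x in ball c r, w x * ENNReal.ofReal (‖f x‖ ^ 2)) +
      ENNReal.ofReal (1 + δ⁻¹) * ∫⁻ x in ball c r, w x *
        ∫⁻ y in ball c r, ENNReal.ofReal (‖f x - f y‖ ^ 2) := by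
  have hv := volume_ball_eq c hr.le
  have hm2 : Measurable fun q : E3 × E3 => ENNReal.ofReal (‖f q.1 - f q.2‖ ^ 2) := by fun_prop
  have hmD : Measurable fun x : E3 => ∫⁻ y in ball c r, ENNReal.ofReal (‖f x - f y‖ ^ 2) :=
    hm2.lintegral_prod_right'
  have hmn : Measurable fun y : E3 => ENNReal.ofReal (‖f y‖ ^ 2) := by fun_prop
  have hwn : Measurable fun x => w x * ENNReal.ofReal (‖f x‖ ^ 2) := hw.mul hmn
  have hwD : Measurable fun x => w x * ∫⁻ y in ball c r, ENNReal.ofReal (‖f x - f y‖ ^ 2) :=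
    hw.mul hmD
  rw [← lintegral_mul_const _ hw]
  calc ∫⁻ x in ball c r, w x * ∫⁻ y in ball c r, ENNReal.ofReal (‖f y‖ ^ 2)
      ≤ ∫⁻ x in ball c r, w x * ∫⁻ y in ball c r, (ENNReal.ofReal (1 + δ) *
          ENNReal.ofReal (‖f x‖ ^ 2) + ENNReal.ofReal (1 + δ⁻¹) *
          ENNReal.ofReal (‖f x - f y‖ ^ 2)) := by
        gcongr with x y
        have := two_term hδ (f y) (f x)
        rwa [norm_sub_rev (f y)] at this
    _ = ∫⁻ x in ball c r, (ENNReal.ofReal (1 + δ) * ENNReal.ofReal (vB r) *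
          (w x * ENNReal.ofReal (‖f x‖ ^ 2)) + ENNReal.ofReal (1 + δ⁻¹) *
          (w x * ∫⁻ y in ball c r, ENNReal.ofReal (‖f x - f y‖ ^ 2))) := by
        congr 1
        ext x
        rw [lintegral_add_left (by fun_prop), setLIntegral_const, hv,
          lintegral_const_mul _ (by fun_prop)]
        ring
    _ = _ := by
        rw [lintegral_add_left (hwn.const_mul _), lintegral_const_mul _ hwn,
          lintegral_const_mul _ hwD]
        ring

theorem lintegral_ball_inv_swap (c R : E3) {r : ℝ} (hr : 0 ≤ r) :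
    ∫⁻ x in ball c r, ENNReal.ofReal ‖x - R‖⁻¹ = ENNReal.ofReal (ballPot r ‖R - c‖) := by
  rw [← lintegral_ball_inv' c R hr]
  simp only [norm_sub_rev]

theorem oneU_C {f : E3 → ℂ} (hf : ContDiff ℝ 1 f) (c R : E3) {r δ : ℝ} (hr : 0 < r)
    (hδ : 0 < δ) :
    ENNReal.ofReal (vB r) * ∫⁻ x in ball c r, ENNReal.ofReal ‖x - R‖⁻¹ *
        ENNReal.ofReal (‖f x‖ ^ 2) ≤
      ENNReal.ofReal ((1 + δ) * ballPot r ‖R - c‖) *
        (∫⁻ y in ball c r, ENNReal.ofReal (‖f y‖ ^ 2)) +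
      ENNReal.ofReal ((1 + δ⁻¹) * (128 * Real.pi * r ^ 4)) *
        ∫⁻ v in ball c r, ENNReal.ofReal (grad1 f v) := by
  have h1 := oneU hf.continuous (w := fun x => ENNReal.ofReal ‖x - R‖⁻¹) (by fun_prop) c hr hδ
  refine h1.trans ?_
  rw [lintegral_ball_inv_swap c R hr.le, ENNReal.ofReal_mul (by positivity),
    ENNReal.ofReal_mul (by positivity), mul_assoc, mul_assoc]
  gcongr
  exact ball_poinc hf c R hr

theorem oneL_C {f : E3 → ℂ} (hf : ContDiff ℝ 1 f) (c R : E3) {r δ : ℝ} (hr : 0 < r)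
    (hδ : 0 < δ) :
    ENNReal.ofReal (ballPot r ‖R - c‖) * (∫⁻ y in ball c r, ENNReal.ofReal (‖f y‖ ^ 2)) ≤
      ENNReal.ofReal ((1 + δ) * vB r) * (∫⁻ x in ball c r, ENNReal.ofReal ‖x - R‖⁻¹ *
        ENNReal.ofReal (‖f x‖ ^ 2)) +
      ENNReal.ofReal ((1 + δ⁻¹) * (128 * Real.pi * r ^ 4)) *
        ∫⁻ v in ball c r, ENNReal.ofReal (grad1 f v) := by
  have h1 := oneL hf.continuous (w := fun x => ENNReal.ofReal ‖x - R‖⁻¹) (by fun_prop) c hr hδ
  rw [lintegral_ball_inv_swap c R hr.le] at h1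
  refine h1.trans ?_
  rw [ENNReal.ofReal_mul (by positivity), ENNReal.ofReal_mul (by positivity), mul_assoc,
    mul_assoc]
  gcongr
  exact ball_poinc hf c R hr

theorem lintegral_ballPot_ball (c : E3) {r : ℝ} (hr : 0 ≤ r) :
    ∫⁻ x in ball c r, ENNReal.ofReal (ballPot r ‖x - c‖) = ENNReal.ofReal (selfE r) := by
  rw [← lintegral_lintegral_ball_inv c hr]
  simp only [lintegral_ball_inv' c _ hr]

theorem osc_bound {f : E3 → ℂ} (hf : ContDiff ℝ 1 f) (c : E3) {r : ℝ} (hr : 0 < r) :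
    ∫⁻ x in ball c r, ∫⁻ y in ball c r, ENNReal.ofReal (‖f x - f y‖ ^ 2) ≤
      ENNReal.ofReal (256 * Real.pi * r ^ 5) * ∫⁻ v in ball c r, ENNReal.ofReal (grad1 f v) := by
  have hpi := Real.pi_pos
  obtain ⟨u, hu⟩ : ∃ u : E3, ‖u‖ = r := ⟨ax r, norm_ax_of_nonneg hr.le⟩
  set R : E3 := c + u with hR
  have hpt : ∀ x ∈ ball c r, (1 : ℝ≥0∞) ≤ ENNReal.ofReal (2 * r) * ENNReal.ofReal ‖x - R‖⁻¹ := by
    intro x hx
    rw [mem_ball_iff_norm] at hx
    have h1 : 0 < ‖x - R‖ := by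
      have h2 := norm_sub_norm_le (R - c) (x - c)
      have h3 : R - c - (x - c) = -(x - R) := by abel
      have h4 : R - c = u := by rw [hR]; abel
      rw [h3, norm_neg, h4, hu] at h2
      linarith
    have h2 : ‖x - R‖ ≤ 2 * r := by
      have h3 : x - R = (x - c) - u := by rw [hR]; abel
      rw [h3]
      have := norm_sub_le (x - c) u
      linarith
    rw [← ENNReal.ofReal_mul (by positivity)]
    rw [ENNReal.one_le_ofReal, ← div_eq_mul_inv, le_div_iff₀ h1]
    linarith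
  have hm2 : Measurable fun q : E3 × E3 => ENNReal.ofReal (‖f q.1 - f q.2‖ ^ 2) := by
    have := hf.continuous
    fun_prop
  have hmD : Measurable fun x : E3 => ∫⁻ y in ball c r, ENNReal.ofReal (‖f x - f y‖ ^ 2) :=
    hm2.lintegral_prod_right'
  have hmw : Measurable fun x : E3 => ENNReal.ofReal ‖x - R‖⁻¹ := by fun_prop
  calc ∫⁻ x in ball c r, ∫⁻ y in ball c r, ENNReal.ofReal (‖f x - f y‖ ^ 2)
      ≤ ∫⁻ x in ball c r, ENNReal.ofReal (2 * r) * (ENNReal.ofReal ‖x - R‖⁻¹ *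
          ∫⁻ y in ball c r, ENNReal.ofReal (‖f x - f y‖ ^ 2)) := by
        apply setLIntegral_mono' measurableSet_ball
        intro x hx
        rw [← mul_assoc]
        exact le_mul_of_one_le_left' (hpt x hx)
    _ = ENNReal.ofReal (2 * r) * ∫⁻ x in ball c r, ENNReal.ofReal ‖x - R‖⁻¹ *
          ∫⁻ y in ball c r, ENNReal.ofReal (‖f x - f y‖ ^ 2) :=
        lintegral_const_mul _ (hmw.mul hmD)
    _ ≤ ENNReal.ofReal (2 * r) * (ENNReal.ofReal (128 * Real.pi * r ^ 4) *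
          ∫⁻ v in ball c r, ENNReal.ofReal (grad1 f v)) := by
        gcongr
        exact ball_poinc hf c R hr
    _ = _ := by
        rw [← mul_assoc, ← ENNReal.ofReal_mul (by positivity)]
        congr 2
        ring

theorem oneL_phi {f : E3 → ℂ} (hf : ContDiff ℝ 1 f) (c : E3) {r δ : ℝ} (hr : 0 < r)
    (hδ : 0 < δ) :
    ENNReal.ofReal (selfE r) * (∫⁻ y in ball c r, ENNReal.ofReal (‖f y‖ ^ 2)) ≤
      ENNReal.ofReal ((1 + δ) * vB r) * (∫⁻ x in ball c r, ENNReal.ofReal (ballPot r ‖x - c‖) *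
        ENNReal.ofReal (‖f x‖ ^ 2)) +
      ENNReal.ofReal ((1 + δ⁻¹) * (512 * Real.pi ^ 2 * r ^ 7)) *
        ∫⁻ v in ball c r, ENNReal.ofReal (grad1 f v) := by
  have hpi := Real.pi_pos
  have hwm : Measurable fun x : E3 => ENNReal.ofReal (ballPot r ‖x - c‖) :=
    ((measurable_ballPot r).comp (by fun_prop : Measurable fun x : E3 => ‖x - c‖)).ennreal_ofReal
  have h1 := oneL hf.continuous hwm c hr hδ
  rw [lintegral_ballPot_ball c hr.le] at h1
  refine h1.trans ?_
  have hm2 : Measurable fun q : E3 × E3 => ENNReal.ofReal (‖f q.1 - f q.2‖ ^ 2) := by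
    have := hf.continuous
    fun_prop
  have hmD : Measurable fun x : E3 => ∫⁻ y in ball c r, ENNReal.ofReal (‖f x - f y‖ ^ 2) :=
    hm2.lintegral_prod_right'
  rw [ENNReal.ofReal_mul (by positivity), ENNReal.ofReal_mul (by positivity), mul_assoc,
    mul_assoc]
  gcongr
  calc ∫⁻ x in ball c r, ENNReal.ofReal (ballPot r ‖x - c‖) *
        ∫⁻ y in ball c r, ENNReal.ofReal (‖f x - f y‖ ^ 2)
      ≤ ∫⁻ x in ball c r, ENNReal.ofReal (2 * Real.pi * r ^ 2) *
        ∫⁻ y in ball c r, ENNReal.ofReal (‖f x - f y‖ ^ 2) := by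
        gcongr with x
        exact ballPot_le hr.le (norm_nonneg _)
    _ = ENNReal.ofReal (2 * Real.pi * r ^ 2) * ∫⁻ x in ball c r,
        ∫⁻ y in ball c r, ENNReal.ofReal (‖f x - f y‖ ^ 2) := lintegral_const_mul _ hmD
    _ ≤ ENNReal.ofReal (2 * Real.pi * r ^ 2) * (ENNReal.ofReal (256 * Real.pi * r ^ 5) *
        ∫⁻ v in ball c r, ENNReal.ofReal (grad1 f v)) := by
        gcongr
        exact osc_bound hf c hr
    _ = _ := by
        rw [← mul_assoc, ← ENNReal.ofReal_mul (by positivity)]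
        congr 2
        ring

section
variable {N : ℕ}

/-- transfer of one-variable inequalities on the ball to the many-body setting -/
theorem transfer (i : Fin N) (b : ℝ × E3) {A F1 F2 : Conf N → ℝ≥0∞} (hAm : Measurable A)
    (hA : ∀ x, ∃ α, ∀ y ∈ ball b.2 b.1, A (Function.update x i y) = α)
    (h1m : Measurable F1) (h2m : Measurable F2)
    (h : ∀ x, ∫⁻ y in ball b.2 b.1, F1 (Function.update x i y) ≤
      ∫⁻ y in ball b.2 b.1, F2 (Function.update x i y)) :
    ∫⁻ x, ib b (x i) * A x * F1 x ≤ ∫⁻ x, ib b (x i) * A x * F2 x := by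
  have hib := measurable_ib_x b i
  refine lintegral_update_le i ((hib.mul hAm).mul h1m) ((hib.mul hAm).mul h2m) fun x => ?_
  obtain ⟨α, hα⟩ := hA x
  have key : ∀ F : Conf N → ℝ≥0∞, Measurable F →
      ∫⁻ y, ib b (Function.update x i y i) * A (Function.update x i y) *
        F (Function.update x i y) = α * ∫⁻ y in ball b.2 b.1, F (Function.update x i y) := by
    intro F hF
    have hmF : Measurable fun y => F (Function.update x i y) := hF.comp (measurable_update x)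
    rw [← lintegral_const_mul _ hmF, ← lintegral_indicator measurableSet_ball]
    congr 1
    ext y
    rw [Function.update_self]
    unfold ib
    by_cases hy : y ∈ ball b.2 b.1
    · rw [indicator_of_mem hy, indicator_of_mem hy, hα y hy]; simp
    · rw [indicator_of_notMem hy, indicator_of_notMem hy]; simp
  rw [key F1 h1m, key F2 h2m]
  exact mul_le_mul' le_rfl (h x)

theorem contDiff_one {ψ : Conf N → ℂ} (h : ContDiff ℝ (⊤ : ℕ∞) ψ) (x : Conf N) (i : Fin N) :
    ContDiff ℝ 1 (slice ψ x i) := (contDiff_slice h x i).of_le (by exact_mod_cast le_top)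

theorem nbU_C {ψ : Conf N → ℂ} (h : ContDiff ℝ (⊤ : ℕ∞) ψ) (i : Fin N) (b : ℝ × E3)
    (hb : 0 < b.1) {δ : ℝ} (hδ : 0 < δ) {A : Conf N → ℝ≥0∞} (hAm : Measurable A)
    (hA : ∀ x, ∃ α, ∀ y ∈ ball b.2 b.1, A (Function.update x i y) = α)
    {Y : Conf N → E3} (hYm : Measurable Y) (hY : ∀ x y, Y (Function.update x i y) = Y x) :
    ∫⁻ x, ib b (x i) * A x * (ENNReal.ofReal (vB b.1) *
        (ENNReal.ofReal ‖x i - Y x‖⁻¹ * dens ψ x)) ≤
      ∫⁻ x, ib b (x i) * A x * (ENNReal.ofReal ((1 + δ) * ballPot b.1 ‖Y x - b.2‖) * dens ψ x +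
        ENNReal.ofReal ((1 + δ⁻¹) * (128 * Real.pi * b.1 ^ 4)) * kd ψ i x) := by
  have hd := measurable_dens h.continuous
  have hk := measurable_kd h i
  have hdiff : Differentiable ℝ ψ := h.differentiable (by simp)
  have hm1 : Measurable fun x : Conf N => ENNReal.ofReal ‖x i - Y x‖⁻¹ :=
    ((measurable_pi_apply i).sub hYm).norm.inv.ennreal_ofReal
  have hm2 : Measurable fun x : Conf N => ENNReal.ofReal ((1 + δ) * ballPot b.1 ‖Y x - b.2‖) :=
    (((measurable_ballPot b.1).comp (hYm.sub_const _).norm).const_mul _).ennreal_ofReal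
  refine transfer i b hAm hA ((hm1.mul hd).const_mul _)
    ((hm2.mul hd).add (hk.const_mul _)) fun x => ?_
  have hdx : ∀ y, dens ψ (Function.update x i y) = ENNReal.ofReal (‖slice ψ x i y‖ ^ 2) :=
    fun y => rfl
  have hkx : ∀ y, kd ψ i (Function.update x i y) = ENNReal.ofReal (grad1 (slice ψ x i) y) :=
    fun y => by rw [grad1_slice hdiff]; rfl
  simp only [hdx, hkx, Function.update_self, hY]
  have hc := contDiff_one h x i
  have hcc := hc.continuous
  have hg : Continuous (grad1 (slice ψ x i)) := continuous_grad1 (contDiff_slice h x i)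
  rw [lintegral_const_mul _ (by fun_prop), lintegral_add_left (by fun_prop),
    lintegral_const_mul _ (by fun_prop), lintegral_const_mul _ (by fun_prop)]
  exact oneU_C hc b.2 (Y x) hb hδ

theorem nbL_C {ψ : Conf N → ℂ} (h : ContDiff ℝ (⊤ : ℕ∞) ψ) (i : Fin N) (b : ℝ × E3)
    (hb : 0 < b.1) {δ : ℝ} (hδ : 0 < δ) {A : Conf N → ℝ≥0∞} (hAm : Measurable A)
    (hA : ∀ x, ∃ α, ∀ y ∈ ball b.2 b.1, A (Function.update x i y) = α)
    {Y : Conf N → E3} (hYm : Measurable Y) (hY : ∀ x y, Y (Function.update x i y) = Y x) :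
    ∫⁻ x, ib b (x i) * A x * (ENNReal.ofReal (ballPot b.1 ‖Y x - b.2‖) * dens ψ x) ≤
      ∫⁻ x, ib b (x i) * A x * (ENNReal.ofReal ((1 + δ) * vB b.1) *
        (ENNReal.ofReal ‖x i - Y x‖⁻¹ * dens ψ x) +
        ENNReal.ofReal ((1 + δ⁻¹) * (128 * Real.pi * b.1 ^ 4)) * kd ψ i x) := by
  have hd := measurable_dens h.continuous
  have hk := measurable_kd h i
  have hdiff : Differentiable ℝ ψ := h.differentiable (by simp)
  have hm1 : Measurable fun x : Conf N => ENNReal.ofReal ‖x i - Y x‖⁻¹ :=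
    ((measurable_pi_apply i).sub hYm).norm.inv.ennreal_ofReal
  have hm2 : Measurable fun x : Conf N => ENNReal.ofReal (ballPot b.1 ‖Y x - b.2‖) :=
    ((measurable_ballPot b.1).comp (hYm.sub_const _).norm).ennreal_ofReal
  refine transfer i b hAm hA (hm2.mul hd)
    (((hm1.mul hd).const_mul _).add (hk.const_mul _)) fun x => ?_
  have hdx : ∀ y, dens ψ (Function.update x i y) = ENNReal.ofReal (‖slice ψ x i y‖ ^ 2) :=
    fun y => rfl
  have hkx : ∀ y, kd ψ i (Function.update x i y) = ENNReal.ofReal (grad1 (slice ψ x i) y) :=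
    fun y => by rw [grad1_slice hdiff]; rfl
  simp only [hdx, hkx, Function.update_self, hY]
  have hc := contDiff_one h x i
  have hcc := hc.continuous
  have hg : Continuous (grad1 (slice ψ x i)) := continuous_grad1 (contDiff_slice h x i)
  rw [lintegral_const_mul _ (by fun_prop), lintegral_add_left (by fun_prop),
    lintegral_const_mul _ (by fun_prop), lintegral_const_mul _ (by fun_prop)]
  exact oneL_C hc b.2 (Y x) hb hδ

theorem nbL_phi {ψ : Conf N → ℂ} (h : ContDiff ℝ (⊤ : ℕ∞) ψ) (i : Fin N) (b : ℝ × E3)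
    (hb : 0 < b.1) {δ : ℝ} (hδ : 0 < δ) {A : Conf N → ℝ≥0∞} (hAm : Measurable A)
    (hA : ∀ x, ∃ α, ∀ y ∈ ball b.2 b.1, A (Function.update x i y) = α) :
    ∫⁻ x, ib b (x i) * A x * (ENNReal.ofReal (selfE b.1) * dens ψ x) ≤
      ∫⁻ x, ib b (x i) * A x * (ENNReal.ofReal ((1 + δ) * vB b.1) *
        (ENNReal.ofReal (ballPot b.1 ‖x i - b.2‖) * dens ψ x) +
        ENNReal.ofReal ((1 + δ⁻¹) * (512 * Real.pi ^ 2 * b.1 ^ 7)) * kd ψ i x) := by
  have hd := measurable_dens h.continuous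
  have hk := measurable_kd h i
  have hdiff : Differentiable ℝ ψ := h.differentiable (by simp)
  have hm2 : Measurable fun x : Conf N => ENNReal.ofReal (ballPot b.1 ‖x i - b.2‖) :=
    ((measurable_ballPot b.1).comp ((measurable_pi_apply i).sub_const _).norm).ennreal_ofReal
  refine transfer i b hAm hA (hd.const_mul _)
    (((hm2.mul hd).const_mul _).add (hk.const_mul _)) fun x => ?_
  have hdx : ∀ y, dens ψ (Function.update x i y) = ENNReal.ofReal (‖slice ψ x i y‖ ^ 2) :=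
    fun y => rfl
  have hkx : ∀ y, kd ψ i (Function.update x i y) = ENNReal.ofReal (grad1 (slice ψ x i) y) :=
    fun y => by rw [grad1_slice hdiff]; rfl
  simp only [hdx, hkx, Function.update_self]
  have hc := contDiff_one h x i
  have hcc := hc.continuous
  have hg : Continuous (grad1 (slice ψ x i)) := continuous_grad1 (contDiff_slice h x i)
  have hbp : Measurable fun y : E3 => ENNReal.ofReal (ballPot b.1 ‖y - b.2‖) *
      ENNReal.ofReal (‖slice ψ x i y‖ ^ 2) :=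
    (((measurable_ballPot b.1).comp (by fun_prop : Measurable fun y : E3 =>
      ‖y - b.2‖)).ennreal_ofReal).mul (by fun_prop)
  rw [lintegral_const_mul _ (by fun_prop), lintegral_add_left (hbp.const_mul _),
    lintegral_const_mul _ hbp, lintegral_const_mul _ (by fun_prop)]
  exact oneL_phi hc b.2 hb hδ

end

end Pool.Agent.Lib_helper90c
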