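import Pool.Agent.Lib_helper90c.Mix

/-!
# Positive definiteness of the exponential kernel and of `(1 - e^{-κ t}) / t`
-/

set_option autoImplicit false

open MeasureTheory Set Metric Filter
open scoped ENNReal NNReal Topology

namespace Pool.Agent.Lib_helper90c

theorem lintegral_ib (p : ℝ × E3) (ν : Measure E3) : ∫⁻ x, ib p x ∂ν = ν (ball p.2 p.1) := by
  unfold ib
  exact lintegral_indicator_one measurableSet_ball

theorem measurable_ball_measure (ν : Measure E3) [SFinite ν] :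
    Measurable fun p : ℝ × E3 => ν (ball p.2 p.1) := by
  have h : (fun p : ℝ × E3 => ν (ball p.2 p.1)) = fun p => ∫⁻ x, ib p x ∂ν := by
    ext p; rw [lintegral_ib]
  rw [h]
  exact measurable_ib.lintegral_prod_right'

theorem lintegral_bm_measure_mul {μ : ℝ} (hμ : 0 < μ) (ν₁ ν₂ : Measure E3) [SFinite ν₁]
    [SFinite ν₂] :
    ∫⁻ p, ν₁ (ball p.2 p.1) * ν₂ (ball p.2 p.1) ∂(bm μ) =
      ∫⁻ x, ∫⁻ y, ENNReal.ofReal (Real.exp (-(μ * ‖x - y‖))) ∂ν₂ ∂ν₁ := by
  have h1 : ∀ p : ℝ × E3, ν₁ (ball p.2 p.1) * ν₂ (ball p.2 p.1) =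
      ∫⁻ x, ∫⁻ y, ib p x * ib p y ∂ν₂ ∂ν₁ := by
    intro p
    rw [← lintegral_ib, ← lintegral_ib]
    have : ∀ x, ∫⁻ y, ib p x * ib p y ∂ν₂ = ib p x * ∫⁻ y, ib p y ∂ν₂ := fun x =>
      lintegral_const_mul _ (measurable_ib_right p)
    simp only [this]
    rw [lintegral_mul_const _ (measurable_ib_right p)]
  simp only [h1]
  have hm : Measurable fun q : ((ℝ × E3) × E3) × E3 => ib q.1.1 q.1.2 * ib q.1.1 q.2 := by
    have a1 : Measurable fun q : ((ℝ × E3) × E3) × E3 => q.1 := measurable_fst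
    have a2 : Measurable fun q : ((ℝ × E3) × E3) × E3 => (q.1.1, q.2) := by fun_prop
    have b1 := measurable_ib.comp a1
    have b2 := measurable_ib.comp a2
    exact b1.mul b2
  have hm2 : Measurable fun q : (ℝ × E3) × E3 => ∫⁻ y, ib q.1 q.2 * ib q.1 y ∂ν₂ :=
    Measurable.lintegral_prod_right'
      (f := fun q : ((ℝ × E3) × E3) × E3 => ib q.1.1 q.1.2 * ib q.1.1 q.2) hm
  rw [lintegral_lintegral_swap (f := fun p x => ∫⁻ y, ib p x * ib p y ∂ν₂) hm2.aemeasurable]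
  congr 1
  ext x
  rw [lintegral_lintegral_swap (f := fun p y => ib p x * ib p y)]
  swap
  · have a1 : Measurable fun q : (ℝ × E3) × E3 => q.1 := measurable_fst
    have b1 := (measurable_ib_left x).comp a1
    exact (b1.mul measurable_ib).aemeasurable
  congr 1
  ext y
  exact mix_exp hμ x y

theorem lintegral_exp_le (μ : ℝ) (hμ : 0 ≤ μ) (ν₁ ν₂ : Measure E3) :
    ∫⁻ x, ∫⁻ y, ENNReal.ofReal (Real.exp (-(μ * ‖x - y‖))) ∂ν₂ ∂ν₁ ≤ ν₂ univ * ν₁ univ := by
  calc ∫⁻ x, ∫⁻ y, ENNReal.ofReal (Real.exp (-(μ * ‖x - y‖))) ∂ν₂ ∂ν₁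
      ≤ ∫⁻ _x, ∫⁻ _y, 1 ∂ν₂ ∂ν₁ := by
        refine lintegral_mono fun x => lintegral_mono fun y => ?_
        rw [← ENNReal.ofReal_one]
        apply ENNReal.ofReal_le_ofReal
        rw [Real.exp_le_one_iff]
        have := norm_nonneg (x - y)
        nlinarith
    _ = ν₂ univ * ν₁ univ := by simp

theorem integrable_bm_mul {μ : ℝ} (hμ : 0 < μ) (ν₁ ν₂ : Measure E3) [IsFiniteMeasure ν₁]
    [IsFiniteMeasure ν₂] :
    Integrable (fun p : ℝ × E3 => ν₁.real (ball p.2 p.1) * ν₂.real (ball p.2 p.1)) (bm μ) := by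
  refine ⟨((measurable_ball_measure ν₁).ennreal_toReal.mul
    (measurable_ball_measure ν₂).ennreal_toReal).aestronglyMeasurable, ?_⟩
  rw [hasFiniteIntegral_iff_ofReal (Eventually.of_forall fun p => by positivity)]
  have : ∀ p : ℝ × E3, ENNReal.ofReal (ν₁.real (ball p.2 p.1) * ν₂.real (ball p.2 p.1)) =
      ν₁ (ball p.2 p.1) * ν₂ (ball p.2 p.1) := by
    intro p
    rw [ENNReal.ofReal_mul measureReal_nonneg, ofReal_measureReal, ofReal_measureReal]
  simp only [this]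
  rw [lintegral_bm_measure_mul hμ]
  refine lt_of_le_of_lt (lintegral_exp_le μ hμ.le ν₁ ν₂) ?_
  exact ENNReal.mul_lt_top (measure_lt_top _ _) (measure_lt_top _ _)

theorem integral_bm_mul {μ : ℝ} (hμ : 0 < μ) (ν₁ ν₂ : Measure E3) [IsFiniteMeasure ν₁]
    [IsFiniteMeasure ν₂] :
    ∫ p, ν₁.real (ball p.2 p.1) * ν₂.real (ball p.2 p.1) ∂(bm μ) =
      ∫ x, ∫ y, Real.exp (-(μ * ‖x - y‖)) ∂ν₂ ∂ν₁ := by
  rw [integral_eq_lintegral_of_nonneg_ae (Eventually.of_forall fun p => by positivity)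
    (integrable_bm_mul hμ ν₁ ν₂).1]
  have : ∀ p : ℝ × E3, ENNReal.ofReal (ν₁.real (ball p.2 p.1) * ν₂.real (ball p.2 p.1)) =
      ν₁ (ball p.2 p.1) * ν₂ (ball p.2 p.1) := by
    intro p
    rw [ENNReal.ofReal_mul measureReal_nonneg, ofReal_measureReal, ofReal_measureReal]
  simp only [this]
  rw [lintegral_bm_measure_mul hμ]
  have hc : Continuous fun q : E3 × E3 => Real.exp (-(μ * ‖q.1 - q.2‖)) := by fun_prop
  have hb : ∀ x y : E3, Real.exp (-(μ * ‖x - y‖)) ≤ 1 := fun x y => by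
    rw [Real.exp_le_one_iff]; have := norm_nonneg (x - y); nlinarith
  have hin : ∀ x : E3, Integrable (fun y => Real.exp (-(μ * ‖x - y‖))) ν₂ := fun x => by
    refine Integrable.mono' (integrable_const (1 : ℝ))
      (by fun_prop : Continuous fun y => Real.exp (-(μ * ‖x - y‖))).aestronglyMeasurable ?_
    exact Eventually.of_forall fun y => by
      rw [Real.norm_eq_abs, abs_of_pos (Real.exp_pos _)]; exact hb x y
  have h2 : ∀ x : E3, ∫⁻ y, ENNReal.ofReal (Real.exp (-(μ * ‖x - y‖))) ∂ν₂ =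
      ENNReal.ofReal (∫ y, Real.exp (-(μ * ‖x - y‖)) ∂ν₂) := fun x => by
    rw [ofReal_integral_eq_lintegral_ofReal (hin x) (Eventually.of_forall fun y => by positivity)]
  simp only [h2]
  rw [← integral_eq_lintegral_of_nonneg_ae]
  · exact Eventually.of_forall fun x => integral_nonneg fun y => by positivity
  · exact (hc.stronglyMeasurable.integral_prod_right (ν := ν₂)).aestronglyMeasurable

/-- Positive definiteness of the exponential kernel. -/
theorem pd_exp {ι : Type*} [Fintype ι] {μ : ℝ} (hμ : 0 < μ) (q : ι → ℝ) (ν : ι → Measure E3)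
    [∀ i, IsFiniteMeasure (ν i)] :
    0 ≤ ∑ a, ∑ b, q a * q b * ∫ x, ∫ y, Real.exp (-(μ * ‖x - y‖)) ∂(ν b) ∂(ν a) := by
  have h : ∑ a, ∑ b, q a * q b * ∫ x, ∫ y, Real.exp (-(μ * ‖x - y‖)) ∂(ν b) ∂(ν a) =
      ∫ p, (∑ a, q a * (ν a).real (ball p.2 p.1)) ^ 2 ∂(bm μ) := by
    have : ∀ p : ℝ × E3, (∑ a, q a * (ν a).real (ball p.2 p.1)) ^ 2 =
        ∑ a, ∑ b, q a * q b * ((ν a).real (ball p.2 p.1) * (ν b).real (ball p.2 p.1)) := by
      intro p
      rw [sq, Finset.sum_mul_sum]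
      refine Finset.sum_congr rfl fun a _ => Finset.sum_congr rfl fun b _ => by ring
    simp only [this]
    rw [integral_finsetSum _ fun a _ => integrable_finsetSum _ fun b _ =>
      (integrable_bm_mul hμ (ν a) (ν b)).const_mul _]
    refine Finset.sum_congr rfl fun a _ => ?_
    rw [integral_finsetSum _ fun b _ => (integrable_bm_mul hμ (ν a) (ν b)).const_mul _]
    refine Finset.sum_congr rfl fun b _ => ?_
    rw [integral_const_mul, integral_bm_mul hμ]
  rw [h]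
  exact integral_nonneg fun p => sq_nonneg _

/-- `(1 - e^{-κ t}) / t`. -/
noncomputable def wk (κ t : ℝ) : ℝ := if t = 0 then κ else (1 - Real.exp (-(κ * t))) / t

theorem wk_zero (κ : ℝ) : wk κ 0 = κ := if_pos rfl

theorem wk_eq_integral (κ t : ℝ) : wk κ t = ∫ s in (0 : ℝ)..κ, Real.exp (-(s * t)) := by
  unfold wk
  split_ifs with h
  · subst h; simp
  · have h1 := intervalIntegral.integral_eq_sub_of_hasDerivAt (a := 0) (b := κ)
      (f := fun s : ℝ => -(Real.exp (-(s * t))) / t) (f' := fun s : ℝ => Real.exp (-(s * t)))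
      (fun s _ => by
        have h2 := (((((hasDerivAt_id' s).mul_const t).neg).exp).neg).div_const t
        refine h2.congr_deriv ?_
        simp only [Pi.neg_apply]
        field_simp)
      (by apply Continuous.intervalIntegrable; fun_prop)
    rw [h1]
    simp
    ring

theorem wk_nonneg {κ t : ℝ} (hκ : 0 ≤ κ) (_ : 0 ≤ t) : 0 ≤ wk κ t := by
  rw [wk_eq_integral]
  exact intervalIntegral.integral_nonneg hκ fun s _ => (Real.exp_pos _).le

theorem wk_le {κ t : ℝ} (hκ : 0 ≤ κ) (ht : 0 ≤ t) : wk κ t ≤ κ := by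
  rw [wk_eq_integral]
  have : (∫ s in (0 : ℝ)..κ, Real.exp (-(s * t))) ≤ ∫ _s in (0 : ℝ)..κ, (1 : ℝ) := by
    apply intervalIntegral.integral_mono_on hκ
    · apply Continuous.intervalIntegrable; fun_prop
    · simp
    · intro s hs
      rw [Real.exp_le_one_iff]
      nlinarith [hs.1]
  simpa using this

theorem measurable_wk (κ : ℝ) : Measurable (wk κ) := by
  unfold wk
  exact Measurable.ite (measurableSet_singleton 0) measurable_const (by fun_prop)

theorem integral_integral_wk {κ : ℝ} (hκ : 0 ≤ κ) (ν₁ ν₂ : Measure E3) [IsFiniteMeasure ν₁]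
    [IsFiniteMeasure ν₂] :
    ∫ x, ∫ y, wk κ ‖x - y‖ ∂ν₂ ∂ν₁ =
      ∫ s in (0 : ℝ)..κ, ∫ x, ∫ y, Real.exp (-(s * ‖x - y‖)) ∂ν₂ ∂ν₁ := by
  have hc : Continuous fun q : ℝ × (E3 × E3) => Real.exp (-(q.1 * ‖q.2.1 - q.2.2‖)) := by fun_prop
  have hb : ∀ s ∈ Ioc (0 : ℝ) κ, ∀ x y : E3, Real.exp (-(s * ‖x - y‖)) ≤ 1 := fun s hs x y => by
    rw [Real.exp_le_one_iff]; have := norm_nonneg (x - y); nlinarith [hs.1]
  have hint : Integrable (fun q : ℝ × (E3 × E3) => Real.exp (-(q.1 * ‖q.2.1 - q.2.2‖)))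
      ((volume.restrict (Ioc 0 κ)).prod (ν₁.prod ν₂)) := by
    refine Integrable.mono' (integrable_const (1 : ℝ)) hc.aestronglyMeasurable ?_
    have h0 : ∀ᵐ q : ℝ × (E3 × E3) ∂((volume.restrict (Ioc 0 κ)).prod (ν₁.prod ν₂)),
        q.1 ∈ Ioc (0 : ℝ) κ := by
      have := (Measure.quasiMeasurePreserving_fst
        (μ := volume.restrict (Ioc (0:ℝ) κ)) (ν := ν₁.prod ν₂)).ae
        (ae_restrict_mem measurableSet_Ioc)
      exact this
    filter_upwards [h0] with q hq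
    rw [Real.norm_eq_abs, abs_of_pos (Real.exp_pos _)]
    exact hb q.1 hq q.2.1 q.2.2
  have h1 : ∫ x, ∫ y, wk κ ‖x - y‖ ∂ν₂ ∂ν₁ = ∫ z, wk κ ‖z.1 - z.2‖ ∂(ν₁.prod ν₂) := by
    rw [integral_prod (fun z : E3 × E3 => wk κ ‖z.1 - z.2‖)]
    refine Integrable.mono' (integrable_const κ)
      ((measurable_wk κ).comp (by fun_prop)).aestronglyMeasurable ?_
    exact Eventually.of_forall fun z => by
      rw [Real.norm_eq_abs, abs_of_nonneg (wk_nonneg hκ (norm_nonneg _))]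
      exact wk_le hκ (norm_nonneg _)
  rw [h1, intervalIntegral.integral_of_le hκ]
  have h2 : ∀ z : E3 × E3, wk κ ‖z.1 - z.2‖ = ∫ s in Ioc 0 κ, Real.exp (-(s * ‖z.1 - z.2‖)) := by
    intro z
    rw [wk_eq_integral, intervalIntegral.integral_of_le hκ]
  simp only [h2]
  rw [integral_integral_swap (f := fun (z : E3 × E3) (s : ℝ) => Real.exp (-(s * ‖z.1 - z.2‖)))]
  swap
  · exact hint.swap
  apply integral_congr_ae
  filter_upwards [ae_restrict_mem measurableSet_Ioc] with s hs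
  rw [integral_prod (fun z : E3 × E3 => Real.exp (-(s * ‖z.1 - z.2‖)))]
  refine Integrable.mono' (integrable_const (1 : ℝ))
    (by fun_prop : Continuous fun z : E3 × E3 => Real.exp (-(s * ‖z.1 - z.2‖))).aestronglyMeasurable ?_
  exact Eventually.of_forall fun z => by
    rw [Real.norm_eq_abs, abs_of_pos (Real.exp_pos _)]
    exact hb s hs z.1 z.2

theorem continuous_exp_energy (ν₁ ν₂ : Measure E3) [IsFiniteMeasure ν₁] [IsFiniteMeasure ν₂] :
    Measurable (fun s : ℝ => ∫ x, ∫ y, Real.exp (-(s * ‖x - y‖)) ∂ν₂ ∂ν₁) := by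
  have hc : Continuous fun q : (ℝ × E3) × E3 => Real.exp (-(q.1.1 * ‖q.1.2 - q.2‖)) := by fun_prop
  have h1 := hc.stronglyMeasurable.integral_prod_right' (ν := ν₂)
  exact (h1.integral_prod_right' (ν := ν₁)).measurable

/-- Positive definiteness of `wk`. -/
theorem pd_wk {ι : Type*} [Fintype ι] {κ : ℝ} (hκ : 0 ≤ κ) (q : ι → ℝ) (ν : ι → Measure E3)
    [∀ i, IsFiniteMeasure (ν i)] :
    0 ≤ ∑ a, ∑ b, q a * q b * ∫ x, ∫ y, wk κ ‖x - y‖ ∂(ν b) ∂(ν a) := by
  simp only [integral_integral_wk hκ]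
  have hi : ∀ a b, IntervalIntegrable
      (fun s : ℝ => ∫ x, ∫ y, Real.exp (-(s * ‖x - y‖)) ∂(ν b) ∂(ν a)) volume 0 κ := by
    intro a b
    rw [intervalIntegrable_iff_integrableOn_Ioc_of_le hκ]
    refine Measure.integrableOn_of_bounded (M := (ν b).real univ * (ν a).real univ) (by simp)
      (continuous_exp_energy (ν a) (ν b)).aestronglyMeasurable ?_
    filter_upwards [ae_restrict_mem measurableSet_Ioc] with s hs
    have hb : ∀ x y : E3, ‖Real.exp (-(s * ‖x - y‖))‖ ≤ 1 := fun x y => by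
      rw [Real.norm_eq_abs, abs_of_pos (Real.exp_pos _), Real.exp_le_one_iff]
      have := norm_nonneg (x - y); nlinarith [hs.1]
    refine norm_integral_le_of_norm_le_const (C := 1 * (ν b).real univ)
      (Eventually.of_forall fun x => ?_) |>.trans (by rw [one_mul])
    exact norm_integral_le_of_norm_le_const (Eventually.of_forall fun y => hb x y)
  have hi' : ∀ a b, IntegrableOn
      (fun s : ℝ => ∫ x, ∫ y, Real.exp (-(s * ‖x - y‖)) ∂(ν b) ∂(ν a)) (Ioc 0 κ) := fun a b =>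
    (intervalIntegrable_iff_integrableOn_Ioc_of_le hκ).1 (hi a b)
  have h : ∑ a, ∑ b, q a * q b * ∫ s in (0 : ℝ)..κ,
        (∫ x, ∫ y, Real.exp (-(s * ‖x - y‖)) ∂(ν b) ∂(ν a)) =
      ∫ s in Ioc 0 κ, ∑ a, ∑ b, q a * q b *
        ∫ x, ∫ y, Real.exp (-(s * ‖x - y‖)) ∂(ν b) ∂(ν a) := by
    rw [integral_finsetSum _ fun a _ => integrable_finsetSum _ fun b _ => (hi' a b).const_mul _]
    refine Finset.sum_congr rfl fun a _ => ?_
    rw [integral_finsetSum _ fun b _ => (hi' a b).const_mul _]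
    refine Finset.sum_congr rfl fun b _ => ?_
    rw [integral_const_mul, intervalIntegral.integral_of_le hκ]
  rw [h]
  apply integral_nonneg_of_ae
  filter_upwards [ae_restrict_mem measurableSet_Ioc] with s hs
  exact pd_exp hs.1 q ν

/-- Positive definiteness of `wk` for point charges. -/
theorem pd_wk_points {ι : Type*} [Fintype ι] {κ : ℝ} (hκ : 0 ≤ κ) (q : ι → ℝ) (x : ι → E3) :
    0 ≤ ∑ a, ∑ b, q a * q b * wk κ ‖x a - x b‖ := by
  have h := pd_wk hκ q (fun i => Measure.dirac (x i))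
  simpa using h

end Pool.Agent.Lib_helper90c
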