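import Pool.Agent.Lib_helper90c.Iid

/-!
# Packing the support of a continuous density by balls
-/

set_option autoImplicit false

open MeasureTheory Set Metric Filter
open scoped ENNReal NNReal Topology

namespace Pool.Agent.Lib_helper90c

theorem integrable_rpow_of_compact {μ : E3 → ℝ} (hc : Continuous μ) (_h0 : ∀ x, 0 ≤ μ x)
    (hs : HasCompactSupport μ) {p : ℝ} (hp : 0 < p) : Integrable (fun x => μ x ^ p) := by
  apply Continuous.integrable_of_hasCompactSupport
  · exact hc.rpow_const (fun x => Or.inr hp.le)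
  · have : (fun x => μ x ^ p) = (fun t : ℝ => t ^ p) ∘ μ := rfl
    rw [this]
    exact hs.comp_left (Real.zero_rpow hp.ne')

theorem volume_closedBall_eq (c : E3) {r : ℝ} (hr : 0 ≤ r) :
    volume (closedBall c r) = ENNReal.ofReal (vB r) := by
  rw [Measure.addHaar_closedBall_eq_addHaar_ball, volume_ball_eq c hr]

theorem packing {μ : E3 → ℝ} (hc : Continuous μ) (h0 : ∀ x, 0 ≤ μ x)
    (hs : HasCompactSupport μ) {ε : ℝ} (hε : 0 < ε) :
    ∃ (s : Finset E3) (r a : E3 → ℝ), (∀ x ∈ s, 0 < r x) ∧ (∀ x ∈ s, 0 < a x) ∧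
      (∀ x ∈ s, ∀ y ∈ closedBall x (r x), a x ≤ μ y) ∧
      (s : Set E3).PairwiseDisjoint (fun x => closedBall x (r x)) ∧
      (∫ x, μ x ^ (4 / 3 : ℝ)) - ε ≤ ∑ x ∈ s, a x ^ (4 / 3 : ℝ) * vB (r x) := by
  set G := ∫ x, μ x ^ (4 / 3 : ℝ) with hG
  have hG0 : 0 ≤ G := integral_nonneg fun x => Real.rpow_nonneg (h0 x) _
  have hint := integrable_rpow_of_compact hc h0 hs (p := 4 / 3) (by norm_num)
  -- choice of `δ`
  obtain ⟨δ, hδ0, hδ1, hδ⟩ : ∃ δ : ℝ, 0 < δ ∧ δ < 1 ∧
      G - ε < ((1 - δ) / (1 + δ)) ^ (4 / 3 : ℝ) * G := by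
    have h1 : Tendsto (fun δ : ℝ => ((1 - δ) / (1 + δ)) ^ (4 / 3 : ℝ) * G) (𝓝[>] 0)
        (𝓝 (((1 - 0) / (1 + 0)) ^ (4 / 3 : ℝ) * G)) := by
      have hca : ContinuousAt (fun δ : ℝ => ((1 - δ) / (1 + δ)) ^ (4 / 3 : ℝ) * G) 0 := by
        apply ContinuousAt.mul _ continuousAt_const
        apply ContinuousAt.rpow_const _ (Or.inr (by norm_num))
        apply ContinuousAt.div (by fun_prop) (by fun_prop) (by norm_num)
      exact hca.tendsto.mono_left nhdsWithin_le_nhds
    have h2 := h1.eventually (lt_mem_nhds (show G - ε <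
      ((1 - 0) / (1 + 0)) ^ (4 / 3 : ℝ) * G by norm_num; exact hε))
    obtain ⟨δ, hδ, hδ'⟩ := (h2.and (Ioo_mem_nhdsGT (show (0 : ℝ) < 1 by norm_num))).exists
    exact ⟨δ, hδ'.1, hδ'.2, hδ⟩
  set Ω : Set E3 := {x | 0 < μ x} with hΩ
  have hR : ∀ x ∈ Ω, ∃ R : ℝ, 0 < R ∧ ∀ y ∈ closedBall x R, (1 - δ) * μ x ≤ μ y ∧
      μ y ≤ (1 + δ) * μ x := by
    intro x hx
    have hx0 : 0 < μ x := hx
    have h1 : ∀ᶠ y in 𝓝 x, (1 - δ) * μ x < μ y :=
      hc.continuousAt.eventually (lt_mem_nhds (by nlinarith))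
    have h2 : ∀ᶠ y in 𝓝 x, μ y < (1 + δ) * μ x :=
      hc.continuousAt.eventually (gt_mem_nhds (by nlinarith))
    obtain ⟨R, hR, hball⟩ := Metric.eventually_nhds_iff.1 (h1.and h2)
    refine ⟨R / 2, by linarith, fun y hy => ?_⟩
    have h3 := hball (y := y) (lt_of_le_of_lt (mem_closedBall.1 hy) (by linarith))
    exact ⟨h3.1.le, h3.2.le⟩
  choose! R hR0 hRb using hR
  obtain ⟨t, r, htc, hts, hr, hcov, hdisj⟩ := Besicovitch.exists_disjoint_closedBall_covering_ae
    (volume : Measure E3) (fun _ => univ) Ω (fun x _ δ hδ => ⟨δ / 2, by simp; linarith⟩) R hR0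
  have hr0 : ∀ x ∈ t, 0 < r x := fun x hx => (hr x hx).2.1
  have hrb : ∀ x ∈ t, ∀ y ∈ closedBall x (r x), (1 - δ) * μ x ≤ μ y ∧ μ y ≤ (1 + δ) * μ x :=
    fun x hx y hy => hRb x (hts hx) y (closedBall_subset_closedBall (hr x hx).2.2.le hy)
  set a : E3 → ℝ := fun x => (1 - δ) * μ x with ha
  set q : ℝ := ((1 + δ) / (1 - δ)) ^ (4 / 3 : ℝ) with hq
  have h1δ : 0 < 1 - δ := by linarith
  have hq0 : 0 < q := by positivity
  -- the integral is controlled by the sum
  have hmain : ENNReal.ofReal G ≤ ENNReal.ofReal q *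
      ∑' x : t, ENNReal.ofReal (a x ^ (4 / 3 : ℝ) * vB (r x)) := by
    rw [hG, ofReal_integral_eq_lintegral_ofReal hint
      (Eventually.of_forall fun x => Real.rpow_nonneg (h0 x) _)]
    have hsupp : ∫⁻ x, ENNReal.ofReal (μ x ^ (4 / 3 : ℝ)) =
        ∫⁻ x in Ω, ENNReal.ofReal (μ x ^ (4 / 3 : ℝ)) := by
      rw [setLIntegral_eq_of_support_subset]
      intro x hx
      by_contra h
      apply hx
      have : μ x = 0 := le_antisymm (not_lt.1 h) (h0 x)
      simp [this]
    rw [hsupp]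
    calc ∫⁻ x in Ω, ENNReal.ofReal (μ x ^ (4 / 3 : ℝ))
        ≤ ∫⁻ x in (⋃ x ∈ t, closedBall x (r x)), ENNReal.ofReal (μ x ^ (4 / 3 : ℝ)) := by
          apply lintegral_mono_set'
          rw [ae_le_set]
          exact hcov
      _ = ∑' x : t, ∫⁻ y in closedBall (x : E3) (r x), ENNReal.ofReal (μ y ^ (4 / 3 : ℝ)) := by
          rw [lintegral_biUnion htc (fun x _ => measurableSet_closedBall) hdisj]
      _ ≤ ∑' x : t, ENNReal.ofReal q * ENNReal.ofReal (a x ^ (4 / 3 : ℝ) * vB (r x)) := by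
          apply ENNReal.tsum_le_tsum
          intro x
          have hx0 : 0 < μ x := hts x.2
          have e1 : ((1 + δ) * μ x) ^ (4 / 3 : ℝ) = q * a x ^ (4 / 3 : ℝ) := by
            rw [hq, ha, ← Real.mul_rpow (by positivity) (by positivity)]
            congr 1
            field_simp
          calc ∫⁻ y in closedBall (x : E3) (r x), ENNReal.ofReal (μ y ^ (4 / 3 : ℝ))
              ≤ ∫⁻ _y in closedBall (x : E3) (r x), ENNReal.ofReal (q * a x ^ (4 / 3 : ℝ)) := by
                apply setLIntegral_mono' measurableSet_closedBall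
                intro y hy
                apply ENNReal.ofReal_le_ofReal
                rw [← e1]
                exact Real.rpow_le_rpow (h0 y) (hrb x x.2 y hy).2 (by norm_num)
            _ = ENNReal.ofReal q * ENNReal.ofReal (a x ^ (4 / 3 : ℝ) * vB (r x)) := by
                rw [setLIntegral_const, volume_closedBall_eq _ (hr0 x x.2).le,
                  ← ENNReal.ofReal_mul (by positivity), ← ENNReal.ofReal_mul hq0.le]
                congr 1; ring
      _ = _ := ENNReal.tsum_mul_left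
  -- extract a finite family
  by_cases hneg : G - ε < 0
  · exact ⟨∅, r, a, by simp, by simp, by simp, by simp, by simp; linarith⟩
  · push Not at hneg
    have hlt : ENNReal.ofReal (G - ε) <
        ∑' x : t, ENNReal.ofReal (a x ^ (4 / 3 : ℝ) * vB (r x)) := by
      by_contra hcon
      push Not at hcon
      have h3 : ENNReal.ofReal G ≤ ENNReal.ofReal (q * (G - ε)) := by
        rw [ENNReal.ofReal_mul hq0.le]
        exact hmain.trans (by gcongr)
      rw [ENNReal.ofReal_le_ofReal_iff (mul_nonneg hq0.le hneg)] at h3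
      have h4 : q * (G - ε) < q * (((1 - δ) / (1 + δ)) ^ (4 / 3 : ℝ) * G) :=
        mul_lt_mul_of_pos_left hδ hq0
      have h5 : q * (((1 - δ) / (1 + δ)) ^ (4 / 3 : ℝ) * G) = G := by
        rw [hq, ← mul_assoc, ← Real.mul_rpow (by positivity) (by positivity)]
        have : (1 + δ) / (1 - δ) * ((1 - δ) / (1 + δ)) = 1 := by
          field_simp
        rw [this, Real.one_rpow, one_mul]
      linarith
    rw [ENNReal.tsum_eq_iSup_sum, lt_iSup_iff] at hlt
    obtain ⟨u, hu⟩ := hlt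
    classical
    refine ⟨u.map (Function.Embedding.subtype _), r, a, ?_, ?_, ?_, ?_, ?_⟩
    · intro x hx
      simp only [Finset.mem_map, Function.Embedding.subtype_apply] at hx
      obtain ⟨y, -, rfl⟩ := hx
      exact hr0 y y.2
    · intro x hx
      simp only [Finset.mem_map, Function.Embedding.subtype_apply] at hx
      obtain ⟨y, -, rfl⟩ := hx
      exact mul_pos h1δ (hts y.2)
    · intro x hx
      simp only [Finset.mem_map, Function.Embedding.subtype_apply] at hx
      obtain ⟨y, -, rfl⟩ := hx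
      intro w hw
      exact (hrb y y.2 w hw).1
    · intro x hx y hy hxy
      simp only [Finset.coe_map, Set.mem_image, Finset.mem_coe,
        Function.Embedding.subtype_apply] at hx hy
      obtain ⟨x', -, rfl⟩ := hx
      obtain ⟨y', -, rfl⟩ := hy
      exact hdisj x'.2 y'.2 hxy
    · rw [Finset.sum_map]
      simp only [Function.Embedding.subtype_apply]
      have hnn : ∀ x ∈ u, 0 ≤ a x ^ (4 / 3 : ℝ) * vB (r x) := fun x _ =>
        mul_nonneg (Real.rpow_nonneg (mul_pos h1δ (hts x.2)).le _) (vB_nonneg (hr0 x x.2).le)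
      rw [← ENNReal.ofReal_sum_of_nonneg hnn,
        ENNReal.ofReal_lt_ofReal_iff_of_nonneg hneg] at hu
      exact hu.le

end Pool.Agent.Lib_helper90c
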