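import Pool.Agent.Lib_helper90c.PD

/-!
# Potentials of balls: real valued versions
-/

set_option autoImplicit false

open MeasureTheory Set Metric Filter
open scoped ENNReal NNReal Topology

namespace Pool.Agent.Lib_helper90c

/-- volume of a ball -/
noncomputable def vB (r : ℝ) : ℝ := 4 * Real.pi / 3 * r ^ 3

theorem vB_pos {r : ℝ} (hr : 0 < r) : 0 < vB r := by unfold vB; positivity
theorem vB_nonneg {r : ℝ} (hr : 0 ≤ r) : 0 ≤ vB r := by unfold vB; positivity

theorem volume_ball_eq (c : E3) {r : ℝ} (hr : 0 ≤ r) :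
    volume (ball c r) = ENNReal.ofReal (vB r) := by
  rw [EuclideanSpace.volume_ball_fin_three, ← ENNReal.ofReal_pow hr,
    ← ENNReal.ofReal_mul (by positivity)]
  congr 1
  unfold vB; ring

theorem measureReal_ball (c : E3) {r : ℝ} (hr : 0 ≤ r) :
    (volume : Measure E3).real (ball c r) = vB r := by
  rw [Measure.real, volume_ball_eq c hr, ENNReal.toReal_ofReal (vB_nonneg hr)]

theorem ballPot_nonneg {r t : ℝ} (hr : 0 ≤ r) (ht : 0 ≤ t) : 0 ≤ ballPot r t := by
  unfold ballPot
  split_ifs with h
  · have := Real.pi_pos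
    nlinarith [mul_nonneg Real.pi_pos.le (mul_nonneg (sub_nonneg.2 h) (add_nonneg hr ht)),
      mul_nonneg Real.pi_pos.le (sq_nonneg r)]
  · positivity

theorem ballPot_le {r t : ℝ} (hr : 0 ≤ r) (ht : 0 ≤ t) : ballPot r t ≤ 2 * Real.pi * r ^ 2 := by
  unfold ballPot
  split_ifs with h
  · have := Real.pi_pos; nlinarith [mul_nonneg Real.pi_pos.le (sq_nonneg t)]
  · push Not at h
    have h1 : 0 < t := lt_of_le_of_lt hr h
    rw [div_le_iff₀ h1]
    have : r ^ 3 ≤ r ^ 2 * t := by nlinarith [sq_nonneg r]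
    nlinarith [Real.pi_pos, mul_nonneg Real.pi_pos.le (sub_nonneg.2 this),
      mul_nonneg Real.pi_pos.le (mul_nonneg (sq_nonneg r) ht)]

theorem ballPot_of_ge {r t : ℝ} (hr : 0 < r) (h : r ≤ t) : ballPot r t = vB r / t := by
  unfold ballPot vB
  split_ifs with h'
  · have : t = r := le_antisymm h' h
    subst this
    field_simp
    ring
  · ring

theorem measurable_ballPot (r : ℝ) : Measurable (ballPot r) := by
  unfold ballPot
  exact Measurable.ite measurableSet_Iic (by fun_prop) (by fun_prop)

theorem ballPot_scale {s r t : ℝ} (hs : 0 < s) : ballPot (s * r) (s * t) = s ^ 2 * ballPot r t := by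
  unfold ballPot
  have : s * t ≤ s * r ↔ t ≤ r := mul_le_mul_iff_right₀ hs
  simp only [this]
  split_ifs with h
  · ring
  · by_cases ht : t = 0
    · subst ht; simp
    · field_simp

/-- Newton's theorem for a ball centred at `c`. -/
theorem lintegral_ball_inv' (c x : E3) {r : ℝ} (hr : 0 ≤ r) :
    ∫⁻ y in ball c r, ENNReal.ofReal ‖x - y‖⁻¹ = ENNReal.ofReal (ballPot r ‖x - c‖) := by
  rw [← lintegral_ball_inv r hr (x - c)]
  have h := (measurePreserving_add_right (volume : Measure E3) c)
  rw [← lintegral_indicator measurableSet_ball, ← lintegral_indicator measurableSet_ball,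
    ← h.lintegral_comp ((by fun_prop : Measurable fun y : E3 => ENNReal.ofReal ‖x - y‖⁻¹).indicator
      measurableSet_ball)]
  congr 1
  ext y
  have h1 : y + c ∈ ball c r ↔ y ∈ ball (0 : E3) r := by
    simp [mem_ball_iff_norm]
  have h2 : x - (y + c) = x - c - y := by abel
  by_cases hy : y ∈ ball (0 : E3) r
  · rw [indicator_of_mem hy, indicator_of_mem (h1.2 hy), h2]
  · rw [indicator_of_notMem hy, indicator_of_notMem (fun h => hy (h1.1 h))]

theorem integrableOn_ball_inv (c x : E3) (r : ℝ) :
    IntegrableOn (fun y : E3 => ‖x - y‖⁻¹) (ball c r) := by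
  rcases le_or_gt 0 r with hr | hr
  · refine ⟨(by fun_prop : Measurable fun y : E3 => ‖x - y‖⁻¹).aestronglyMeasurable, ?_⟩
    rw [hasFiniteIntegral_iff_ofReal (Eventually.of_forall fun y => by positivity),
      lintegral_ball_inv' c x hr]
    exact ENNReal.ofReal_lt_top
  · rw [ball_eq_empty.2 hr.le]; exact integrableOn_empty

theorem integral_ball_inv (c x : E3) {r : ℝ} (hr : 0 ≤ r) :
    ∫ y in ball c r, ‖x - y‖⁻¹ = ballPot r ‖x - c‖ := by
  rw [integral_eq_lintegral_of_nonneg_ae (Eventually.of_forall fun y => by positivity)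
    (integrableOn_ball_inv c x r).1, lintegral_ball_inv' c x hr,
    ENNReal.toReal_ofReal (ballPot_nonneg hr (norm_nonneg _))]

/-- Coulomb self interaction of the uniform unit charge density on a ball (double integral). -/
noncomputable def selfE (r : ℝ) : ℝ := 32 * Real.pi ^ 2 / 15 * r ^ 5

theorem selfE_nonneg {r : ℝ} (hr : 0 ≤ r) : 0 ≤ selfE r := by unfold selfE; positivity

theorem integrableOn_ballPot (c d : E3) {r s : ℝ} (hr : 0 ≤ r) :
    IntegrableOn (fun x : E3 => ballPot r ‖x - c‖) (ball d s) := by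
  refine Measure.integrableOn_of_bounded (M := 2 * Real.pi * r ^ 2)
    (by exact (measure_ball_lt_top (x := d) (r := s)).ne) ?_ ?_
  · exact ((measurable_ballPot r).comp (by fun_prop)).aestronglyMeasurable
  · exact Eventually.of_forall fun x => by
      rw [Real.norm_eq_abs, abs_of_nonneg (ballPot_nonneg hr (norm_nonneg _))]
      exact ballPot_le hr (norm_nonneg _)

theorem integral_selfE {r : ℝ} (hr : 0 ≤ r) :
    ∫ x in ball (0 : E3) r, ballPot r ‖x‖ = selfE r := by
  have h1 : ∫ x in ball (0 : E3) r, ballPot r ‖x‖ =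
      ∫ x : E3, (fun y : ℝ => (Iio r).indicator
        (fun y => 2 * Real.pi * r ^ 2 - 2 * Real.pi / 3 * y ^ 2) y) ‖x‖ := by
    rw [← integral_indicator measurableSet_ball]
    congr 1
    ext x
    by_cases hx : ‖x‖ < r
    · rw [indicator_of_mem (mem_ball_zero_iff.2 hx)]
      simp only [indicator, mem_Iio, hx, if_true]
      unfold ballPot
      rw [if_pos hx.le]
    · rw [indicator_of_notMem (fun h => hx (mem_ball_zero_iff.1 h))]
      simp only [indicator, mem_Iio, hx, if_false]
  rw [h1, integral_fun_norm_addHaar]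
  have hd : Module.finrank ℝ E3 = 3 := by simp
  rw [hd]
  have h2 : ∫ y in Ioi (0 : ℝ), y ^ (3 - 1) • (Iio r).indicator
        (fun y => 2 * Real.pi * r ^ 2 - 2 * Real.pi / 3 * y ^ 2) y =
      ∫ y in (0 : ℝ)..r, y ^ 2 * (2 * Real.pi * r ^ 2 - 2 * Real.pi / 3 * y ^ 2) := by
    rw [intervalIntegral.integral_of_le hr, integral_Ioc_eq_integral_Ioo,
      ← integral_indicator measurableSet_Ioi, ← integral_indicator measurableSet_Ioo]
    congr 1
    ext y
    by_cases h0 : 0 < y <;> by_cases h1 : y < r <;> simp [indicator, h0, h1]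
  have h3 := intervalIntegral.integral_eq_sub_of_hasDerivAt (a := 0) (b := r)
    (f := fun y : ℝ => 2 * Real.pi * r ^ 2 * (y ^ 3 / 3) - 2 * Real.pi / 3 * (y ^ 5 / 5))
    (f' := fun y : ℝ => y ^ 2 * (2 * Real.pi * r ^ 2 - 2 * Real.pi / 3 * y ^ 2))
    (fun y _ => by
      have h5 := ((((hasDerivAt_id' y).pow 3).div_const 3).const_mul (2 * Real.pi * r ^ 2)).sub
        ((((hasDerivAt_id' y).pow 5).div_const 5).const_mul (2 * Real.pi / 3))
      refine h5.congr_deriv ?_
      norm_num
      ring)
    (by apply Continuous.intervalIntegrable; fun_prop)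
  rw [h2, h3, measureReal_ball 0 zero_le_one]
  unfold vB selfE
  simp
  ring

theorem lintegral_lintegral_ball_inv (c : E3) {r : ℝ} (hr : 0 ≤ r) :
    ∫⁻ x in ball c r, ∫⁻ y in ball c r, ENNReal.ofReal ‖x - y‖⁻¹ = ENNReal.ofReal (selfE r) := by
  simp only [lintegral_ball_inv' c _ hr]
  have h := (measurePreserving_add_right (volume : Measure E3) c)
  have hm : Measurable fun x : E3 => ENNReal.ofReal (ballPot r ‖x - c‖) :=
    ((measurable_ballPot r).comp (by fun_prop)).ennreal_ofReal
  rw [← lintegral_indicator measurableSet_ball, ← h.lintegral_comp (hm.indicator measurableSet_ball)]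
  rw [← integral_selfE hr, ofReal_integral_eq_lintegral_ofReal, ← lintegral_indicator measurableSet_ball]
  · congr 1
    ext y
    have h1 : y + c ∈ ball c r ↔ y ∈ ball (0 : E3) r := by
      simp
    by_cases hy : y ∈ ball (0 : E3) r
    · rw [indicator_of_mem hy, indicator_of_mem (h1.2 hy), add_sub_cancel_right]
    · rw [indicator_of_notMem hy, indicator_of_notMem (fun h => hy (h1.1 h))]
  · have h3 := integrableOn_ballPot 0 0 (s := r) hr
    simp only [sub_zero] at h3
    exact h3
  · exact Eventually.of_forall fun x => ballPot_nonneg hr (norm_nonneg _)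

end Pool.Agent.Lib_helper90c
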