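import Pool.Agent.Lib_helper90c.EForm

/-!
# Product states
-/

set_option autoImplicit false

open MeasureTheory Set Metric Filter
open scoped ENNReal NNReal Topology

namespace Pool.Agent.Lib_helper90c

section
variable {N : ℕ}

/-- the product state -/
noncomputable def prodS (N : ℕ) (φ : E3 → ℂ) (x : Conf N) : ℂ := ∏ i, φ (x i)

theorem normSq_prodS (φ : E3 → ℂ) (x : Conf N) : ‖prodS N φ x‖ ^ 2 = ∏ i, ‖φ (x i)‖ ^ 2 := by
  unfold prodS; rw [norm_prod, Finset.prod_pow]

theorem contDiff_prodS {φ : E3 → ℂ} (h : ContDiff ℝ (⊤ : ℕ∞) φ) :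
    ContDiff ℝ (⊤ : ℕ∞) (prodS N φ) := by
  unfold prodS
  apply contDiff_prod
  intro i _
  exact h.comp (contDiff_apply ℝ E3 i)

theorem hasCompactSupport_prodS {φ : E3 → ℂ} (h : HasCompactSupport φ) :
    HasCompactSupport (prodS N φ) := by
  have hK : IsCompact (Set.pi univ fun _ : Fin N => tsupport φ) := isCompact_univ_pi fun _ => h
  refine HasCompactSupport.intro hK fun x hx => ?_
  simp only [Set.mem_pi, mem_univ, true_implies, not_forall] at hx
  obtain ⟨i, hi⟩ := hx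
  exact Finset.prod_eq_zero (Finset.mem_univ i) (image_eq_zero_of_notMem_tsupport hi)

theorem trial_prodS {φ : E3 → ℂ} (h : Trial1 φ) : Trial (prodS N φ) := by
  refine ⟨contDiff_prodS h.smooth, hasCompactSupport_prodS h.compact, ?_⟩
  simp only [normSq_prodS]
  rw [integral_fintype_prod_volume_eq_prod (fun _ : Fin N => fun y : E3 => ‖φ y‖ ^ 2)]
  simp [h.normalized]

theorem dens_prodS (φ : E3 → ℂ) (x : Conf N) :
    dens (prodS N φ) x = prodD (fun y => ENNReal.ofReal (‖φ y‖ ^ 2)) x := by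
  unfold dens prodD
  rw [normSq_prodS, ENNReal.ofReal_prod_of_nonneg fun i _ => sq_nonneg _]

theorem fderiv_prodS {φ : E3 → ℂ} (h : Differentiable ℝ φ) (x : Conf N) (i : Fin N) (v : E3) :
    fderiv ℝ (prodS N φ) x (Pi.single i v) =
      (∏ j ∈ Finset.univ.erase i, φ (x j)) * fderiv ℝ φ (x i) v := by
  have h1 : ∀ k ∈ (Finset.univ : Finset (Fin N)),
      HasFDerivAt (fun x : Conf N => φ (x k))
        ((fderiv ℝ φ (x k)).comp (ContinuousLinearMap.proj (R := ℝ) k)) x := by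
    intro k _
    exact (h (x k)).hasFDerivAt.comp x (hasFDerivAt_apply k x)
  have h2 := HasFDerivAt.finsetProd h1
  have h3 : HasFDerivAt (prodS N φ) _ x := h2
  rw [h3.fderiv]
  simp only [sum_apply, smul_apply,
    ContinuousLinearMap.comp_apply, ContinuousLinearMap.proj_apply, smul_eq_mul]
  rw [Finset.sum_eq_single i]
  · rw [Pi.single_eq_same]
  · intro k _ hk
    rw [Pi.single_eq_of_ne hk, map_zero, mul_zero]
  · intro h; exact absurd (Finset.mem_univ i) h

theorem gradSq_prodS {φ : E3 → ℂ} (h : Differentiable ℝ φ) (x : Conf N) (i : Fin N) :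
    gradSq (prodS N φ) i x =
      ∏ k, (if k = i then grad1 φ (x k) else ‖φ (x k)‖ ^ 2) := by
  unfold gradSq
  rw [← Finset.mul_prod_erase Finset.univ _ (Finset.mem_univ i)]
  rw [if_pos rfl]
  have e1 : ∏ k ∈ Finset.univ.erase i, (if k = i then grad1 φ (x k) else ‖φ (x k)‖ ^ 2) =
      ∏ k ∈ Finset.univ.erase i, ‖φ (x k)‖ ^ 2 := by
    apply Finset.prod_congr rfl
    intro k hk
    rw [if_neg (Finset.ne_of_mem_erase hk)]
  rw [e1]
  unfold grad1
  rw [Finset.sum_mul]
  refine Finset.sum_congr rfl fun a _ => ?_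
  rw [fderiv_prodS h, norm_mul, mul_pow, norm_prod, Finset.prod_pow]
  ring

theorem continuous_grad1 {u : E3 → ℂ} (h : ContDiff ℝ (⊤ : ℕ∞) u) : Continuous (grad1 u) := by
  have h1 : Continuous (fderiv ℝ u) := h.continuous_fderiv (by simp)
  unfold grad1
  exact continuous_finsetSum _ fun a _ => ((h1.clm_apply continuous_const).norm.pow 2)

theorem integrable_grad1 {u : E3 → ℂ} (h : Trial1 u) : Integrable (grad1 u) := by
  apply (continuous_grad1 h.smooth).integrable_of_hasCompactSupport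
  have h1 : HasCompactSupport (fderiv ℝ u) := h.compact.fderiv ℝ
  refine h1.mono ?_
  intro x hx
  by_contra hn
  apply hx
  unfold grad1
  have : fderiv ℝ u x = 0 := by
    by_contra h; exact hn h
  simp [this]

theorem kinetic_prodS {φ : E3 → ℂ} (h : Trial1 φ) :
    kinetic (prodS N φ) = N * ∫ y, grad1 φ y := by
  have hd : Differentiable ℝ φ := h.smooth.differentiable (by simp)
  unfold kinetic
  simp only [gradSq_prodS hd]
  have hint : ∀ i : Fin N, Integrable fun x : Conf N =>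
      ∏ k, (if k = i then grad1 φ (x k) else ‖φ (x k)‖ ^ 2) := by
    intro i
    have h1 := Integrable.fintype_prod (𝕜 := ℝ) (μ := fun _ : Fin N => (volume : Measure E3))
      (f := fun k => if k = i then grad1 φ else fun y => ‖φ y‖ ^ 2) (by
        intro k
        by_cases hk : k = i
        · simp only [hk, if_true]
          exact integrable_grad1 h
        · simp only [hk, if_false]
          by_contra hn
          have := h.normalized
          rw [integral_undef hn] at this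
          exact zero_ne_one this)
    have e : (fun x : Conf N => ∏ k, (if k = i then grad1 φ (x k) else ‖φ (x k)‖ ^ 2)) =
        fun x : Conf N => ∏ k, (if k = i then grad1 φ else fun y => ‖φ y‖ ^ 2) (x k) := by
      ext x
      apply Finset.prod_congr rfl
      intro k _
      split_ifs <;> rfl
    rw [e]
    exact h1
  rw [integral_finsetSum _ fun i _ => hint i]
  have hval : ∀ i : Fin N, ∫ x : Conf N,
      ∏ k, (if k = i then grad1 φ (x k) else ‖φ (x k)‖ ^ 2) = ∫ y, grad1 φ y := by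
    intro i
    have e : ∀ x : Conf N, ∏ k, (if k = i then grad1 φ (x k) else ‖φ (x k)‖ ^ 2) =
        ∏ k, (if k = i then grad1 φ else fun y => ‖φ y‖ ^ 2) (x k) := by
      intro x
      apply Finset.prod_congr rfl
      intro k _
      split_ifs <;> rfl
    simp only [e]
    rw [integral_fintype_prod_volume_eq_prod
      (fun k : Fin N => if k = i then grad1 φ else fun y => ‖φ y‖ ^ 2)]
    rw [← Finset.mul_prod_erase Finset.univ _ (Finset.mem_univ i), if_pos rfl]
    have : ∏ k ∈ Finset.univ.erase i, ∫ y, (if k = i then grad1 φ else fun y => ‖φ y‖ ^ 2) y =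
        1 := by
      apply Finset.prod_eq_one
      intro k hk
      rw [if_neg (Finset.ne_of_mem_erase hk)]
      exact h.normalized
    rw [this, mul_one]
  simp only [hval, Finset.sum_const, Finset.card_univ, Fintype.card_fin, nsmul_eq_mul]

theorem ofReal_Pot {β : Measure E3} (h : BM β) (y : E3) :
    ENNReal.ofReal (Pot β y) = ∫⁻ x, ENNReal.ofReal ‖y - x‖⁻¹ ∂β := by
  unfold Pot
  rw [ofReal_integral_eq_lintegral_ofReal (h.pot y) (Eventually.of_forall fun x => by positivity)]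

theorem ofReal_integral_Pot {β : Measure E3} (h : BM β) :
    ENNReal.ofReal (∫ x, Pot β x ∂β) = ∫⁻ y, ∫⁻ x, ENNReal.ofReal ‖y - x‖⁻¹ ∂β ∂β := by
  have := h.isFinite
  rw [ofReal_integral_eq_lintegral_ofReal (h.integrable_Pot β)
    (Eventually.of_forall fun x => Pot_nonneg _ _)]
  simp only [ofReal_Pot h]

theorem lintegral_bg {φ : E3 → ℂ} (hc : Continuous φ) {M : ℝ} (hM : 0 ≤ M) {f : E3 → ℝ≥0∞}
    (hf : Measurable f) :
    ∫⁻ x, f x ∂(bg M fun y => ‖φ y‖ ^ 2) =
      ENNReal.ofReal M * ∫⁻ x, f x * ENNReal.ofReal (‖φ x‖ ^ 2) := by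
  unfold bg
  have hm : Measurable fun x => f x * ENNReal.ofReal (‖φ x‖ ^ 2) := hf.mul (by fun_prop)
  rw [lintegral_withDensity_eq_lintegral_mul _ (by fun_prop) hf, ← lintegral_const_mul _ hm]
  congr 1
  ext x
  rw [Pi.mul_apply, ENNReal.ofReal_mul hM]
  ring

/-- the background of a product state -/
noncomputable def bgs (N : ℕ) (φ : E3 → ℂ) : Measure E3 := bg N fun y => ‖φ y‖ ^ 2

/-- one-particle density -/
noncomputable def rho1 (φ : E3 → ℂ) (y : E3) : ℝ≥0∞ := ENNReal.ofReal (‖φ y‖ ^ 2)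

theorem measurable_rho1 {φ : E3 → ℂ} (hc : Continuous φ) : Measurable (rho1 φ) := by
  unfold rho1; fun_prop

theorem lintegral_rho1 {φ : E3 → ℂ} (h : Trial1 φ) : ∫⁻ y, rho1 φ y = 1 := by
  have hint : Integrable fun y => ‖φ y‖ ^ 2 := by
    by_contra hn
    have := h.normalized
    rw [integral_undef hn] at this
    exact zero_ne_one this
  unfold rho1
  rw [← ofReal_integral_eq_lintegral_ofReal hint (Eventually.of_forall fun y => sq_nonneg _),
      h.normalized, ENNReal.ofReal_one]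

theorem hasCompactSupport_normSq {φ : E3 → ℂ} (h : HasCompactSupport φ) :
    HasCompactSupport fun y => ‖φ y‖ ^ 2 := by
  refine h.mono ?_
  intro x hx hx'
  apply hx
  simp only [hx', norm_zero]
  norm_num

theorem BM_bgs {φ : E3 → ℂ} (h : Trial1 φ) (N : ℕ) : BM (bgs N φ) := by
  have h1 : Continuous fun y => ‖φ y‖ ^ 2 := h.smooth.continuous.norm.pow 2
  have h2 := hasCompactSupport_normSq h.compact
  unfold bgs
  exact BM_bg h1 h2 (N : ℝ)

theorem lintegral_bgs {φ : E3 → ℂ} (hc : Continuous φ) (N : ℕ) {f : E3 → ℝ≥0∞}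
    (hf : Measurable f) : ∫⁻ x, f x ∂(bgs N φ) = (N : ℝ≥0∞) * ∫⁻ x, f x * rho1 φ x := by
  have := lintegral_bg hc (M := N) (Nat.cast_nonneg _) hf
  rw [ENNReal.ofReal_natCast] at this
  exact this

theorem Aen_prodS {φ : E3 → ℂ} (h : Trial1 φ) {K : ℕ} (R : Fin K → E3) :
    (Aen R (prodS N φ)).toReal = ∑ k, Pot (bgs N φ) (R k) := by
  have hc := h.smooth.continuous
  have hBM := BM_bgs h N
  have h2 : ∀ (k : Fin K) (i : Fin N), ∫⁻ x : Conf N, ENNReal.ofReal ‖x i - R k‖⁻¹ *
      dens (prodS N φ) x = ∫⁻ y, ENNReal.ofReal ‖R k - y‖⁻¹ * rho1 φ y := by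
    intro k i
    have e : ∀ x : Conf N, dens (prodS N φ) x = prodD (rho1 φ) x := fun x => dens_prodS φ x
    simp only [e]
    have hm : Measurable fun y : E3 => ENNReal.ofReal ‖y - R k‖⁻¹ := by fun_prop
    rw [lintegral_prod_eval (measurable_rho1 hc) (lintegral_rho1 h) i hm]
    simp only [norm_sub_rev]
  have h1 : Aen R (prodS N φ) = ENNReal.ofReal (∑ k, Pot (bgs N φ) (R k)) := by
    unfold Aen
    rw [ENNReal.ofReal_sum_of_nonneg fun k _ => Pot_nonneg _ _, Finset.sum_comm]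
    refine Finset.sum_congr rfl fun k _ => ?_
    have hm : Measurable fun y : E3 => ENNReal.ofReal ‖R k - y‖⁻¹ := by fun_prop
    rw [ofReal_Pot hBM, lintegral_bgs hc N hm]
    simp only [h2, Finset.sum_const, Finset.card_univ, Fintype.card_fin, nsmul_eq_mul]
  rw [h1, ENNReal.toReal_ofReal (Finset.sum_nonneg fun k _ => Pot_nonneg _ _)]

theorem Pee_prodS_le {φ : E3 → ℂ} (h : Trial1 φ) :
    (Pee (prodS N φ)).toReal ≤ (∫ x, Pot (bgs N φ) x ∂(bgs N φ)) / 2 := by
  have hc := h.smooth.continuous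
  have hBM := BM_bgs h N
  have hfin := hBM.isFinite
  have hρm := measurable_rho1 hc
  have hD0 : 0 ≤ ∫ x, Pot (bgs N φ) x ∂(bgs N φ) := integral_nonneg fun x => Pot_nonneg _ _
  apply ENNReal.toReal_le_of_le_ofReal (by positivity)
  have h3 : ENNReal.ofReal (2⁻¹ : ℝ) = 2⁻¹ := by
    rw [ENNReal.ofReal_inv_of_pos (by norm_num)]; norm_num
  rw [div_eq_inv_mul, ENNReal.ofReal_mul (by norm_num), ofReal_integral_Pot hBM, h3]
  have hm2 : Measurable fun q : E3 × E3 => ENNReal.ofReal ‖q.1 - q.2‖⁻¹ := by fun_prop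
  have hm : Measurable fun y : E3 => ∫⁻ x : E3, ENNReal.ofReal ‖y - x‖⁻¹ ∂(bgs N φ) :=
    hm2.lintegral_prod_right'
  have hmr : ∀ y : E3, Measurable fun x : E3 => ENNReal.ofReal ‖y - x‖⁻¹ := fun y => by fun_prop
  rw [lintegral_bgs hc N hm]
  have e2 : ∀ y : E3, ∫⁻ x : E3, ENNReal.ofReal ‖y - x‖⁻¹ ∂(bgs N φ) =
      (N : ℝ≥0∞) * ∫⁻ x : E3, ENNReal.ofReal ‖y - x‖⁻¹ * rho1 φ x := fun y =>
    lintegral_bgs hc N (hmr y)
  simp only [e2]
  have h2 : ∀ i j : Fin N, ∫⁻ x : Conf N, ENNReal.ofReal ‖x i - x j‖⁻¹ *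
      dens (prodS N φ) x ≤
      ∫⁻ y', (∫⁻ y, ENNReal.ofReal ‖y' - y‖⁻¹ * rho1 φ y) * rho1 φ y' := by
    intro i j
    by_cases hij : i = j
    · subst hij; simp
    · have e : ∀ x : Conf N, dens (prodS N φ) x = prodD (rho1 φ) x := fun x => dens_prodS φ x
      simp only [e]
      have hme : Measurable (Function.uncurry fun y y' : E3 => ENNReal.ofReal ‖y - y'‖⁻¹) := by
        unfold Function.uncurry; fun_prop
      have := lintegral_prod_eval2 hρm (lintegral_rho1 h) hij hme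
      refine (le_of_eq this).trans (le_of_eq ?_)
      simp only [norm_sub_rev]
  unfold Pee
  have h4 : Measurable fun y' : E3 => ∫⁻ y, ENNReal.ofReal ‖y' - y‖⁻¹ * rho1 φ y := by
    have h2 : Measurable fun q : E3 × E3 => ENNReal.ofReal ‖q.1 - q.2‖⁻¹ * rho1 φ q.2 :=
      hm2.mul (hρm.comp measurable_snd)
    exact h2.lintegral_prod_right'
  have h5 : Measurable fun y' : E3 =>
      (∫⁻ y, ENNReal.ofReal ‖y' - y‖⁻¹ * rho1 φ y) * rho1 φ y' := h4.mul hρm
  calc 2⁻¹ * ∑ i : Fin N, ∑ j : Fin N, ∫⁻ x : Conf N, ENNReal.ofReal ‖x i - x j‖⁻¹ *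
        dens (prodS N φ) x
      ≤ 2⁻¹ * ∑ _i : Fin N, ∑ _j : Fin N,
          ∫⁻ y', (∫⁻ y, ENNReal.ofReal ‖y' - y‖⁻¹ * rho1 φ y) * rho1 φ y' := by
        gcongr with i _ j _
        exact h2 i j
    _ = 2⁻¹ * ((N : ℝ≥0∞) * ((N : ℝ≥0∞) *
          ∫⁻ y', (∫⁻ y, ENNReal.ofReal ‖y' - y‖⁻¹ * rho1 φ y) * rho1 φ y')) := by
        simp only [Finset.sum_const, Finset.card_univ, Fintype.card_fin, nsmul_eq_mul]
    _ = 2⁻¹ * ((N : ℝ≥0∞) * ∫⁻ y', ((N : ℝ≥0∞) *
          ∫⁻ y, ENNReal.ofReal ‖y' - y‖⁻¹ * rho1 φ y) * rho1 φ y') := by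
        rw [← lintegral_const_mul _ h5]
        simp only [mul_assoc]

/-- energy of a product state -/
theorem energy_prodS_le {z : ℝ} {φ : E3 → ℂ} (h : Trial1 φ) {K : ℕ}
    (R : Fin K → E3) :
    energy z R (prodS N φ) ≤ N * (∫ y, grad1 φ y) + JE z (bgs N φ) R := by
  rw [energy_eq z R (trial_prodS h), kinetic_prodS h, Aen_prodS h]
  have := Pee_prodS_le (N := N) h
  unfold JE
  linarith

end

end Pool.Agent.Lib_helper90c
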