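import Pool.Agent.Lib_helper90c.Canon

/-!
# Rotation averages of the Coulomb potential
-/

set_option autoImplicit false

open MeasureTheory Set Metric Filter
open scoped ENNReal NNReal Topology

namespace Pool.Agent.Lib_helper90c

instance instCS : ContinuousStar (E3 →L[ℝ] E3) :=
  ⟨(ContinuousLinearMap.adjoint : (E3 →L[ℝ] E3) ≃ₗᵢ⋆[ℝ] (E3 →L[ℝ] E3)).continuous⟩

theorem compG3 : IsCompact ((unitary (E3 →L[ℝ] E3) : Submonoid (E3 →L[ℝ] E3)) :
    Set (E3 →L[ℝ] E3)) := by
  have : ProperSpace (E3 →L[ℝ] E3) := FiniteDimensional.proper_real _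
  refine Metric.isCompact_of_isClosed_isBounded isClosed_unitary ?_
  refine (Metric.isBounded_closedBall (x := (0 : E3 →L[ℝ] E3)) (r := 1)).subset ?_
  intro u hu
  rw [mem_closedBall_zero_iff]
  exact CStarRing.norm_of_mem_unitary hu |>.le

instance : CompactSpace (unitary (E3 →L[ℝ] E3)) := isCompact_iff_compactSpace.1 compG3

/-- The orthogonal group. -/
noncomputable abbrev G3 : Type := unitary (E3 →L[ℝ] E3)

noncomputable instance : MeasurableSpace G3 := borel _
instance : BorelSpace G3 := ⟨rfl⟩

/-- normalised Haar measure -/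
noncomputable def hG : Measure G3 := Measure.haarMeasure ⊤

instance : IsProbabilityMeasure hG := by
  refine ⟨?_⟩
  have := Measure.haarMeasure_self (K₀ := (⊤ : TopologicalSpace.PositiveCompacts G3))
  unfold hG
  simpa using this

instance : Measure.IsMulLeftInvariant hG := by unfold hG; infer_instance

theorem continuous_act (y : E3) : Continuous fun g : G3 => (g : E3 →L[ℝ] E3) y := by
  have h1 : Continuous fun g : G3 => (g : E3 →L[ℝ] E3) := continuous_subtype_val
  exact h1.clm_apply continuous_const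

theorem norm_act (g : G3) (y : E3) : ‖(g : E3 →L[ℝ] E3) y‖ = ‖y‖ :=
  (g : E3 →L[ℝ] E3).norm_map_of_mem_unitary g.property y

theorem mul_act (g h : G3) (y : E3) :
    ((g * h : G3) : E3 →L[ℝ] E3) y = (g : E3 →L[ℝ] E3) ((h : E3 →L[ℝ] E3) y) := rfl

theorem exists_act {x x' : E3} (h : ‖x‖ = ‖x'‖) : ∃ g : G3, (g : E3 →L[ℝ] E3) x = x' := by
  obtain ⟨f, hf⟩ := exists_isometry_ax x
  obtain ⟨f', hf'⟩ := exists_isometry_ax x'
  refine ⟨Unitary.linearIsometryEquiv.symm (f.symm.trans f'), ?_⟩
  show (f.symm.trans f') x = x'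
  rw [LinearIsometryEquiv.trans_apply]
  have : f.symm x = ax ‖x‖ := by rw [LinearIsometryEquiv.symm_apply_eq, hf]
  rw [this, h, hf']

/-- rotation average of the Coulomb potential of the point `y` -/
noncomputable def rotF (y x : E3) : ℝ := ∫ g : G3, ‖x - (g : E3 →L[ℝ] E3) y‖⁻¹ ∂hG

theorem norm_sub_act_ge (g : G3) (x y : E3) : ‖x‖ - ‖y‖ ≤ ‖x - (g : E3 →L[ℝ] E3) y‖ := by
  have := norm_sub_norm_le x ((g : E3 →L[ℝ] E3) y)
  rwa [norm_act] at this

theorem rotF_invariant (y x : E3) (h : G3) : rotF y ((h : E3 →L[ℝ] E3) x) = rotF y x := by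
  unfold rotF
  rw [← integral_mul_left_eq_self (μ := hG) _ h]
  congr 1
  ext g
  rw [mul_act, ← map_sub, norm_act]

theorem rotF_radial (y : E3) {x x' : E3} (h : ‖x‖ = ‖x'‖) : rotF y x = rotF y x' := by
  obtain ⟨g, rfl⟩ := exists_act h
  rw [rotF_invariant]

theorem integrable_act {x y : E3} (h : ‖y‖ < ‖x‖) :
    Integrable (fun g : G3 => ‖x - (g : E3 →L[ℝ] E3) y‖⁻¹) hG := by
  apply Continuous.integrable_of_hasCompactSupport
  · apply Continuous.inv₀
    · exact (continuous_const.sub (continuous_act y)).norm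
    · intro g
      have := norm_sub_act_ge g x y
      linarith
  · exact HasCompactSupport.of_compactSpace _

theorem continuousAt_rotF {y x0 : E3} (h : ‖y‖ < ‖x0‖) : ContinuousAt (rotF y) x0 := by
  unfold rotF
  set d := (‖x0‖ - ‖y‖) / 2 with hd
  have hd0 : 0 < d := by rw [hd]; linarith
  have hnear : ∀ᶠ x in 𝓝 x0, d < ‖x‖ - ‖y‖ := by
    have : ContinuousAt (fun x : E3 => ‖x‖ - ‖y‖) x0 := by fun_prop
    exact this.eventually (lt_mem_nhds (by rw [hd]; linarith))
  refine continuousAt_of_dominated (bound := fun _ => d⁻¹) ?_ ?_ (integrable_const _) ?_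
  · refine Eventually.of_forall fun x => ?_
    exact ((continuous_const.sub (continuous_act y)).norm.measurable.inv).aestronglyMeasurable
  · filter_upwards [hnear] with x hx
    refine Eventually.of_forall fun g => ?_
    rw [norm_inv, norm_norm]
    exact inv_anti₀ hd0 (hx.le.trans (norm_sub_act_ge g x y))
  · refine Eventually.of_forall fun g => ?_
    apply ContinuousAt.inv₀
    · fun_prop
    · have := norm_sub_act_ge g x0 y
      linarith

theorem ann_subset (s t : ℝ) : ann s t ⊆ ball 0 t := sdiff_subset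

theorem integrable_ann_inv (s t : ℝ) (w : E3) :
    Integrable (fun x : E3 => ‖x - w‖⁻¹) ((volume : Measure E3).restrict (ann s t)) := by
  have h : IntegrableOn (fun x : E3 => ‖w - x‖⁻¹) (ann s t) volume :=
    (integrableOn_ball_inv 0 w t).mono_set (ann_subset s t)
  have e : (fun x : E3 => ‖w - x‖⁻¹) = fun x : E3 => ‖x - w‖⁻¹ := by
    ext x; rw [norm_sub_rev]
  rw [e] at h
  exact h

theorem isFiniteMeasure_ann (s t : ℝ) :
    IsFiniteMeasure ((volume : Measure E3).restrict (ann s t)) := by
  refine ⟨?_⟩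
  rw [Measure.restrict_apply_univ]
  exact (measure_mono (ann_subset s t)).trans_lt measure_ball_lt_top

theorem integral_ann_rotF (y : E3) {s t : ℝ} (hs : ‖y‖ ≤ s) (hst : s ≤ t) :
    ∫ x in ann s t, rotF y x = 2 * Real.pi * (t ^ 2 - s ^ 2) := by
  have hs0 : 0 ≤ s := (norm_nonneg _).trans hs
  have hfin := isFiniteMeasure_ann s t
  have hjc : Continuous fun q : E3 × G3 => q.1 - (q.2 : E3 →L[ℝ] E3) y := by
    have h1 : Continuous fun q : E3 × G3 => (q.2 : E3 →L[ℝ] E3) y :=
      (continuous_act y).comp continuous_snd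
    exact continuous_fst.sub h1
  have hmeas : Measurable fun q : E3 × G3 => ‖q.1 - (q.2 : E3 →L[ℝ] E3) y‖⁻¹ :=
    hjc.norm.measurable.inv
  have hval : ∀ g : G3, ∫ x in ann s t, ‖x - (g : E3 →L[ℝ] E3) y‖⁻¹ =
      2 * Real.pi * (t ^ 2 - s ^ 2) := by
    intro g
    have h1 := integral_ann_inv ((g : E3 →L[ℝ] E3) y) hs0 hst
    rw [norm_act, ballPot_diff_of_le hst hs] at h1
    rw [← h1]
    simp only [norm_sub_rev]
  have e1 : ∀ g : G3, Integrable (fun x : E3 => ‖x - (g : E3 →L[ℝ] E3) y‖⁻¹)
      ((volume : Measure E3).restrict (ann s t)) := fun g =>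
    integrable_ann_inv s t ((g : E3 →L[ℝ] E3) y)
  have e2 : (fun g : G3 => ∫ x in ann s t, ‖‖x - (g : E3 →L[ℝ] E3) y‖⁻¹‖) =
      fun _ => 2 * Real.pi * (t ^ 2 - s ^ 2) := by
    ext g
    rw [← hval g]
    congr 1
    ext x
    rw [Real.norm_eq_abs, abs_of_nonneg (by positivity)]
  have e3 : Integrable (fun g : G3 => ∫ x in ann s t, ‖‖x - (g : E3 →L[ℝ] E3) y‖⁻¹‖) hG := by
    rw [e2]
    exact integrable_const _
  have hprod : Integrable (fun q : E3 × G3 => ‖q.1 - (q.2 : E3 →L[ℝ] E3) y‖⁻¹)
      (((volume : Measure E3).restrict (ann s t)).prod hG) :=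
    (integrable_prod_iff' hmeas.aestronglyMeasurable).2 ⟨Eventually.of_forall e1, e3⟩
  unfold rotF
  rw [integral_integral_swap (f := fun (x : E3) (g : G3) => ‖x - (g : E3 →L[ℝ] E3) y‖⁻¹) hprod]
  simp only [hval]
  simp

/-- Newton's theorem for rotation averages. -/
theorem rotF_eq {y x : E3} (h : ‖y‖ < ‖x‖) : rotF y x = ‖x‖⁻¹ := by
  have hx0 : 0 < ‖x‖ := (norm_nonneg _).trans_lt h
  -- the difference is continuous and radial
  set f : E3 → ℝ := fun x => rotF y x - ‖x‖⁻¹ with hf
  have hfc : ∀ x : E3, ‖y‖ < ‖x‖ → ContinuousAt f x := by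
    intro x hx
    have hx0 : 0 < ‖x‖ := (norm_nonneg _).trans_lt hx
    exact (continuousAt_rotF hx).sub (ContinuousAt.inv₀ (by fun_prop) hx0.ne')
  have hfr : ∀ x x' : E3, ‖x‖ = ‖x'‖ → f x = f x' := by
    intro x x' h
    simp only [hf, h, rotF_radial y h]
  -- integrals over annuli vanish
  have hzero : ∀ s t, ‖y‖ < s → s ≤ t → ∫ x in ann s t, f x = 0 := by
    intro s t hs hst
    have hs0 : 0 ≤ s := (norm_nonneg y).trans hs.le
    have h1 := integral_ann_rotF y hs.le hst
    have h2 := integral_ann_inv 0 hs0 hst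
    rw [norm_zero, ballPot_diff_of_le hst hs0] at h2
    simp only [zero_sub, norm_neg] at h2
    have hfin := isFiniteMeasure_ann s t
    have i1 : IntegrableOn (rotF y) (ann s t) := by
      refine Integrable.mono' (integrable_const (s - ‖y‖)⁻¹) ?_ ?_
      · have hco : ContinuousOn (rotF y) (ann s t) := by
          intro x hx
          have h3 : s ≤ ‖x‖ := by
            have := hx.2
            simpa using this
          exact (continuousAt_rotF (hs.trans_le h3)).continuousWithinAt
        exact hco.aestronglyMeasurable (measurableSet_ann s t)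
      · rw [ae_restrict_iff' (measurableSet_ann s t)]
        refine Eventually.of_forall fun x hx => ?_
        have h3 : s ≤ ‖x‖ := by
          have := hx.2
          simpa using this
        unfold rotF
        refine (norm_integral_le_integral_norm _).trans ?_
        have h4 : ∀ g : G3, ‖‖x - (g : E3 →L[ℝ] E3) y‖⁻¹‖ ≤ (s - ‖y‖)⁻¹ := by
          intro g
          rw [norm_inv, norm_norm]
          exact inv_anti₀ (by linarith) ((by linarith : s - ‖y‖ ≤ ‖x‖ - ‖y‖).trans
            (norm_sub_act_ge g x y))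
        calc ∫ g : G3, ‖‖x - (g : E3 →L[ℝ] E3) y‖⁻¹‖ ∂hG ≤ ∫ _g : G3, (s - ‖y‖)⁻¹ ∂hG :=
              integral_mono_of_nonneg (Eventually.of_forall fun g => norm_nonneg _)
                (integrable_const _) (Eventually.of_forall h4)
          _ = (s - ‖y‖)⁻¹ := by simp
    have i2 : Integrable (fun x : E3 => ‖x‖⁻¹) ((volume : Measure E3).restrict (ann s t)) := by
      have := integrable_ann_inv s t 0
      simpa only [sub_zero] using this
    show ∫ x in ann s t, (rotF y x - ‖x‖⁻¹) = 0
    rw [integral_sub i1 i2, h1, h2, sub_self]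
  -- conclusion by contradiction
  have key : ∀ c : ℝ, c ≠ 0 → (∀ x', ‖y‖ < ‖x'‖ → ContinuousAt (fun x => c * f x) x') →
      ¬ 0 < c * f x := by
    intro c hc hcont hpos
    have h1 : ∀ᶠ x' in 𝓝 x, c * f x / 2 < c * f x' :=
      (hcont x h).eventually (lt_mem_nhds (by linarith))
    obtain ⟨δ, hδ, hball⟩ := Metric.eventually_nhds_iff.1 h1
    set δ' := min (δ / 2) ((‖x‖ - ‖y‖) / 2) with hδ'
    have hδ'0 : 0 < δ' := lt_min (by linarith) (by linarith)
    have hδ'1 : δ' ≤ δ / 2 := min_le_left _ _
    have hδ'2 : δ' ≤ (‖x‖ - ‖y‖) / 2 := min_le_right _ _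
    set s := ‖x‖ - δ' with hs
    set t := ‖x‖ + δ' with ht
    have hsy : ‖y‖ < s := by rw [hs]; linarith
    have hs0 : 0 < s := (norm_nonneg y).trans_lt hsy
    have hst : s < t := by rw [hs, ht]; linarith
    have hlow : ∀ x' ∈ ann s t, c * f x / 2 < c * f x' := by
      intro x' hx'
      have h3 : s ≤ ‖x'‖ := by
        have := hx'.2
        simpa using this
      have h4 : ‖x'‖ < t := by
        have := hx'.1
        simpa using this
      -- move to the ray of `x`
      set w : E3 := (‖x'‖ / ‖x‖) • x with hw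
      have hwn : ‖w‖ = ‖x'‖ := by
        rw [hw, norm_smul, Real.norm_eq_abs, abs_of_nonneg (by positivity)]
        field_simp
      have hwd : dist w x < δ := by
        rw [dist_eq_norm]
        have : w - x = (‖x'‖ / ‖x‖ - 1) • x := by rw [hw, sub_smul, one_smul]
        rw [this, norm_smul, Real.norm_eq_abs]
        have e : |‖x'‖ / ‖x‖ - 1| * ‖x‖ = |‖x'‖ - ‖x‖| := by
          rw [← abs_of_pos hx0, ← abs_mul, abs_of_pos hx0]
          congr 1
          field_simp
        rw [e, abs_lt]
        constructor <;> linarith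
      rw [hfr x' w hwn.symm]
      exact hball hwd
    have hz := hzero s t hsy hst.le
    have hfin := isFiniteMeasure_ann s t
    have hint : IntegrableOn (fun x => c * f x) (ann s t) := by
      by_contra hn
      -- not integrable is impossible: bounded continuous
      apply hn
      have hco : ContinuousOn (fun x => c * f x) (closedBall 0 t \ ball 0 s) := by
        intro x' hx'
        have h3 : s ≤ ‖x'‖ := by
          have := hx'.2
          simpa using this
        exact (hcont x' (hsy.trans_le h3)).continuousWithinAt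
      have hcomp : IsCompact (closedBall (0 : E3) t \ ball 0 s) :=
        (isCompact_closedBall 0 t).diff isOpen_ball
      exact (hco.integrableOn_compact hcomp).mono_set
        (sdiff_subset_sdiff_left ball_subset_closedBall)
    have h5 : ∫ x' in ann s t, c * f x / 2 ≤ ∫ x' in ann s t, c * f x' := by
      apply setIntegral_mono_on (integrable_const _) hint (measurableSet_ann s t)
      intro x' hx'
      exact (hlow x' hx').le
    rw [integral_const_mul, hz, mul_zero, setIntegral_const, measureReal_ann hs0.le hst.le,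
      smul_eq_mul] at h5
    have h6 : 0 < vB t - vB s := sub_pos.2 ((vB_lt_iff hs0.le (by linarith)).2 hst)
    have : 0 < (vB t - vB s) * (c * f x / 2) := mul_pos h6 (by linarith)
    linarith
  have k1 := key 1 one_ne_zero (fun x' hx' => (hfc x' hx').const_mul 1)
  have k2 := key (-1) (by norm_num) (fun x' hx' => (hfc x' hx').const_mul (-1))
  have h0 : f x = 0 := by linarith
  simp only [hf] at h0
  linarith

end Pool.Agent.Lib_helper90c
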