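import Mathlib

/-!
# Slicing three-dimensional Euclidean space
-/

set_option autoImplicit false

open MeasureTheory Set Metric
open scoped ENNReal NNReal

namespace Pool.Agent.Lib_helper90c

/-- three-dimensional Euclidean space -/
abbrev E3 := EuclideanSpace ℝ (Fin 3)
/-- two-dimensional Euclidean space -/
abbrev E2 := EuclideanSpace ℝ (Fin 2)

/-- cylindrical coordinates -/
noncomputable def mkE (p : ℝ × E2) : E3 :=
  WithLp.toLp 2 (Fin.insertNth (0 : Fin 3) p.1 (WithLp.ofLp p.2))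

/-- The measurable equivalence between `ℝ × E2` and `E3`. -/
noncomputable def cyl : (ℝ × E2) ≃ᵐ E3 :=
  ((MeasurableEquiv.refl ℝ).prodCongr (MeasurableEquiv.toLp 2 (Fin 2 → ℝ)).symm).trans
    ((MeasurableEquiv.piFinSuccAbove (fun _ : Fin 3 => ℝ) 0).symm.trans
      (MeasurableEquiv.toLp 2 (Fin 3 → ℝ)))

theorem cyl_apply (p : ℝ × E2) : cyl p = mkE p := rfl

theorem measurePreserving_cyl : MeasurePreserving cyl := by
  have h1 : MeasurePreserving ((MeasurableEquiv.refl ℝ).prodCongr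
      (MeasurableEquiv.toLp 2 (Fin 2 → ℝ)).symm) (volume : Measure (ℝ × E2)) volume :=
    (MeasurePreserving.id volume).prod (EuclideanSpace.volume_preserving_symm_measurableEquiv_toLp (Fin 2))
  have h2 : MeasurePreserving (MeasurableEquiv.piFinSuccAbove (fun _ : Fin 3 => ℝ) 0).symm :=
    (volume_preserving_piFinSuccAbove (fun _ : Fin 3 => ℝ) 0).symm
  have h3 : MeasurePreserving (MeasurableEquiv.toLp 2 (Fin 3 → ℝ)) :=
    (EuclideanSpace.volume_preserving_symm_measurableEquiv_toLp (Fin 3)).symm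
  exact (h3.comp h2).comp h1

theorem measurable_mkE : Measurable mkE := cyl.measurable

theorem lintegral_cyl (f : E3 → ℝ≥0∞) (hf : Measurable f) :
    ∫⁻ x, f x = ∫⁻ s : ℝ, ∫⁻ u : E2, f (mkE (s, u)) := by
  rw [← measurePreserving_cyl.lintegral_comp hf]
  have : (volume : Measure (ℝ × E2)) = (volume : Measure ℝ).prod (volume : Measure E2) := rfl
  rw [this, lintegral_prod (fun a => f (cyl a)) (hf.comp cyl.measurable).aemeasurable]
  rfl

theorem norm_mkE_sq (s : ℝ) (u : E2) : ‖mkE (s, u)‖ ^ 2 = s ^ 2 + ‖u‖ ^ 2 := by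
  rw [EuclideanSpace.norm_sq_eq, EuclideanSpace.norm_sq_eq]
  rw [Fin.sum_univ_succ]
  congr 1
  simp [mkE]

/-- the point `t e_0` -/
noncomputable def ax (t : ℝ) : E3 := mkE (t, 0)

theorem norm_mkE_sub_ax_sq (s t : ℝ) (u : E2) :
    ‖mkE (s, u) - ax t‖ ^ 2 = (s - t) ^ 2 + ‖u‖ ^ 2 := by
  have : mkE (s, u) - ax t = mkE (s - t, u) := by
    ext i
    refine Fin.cases ?_ (fun j => ?_) i
    · simp [mkE, ax]
    · simp [mkE, ax]
  rw [this, norm_mkE_sq]

theorem norm_ax (t : ℝ) : ‖ax t‖ = |t| := by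
  have h := norm_mkE_sq t 0
  rw [norm_zero, zero_pow two_ne_zero, add_zero] at h
  rw [← Real.sqrt_sq (norm_nonneg (ax t)), ← Real.sqrt_sq_eq_abs]
  congr 1

theorem norm_ax_of_nonneg {t : ℝ} (ht : 0 ≤ t) : ‖ax t‖ = t := by
  rw [norm_ax, abs_of_nonneg ht]

/-- Any vector is the image of a point on the axis under a linear isometry. -/
theorem exists_isometry_ax (x : E3) : ∃ f : E3 ≃ₗᵢ[ℝ] E3, f (ax ‖x‖) = x := by
  have h : ‖ax ‖x‖‖ = ‖x‖ := norm_ax_of_nonneg (norm_nonneg _)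
  refine ⟨(ℝ ∙ (ax ‖x‖ - x))ᗮ.reflection, ?_⟩
  exact Submodule.reflection_sub h

end Pool.Agent.Lib_helper90c
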