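import Pool.Agent.Lib_helper90c.Totals

/-!
# Sobolev inequality and duality for the one-particle density
-/

set_option autoImplicit false

open MeasureTheory Set Metric Filter
open scoped ENNReal NNReal Topology

namespace Pool.Agent.Lib_helper90c

theorem norm_fderiv_le_grad1 (u : E3 → ℂ) (x : E3) : ‖fderiv ℝ u x‖ ^ 2 ≤ grad1 u x := by
  have h0 := grad1_nonneg u x
  have h1 : ‖fderiv ℝ u x‖ ≤ Real.sqrt (grad1 u x) := by
    apply ContinuousLinearMap.opNorm_le_bound _ (Real.sqrt_nonneg _)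
    intro v
    have h2 := norm_fderiv_sq_le u x v
    have h3 : ‖fderiv ℝ u x v‖ ^ 2 ≤ (Real.sqrt (grad1 u x) * ‖v‖) ^ 2 := by
      rw [mul_pow, Real.sq_sqrt h0, mul_comm]; exact h2
    exact (pow_le_pow_iff_left₀ (norm_nonneg _) (by positivity) two_ne_zero).1 h3
  calc ‖fderiv ℝ u x‖ ^ 2 ≤ (Real.sqrt (grad1 u x)) ^ 2 :=
        pow_le_pow_left₀ (norm_nonneg _) h1 2
    _ = grad1 u x := Real.sq_sqrt h0

/-- Sobolev inequality -/
theorem sobolev1 : ∃ S : ℝ, 0 < S ∧ ∀ u : E3 → ℂ, ContDiff ℝ 1 u → HasCompactSupport u →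
    (∫⁻ y, ENNReal.ofReal (‖u y‖ ^ 2) ^ 3) ^ (1 / 3 : ℝ) ≤
      ENNReal.ofReal S * ∫⁻ y, ENNReal.ofReal (grad1 u y) := by
  set C : ℝ≥0 := SNormLESNormFDerivOfEqConst ℂ (volume : Measure E3) 2 with hC
  refine ⟨(C : ℝ) ^ 2 + 1, by positivity, fun u hu hs => ?_⟩
  have h := eLpNorm_le_eLpNorm_fderiv_of_eq (volume : Measure E3) hu hs (p := 2) (p' := 6)
    (by norm_num) (by rw [finrank_euclideanSpace_fin]; norm_num)
    (by rw [finrank_euclideanSpace_fin]; norm_num)
  rw [eLpNorm_nnreal_eq_lintegral (by norm_num), eLpNorm_nnreal_eq_lintegral (by norm_num)] at h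
  have h2 := pow_le_pow_left' h 2
  have e1 : ((∫⁻ x, ‖u x‖ₑ ^ ((6 : ℝ≥0) : ℝ)) ^ (1 / ((6 : ℝ≥0) : ℝ))) ^ 2 =
      (∫⁻ y, ENNReal.ofReal (‖u y‖ ^ 2) ^ 3) ^ (1 / 3 : ℝ) := by
    rw [← ENNReal.rpow_natCast, ← ENNReal.rpow_mul]
    have e2 : ∀ y, ‖u y‖ₑ ^ ((6 : ℝ≥0) : ℝ) = ENNReal.ofReal (‖u y‖ ^ 2) ^ 3 := by
      intro y
      rw [← ofReal_norm, ENNReal.ofReal_pow (norm_nonneg _), ← pow_mul,
        ← ENNReal.rpow_natCast]
      norm_num
    simp only [e2]
    congr 1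
    norm_num
  have e3 : ((∫⁻ x, ‖fderiv ℝ u x‖ₑ ^ ((2 : ℝ≥0) : ℝ)) ^ (1 / ((2 : ℝ≥0) : ℝ))) ^ 2 ≤
      ∫⁻ y, ENNReal.ofReal (grad1 u y) := by
    rw [← ENNReal.rpow_natCast, ← ENNReal.rpow_mul]
    have e4 : (1 / ((2 : ℝ≥0) : ℝ)) * ((2 : ℕ) : ℝ) = 1 := by norm_num
    rw [e4, ENNReal.rpow_one]
    apply lintegral_mono
    intro y
    have e5 : ‖fderiv ℝ u y‖ₑ ^ ((2 : ℝ≥0) : ℝ) = ENNReal.ofReal (‖fderiv ℝ u y‖ ^ 2) := by
      rw [← ofReal_norm, ENNReal.ofReal_pow (norm_nonneg _), ← ENNReal.rpow_natCast]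
      norm_num
    simp only [e5]
    exact ENNReal.ofReal_le_ofReal (norm_fderiv_le_grad1 u y)
  rw [e1, mul_pow] at h2
  have e6 : (C : ℝ≥0∞) ^ 2 ≤ ENNReal.ofReal ((C : ℝ) ^ 2 + 1) := by
    have e7 : (C : ℝ≥0∞) ^ 2 = ENNReal.ofReal ((C : ℝ) ^ 2) := by
      rw [ENNReal.ofReal_pow C.coe_nonneg, ENNReal.ofReal_coe_nnreal]
    rw [e7]
    exact ENNReal.ofReal_le_ofReal (by linarith)
  exact h2.trans (mul_le_mul' e6 e3)

section
variable {N : ℕ}

theorem rhoi_aux {w : Conf N → ℝ≥0∞} {D D1 : E3 → ℝ≥0∞} {m c : ℝ≥0∞} (i : Fin N) (y : E3)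
    (hb : ∀ x, w x ≤ m * prodD D x) (hDD1 : ∀ y, D y ≤ D1 y)
    (hchi : ∀ y, chi0 y ≤ c * D1 y) (x : Conf N) :
    w (Function.update x i y) * chi0 (x i) ≤ (m * c * D y) * prodD D1 x := by
  have h1 := hb (Function.update x i y)
  rw [prodD_update] at h1
  have h2 : ∏ k ∈ Finset.univ.erase i, D (x k) ≤ ∏ k ∈ Finset.univ.erase i, D1 (x k) :=
    Finset.prod_le_prod' fun k _ => hDD1 (x k)
  have h3 : w (Function.update x i y) ≤
      m * (D y * ∏ k ∈ Finset.univ.erase i, D1 (x k)) :=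
    h1.trans (mul_le_mul' le_rfl (mul_le_mul' le_rfl h2))
  refine (mul_le_mul' h3 (hchi (x i))).trans (le_of_eq ?_)
  rw [prodD_split D1 i x]
  ring

theorem rhoi_le {w : Conf N → ℝ≥0∞} (hd : Measurable (w)) {D D1 : E3 → ℝ≥0∞}
    (hD1m : Measurable D1) {m c : ℝ≥0∞} (i : Fin N) (y : E3)
    (hb : ∀ x, w x ≤ m * prodD D x) (hDD1 : ∀ y, D y ≤ D1 y)
    (hchi : ∀ y, chi0 y ≤ c * D1 y) :
    rhoi (w) i y ≤ (m * c * D y) * ∫⁻ x : Conf N, prodD D1 x := by
  have hm : Measurable fun x : Conf N => w (Function.update x i y) :=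
    (measurable_slice_comp hd i).comp (measurable_id.prodMk measurable_const)
  unfold rhoi
  rw [lintegral_mu i hm, ← lintegral_const_mul _ (measurable_prodD hD1m)]
  exact lintegral_mono (rhoi_aux i y hb hDD1 hchi)

theorem lintegral_prodD_lt (r1 : ℝ) (hr1 : 0 ≤ r1) :
    ∫⁻ x : Conf N, prodD ((ball (0 : E3) r1).indicator 1) x ≠ ∞ := by
  have h1 : ∫⁻ x : Conf N, prodD ((ball (0 : E3) r1).indicator 1) x ≤
      volume (closedBall (0 : Conf N) r1) := by
    rw [← lintegral_indicator_one isClosed_closedBall.measurableSet]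
    apply lintegral_mono
    intro x
    unfold prodD
    by_cases hx : x ∈ closedBall (0 : Conf N) r1
    · rw [indicator_of_mem hx]
      simp only [Pi.one_apply]
      apply Finset.prod_le_one'
      intro k _
      exact indicator_le_self' (fun _ _ => zero_le) (x k)
    · have h2 : ∃ k, x k ∉ ball (0 : E3) r1 := by
        by_contra hcon
        push Not at hcon
        apply hx
        rw [mem_closedBall_zero_iff, pi_norm_le_iff_of_nonneg hr1]
        intro k
        exact (mem_ball_zero_iff.1 (hcon k)).le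
      obtain ⟨k, hk⟩ := h2
      rw [Finset.prod_eq_zero (Finset.mem_univ k) (indicator_of_notMem hk _)]
      exact zero_le
  exact ne_top_of_le_ne_top measure_closedBall_lt_top.ne h1

theorem exists_rho_bound {ψ : Conf N → ℂ} (hc : Continuous ψ) (hs : HasCompactSupport ψ) :
    ∃ (C : ℝ≥0∞) (r : ℝ), C ≠ ∞ ∧ 0 < r ∧ ∀ y, rho (dens ψ) y ≤
      C * (ball (0 : E3) r).indicator 1 y := by
  obtain ⟨M, ρ0, hρ0, hb⟩ := exists_bound hc hs
  set D : E3 → ℝ≥0∞ := (ball (0 : E3) ρ0).indicator 1 with hD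
  set r1 : ℝ := max ρ0 1 with hr1
  set D1 : E3 → ℝ≥0∞ := (ball (0 : E3) r1).indicator 1 with hD1
  have hD1m : Measurable D1 := measurable_one.indicator measurableSet_ball
  have hDD1 : ∀ y, D y ≤ D1 y := by
    intro y
    exact indicator_le_indicator_of_subset (ball_subset_ball (le_max_left _ _))
      (fun _ => zero_le) y
  set c : ℝ≥0∞ := (ENNReal.ofReal (vB 1))⁻¹ with hcdef
  have hcne : c ≠ ∞ := ENNReal.inv_ne_top.2 (ENNReal.ofReal_pos.2 (vB_pos one_pos)).ne'
  have hchi : ∀ y, chi0 y ≤ c * D1 y := by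
    intro y
    unfold chi0
    gcongr
    exact indicator_le_indicator_of_subset (ball_subset_ball (le_max_right _ _))
      (fun _ => zero_le) y
  set I : ℝ≥0∞ := ∫⁻ x : Conf N, prodD D1 x with hI
  have hIne : I ≠ ∞ := lintegral_prodD_lt r1 (by positivity)
  have hi : ∀ (i : Fin N) (y : E3), rhoi (dens ψ) i y ≤ ENNReal.ofReal M * c * I * D y := by
    intro i y
    refine (rhoi_le (measurable_dens hc) hD1m i y hb hDD1 hchi).trans (le_of_eq ?_)
    rw [hI]; ring
  refine ⟨N * (ENNReal.ofReal M * c * I), ρ0, ?_, hρ0, fun y => ?_⟩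
  · exact ENNReal.mul_ne_top (ENNReal.natCast_ne_top N) (ENNReal.mul_ne_top
      (ENNReal.mul_ne_top ENNReal.ofReal_ne_top hcne) hIne)
  · unfold rho
    calc ∑ i, rhoi (dens ψ) i y ≤ ∑ _i : Fin N, ENNReal.ofReal M * c * I * D y :=
          Finset.sum_le_sum fun i _ => hi i y
      _ = _ := by
          rw [Finset.sum_const, Finset.card_univ, Fintype.card_fin, nsmul_eq_mul]; ring

theorem R3_ne_top {ψ : Conf N → ℂ} (hc : Continuous ψ) (hs : HasCompactSupport ψ) :
    R3 ψ ≠ ∞ := by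
  obtain ⟨C, r, hC, hr, hb⟩ := exists_rho_bound hc hs
  have h : R3 ψ ≤ ∫⁻ y, C ^ 3 * (ball (0 : E3) r).indicator 1 y := by
    apply lintegral_mono
    intro y
    refine (pow_le_pow_left' (hb y) 3).trans ?_
    rw [mul_pow]
    refine mul_le_mul' le_rfl ?_
    by_cases hy : y ∈ ball (0 : E3) r
    · rw [indicator_of_mem hy]; simp
    · rw [indicator_of_notMem hy]; simp
  refine ne_top_of_le_ne_top ?_ h
  rw [lintegral_const_mul _ (measurable_one.indicator measurableSet_ball),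
    lintegral_indicator_one measurableSet_ball]
  exact ENNReal.mul_ne_top (ENNReal.pow_ne_top hC) measure_ball_lt_top.ne

theorem R43_ne_top {ψ : Conf N → ℂ} (hc : Continuous ψ) (hs : HasCompactSupport ψ) :
    R43 ψ ≠ ∞ := by
  obtain ⟨C, r, hC, hr, hb⟩ := exists_rho_bound hc hs
  have h : R43 ψ ≤ ∫⁻ y, C ^ (4 / 3 : ℝ) * (ball (0 : E3) r).indicator 1 y := by
    apply lintegral_mono
    intro y
    refine (ENNReal.rpow_le_rpow (hb y) (by norm_num)).trans ?_
    rw [ENNReal.mul_rpow_of_nonneg _ _ (by norm_num)]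
    refine mul_le_mul' le_rfl ?_
    by_cases hy : y ∈ ball (0 : E3) r
    · rw [indicator_of_mem hy]; simp
    · rw [indicator_of_notMem hy]; simp
  refine ne_top_of_le_ne_top ?_ h
  rw [lintegral_const_mul _ (measurable_one.indicator measurableSet_ball),
    lintegral_indicator_one measurableSet_ball]
  exact ENNReal.mul_ne_top (ENNReal.rpow_ne_top_of_nonneg (by norm_num) hC)
    measure_ball_lt_top.ne

/-- duality for the one-particle density -/
theorem dual_bound {p q : ℝ} (hpq : p.HolderConjugate q) {w : Conf N → ℝ≥0∞} (hw : Measurable w)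
    {g : E3 → ℝ≥0∞} (hg : Measurable g) :
    ∫⁻ y, g y * rho w y ≤ (∫⁻ y, g y ^ q) ^ (1 / q) *
      ∑ i, ∫⁻ x, (∫⁻ y, w (Function.update x i y) ^ p) ^ (1 / p) ∂(mu i) := by
  rw [← sum_lintegral_eval hw hg, Finset.mul_sum]
  refine Finset.sum_le_sum fun i _ => ?_
  have hm : Measurable fun x : Conf N => g (x i) * w x := (hg.comp (measurable_pi_apply i)).mul hw
  have hmi : Measurable fun x : Conf N => (∫⁻ y, w (Function.update x i y) ^ p) ^ (1 / p) := by
    have : Measurable fun x : Conf N => ∫⁻ y, w (Function.update x i y) ^ p :=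
      ((measurable_slice_comp hw i).pow_const p).lintegral_prod_right'
    exact this.pow_const _
  rw [lintegral_disint i hm, ← lintegral_const_mul _ hmi]
  apply lintegral_mono
  intro x
  simp only [Function.update_self]
  have hwx : Measurable fun y => w (Function.update x i y) := hw.comp (measurable_update x)
  have h := ENNReal.lintegral_mul_le_Lp_mul_Lq (volume : Measure E3) hpq hwx.aemeasurable
    hg.aemeasurable
  simp only [Pi.mul_apply] at h
  rw [mul_comm]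
  refine le_trans (le_of_eq ?_) h
  congr 1
  ext y
  ring

end

end Pool.Agent.Lib_helper90c
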