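import Pool.Agent.Lib_helper90c.Weighted

/-!
# Integrated crude and fine estimates
-/

set_option autoImplicit false

open MeasureTheory Set Metric Filter
open scoped ENNReal NNReal Topology

namespace Pool.Agent.Lib_helper90c

section
variable {N K : ℕ}

/-- `∫ ρ³` -/
noncomputable def R3 (ψ : Conf N → ℂ) : ℝ≥0∞ := ∫⁻ y, rho (dens ψ) y ^ 3

/-- `∫ ρ^{4/3}` -/
noncomputable def R43 (ψ : Conf N → ℂ) : ℝ≥0∞ := ∫⁻ y, rho (dens ψ) y ^ (4 / 3 : ℝ)

/-- `∫_B ρ^{4/3}` -/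
noncomputable def X43 (ψ : Conf N → ℂ) (b : ℝ × E3) : ℝ≥0∞ :=
  ∫⁻ y in ball b.2 b.1, rho (dens ψ) y ^ (4 / 3 : ℝ)

theorem X3_le (ψ : Conf N → ℂ) (b : ℝ × E3) : X3 ψ b ≤ R3 ψ :=
  setLIntegral_le_lintegral _ _

theorem jensen43 {ψ : Conf N → ℂ} (hd : Measurable (dens ψ)) (b : ℝ × E3) (hb : 0 < b.1)
    {ν τ : ℝ} (hnu : nub ψ b = ENNReal.ofReal ν) (hτ0 : 0 ≤ τ) (hτ : τ ^ 3 * vB b.1 = ν) :
    ENNReal.ofReal (τ ^ 4 * vB b.1) ≤ X43 ψ b := by
  have hv := vB_pos hb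
  have hρ := measurable_rho hd
  have hpq : (4 / 3 : ℝ).HolderConjugate 4 := by
    rw [Real.holderConjugate_iff]; norm_num
  have h := ENNReal.lintegral_mul_le_Lp_mul_Lq (volume.restrict (ball b.2 b.1)) hpq
    (f := rho (dens ψ)) (g := fun _ => 1) hρ.aemeasurable measurable_const.aemeasurable
  simp only [Pi.mul_apply, mul_one, ENNReal.one_rpow, lintegral_one,
    Measure.restrict_apply_univ] at h
  rw [← nub_eq hd, hnu, volume_ball_eq _ hb.le] at h
  have e1 : (1 : ℝ) / (4 / 3) = 3 / 4 := by norm_num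
  rw [e1] at h
  have h2 := ENNReal.rpow_le_rpow h (show (0 : ℝ) ≤ 4 / 3 by norm_num)
  rw [ENNReal.mul_rpow_of_nonneg _ _ (by norm_num), ← ENNReal.rpow_mul, ← ENNReal.rpow_mul] at h2
  have e2 : (3 / 4 : ℝ) * (4 / 3) = 1 := by norm_num
  have e3 : (1 / 4 : ℝ) * (4 / 3) = 1 / 3 := by norm_num
  rw [e2, e3, ENNReal.rpow_one, ← hτ, ENNReal.ofReal_rpow_of_nonneg (by positivity)
    (by norm_num), ENNReal.ofReal_rpow_of_nonneg hv.le (by norm_num)] at h2
  have e4 : (τ ^ 3 * vB b.1) ^ (4 / 3 : ℝ) = τ ^ 4 * vB b.1 * vB b.1 ^ (1 / 3 : ℝ) := by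
    rw [Real.mul_rpow (by positivity) hv.le, ← Real.rpow_natCast τ 3, ← Real.rpow_mul hτ0,
      mul_assoc]
    congr 1
    · rw [← Real.rpow_natCast τ 4]; norm_num
    · nth_rewrite 2 [← Real.rpow_one (vB b.1)]
      rw [← Real.rpow_add hv]; norm_num
  rw [e4, ENNReal.ofReal_mul (by positivity)] at h2
  have hne : ENNReal.ofReal (vB b.1 ^ (1 / 3 : ℝ)) ≠ 0 :=
    (ENNReal.ofReal_pos.2 (by positivity)).ne'
  exact (ENNReal.mul_le_mul_iff_left hne ENNReal.ofReal_ne_top).1 h2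

theorem crude_total {κ z : ℝ} (hκ : 0 < κ) (hz : 0 < z) (R : Fin K → E3)
    (hR : Function.Injective R) {ψ : Conf N → ℂ} (h : Trial ψ) (hX : R3 ψ ≠ ∞) :
    ENNReal.ofReal z * Aen R ψ ≤ Pee ψ + ENNReal.ofReal (z ^ 2) * ENNReal.ofReal (rep R) +
      ENNReal.ofReal (κ * (N + z ^ 2 * K) / 2) +
      (ENNReal.ofReal (cF1 z * (4 * Real.pi / 3 * mC 0) * κ) * K +
        ENNReal.ofReal (cF1 z * (4 * Real.pi / 3 * mC 6) * (κ / κ ^ 6)) * R3 ψ) := by
  have hd := measurable_dens h.smooth.continuous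
  have hρ3 : Measurable fun y => rho (dens ψ) y ^ 3 := (measurable_rho hd).pow_const 3
  have hc := cF1_nonneg z
  have hg1 : Measurable fun r : ℝ => ENNReal.ofReal (cF1 z * r⁻¹) :=
    (measurable_inv.const_mul _).ennreal_ofReal
  have hg2 : Measurable fun r : ℝ => ENNReal.ofReal (cF1 z * r ^ 5) := by fun_prop
  have hk := lintegral_bm_kb κ hg1 R
  have hX3 := lintegral_bm_ball κ hg2 hρ3
  have hmk : Measurable fun b : ℝ × E3 => ENNReal.ofReal (cF1 z * b.1⁻¹) * (kb R b : ℝ≥0∞) :=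
    (hg1.comp measurable_fst).mul hk.1
  have hmX : Measurable fun b : ℝ × E3 => ENNReal.ofReal (cF1 z * b.1 ^ 5) * X3 ψ b :=
    (hg2.comp measurable_fst).mul (measurable_ball_lintegral hρ3)
  have h1 := loc_main hκ hz.le R hR h
    (fun b => ENNReal.ofReal (cF1 z * b.1⁻¹) * kb R b +
        ENNReal.ofReal (cF1 z * b.1 ^ 5) * X3 ψ b) (hmk.add hmX) (by
      filter_upwards [ae_bm_pos κ] with b hb
      refine (crude_ball hz R hR hd b hb (ne_top_of_le_ne_top hX (X3_le ψ b))).trans ?_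
      gcongr
      exact le_add_self)
  rw [lintegral_add_left hmk, hk.2, om_moment_inv hκ hc] at h1
  have e : ∫⁻ b, ENNReal.ofReal (cF1 z * b.1 ^ 5) * X3 ψ b ∂(bm κ) =
      ENNReal.ofReal (cF1 z * (4 * Real.pi / 3 * mC 6) * (κ / κ ^ 6)) * R3 ψ := by
    unfold X3 R3
    rw [hX3, om_moment_pow hκ hc 5]
  rw [e] at h1
  exact h1

/-- fine estimate in all balls -/
theorem fine_ball {z δ' r0 M Rm : ℝ} (hz : 0 < z) (hr0 : 0 < r0) (hδ' : 0 ≤ δ')
    (hlow : ∀ r, r0 ≤ r → ∀ (n : ℕ) (p : Fin n → E3), Function.Injective p →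
      (∀ i, p i ∈ ball (0 : E3) r) → (estar z - δ') * vB r ≤ jel z r p)
    (hM : 2 ≤ M) (hRm : 0 < Rm) (R : Fin K → E3) (hR : Function.Injective R) {ψ : Conf N → ℂ}
    (h : Trial ψ) (hX : R3 ψ ≠ ∞) (b : ℝ × E3) (hb : 0 < b.1) :
    ENNReal.ofReal z * AbN R ψ b ≤ Pb ψ b + ENNReal.ofReal (z ^ 2) * Ub R b +
      (ENNReal.ofReal ((192 * z + 480) * M ^ 2 * Rm) * Tb ψ b +
        (ENNReal.ofReal (δ' - estar z) * X43 ψ b +
        (ENNReal.ofReal (cN z r0 * b.1⁻¹) * nub ψ b +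
        (ENNReal.ofReal (cF2 z / M * b.1 ^ 5) * X3 ψ b +
        (ENNReal.ofReal (cF1 z * Rm⁻¹) * kb R b +
        ENNReal.ofReal (cF1 z * Rm⁻¹ * b.1 ^ 6) * X3 ψ b))))) := by
  have hd := measurable_dens h.smooth.continuous
  have hXb : X3 ψ b ≠ ∞ := ne_top_of_le_ne_top hX (X3_le ψ b)
  have hc1 := cF1_nonneg z
  have hc2 := cF2_nonneg hz
  have hcN := cN_nonneg hz.le hr0.le
  have he := estar_nonpos hz
  have hM0 : 0 < M := by linarith
  rcases le_or_gt b.1 Rm with hbR | hbR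
  · -- finite number
    have hnf : nub ψ b ≠ ∞ := by
      refine ne_top_of_le_ne_top (ENNReal.natCast_ne_top N) ?_
      rw [nub_eq hd, ← lintegral_rho h]
      exact setLIntegral_le_lintegral _ _
    set ν := (nub ψ b).toReal with hν
    have hν0 : 0 ≤ ν := ENNReal.toReal_nonneg
    have hnu : nub ψ b = ENNReal.ofReal ν := (ENNReal.ofReal_toReal hnf).symm
    by_cases hdense : M < (kb R b : ℝ) ∨ M < 2 * ν
    · refine (dense_ball hz hM R hR hd b hb hXb hnu hdense).trans ?_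
      calc ENNReal.ofReal (z ^ 2) * Ub R b + ENNReal.ofReal (cF2 z / M * b.1 ^ 5) * X3 ψ b
          ≤ (Pb ψ b + ENNReal.ofReal (z ^ 2) * Ub R b) +
            (ENNReal.ofReal ((192 * z + 480) * M ^ 2 * Rm) * Tb ψ b +
            (ENNReal.ofReal (δ' - estar z) * X43 ψ b +
            (ENNReal.ofReal (cN z r0 * b.1⁻¹) * nub ψ b +
            ENNReal.ofReal (cF2 z / M * b.1 ^ 5) * X3 ψ b))) := by
            gcongr
            · exact le_add_self
            · exact le_add_left (le_add_left le_add_self)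
        _ ≤ _ := by
            gcongr
            exact le_self_add
    · push Not at hdense
      obtain ⟨hk, hν2⟩ := hdense
      have hv := vB_pos hb
      set τ : ℝ := (ν / vB b.1) ^ (1 / 3 : ℝ) with hτ
      have hτ0 : 0 ≤ τ := by positivity
      have hτ3 : τ ^ 3 * vB b.1 = ν := by
        have : τ ^ 3 = ν / vB b.1 := by
          rw [hτ, ← Real.rpow_natCast, ← Real.rpow_mul (by positivity)]; norm_num
        rw [this]; field_simp
      have h1 := main_ball hz hr0 hδ' hlow (by linarith) R hR h b hb hν0 hν2 hnu hk hτ0 hτ3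
      refine h1.trans ?_
      have hJ := jensen43 hd b hb hnu hτ0 hτ3
      have hde : 0 ≤ δ' - estar z := by linarith
      have e1 : ENNReal.ofReal ((δ' - estar z) * (τ ^ 4 * vB b.1)) ≤
          ENNReal.ofReal (δ' - estar z) * X43 ψ b := by
        rw [ENNReal.ofReal_mul hde]
        gcongr
      have e2 : ENNReal.ofReal (cN z r0 * (ν / b.1)) =
          ENNReal.ofReal (cN z r0 * b.1⁻¹) * nub ψ b := by
        rw [hnu, ← ENNReal.ofReal_mul (by positivity)]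
        congr 1
        field_simp
      have e3 : ENNReal.ofReal ((192 * z + 480) * M ^ 2 * b.1) * Tb ψ b ≤
          ENNReal.ofReal ((192 * z + 480) * M ^ 2 * Rm) * Tb ψ b := by
        gcongr
      rw [e2]
      refine add_le_add le_rfl ?_
      rw [add_assoc]
      exact add_le_add e3 (add_le_add e1 le_self_add)
  · -- tail
    refine (crude_ball hz R hR hd b hb hXb).trans ?_
    have e1 : ENNReal.ofReal (cF1 z * b.1⁻¹) ≤ ENNReal.ofReal (cF1 z * Rm⁻¹) := by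
      gcongr
    have e2 : ENNReal.ofReal (cF1 z * b.1 ^ 5) ≤ ENNReal.ofReal (cF1 z * Rm⁻¹ * b.1 ^ 6) := by
      apply ENNReal.ofReal_le_ofReal
      rw [mul_assoc]
      refine mul_le_mul_of_nonneg_left ?_ hc1
      rw [inv_mul_eq_div, le_div_iff₀ hRm]
      have : b.1 ^ 6 = b.1 ^ 5 * b.1 := by ring
      rw [this]
      gcongr
    calc ENNReal.ofReal (z ^ 2) * Ub R b +
          (ENNReal.ofReal (cF1 z * b.1⁻¹) * kb R b + ENNReal.ofReal (cF1 z * b.1 ^ 5) * X3 ψ b)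
        ≤ (Pb ψ b + ENNReal.ofReal (z ^ 2) * Ub R b) +
          (ENNReal.ofReal (cF1 z * Rm⁻¹) * kb R b +
            ENNReal.ofReal (cF1 z * Rm⁻¹ * b.1 ^ 6) * X3 ψ b) := by
          gcongr
          exact le_add_self
      _ ≤ _ := add_le_add le_rfl (le_add_left (le_add_left (le_add_left
          (le_add_left le_rfl))))

theorem fine_total {κ z δ' r0 M Rm : ℝ} (hκ : 0 < κ) (hz : 0 < z) (hr0 : 0 < r0) (hδ' : 0 ≤ δ')
    (hlow : ∀ r, r0 ≤ r → ∀ (n : ℕ) (p : Fin n → E3), Function.Injective p →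
      (∀ i, p i ∈ ball (0 : E3) r) → (estar z - δ') * vB r ≤ jel z r p)
    (hM : 2 ≤ M) (hRm : 0 < Rm) (R : Fin K → E3) (hR : Function.Injective R) {ψ : Conf N → ℂ}
    (h : Trial ψ) (hX : R3 ψ ≠ ∞) :
    ENNReal.ofReal z * Aen R ψ ≤ Pee ψ + ENNReal.ofReal (z ^ 2) * ENNReal.ofReal (rep R) +
      ENNReal.ofReal (κ * (N + z ^ 2 * K) / 2) +
      (ENNReal.ofReal ((192 * z + 480) * M ^ 2 * Rm) * kin ψ +
        (ENNReal.ofReal (δ' - estar z) * R43 ψ +
        (ENNReal.ofReal (cN z r0 * (4 * Real.pi / 3 * mC 0) * κ) * N +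
        (ENNReal.ofReal (cF2 z / M * (4 * Real.pi / 3 * mC 6) * (κ / κ ^ 6)) * R3 ψ +
        (ENNReal.ofReal (cF1 z * Rm⁻¹) * K +
        ENNReal.ofReal (cF1 z * Rm⁻¹ * (4 * Real.pi / 3 * mC 7) * (κ / κ ^ 7)) * R3 ψ))))) := by
  have hd := measurable_dens h.smooth.continuous
  have hρ := measurable_rho hd
  have hρ3 : Measurable fun y => rho (dens ψ) y ^ 3 := hρ.pow_const 3
  have hρ43 : Measurable fun y => rho (dens ψ) y ^ (4 / 3 : ℝ) := hρ.pow_const _
  have hc1 := cF1_nonneg z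
  have hc2 := cF2_nonneg hz
  have hcN := cN_nonneg hz.le hr0.le
  have hM0 : 0 < M := by linarith
  -- measurability
  have hT := lintegral_Tb hκ h.smooth
  have hg3 : Measurable fun r : ℝ => ENNReal.ofReal (cN z r0 * r⁻¹) :=
    (measurable_inv.const_mul _).ennreal_ofReal
  have hg4 : Measurable fun r : ℝ => ENNReal.ofReal (cF2 z / M * r ^ 5) := by fun_prop
  have hg6 : Measurable fun r : ℝ => ENNReal.ofReal (cF1 z * Rm⁻¹ * r ^ 6) := by fun_prop
  have hk := lintegral_bm_kb κ (g := fun _ => 1) measurable_const R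
  have m1 : Measurable fun b : ℝ × E3 =>
      ENNReal.ofReal ((192 * z + 480) * M ^ 2 * Rm) * Tb ψ b := hT.1.const_mul _
  have m2 : Measurable fun b : ℝ × E3 => ENNReal.ofReal (δ' - estar z) * X43 ψ b :=
    (measurable_ball_lintegral hρ43).const_mul _
  have m3 : Measurable fun b : ℝ × E3 => ENNReal.ofReal (cN z r0 * b.1⁻¹) * nub ψ b := by
    simp only [nub_eq hd]
    exact (hg3.comp measurable_fst).mul (measurable_ball_lintegral hρ)
  have m4 : Measurable fun b : ℝ × E3 => ENNReal.ofReal (cF2 z / M * b.1 ^ 5) * X3 ψ b :=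
    (hg4.comp measurable_fst).mul (measurable_ball_lintegral hρ3)
  have m5 : Measurable fun b : ℝ × E3 => ENNReal.ofReal (cF1 z * Rm⁻¹) * (kb R b : ℝ≥0∞) :=
    hk.1.const_mul _
  have m6 : Measurable fun b : ℝ × E3 => ENNReal.ofReal (cF1 z * Rm⁻¹ * b.1 ^ 6) * X3 ψ b :=
    (hg6.comp measurable_fst).mul (measurable_ball_lintegral hρ3)
  have h1 := loc_main hκ hz.le R hR h _
    (m1.add (m2.add (m3.add (m4.add (m5.add m6))))) (by
      filter_upwards [ae_bm_pos κ] with b hb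
      exact fine_ball hz hr0 hδ' hlow hM hRm R hR h hX b hb)
  simp only [Pi.add_apply] at h1
  rw [lintegral_add_left m1, lintegral_add_left m2, lintegral_add_left m3, lintegral_add_left m4,
    lintegral_add_left m5, lintegral_const_mul _ hT.1, hT.2] at h1
  have i2 : ∫⁻ b, ENNReal.ofReal (δ' - estar z) * X43 ψ b ∂(bm κ) =
      ENNReal.ofReal (δ' - estar z) * R43 ψ := by
    unfold X43 R43
    rw [lintegral_const_mul _ (measurable_ball_lintegral hρ43)]
    congr 1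
    have := lintegral_bm_ball κ (g := fun _ => 1) measurable_const hρ43
    simp only [one_mul] at this
    rw [this]
    have h2 := lintegral_om_vB hκ (A := 1) zero_le_one
    simp only [one_mul] at h2
    rw [h2, ENNReal.ofReal_one, one_mul]
  have i3 : ∫⁻ b, ENNReal.ofReal (cN z r0 * b.1⁻¹) * nub ψ b ∂(bm κ) =
      ENNReal.ofReal (cN z r0 * (4 * Real.pi / 3 * mC 0) * κ) * N := by
    simp only [nub_eq hd]
    have := lintegral_bm_ball κ hg3 hρ
    rw [this, om_moment_inv hκ hcN, lintegral_rho h]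
  have i4 : ∫⁻ b, ENNReal.ofReal (cF2 z / M * b.1 ^ 5) * X3 ψ b ∂(bm κ) =
      ENNReal.ofReal (cF2 z / M * (4 * Real.pi / 3 * mC 6) * (κ / κ ^ 6)) * R3 ψ := by
    unfold X3 R3
    rw [lintegral_bm_ball κ hg4 hρ3, om_moment_pow hκ (by positivity) 5]
  have i5 : ∫⁻ b, ENNReal.ofReal (cF1 z * Rm⁻¹) * (kb R b : ℝ≥0∞) ∂(bm κ) =
      ENNReal.ofReal (cF1 z * Rm⁻¹) * K := by
    rw [lintegral_const_mul _ hk.1]
    congr 1
    have h2 := hk.2
    simp only [one_mul] at h2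
    rw [h2]
    have h3 := lintegral_om_vB hκ (A := 1) zero_le_one
    simp only [one_mul] at h3
    rw [h3, ENNReal.ofReal_one, one_mul]
  have i6 : ∫⁻ b, ENNReal.ofReal (cF1 z * Rm⁻¹ * b.1 ^ 6) * X3 ψ b ∂(bm κ) =
      ENNReal.ofReal (cF1 z * Rm⁻¹ * (4 * Real.pi / 3 * mC 7) * (κ / κ ^ 7)) * R3 ψ := by
    unfold X3 R3
    rw [lintegral_bm_ball κ hg6 hρ3, om_moment_pow hκ (by positivity) 6]
  rw [i2, i3, i4, i5, i6] at h1
  exact h1

end

end Pool.Agent.Lib_helper90c
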