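import Pool.Agent.Lib_helper90c.OneVar

/-!
# Two-body mean-field estimate in a ball
-/

set_option autoImplicit false

open MeasureTheory Set Metric Filter
open scoped ENNReal NNReal Topology

namespace Pool.Agent.Lib_helper90c

section
variable {N : ℕ}

/-- number of particles in the ball -/
noncomputable def nb (b : ℝ × E3) (x : Conf N) : ℕ :=
  ∑ i, (ball b.2 b.1).indicator (1 : E3 → ℕ) (x i)

theorem measurable_nb (b : ℝ × E3) : Measurable (nb (N := N) b) := by
  unfold nb
  exact Finset.measurable_sum _ fun i _ =>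
    (measurable_one.indicator measurableSet_ball).comp (measurable_pi_apply i)

theorem sum_ib_nb (b : ℝ × E3) (x : Conf N) : ∑ i, ib b (x i) = (nb b x : ℝ≥0∞) := by
  unfold nb
  push_cast
  refine Finset.sum_congr rfl fun i _ => ?_
  unfold ib
  by_cases h : x i ∈ ball b.2 b.1
  · rw [indicator_of_mem h, indicator_of_mem h]; simp
  · rw [indicator_of_notMem h, indicator_of_notMem h]; simp

/-- truncation weight -/
noncomputable def lam (M : ℝ) (n : ℕ) : ℝ := if (n : ℝ) ≤ M then 1 else M / n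

theorem lam_nonneg {M : ℝ} (hM : 0 ≤ M) (n : ℕ) : 0 ≤ lam M n := by
  unfold lam; split_ifs <;> positivity

theorem lam_le_one {M : ℝ} (n : ℕ) : lam M n ≤ 1 := by
  unfold lam
  split_ifs with h
  · exact le_rfl
  · push Not at h
    by_cases hn : (n : ℝ) = 0
    · rw [hn]; simp
    · have hn0 : (0 : ℝ) < n := lt_of_le_of_ne (Nat.cast_nonneg _) (Ne.symm hn)
      rw [div_le_one hn0]; exact h.le

theorem lam_mul_le {M : ℝ} (n : ℕ) (hM : 0 ≤ M) : lam M n * n ≤ M := by
  unfold lam
  split_ifs with h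
  · rw [one_mul]; exact h
  · by_cases hn : (n : ℝ) = 0
    · rw [hn]; simp [hM]
    · rw [div_mul_cancel₀ _ hn]

theorem lam_key {M ν : ℝ} (hν0 : 0 ≤ ν) (hν : 2 * ν ≤ M) (n : ℕ) :
    2 * ν * n ≤ lam M n * ((n : ℝ) ^ 2 - n) + n + ν ^ 2 := by
  unfold lam
  split_ifs with h
  · nlinarith [sq_nonneg ((n : ℝ) - ν)]
  · push Not at h
    have hn0 : (0 : ℝ) < n := lt_of_le_of_lt (by linarith) h
    have e : M / n * ((n : ℝ) ^ 2 - n) = M * n - M := by field_simp
    rw [e]
    nlinarith [sq_nonneg ν]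

/-- the weight as a function of the configuration -/
noncomputable def lamx (M : ℝ) (b : ℝ × E3) (x : Conf N) : ℝ≥0∞ := ENNReal.ofReal (lam M (nb b x))

theorem measurable_lamx (M : ℝ) (b : ℝ × E3) : Measurable (lamx (N := N) M b) := by
  unfold lamx
  have h : Measurable fun n : ℕ => ENNReal.ofReal (lam M n) := measurable_from_top
  exact h.comp (measurable_nb b)

theorem nb_update (b : ℝ × E3) (x : Conf N) (i : Fin N) {y y' : E3} (hy : y ∈ ball b.2 b.1)
    (hy' : y' ∈ ball b.2 b.1) : nb b (Function.update x i y) = nb b (Function.update x i y') := by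
  unfold nb
  refine Finset.sum_congr rfl fun k _ => ?_
  by_cases hk : k = i
  · subst hk
    rw [Function.update_self, Function.update_self, indicator_of_mem hy, indicator_of_mem hy']
    rfl
  · rw [Function.update_of_ne hk, Function.update_of_ne hk]

theorem lamx_const (M : ℝ) (b : ℝ × E3) (hb : 0 < b.1) (x : Conf N) (i : Fin N) :
    ∀ y ∈ ball b.2 b.1, lamx M b (Function.update x i y) = lamx M b (Function.update x i b.2) := by
  intro y hy
  unfold lamx
  rw [nb_update b x i hy (mem_ball_self hb)]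

theorem weight_const (M : ℝ) (b : ℝ × E3) (hb : 0 < b.1) {i j : Fin N} (hij : i ≠ j) :
    ∀ x : Conf N, ∃ α, ∀ y ∈ ball b.2 b.1,
      (fun x : Conf N => ib b (x j) * lamx M b x) (Function.update x i y) = α := by
  intro x
  refine ⟨ib b (x j) * lamx M b (Function.update x i b.2), fun y hy => ?_⟩
  simp only [Function.update_of_ne hij.symm]
  rw [lamx_const M b hb x i y hy]

/-- off-diagonal double sum -/
noncomputable def offS (g : Fin N → Fin N → ℝ≥0∞) : ℝ≥0∞ := ∑ i, ∑ j, if i = j then 0 else g i j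

theorem offS_mono {g h : Fin N → Fin N → ℝ≥0∞} (H : ∀ i j, i ≠ j → g i j ≤ h i j) :
    offS g ≤ offS h := by
  unfold offS
  refine Finset.sum_le_sum fun i _ => Finset.sum_le_sum fun j _ => ?_
  split_ifs with hij
  · exact le_rfl
  · exact H i j hij

theorem offS_comm (g : Fin N → Fin N → ℝ≥0∞) : offS (fun i j => g j i) = offS g := by
  unfold offS
  rw [Finset.sum_comm]
  refine Finset.sum_congr rfl fun i _ => Finset.sum_congr rfl fun j _ => ?_
  by_cases h : i = j
  · subst h; simp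
  · rw [if_neg h, if_neg (Ne.symm h)]

theorem offS_add (g h : Fin N → Fin N → ℝ≥0∞) :
    offS (fun i j => g i j + h i j) = offS g + offS h := by
  unfold offS
  simp only [← Finset.sum_add_distrib]
  refine Finset.sum_congr rfl fun i _ => Finset.sum_congr rfl fun j _ => ?_
  split_ifs <;> simp

theorem offS_mul (a : ℝ≥0∞) (g : Fin N → Fin N → ℝ≥0∞) :
    offS (fun i j => a * g i j) = a * offS g := by
  unfold offS
  simp only [Finset.mul_sum]
  refine Finset.sum_congr rfl fun i _ => Finset.sum_congr rfl fun j _ => ?_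
  split_ifs <;> simp

/-- weighted pair quantities -/
noncomputable def nij (M : ℝ) (b : ℝ × E3) (ψ : Conf N → ℂ) (i j : Fin N) : ℝ≥0∞ :=
  ∫⁻ x, ib b (x i) * (ib b (x j) * lamx M b x) * dens ψ x

noncomputable def qij (M : ℝ) (b : ℝ × E3) (ψ : Conf N → ℂ) (i j : Fin N) : ℝ≥0∞ :=
  ∫⁻ x, ib b (x i) * (ib b (x j) * lamx M b x) * (ENNReal.ofReal ‖x i - x j‖⁻¹ * dens ψ x)

noncomputable def tij (M : ℝ) (b : ℝ × E3) (ψ : Conf N → ℂ) (i j : Fin N) : ℝ≥0∞ :=
  ∫⁻ x, ib b (x i) * (ib b (x j) * lamx M b x) * kd ψ i x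

theorem measurable_weight (M : ℝ) (b : ℝ × E3) (j : Fin N) :
    Measurable fun x : Conf N => ib b (x j) * lamx M b x :=
  (measurable_ib_x b j).mul (measurable_lamx M b)

theorem pair_bound (M : ℝ) {ψ : Conf N → ℂ} (h : ContDiff ℝ (⊤ : ℕ∞) ψ) (b : ℝ × E3)
    (hb : 0 < b.1) {δ : ℝ} (hδ : 0 < δ) {i j : Fin N} (hij : i ≠ j) :
    ENNReal.ofReal (selfE b.1) * nij M b ψ i j ≤
      ENNReal.ofReal (((1 + δ) * vB b.1) ^ 2) * qij M b ψ i j +
      (ENNReal.ofReal ((1 + δ) * vB b.1 * ((1 + δ⁻¹) * (128 * Real.pi * b.1 ^ 4))) *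
        tij M b ψ i j +
      ENNReal.ofReal ((1 + δ⁻¹) * (512 * Real.pi ^ 2 * b.1 ^ 7)) * tij M b ψ j i) := by
  have hd := measurable_dens h.continuous
  have hv := vB_nonneg hb.le
  have hw1 := measurable_weight (N := N) M b j
  have hw2 := measurable_weight (N := N) M b i
  have hi := measurable_ib_x (N := N) b i
  have hj := measurable_ib_x (N := N) b j
  have hm1 : Measurable fun x : Conf N => ENNReal.ofReal ‖x i - x j‖⁻¹ * dens ψ x :=
    (measurable_inv_pi i j).ennreal_ofReal.mul hd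
  have hbp : Measurable fun x : Conf N => ENNReal.ofReal (ballPot b.1 ‖x j - b.2‖) * dens ψ x :=
    ((measurable_ballPot b.1).comp ((measurable_pi_apply j).sub_const _).norm).ennreal_ofReal.mul
      hd
  have s1 := nbL_C h i b hb hδ hw1 (weight_const M b hb hij) (Y := fun x => x j)
    (measurable_pi_apply j) (fun x y => Function.update_of_ne hij.symm _ _)
  have s2 := nbL_phi h j b hb hδ hw2 (weight_const M b hb hij.symm)
  set Φ : ℝ≥0∞ := ∫⁻ x : Conf N, ib b (x i) * (ib b (x j) * lamx M b x) *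
    (ENNReal.ofReal (ballPot b.1 ‖x j - b.2‖) * dens ψ x) with hΦ
  have e1 : ∫⁻ x : Conf N, ib b (x i) * (ib b (x j) * lamx M b x) *
      (ENNReal.ofReal ((1 + δ) * vB b.1) * (ENNReal.ofReal ‖x i - x j‖⁻¹ * dens ψ x) +
        ENNReal.ofReal ((1 + δ⁻¹) * (128 * Real.pi * b.1 ^ 4)) * kd ψ i x) =
      ENNReal.ofReal ((1 + δ) * vB b.1) * qij M b ψ i j +
      ENNReal.ofReal ((1 + δ⁻¹) * (128 * Real.pi * b.1 ^ 4)) * tij M b ψ i j := by
    unfold qij tij
    have mA : Measurable fun x : Conf N => ib b (x i) * (ib b (x j) * lamx M b x) *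
        (ENNReal.ofReal ‖x i - x j‖⁻¹ * dens ψ x) := (hi.mul hw1).mul hm1
    have mB : Measurable fun x : Conf N => ib b (x i) * (ib b (x j) * lamx M b x) *
        kd ψ i x := (hi.mul hw1).mul (measurable_kd h i)
    rw [← lintegral_const_mul _ mA, ← lintegral_const_mul _ mB,
      ← lintegral_add_left (mA.const_mul _)]
    congr 1
    ext x
    ring
  have e2 : ∫⁻ x : Conf N, ib b (x j) * (ib b (x i) * lamx M b x) *
      (ENNReal.ofReal ((1 + δ) * vB b.1) *
        (ENNReal.ofReal (ballPot b.1 ‖x j - b.2‖) * dens ψ x) +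
        ENNReal.ofReal ((1 + δ⁻¹) * (512 * Real.pi ^ 2 * b.1 ^ 7)) * kd ψ j x) =
      ENNReal.ofReal ((1 + δ) * vB b.1) * Φ +
      ENNReal.ofReal ((1 + δ⁻¹) * (512 * Real.pi ^ 2 * b.1 ^ 7)) * tij M b ψ j i := by
    unfold tij
    have mA : Measurable fun x : Conf N => ib b (x i) * (ib b (x j) * lamx M b x) *
        (ENNReal.ofReal (ballPot b.1 ‖x j - b.2‖) * dens ψ x) := (hi.mul hw1).mul hbp
    have mB : Measurable fun x : Conf N => ib b (x j) * (ib b (x i) * lamx M b x) *
        kd ψ j x := (hj.mul hw2).mul (measurable_kd h j)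
    rw [hΦ, ← lintegral_const_mul _ mA, ← lintegral_const_mul _ mB,
      ← lintegral_add_left (mA.const_mul _)]
    congr 1
    ext x
    ring
  have e3 : ∫⁻ x : Conf N, ib b (x j) * (ib b (x i) * lamx M b x) *
      (ENNReal.ofReal (selfE b.1) * dens ψ x) = ENNReal.ofReal (selfE b.1) * nij M b ψ i j := by
    unfold nij
    have mA : Measurable fun x : Conf N => ib b (x i) * (ib b (x j) * lamx M b x) *
        dens ψ x := (hi.mul hw1).mul hd
    rw [← lintegral_const_mul _ mA]
    congr 1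
    ext x
    ring
  rw [e1] at s1
  rw [e2, e3] at s2
  calc ENNReal.ofReal (selfE b.1) * nij M b ψ i j
      ≤ ENNReal.ofReal ((1 + δ) * vB b.1) * Φ +
        ENNReal.ofReal ((1 + δ⁻¹) * (512 * Real.pi ^ 2 * b.1 ^ 7)) * tij M b ψ j i := s2
    _ ≤ ENNReal.ofReal ((1 + δ) * vB b.1) * (ENNReal.ofReal ((1 + δ) * vB b.1) * qij M b ψ i j +
        ENNReal.ofReal ((1 + δ⁻¹) * (128 * Real.pi * b.1 ^ 4)) * tij M b ψ i j) +
        ENNReal.ofReal ((1 + δ⁻¹) * (512 * Real.pi ^ 2 * b.1 ^ 7)) * tij M b ψ j i := by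
        gcongr
    _ = _ := by
        have e4 : ENNReal.ofReal (((1 + δ) * vB b.1) ^ 2) =
            ENNReal.ofReal ((1 + δ) * vB b.1) * ENNReal.ofReal ((1 + δ) * vB b.1) := by
          rw [← ENNReal.ofReal_mul (by positivity), ← sq]
        rw [e4, ENNReal.ofReal_mul (p := (1 + δ) * vB b.1)
            (q := (1 + δ⁻¹) * (128 * Real.pi * b.1 ^ 4)) (by positivity)]
        ring

/-- the pair count -/
theorem offS_ib (b : ℝ × E3) (x : Conf N) :
    offS (fun i j => ib b (x i) * ib b (x j)) + (nb b x : ℝ≥0∞) = (nb b x : ℝ≥0∞) ^ 2 := by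
  rw [← sum_ib_nb, sq, Finset.sum_mul_sum]
  unfold offS
  rw [← Finset.sum_add_distrib]
  refine Finset.sum_congr rfl fun i _ => ?_
  have h1 : ∑ j, ib b (x i) * ib b (x j) =
      ∑ j, ((if i = j then 0 else ib b (x i) * ib b (x j)) +
        (if i = j then ib b (x i) * ib b (x j) else 0)) := by
    refine Finset.sum_congr rfl fun j _ => ?_
    split_ifs <;> simp
  rw [h1, Finset.sum_add_distrib]
  congr 1
  simp only [Finset.sum_ite_eq, Finset.mem_univ, if_true]
  unfold ib
  by_cases h : x i ∈ ball b.2 b.1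
  · rw [indicator_of_mem h]; simp
  · rw [indicator_of_notMem h]; simp

theorem offS_ib_eq (b : ℝ × E3) (x : Conf N) :
    offS (fun i j => ib b (x i) * ib b (x j)) =
      ENNReal.ofReal ((nb b x : ℝ) ^ 2 - nb b x) := by
  have h := offS_ib b x
  have h1 : (0 : ℝ) ≤ (nb b x : ℝ) ^ 2 - nb b x := by
    rcases Nat.eq_zero_or_pos (nb b x) with h0 | h0
    · rw [h0]; simp
    · have : (1 : ℝ) ≤ nb b x := by exact_mod_cast h0
      nlinarith
  have h2 : ENNReal.ofReal ((nb b x : ℝ) ^ 2 - nb b x) + (nb b x : ℝ≥0∞) =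
      (nb b x : ℝ≥0∞) ^ 2 := by
    rw [← ENNReal.ofReal_natCast, ← ENNReal.ofReal_add h1 (Nat.cast_nonneg _),
      ← ENNReal.ofReal_pow (Nat.cast_nonneg _)]
    congr 1; ring
  have h3 := h.trans h2.symm
  exact (ENNReal.add_left_inj (ENNReal.natCast_ne_top _)).1 h3

theorem measurable_offS_ib (b : ℝ × E3) :
    Measurable fun x : Conf N => offS (fun i j => ib b (x i) * ib b (x j)) := by
  unfold offS
  refine Finset.measurable_sum _ fun i _ => Finset.measurable_sum _ fun j _ => ?_
  by_cases h : i = j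
  · simp only [h, if_true]; exact measurable_const
  · simp only [h, if_false]
    exact (measurable_ib_x b i).mul (measurable_ib_x b j)

theorem offS_nij (M : ℝ) (b : ℝ × E3) {ψ : Conf N → ℂ} (hd : Measurable (dens ψ)) :
    offS (nij M b ψ) =
      ∫⁻ x, lamx M b x * offS (fun i j => ib b (x i) * ib b (x j)) * dens ψ x := by
  have hm : ∀ i j : Fin N, Measurable fun x : Conf N =>
      if i = j then 0 else ib b (x i) * (ib b (x j) * lamx M b x) * dens ψ x := by
    intro i j
    by_cases h : i = j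
    · simp only [h, if_true]; exact measurable_const
    · simp only [h, if_false]
      exact ((measurable_ib_x b i).mul (measurable_weight M b j)).mul hd
  have e : ∀ x : Conf N, lamx M b x * offS (fun i j => ib b (x i) * ib b (x j)) * dens ψ x =
      ∑ i, ∑ j, if i = j then 0 else ib b (x i) * (ib b (x j) * lamx M b x) * dens ψ x := by
    intro x
    unfold offS
    simp only [Finset.mul_sum, Finset.sum_mul]
    refine Finset.sum_congr rfl fun i _ => Finset.sum_congr rfl fun j _ => ?_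
    split_ifs
    · simp
    · ring
  simp only [e]
  rw [lintegral_finsetSum _ fun i _ => Finset.measurable_sum _ fun j _ => hm i j]
  unfold offS nij
  refine Finset.sum_congr rfl fun i _ => ?_
  rw [lintegral_finsetSum _ fun j _ => hm i j]
  refine Finset.sum_congr rfl fun j _ => ?_
  by_cases h : i = j
  · simp only [h, if_true]; simp
  · simp only [h, if_false]

/-- lower bound on the weighted number of pairs -/
theorem number_lower {M ν : ℝ} (hν0 : 0 ≤ ν) (hν : 2 * ν ≤ M) (b : ℝ × E3) {ψ : Conf N → ℂ}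
    (h : Trial ψ) (hnu : nub ψ b = ENNReal.ofReal ν) :
    ENNReal.ofReal (ν ^ 2) ≤ offS (nij M b ψ) + ENNReal.ofReal ν := by
  have hd := measurable_dens h.smooth.continuous
  have hM : 0 ≤ M := by linarith
  rw [offS_nij M b hd]
  have hnb : ∀ x : Conf N, (nb b x : ℝ≥0∞) = ∑ i, ib b (x i) := fun x => (sum_ib_nb b x).symm
  have hmi : ∀ i : Fin N, Measurable fun x : Conf N => ib b (x i) * dens ψ x := fun i =>
    (measurable_ib_x b i).mul hd
  have hnu' : ∫⁻ x, (nb b x : ℝ≥0∞) * dens ψ x = ENNReal.ofReal ν := by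
    rw [← hnu]
    unfold nub
    rw [← lintegral_finsetSum _ fun i _ => hmi i]
    congr 1
    ext x
    rw [hnb, Finset.sum_mul]
  have hpt : ∀ x : Conf N, ENNReal.ofReal (2 * ν) * ((nb b x : ℝ≥0∞) * dens ψ x) ≤
      lamx M b x * offS (fun i j => ib b (x i) * ib b (x j)) * dens ψ x +
        ((nb b x : ℝ≥0∞) * dens ψ x + ENNReal.ofReal (ν ^ 2) * dens ψ x) := by
    intro x
    have h1 : (0 : ℝ) ≤ (nb b x : ℝ) ^ 2 - nb b x := by
      rcases Nat.eq_zero_or_pos (nb b x) with h0 | h0
      · rw [h0]; simp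
      · have : (1 : ℝ) ≤ nb b x := by exact_mod_cast h0
        nlinarith
    have hl := lam_nonneg hM (nb b x)
    have key : ENNReal.ofReal (2 * ν) * (nb b x : ℝ≥0∞) ≤
        lamx M b x * offS (fun i j => ib b (x i) * ib b (x j)) + ((nb b x : ℝ≥0∞) +
          ENNReal.ofReal (ν ^ 2)) := by
      rw [offS_ib_eq]
      unfold lamx
      rw [← ENNReal.ofReal_natCast, ← ENNReal.ofReal_mul (by positivity),
        ← ENNReal.ofReal_mul hl, ← ENNReal.ofReal_add (by positivity) (by positivity),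
        ← ENNReal.ofReal_add (by positivity) (by positivity)]
      apply ENNReal.ofReal_le_ofReal
      have := lam_key hν0 hν (nb b x)
      linarith
    calc ENNReal.ofReal (2 * ν) * ((nb b x : ℝ≥0∞) * dens ψ x)
        = (ENNReal.ofReal (2 * ν) * (nb b x : ℝ≥0∞)) * dens ψ x := by ring
      _ ≤ (lamx M b x * offS (fun i j => ib b (x i) * ib b (x j)) + ((nb b x : ℝ≥0∞) +
          ENNReal.ofReal (ν ^ 2))) * dens ψ x := mul_le_mul' key le_rfl
      _ = _ := by ring
  have hmn : Measurable fun x : Conf N => (nb b x : ℝ≥0∞) * dens ψ x := by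
    simp only [hnb]
    exact (Finset.measurable_sum _ fun i _ => measurable_ib_x b i).mul hd
  have h2 := lintegral_mono (μ := volume) hpt
  have hm7 : Measurable fun x : Conf N =>
      lamx M b x * offS (fun i j => ib b (x i) * ib b (x j)) * dens ψ x :=
    ((measurable_lamx M b).mul (measurable_offS_ib b)).mul hd
  rw [lintegral_const_mul _ hmn, lintegral_add_left hm7, lintegral_add_left hmn,
    lintegral_const_mul _ hd, lintegral_dens h, mul_one, hnu'] at h2
  have h3 : ENNReal.ofReal (2 * ν) * ENNReal.ofReal ν =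
      ENNReal.ofReal (ν ^ 2) + ENNReal.ofReal (ν ^ 2) := by
    rw [← ENNReal.ofReal_mul (by positivity), ← ENNReal.ofReal_add (by positivity)
      (by positivity)]
    congr 1; ring
  rw [h3, ← add_assoc] at h2
  exact (ENNReal.add_le_add_iff_right ENNReal.ofReal_ne_top).1 h2

theorem offS_qij_le (M : ℝ) (b : ℝ × E3) (ψ : Conf N → ℂ) :
    offS (qij M b ψ) ≤ 2 * Pb ψ b := by
  unfold Pb
  rw [← mul_assoc, ENNReal.mul_inv_cancel (by norm_num) (by norm_num), one_mul]
  unfold offS
  refine Finset.sum_le_sum fun i _ => Finset.sum_le_sum fun j _ => ?_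
  split_ifs
  · exact zero_le
  · unfold qij
    apply lintegral_mono
    intro x
    have hl : lamx M b x ≤ 1 := by
      unfold lamx
      exact ENNReal.ofReal_le_one.2 (lam_le_one _)
    calc ib b (x i) * (ib b (x j) * lamx M b x) * (ENNReal.ofReal ‖x i - x j‖⁻¹ * dens ψ x)
        ≤ ib b (x i) * (ib b (x j) * 1) * (ENNReal.ofReal ‖x i - x j‖⁻¹ * dens ψ x) := by
          gcongr
      _ = _ := by ring

theorem offS_tij_le {M : ℝ} (hM : 0 ≤ M) (b : ℝ × E3) {ψ : Conf N → ℂ}
    (h : ContDiff ℝ (⊤ : ℕ∞) ψ) : offS (tij M b ψ) ≤ ENNReal.ofReal M * Tb ψ b := by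
  have hk := measurable_kd h
  unfold Tb
  rw [Finset.mul_sum]
  unfold offS
  refine Finset.sum_le_sum fun i _ => ?_
  have hm : ∀ j : Fin N, Measurable fun x : Conf N =>
      ib b (x i) * (ib b (x j) * lamx M b x) * kd ψ i x := fun j =>
    ((measurable_ib_x b i).mul (measurable_weight M b j)).mul (hk i)
  calc ∑ j, (if i = j then 0 else tij M b ψ i j) ≤ ∑ j, tij M b ψ i j := by
        refine Finset.sum_le_sum fun j _ => ?_
        split_ifs
        · exact zero_le
        · exact le_rfl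
    _ = ∫⁻ x, ib b (x i) * ((nb b x : ℝ≥0∞) * lamx M b x) * kd ψ i x := by
        unfold tij
        rw [← lintegral_finsetSum _ fun j _ => hm j]
        congr 1
        ext x
        rw [← sum_ib_nb, Finset.sum_mul, Finset.mul_sum, Finset.sum_mul]
    _ ≤ ∫⁻ x, ENNReal.ofReal M * (ib b (x i) * kd ψ i x) := by
        apply lintegral_mono
        intro x
        have hl : (nb b x : ℝ≥0∞) * lamx M b x ≤ ENNReal.ofReal M := by
          unfold lamx
          rw [← ENNReal.ofReal_natCast, ← ENNReal.ofReal_mul (Nat.cast_nonneg _)]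
          apply ENNReal.ofReal_le_ofReal
          rw [mul_comm]
          exact lam_mul_le _ hM
        calc ib b (x i) * ((nb b x : ℝ≥0∞) * lamx M b x) * kd ψ i x
            ≤ ib b (x i) * ENNReal.ofReal M * kd ψ i x := by gcongr
          _ = _ := by ring
    _ = ENNReal.ofReal M * ∫⁻ x, ib b (x i) * kd ψ i x := by
        have hm2 : Measurable fun x : Conf N => ib b (x i) * kd ψ i x :=
          (measurable_ib_x b i).mul (hk i)
        rw [lintegral_const_mul _ hm2]

/-- constant of the two-body estimate -/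
noncomputable def c2 (δ r : ℝ) : ℝ :=
  (1 + δ) * vB r * ((1 + δ⁻¹) * (128 * Real.pi * r ^ 4)) +
    (1 + δ⁻¹) * (512 * Real.pi ^ 2 * r ^ 7)

/-- The two-body estimate. -/
theorem two_body {M ν δ : ℝ} (hν0 : 0 ≤ ν) (hν : 2 * ν ≤ M) (hδ : 0 < δ) (b : ℝ × E3)
    (hb : 0 < b.1) {ψ : Conf N → ℂ} (h : Trial ψ) (hnu : nub ψ b = ENNReal.ofReal ν) :
    ENNReal.ofReal (selfE b.1 * ν ^ 2) ≤
      ENNReal.ofReal (((1 + δ) * vB b.1) ^ 2) * (2 * Pb ψ b) +
      ENNReal.ofReal (c2 δ b.1 * M) * Tb ψ b + ENNReal.ofReal (selfE b.1 * ν) := by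
  have hd := measurable_dens h.smooth.continuous
  have hM : 0 ≤ M := by linarith
  have hs0 := selfE_nonneg hb.le
  have hv := vB_nonneg hb.le
  have hpi := Real.pi_pos
  set α := ENNReal.ofReal ((1 + δ) * vB b.1 * ((1 + δ⁻¹) * (128 * Real.pi * b.1 ^ 4))) with hα
  set β := ENNReal.ofReal ((1 + δ⁻¹) * (512 * Real.pi ^ 2 * b.1 ^ 7)) with hβ
  have hsum : ENNReal.ofReal (selfE b.1) * offS (nij M b ψ) ≤
      ENNReal.ofReal (((1 + δ) * vB b.1) ^ 2) * offS (qij M b ψ) +
      (α * offS (tij M b ψ) + β * offS (tij M b ψ)) := by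
    calc ENNReal.ofReal (selfE b.1) * offS (nij M b ψ)
        = offS (fun i j => ENNReal.ofReal (selfE b.1) * nij M b ψ i j) := (offS_mul _ _).symm
      _ ≤ offS (fun i j => ENNReal.ofReal (((1 + δ) * vB b.1) ^ 2) * qij M b ψ i j +
          (α * tij M b ψ i j + β * tij M b ψ j i)) :=
          offS_mono fun i j hij => pair_bound M h.smooth b hb hδ hij
      _ = _ := by
          have hcm : offS (fun i j => tij M b ψ j i) = offS (tij M b ψ) := offS_comm _
          rw [offS_add, offS_add, offS_mul, offS_mul, offS_mul β (fun i j => tij M b ψ j i),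
            hcm]
  have hab : α + β = ENNReal.ofReal (c2 δ b.1) := by
    rw [hα, hβ, ← ENNReal.ofReal_add (by positivity) (by positivity)]
    rfl
  have hc2 : 0 ≤ c2 δ b.1 := by unfold c2; positivity
  calc ENNReal.ofReal (selfE b.1 * ν ^ 2)
      = ENNReal.ofReal (selfE b.1) * ENNReal.ofReal (ν ^ 2) := ENNReal.ofReal_mul hs0
    _ ≤ ENNReal.ofReal (selfE b.1) * (offS (nij M b ψ) + ENNReal.ofReal ν) := by
        gcongr
        exact number_lower hν0 hν b h hnu
    _ = ENNReal.ofReal (selfE b.1) * offS (nij M b ψ) + ENNReal.ofReal (selfE b.1 * ν) := by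
        rw [mul_add, ENNReal.ofReal_mul (q := ν) hs0]
    _ ≤ ENNReal.ofReal (((1 + δ) * vB b.1) ^ 2) * offS (qij M b ψ) +
        (α * offS (tij M b ψ) + β * offS (tij M b ψ)) + ENNReal.ofReal (selfE b.1 * ν) := by
        gcongr
    _ = ENNReal.ofReal (((1 + δ) * vB b.1) ^ 2) * offS (qij M b ψ) +
        ENNReal.ofReal (c2 δ b.1) * offS (tij M b ψ) + ENNReal.ofReal (selfE b.1 * ν) := by
        rw [← add_mul, hab]
    _ ≤ ENNReal.ofReal (((1 + δ) * vB b.1) ^ 2) * (2 * Pb ψ b) +
        ENNReal.ofReal (c2 δ b.1) * (ENNReal.ofReal M * Tb ψ b) +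
          ENNReal.ofReal (selfE b.1 * ν) := by
        gcongr
        · exact offS_qij_le M b ψ
        · exact offS_tij_le hM b h.smooth
    _ = _ := by
        rw [ENNReal.ofReal_mul (q := M) hc2]
        ring

end

end Pool.Agent.Lib_helper90c
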