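import Pool.Agent.Lib_helper90c.Product

/-!
# Upper bound on the ground state energy
-/

set_option autoImplicit false

open MeasureTheory Set Metric Filter
open scoped ENNReal NNReal Topology

namespace Pool.Agent.Lib_helper90c

theorem lintegral_comp_smul3 {s : ℝ} (hs : 0 < s) {f : E3 → ℝ≥0∞} (hf : Measurable f) :
    ∫⁻ x, f (s • x) = ENNReal.ofReal (s ^ 3)⁻¹ * ∫⁻ x, f x := by
  have h := Measure.map_addHaar_smul (volume : Measure E3) hs.ne'
  have h2 : ∫⁻ x, f (s • x) = ∫⁻ x, f x ∂(Measure.map (fun x : E3 => s • x) volume) := by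
    rw [lintegral_map hf (measurable_const_smul s)]
  rw [h2, h, lintegral_smul_measure, finrank_euclideanSpace_fin, abs_of_pos (by positivity),
    smul_eq_mul]

theorem integral_comp_smul3 {s : ℝ} (hs : 0 < s) (f : E3 → ℝ) :
    ∫ x, f (s • x) = (s ^ 3)⁻¹ * ∫ x, f x := by
  rw [Measure.integral_comp_smul_of_nonneg _ _ _ (hR := hs.le), finrank_euclideanSpace_fin,
    smul_eq_mul]

/-- scaled one-particle function -/
noncomputable def scl (s : ℝ) (u : E3 → ℂ) (x : E3) : ℂ := (Real.sqrt (s ^ 3) : ℂ) * u (s • x)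

theorem normSq_scl {s : ℝ} (hs : 0 < s) (u : E3 → ℂ) (x : E3) :
    ‖scl s u x‖ ^ 2 = s ^ 3 * ‖u (s • x)‖ ^ 2 := by
  unfold scl
  rw [norm_mul, mul_pow, Complex.norm_real, Real.norm_eq_abs, sq_abs,
    Real.sq_sqrt (by positivity)]

theorem grad1_scl {s : ℝ} (hs : 0 < s) {u : E3 → ℂ} (hu : Differentiable ℝ u) (x : E3) :
    grad1 (scl s u) x = s ^ 5 * grad1 u (s • x) := by
  unfold grad1
  rw [Finset.mul_sum]
  refine Finset.sum_congr rfl fun a _ => ?_
  have h1 : HasFDerivAt (fun x : E3 => u (s • x))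
      ((fderiv ℝ u (s • x)).comp (s • ContinuousLinearMap.id ℝ E3)) x :=
    (hu (s • x)).hasFDerivAt.comp x ((hasFDerivAt_id x).const_smul s)
  have h2 : HasFDerivAt (scl s u) ((Real.sqrt (s ^ 3) : ℂ) •
      ((fderiv ℝ u (s • x)).comp (s • ContinuousLinearMap.id ℝ E3))) x := h1.const_mul _
  rw [h2.fderiv]
  have h3 : ((Real.sqrt (s ^ 3) : ℂ) • ((fderiv ℝ u (s • x)).comp
      (s • ContinuousLinearMap.id ℝ E3))) (EuclideanSpace.single a (1 : ℝ)) =
      (Real.sqrt (s ^ 3) : ℂ) * ((s : ℂ) * fderiv ℝ u (s • x) (EuclideanSpace.single a (1 : ℝ))) := by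
    show (Real.sqrt (s ^ 3) : ℂ) • (fderiv ℝ u (s • x)) (s • (EuclideanSpace.single a (1 : ℝ))) = _
    rw [map_smul, smul_eq_mul]
    simp
  rw [h3, norm_mul, norm_mul, mul_pow, mul_pow, Complex.norm_real, Complex.norm_real,
    Real.norm_eq_abs, Real.norm_eq_abs, sq_abs, sq_abs, Real.sq_sqrt (by positivity)]
  ring

theorem trial1_scl {s : ℝ} (hs : 0 < s) {u : E3 → ℂ} (h : Trial1 u) : Trial1 (scl s u) := by
  refine ⟨?_, ?_, ?_⟩
  · unfold scl
    exact contDiff_const.mul (h.smooth.comp (contDiff_const_smul s))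
  · have h1 : HasCompactSupport fun x : E3 => u (s • x) :=
      h.compact.comp_homeomorph (Homeomorph.smulOfNeZero s hs.ne')
    exact h1.mul_left
  · simp only [normSq_scl hs]
    rw [integral_const_mul, integral_comp_smul3 hs (fun x => ‖u x‖ ^ 2), h.normalized]
    field_simp

theorem integral_grad1_scl {s : ℝ} (hs : 0 < s) {u : E3 → ℂ} (h : Trial1 u) :
    ∫ x, grad1 (scl s u) x = s ^ 2 * ∫ x, grad1 u x := by
  have hd : Differentiable ℝ u := h.smooth.differentiable (by simp)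
  simp only [grad1_scl hs hd]
  rw [integral_const_mul, integral_comp_smul3 hs (fun x => grad1 u x)]
  field_simp

theorem bgs_scl {s : ℝ} (hs : 0 < s) {u : E3 → ℂ} (hc : Continuous u) (N : ℕ) :
    bgs N (scl s u) = Measure.map (fun x : E3 => s⁻¹ • x) (bgs N u) := by
  have hcs : Continuous (scl s u) := by
    unfold scl
    exact continuous_const.mul (hc.comp (continuous_const_smul s))
  apply Measure.ext
  intro A hA
  rw [Measure.map_apply (measurable_const_smul _) hA]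
  have e1 : ∀ (φ : E3 → ℂ), Continuous φ → ∀ B, MeasurableSet B →
      bgs N φ B = ∫⁻ x, B.indicator (fun x => ENNReal.ofReal (N * ‖φ x‖ ^ 2)) x := by
    intro φ _ B hB
    unfold bgs bg
    rw [withDensity_apply _ hB, lintegral_indicator hB]
  rw [e1 _ hcs A hA, e1 _ hc _ (measurable_const_smul _ hA)]
  have hm : Measurable (((fun x : E3 => s⁻¹ • x) ⁻¹' A).indicator
      (fun x => ENNReal.ofReal (N * ‖u x‖ ^ 2))) :=
    (by fun_prop : Measurable fun x => ENNReal.ofReal (N * ‖u x‖ ^ 2)).indicator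
      (measurable_const_smul _ hA)
  have h2 := lintegral_comp_smul3 hs hm
  have h3 : ∫⁻ x, A.indicator (fun x => ENNReal.ofReal (N * ‖scl s u x‖ ^ 2)) x =
      ENNReal.ofReal (s ^ 3) * ∫⁻ x, (((fun x : E3 => s⁻¹ • x) ⁻¹' A).indicator
        (fun x => ENNReal.ofReal (N * ‖u x‖ ^ 2))) (s • x) := by
    have hm4 : Measurable fun x : E3 => (((fun x : E3 => s⁻¹ • x) ⁻¹' A).indicator
        (fun x => ENNReal.ofReal (N * ‖u x‖ ^ 2))) (s • x) := hm.comp (measurable_const_smul s)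
    rw [← lintegral_const_mul _ hm4]
    congr 1
    ext x
    by_cases hx : x ∈ A
    · have hx' : s • x ∈ (fun x : E3 => s⁻¹ • x) ⁻¹' A := by
        simp only [Set.mem_preimage, smul_smul, inv_mul_cancel₀ hs.ne', one_smul]
        exact hx
      rw [indicator_of_mem hx, indicator_of_mem hx', normSq_scl hs,
        ← ENNReal.ofReal_mul (by positivity)]
      congr 1; ring
    · have hx' : s • x ∉ (fun x : E3 => s⁻¹ • x) ⁻¹' A := by
        simp only [Set.mem_preimage, smul_smul, inv_mul_cancel₀ hs.ne', one_smul]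
        exact hx
      rw [indicator_of_notMem hx, indicator_of_notMem hx', mul_zero]
  rw [h3, h2, ← mul_assoc, ← ENNReal.ofReal_mul (by positivity),
    mul_inv_cancel₀ (by positivity), ENNReal.ofReal_one, one_mul]

theorem Pot_map {s : ℝ} (hs : 0 < s) (β : Measure E3) (y : E3) :
    Pot (Measure.map (fun x : E3 => s⁻¹ • x) β) (s⁻¹ • y) = s * Pot β y := by
  unfold Pot
  rw [integral_map (measurable_const_smul _).aemeasurable
    (by fun_prop : Measurable fun x : E3 => ‖s⁻¹ • y - x‖⁻¹).aestronglyMeasurable,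
    ← integral_const_mul]
  congr 1
  ext x
  rw [← smul_sub, norm_smul, Real.norm_eq_abs, abs_of_pos (by positivity), mul_inv, inv_inv]

theorem JE_map {z s : ℝ} (hs : 0 < s) {β : Measure E3}
    (hβ' : BM (Measure.map (fun x : E3 => s⁻¹ • x) β)) {K : ℕ} (q : Fin K → E3) :
    JE z (Measure.map (fun x : E3 => s⁻¹ • x) β) (fun i => s⁻¹ • q i) = s * JE z β q := by
  unfold JE
  rw [rep_smul q (inv_pos.2 hs), inv_inv, integral_map (measurable_const_smul _).aemeasurable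
    hβ'.measurable_Pot.aestronglyMeasurable]
  simp only [Pot_map hs, integral_const_mul, ← Finset.mul_sum]
  ring

/-- Upper bound on the energy. -/
theorem upper_E {z : ℝ} (hz : 0 < z) {u : E3 → ℂ} (h : Trial1 u) {ε : ℝ} (hε : 0 < ε) :
    ∃ N0 : ℝ, 0 < N0 ∧ ∀ N : ℕ, N0 ≤ N → ∀ K : ℕ, (K : ℝ) * z = N →
      ∃ (R : Fin K → E3) (ψ : Conf N → ℂ), Function.Injective R ∧ Trial ψ ∧
        energy z R ψ ≤ (N : ℝ) ^ (5 / 3 : ℝ) * (limFun z u + ε) := by
  have hc := h.smooth.continuous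
  obtain ⟨N0, hN0, hup⟩ := upper_J hz (hc.norm.pow 2) (fun x => sq_nonneg _)
    (hasCompactSupport_normSq h.compact) h.normalized hε
  refine ⟨N0, hN0, fun N hN K hK => ?_⟩
  obtain ⟨q, hq, hJ⟩ := hup N hN K (by rw [mul_comm]; exact hK)
  have hNpos : (0 : ℝ) < N := hN0.trans_le hN
  set s : ℝ := (N : ℝ) ^ (1 / 3 : ℝ) with hs
  have hs0 : 0 < s := by positivity
  have ht := trial1_scl hs0 h
  refine ⟨fun i => s⁻¹ • q i, prodS N (scl s u), ?_, trial_prodS ht, ?_⟩
  · intro i j hij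
    exact hq (smul_right_injective E3 (inv_pos.2 hs0).ne' hij)
  · refine (energy_prodS_le ht _).trans ?_
    have hBM := BM_bgs ht N
    have hmap := bgs_scl hs0 hc N
    rw [integral_grad1_scl hs0 h]
    rw [hmap] at hBM ⊢
    rw [JE_map hs0 hBM]
    have hJ' : JE z (bgs N u) q ≤ (N : ℝ) ^ (4 / 3 : ℝ) *
        (estar z * (∫ x, (‖u x‖ ^ 2) ^ (4 / 3 : ℝ)) + ε) := hJ
    have e1 : (N : ℝ) * s ^ 2 = (N : ℝ) ^ (5 / 3 : ℝ) := by
      rw [hs, ← Real.rpow_natCast, ← Real.rpow_mul hNpos.le]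
      nth_rewrite 1 [← Real.rpow_one (N : ℝ)]
      rw [← Real.rpow_add hNpos]
      norm_num
    have e2 : s * (N : ℝ) ^ (4 / 3 : ℝ) = (N : ℝ) ^ (5 / 3 : ℝ) := by
      rw [hs, ← Real.rpow_add hNpos]; norm_num
    unfold limFun
    calc (N : ℝ) * (s ^ 2 * ∫ x, grad1 u x) + s * JE z (bgs N u) q
        ≤ (N : ℝ) * (s ^ 2 * ∫ x, grad1 u x) + s * ((N : ℝ) ^ (4 / 3 : ℝ) *
          (estar z * (∫ x, (‖u x‖ ^ 2) ^ (4 / 3 : ℝ)) + ε)) := by gcongr
      _ = ((N : ℝ) * s ^ 2) * (∫ x, grad1 u x) + (s * (N : ℝ) ^ (4 / 3 : ℝ)) *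
          (estar z * (∫ x, (‖u x‖ ^ 2) ^ (4 / 3 : ℝ)) + ε) := by ring
      _ = _ := by rw [e1, e2]; ring

end Pool.Agent.Lib_helper90c
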