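import Pool.Agent.Lib_helper90c.Pack

/-!
# Upper bound for the energy of nuclei in a given background
-/

set_option autoImplicit false

open MeasureTheory Set Metric Filter
open scoped ENNReal NNReal Topology

namespace Pool.Agent.Lib_helper90c

/-- near optimal configuration in a ball with uniform background -/
theorem scaled_canonical {z ε : ℝ} (hz : 0 < z) {n : ℕ} (hn : 0 < n) (p0 : Fin n → E3)
    (hinj : Function.Injective p0) (hp0 : ∀ i, p0 i ∈ ball (0 : E3) (nR z n))
    (hj : jel z (nR z n) p0 ≤ (estar z + ε) * (z * n)) {r : ℝ} (hr : 0 < r) :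
    ∃ p : Fin n → E3, Function.Injective p ∧ (∀ i, p i ∈ ball (0 : E3) r) ∧
      z ^ 2 * rep p - z * ((z * n / vB r) * ∑ j, ballPot r ‖p j‖) +
        (z * n / vB r) ^ 2 * selfE r / 2 ≤
        (estar z + ε) * ((z * n / vB r) ^ (4 / 3 : ℝ) * vB r) := by
  have hR := nR_pos hz hn
  set R := nR z n with hRdef
  have hvR : vB R = z * n := vB_nR hz n
  set s := r / R with hs
  have hs0 : 0 < s := by positivity
  have hsr : s * R = r := by rw [hs]; field_simp
  have hvr : vB r = s ^ 3 * (z * n) := by rw [← hvR, ← hsr]; unfold vB; ring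
  have hn0 : (0 : ℝ) < n := by exact_mod_cast hn
  have hσ : z * n / vB r = (s ^ 3)⁻¹ := by rw [hvr]; field_simp
  refine ⟨fun i => s • p0 i, ?_, ?_, ?_⟩
  · intro i j h
    exact hinj (smul_right_injective E3 hs0.ne' h)
  · intro i
    have h1 := mem_ball_zero_iff.1 (hp0 i)
    rw [mem_ball_zero_iff, norm_smul, Real.norm_eq_abs, abs_of_pos hs0, ← hsr]
    exact mul_lt_mul_of_pos_left h1 hs0
  · rw [hσ, rep_smul p0 hs0]
    have e1 : ∀ j, ballPot r ‖s • p0 j‖ = s ^ 2 * ballPot R ‖p0 j‖ := by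
      intro j
      rw [norm_smul, Real.norm_eq_abs, abs_of_pos hs0, ← hsr, ballPot_scale hs0]
    simp only [e1, ← Finset.mul_sum]
    have e2 : selfE r = s ^ 5 * selfE R := by rw [← hsr]; unfold selfE; ring
    rw [e2]
    have e3 : z ^ 2 * (s⁻¹ * rep p0) - z * ((s ^ 3)⁻¹ * (s ^ 2 * ∑ j, ballPot R ‖p0 j‖)) +
        ((s ^ 3)⁻¹) ^ 2 * (s ^ 5 * selfE R) / 2 = s⁻¹ * jel z R p0 := by
      unfold jel
      field_simp
    rw [e3]
    have e4 : ((s ^ 3)⁻¹) ^ (4 / 3 : ℝ) = (s ^ 4)⁻¹ := by
      rw [← inv_pow, ← inv_pow, ← Real.rpow_natCast, ← Real.rpow_mul (by positivity),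
        ← Real.rpow_natCast]
      norm_num
    rw [e4, hvr]
    have e5 : (estar z + ε) * ((s ^ 4)⁻¹ * (s ^ 3 * (z * n))) =
        s⁻¹ * ((estar z + ε) * (z * n)) := by
      field_simp
    rw [e5]
    exact mul_le_mul_of_nonneg_left hj (by positivity)

theorem BM_finsetSum {α : Type*} (s : Finset α) (β : α → Measure E3) (h : ∀ x ∈ s, BM (β x)) :
    BM (∑ x ∈ s, β x) := by
  classical
  induction s using Finset.induction_on with
  | empty => simpa using BM_zero
  | insert a s ha ih =>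
    rw [Finset.sum_insert ha]
    exact (h a (Finset.mem_insert_self _ _)).add
      (ih fun x hx => h x (Finset.mem_insert_of_mem hx))

/-- successive filling of disjoint balls -/
theorem fill_balls {z ε : ℝ} (hz : 0 < z) {n0 : ℕ}
    (hcan : ∀ n, n0 ≤ n → ∃ p : Fin n → E3, Function.Injective p ∧
      (∀ i, p i ∈ ball (0 : E3) (nR z n)) ∧ jel z (nR z n) p ≤ (estar z + ε) * (z * n))
    (s : Finset E3) (r : E3 → ℝ) (n : E3 → ℕ) (hr : ∀ x ∈ s, 0 < r x)
    (hn : ∀ x ∈ s, n0 ≤ n x) (hn1 : ∀ x ∈ s, 0 < n x)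
    (hdisj : (s : Set E3).PairwiseDisjoint (fun x => closedBall x (r x))) :
    ∃ q : Fin (∑ x ∈ s, n x) → E3, Function.Injective q ∧
      (∀ i, ∃ x ∈ s, q i ∈ ball x (r x)) ∧
      JE z (∑ x ∈ s, ubg (z * n x / vB (r x)) x (r x)) q ≤
        ∑ x ∈ s, (estar z + ε) * ((z * n x / vB (r x)) ^ (4 / 3 : ℝ) * vB (r x)) := by
  classical
  induction s using Finset.induction_on with
  | empty =>
    refine ⟨fun i => 0, ?_, ?_, ?_⟩
    · intro i; exact absurd i.2 (by simp)
    · intro i; exact absurd i.2 (by simp)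
    · unfold JE rep Pot
      simp
  | insert c s hc ih =>
    obtain ⟨q, hqinj, hq, hJ⟩ := ih (fun x hx => hr x (Finset.mem_insert_of_mem hx))
      (fun x hx => hn x (Finset.mem_insert_of_mem hx))
      (fun x hx => hn1 x (Finset.mem_insert_of_mem hx))
      (hdisj.subset (by simp))
    set β := ∑ x ∈ s, ubg (z * n x / vB (r x)) x (r x) with hβ
    have hBM : BM β := BM_finsetSum _ _ fun x _ => BM_ubg _ _ _
    have hrc := hr c (Finset.mem_insert_self _ _)
    have hnc := hn1 c (Finset.mem_insert_self _ _)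
    have hdc : ∀ x ∈ s, Disjoint (closedBall x (r x)) (closedBall c (r c)) := by
      intro x hx
      exact hdisj (by simp [hx]) (by simp) (fun h => hc (h ▸ hx))
    have hqc : ∀ i, r c ≤ ‖q i - c‖ := by
      intro i
      obtain ⟨x, hx, hqx⟩ := hq i
      by_contra hcon
      push Not at hcon
      have h1 : q i ∈ closedBall c (r c) := by
        rw [mem_closedBall, dist_eq_norm]; exact hcon.le
      exact (Set.disjoint_left.1 (hdc x hx)) (ball_subset_closedBall hqx) h1
    have hβ0 : β (ball c (r c)) = 0 := by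
      rw [hβ, Measure.finsetSum_apply]
      apply Finset.sum_eq_zero
      intro x hx
      unfold ubg
      rw [Measure.smul_apply, Measure.restrict_apply measurableSet_ball]
      have : ball c (r c) ∩ ball x (r x) = ∅ := by
        rw [← disjoint_iff_inter_eq_empty]
        exact ((hdc x hx).symm).mono ball_subset_closedBall ball_subset_closedBall
      rw [this, measure_empty, smul_zero]
    obtain ⟨p0, hp0inj, hp0, hp0j⟩ := hcan (n c) (hn c (Finset.mem_insert_self _ _))
    obtain ⟨p, hpinj, hp, hpj⟩ := scaled_canonical hz hnc p0 hp0inj hp0 hp0j hrc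
    have hσ : 0 ≤ z * n c / vB (r c) := by
      have := vB_pos hrc
      positivity
    obtain ⟨p', hinj', hp', hJ'⟩ := merge_ball hσ hBM c hrc q hqinj hqc hβ0 p hpinj hp
      (by rw [Fintype.card_fin]; have := (vB_pos hrc).ne'; field_simp)
    have hcard : Fintype.card (Fin (∑ x ∈ insert c s, n x)) =
        Fintype.card (Fin (∑ x ∈ s, n x) ⊕ Fin (n c)) := by
      rw [Finset.sum_insert hc]; simp [add_comm]
    have eq := Fintype.equivOfCardEq hcard
    refine ⟨Sum.elim q p' ∘ eq, hinj'.comp eq.injective, ?_, ?_⟩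
    · intro i
      have : ∀ w, ∃ x ∈ insert c s, Sum.elim q p' w ∈ ball x (r x) := by
        rintro (w | w)
        · obtain ⟨x, hx, h⟩ := hq w
          exact ⟨x, Finset.mem_insert_of_mem hx, h⟩
        · exact ⟨c, Finset.mem_insert_self _ _, hp' w⟩
      exact this (eq i)
    · rw [JE_reindex, Finset.sum_insert hc, Finset.sum_insert hc, add_comm (ubg _ _ _)]
      linarith

/-- background with density `N μ` -/
noncomputable def bg (N : ℝ) (μ : E3 → ℝ) : Measure E3 :=
  (volume : Measure E3).withDensity fun x => ENNReal.ofReal (N * μ x)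

theorem BM_bg {μ : E3 → ℝ} (hc : Continuous μ) (hs : HasCompactSupport μ) (N : ℝ) :
    BM (bg N μ) := by
  obtain ⟨R, hR⟩ := hs.isBounded.subset_ball (0 : E3)
  have hR' : tsupport μ ⊆ ball 0 |R| := hR.trans (ball_subset_ball (le_abs_self R))
  obtain ⟨C, hC⟩ := hc.bounded_above_of_compact_support hs
  have hC0 : 0 ≤ C := (norm_nonneg _).trans (hC 0)
  refine ⟨(|N| * C).toNNReal, |R|, abs_nonneg R, ?_⟩
  refine Measure.le_intro fun s hs' _ => ?_
  unfold bg
  rw [withDensity_apply _ hs', Measure.smul_apply, Measure.restrict_apply hs', smul_eq_mul,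
    ← setLIntegral_const]
  have h1 : ∫⁻ x in s, ENNReal.ofReal (N * μ x) =
      ∫⁻ x in s ∩ ball 0 |R|, ENNReal.ofReal (N * μ x) := by
    rw [← Measure.restrict_restrict_of_subset inter_subset_left, eq_comm]
    have h2 : (volume.restrict s).restrict (s ∩ ball (0 : E3) |R|) =
        (volume.restrict s).restrict (ball (0 : E3) |R|) := by
      rw [Measure.restrict_restrict (hs'.inter measurableSet_ball),
        Measure.restrict_restrict measurableSet_ball, inter_comm (ball (0 : E3) |R|) s,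
        inter_assoc, inter_comm (ball (0 : E3) |R|) s, ← inter_assoc, inter_self]
    rw [h2]
    apply setLIntegral_eq_of_support_subset
    intro x hx
    by_contra hn
    apply hx
    have : μ x = 0 := by
      by_contra h
      exact hn (hR' (subset_tsupport μ h))
    simp [this]
  rw [h1]
  apply lintegral_mono
  intro x
  show ENNReal.ofReal (N * μ x) ≤ ENNReal.ofReal (|N| * C)
  apply ENNReal.ofReal_le_ofReal
  calc N * μ x ≤ |N * μ x| := le_abs_self _
    _ = |N| * |μ x| := abs_mul _ _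
    _ ≤ |N| * C := mul_le_mul_of_nonneg_left (hC x) (abs_nonneg _)

theorem bg_univ {μ : E3 → ℝ} (hc : Continuous μ) (h0 : ∀ x, 0 ≤ μ x) (hs : HasCompactSupport μ)
    (h1 : ∫ x, μ x = 1) {N : ℝ} (hN : 0 ≤ N) : bg N μ univ = ENNReal.ofReal N := by
  unfold bg
  rw [withDensity_apply _ MeasurableSet.univ, Measure.restrict_univ,
    ← ofReal_integral_eq_lintegral_ofReal
      ((hc.integrable_of_hasCompactSupport hs).const_mul N)
      (Eventually.of_forall fun x => mul_nonneg hN (h0 x)), integral_const_mul, h1, mul_one]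

theorem sum_ubg_le_bg {μ : E3 → ℝ} {N : ℝ} (s : Finset E3) (r σ : E3 → ℝ)
    (hdisj : (s : Set E3).PairwiseDisjoint (fun x => closedBall x (r x)))
    (hσ : ∀ x ∈ s, ∀ y ∈ closedBall x (r x), σ x ≤ N * μ y) :
    ∑ x ∈ s, ubg (σ x) x (r x) ≤ bg N μ := by
  refine Measure.le_intro fun A hA _ => ?_
  rw [Measure.finsetSum_apply]
  unfold bg ubg
  rw [withDensity_apply _ hA]
  have hd : (s : Set E3).PairwiseDisjoint (fun x => A ∩ ball x (r x)) := by
    intro x hx y hy hxy
    exact (hdisj hx hy hxy).mono (inter_subset_right.trans ball_subset_closedBall)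
      (inter_subset_right.trans ball_subset_closedBall)
  calc ∑ x ∈ s, (ENNReal.ofReal (σ x) • (volume : Measure E3).restrict (ball x (r x))) A
      ≤ ∑ x ∈ s, ∫⁻ y in A ∩ ball x (r x), ENNReal.ofReal (N * μ y) := by
        apply Finset.sum_le_sum
        intro x hx
        rw [Measure.smul_apply, Measure.restrict_apply hA, smul_eq_mul, ← setLIntegral_const]
        apply setLIntegral_mono' (hA.inter measurableSet_ball)
        intro y hy
        exact ENNReal.ofReal_le_ofReal (hσ x hx y (ball_subset_closedBall hy.2))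
    _ = ∫⁻ y in ⋃ x ∈ s, (A ∩ ball x (r x)), ENNReal.ofReal (N * μ y) :=
        (lintegral_biUnion_finset hd (fun x _ => hA.inter measurableSet_ball) _).symm
    _ ≤ ∫⁻ y in A, ENNReal.ofReal (N * μ y) := by
        apply lintegral_mono_set
        simp

/-- Upper bound for the energy of the nuclei in the background `N μ`. -/
theorem upper_J {z : ℝ} (hz : 0 < z) {μ : E3 → ℝ} (hc : Continuous μ) (h0 : ∀ x, 0 ≤ μ x)
    (hs : HasCompactSupport μ) (h1 : ∫ x, μ x = 1) {ε : ℝ} (hε : 0 < ε) :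
    ∃ N0 : ℝ, 0 < N0 ∧ ∀ N : ℝ, N0 ≤ N → ∀ K : ℕ, z * K = N →
      ∃ q : Fin K → E3, Function.Injective q ∧
        JE z (bg N μ) q ≤ N ^ (4 / 3 : ℝ) * (estar z * (∫ x, μ x ^ (4 / 3 : ℝ)) + ε) := by
  set e := estar z with hedef
  have he : e ≤ 0 := estar_nonpos hz
  set G := ∫ x, μ x ^ (4 / 3 : ℝ) with hG
  have hG0 : 0 ≤ G := integral_nonneg fun x => Real.rpow_nonneg (h0 x) _
  set ε1 := ε / (4 * (-e + 1)) with hε1
  have hε10 : 0 < ε1 := by
    have : 0 < -e + 1 := by linarith
    positivity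
  obtain ⟨s, r, a, hr, ha, hab, hdisj, hsum⟩ := packing hc h0 hs hε10
  set S := ∑ x ∈ s, a x ^ (4 / 3 : ℝ) * vB (r x) with hS
  have hS0 : 0 ≤ S := Finset.sum_nonneg fun x hx =>
    mul_nonneg (Real.rpow_nonneg (ha x hx).le _) (vB_nonneg (hr x hx).le)
  set ε2 := ε / (4 * (S + 1)) with hε2
  have hε20 : 0 < ε2 := by positivity
  obtain ⟨n0, hcan⟩ := exists_canonical hz hε20
  -- the numbers of nuclei
  set nn : ℝ → E3 → ℕ := fun N x => ⌊(a x * vB (r x) / z) * N⌋₊ with hnn
  set σ : ℝ → E3 → ℝ := fun N x => z * nn N x / vB (r x) with hσ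
  have hcoef : ∀ x ∈ s, 0 < a x * vB (r x) / z := fun x hx =>
    div_pos (mul_pos (ha x hx) (vB_pos (hr x hx))) hz
  have hσle : ∀ N, 0 ≤ N → ∀ x ∈ s, σ N x ≤ N * a x := by
    intro N hN x hx
    have hv := vB_pos (hr x hx)
    simp only [hσ, hnn]
    rw [div_le_iff₀ hv]
    have h2 := Nat.floor_le (mul_nonneg (hcoef x hx).le hN)
    calc z * (⌊(a x * vB (r x) / z) * N⌋₊ : ℝ) ≤ z * ((a x * vB (r x) / z) * N) :=
          mul_le_mul_of_nonneg_left h2 hz.le
      _ = N * a x * vB (r x) := by field_simp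
  have hσ0 : ∀ N, ∀ x ∈ s, 0 ≤ σ N x := by
    intro N x hx
    have hv := vB_pos (hr x hx)
    simp only [hσ]; positivity
  -- the limit of the sum
  have hlim : Tendsto (fun N : ℝ => ∑ x ∈ s, (σ N x / N) ^ (4 / 3 : ℝ) * vB (r x)) atTop
      (𝓝 S) := by
    apply tendsto_finsetSum
    intro x hx
    apply Tendsto.mul_const
    have hv := vB_pos (hr x hx)
    have h2 := (tendsto_nat_floor_mul_div_atTop (R := ℝ) (hcoef x hx).le).const_mul (z / vB (r x))
    have h3 : z / vB (r x) * (a x * vB (r x) / z) = a x := by field_simp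
    rw [h3] at h2
    have h4 : Tendsto (fun N : ℝ => σ N x / N) atTop (𝓝 (a x)) := by
      refine h2.congr fun N => ?_
      simp only [hσ, hnn]
      ring
    exact h4.rpow_const (Or.inl (ha x hx).ne')
  have hev1 := hlim.eventually (lt_mem_nhds (show S - ε1 < S by linarith))
  have hev2 : ∀ᶠ N : ℝ in atTop, ∀ x ∈ s, max n0 1 ≤ nn N x := by
    rw [Filter.eventually_all_finset]
    intro x hx
    have h2 : Tendsto (fun N : ℝ => (a x * vB (r x) / z) * N) atTop atTop :=
      tendsto_id.const_mul_atTop (hcoef x hx)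
    exact (tendsto_nat_floor_atTop.comp h2).eventually_ge_atTop _
  obtain ⟨N1, hN1⟩ := Filter.eventually_atTop.1 (hev1.and hev2)
  refine ⟨max N1 1, by positivity, fun N hN K hK => ?_⟩
  have hN0 : 0 < N := lt_of_lt_of_le one_pos ((le_max_right _ _).trans hN)
  obtain ⟨hSN, hnN⟩ := hN1 N ((le_max_left _ _).trans hN)
  obtain ⟨q, hqinj, hq, hJ⟩ := fill_balls hz hcan s r (nn N) hr
    (fun x hx => (le_max_left _ _).trans (hnN x hx))
    (fun x hx => lt_of_lt_of_le one_pos ((le_max_right _ _).trans (hnN x hx))) hdisj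
  set β := ∑ x ∈ s, ubg (z * nn N x / vB (r x)) x (r x) with hβ
  have hBMβ : BM β := BM_finsetSum _ _ fun x _ => BM_ubg _ _ _
  have := hBMβ.isFinite
  have hle : β ≤ bg N μ := by
    apply sum_ubg_le_bg s r (σ N) hdisj
    intro x hx y hy
    refine (hσle N hN0.le x hx).trans ?_
    exact mul_le_mul_of_nonneg_left (hab x hx y hy) hN0.le
  have hBMbg := BM_bg hc hs N
  have := hBMbg.isFinite
  set η := bg N μ - β with hη
  have hηle : η ≤ bg N μ := Measure.sub_le
  have hBMη : BM η := hBMbg.mono hηle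
  have hsumη : β + η = bg N μ := by rw [add_comm]; exact Measure.sub_add_cancel_of_le hle
  -- masses
  have hβuniv : β univ = ENNReal.ofReal (z * ((∑ x ∈ s, nn N x : ℕ) : ℝ)) := by
    rw [hβ, Measure.finsetSum_apply]
    have h2 : ∀ x ∈ s, ubg (z * nn N x / vB (r x)) x (r x) univ =
        ENNReal.ofReal (z * nn N x) := by
      intro x hx
      have hv := vB_pos (hr x hx)
      unfold ubg
      rw [Measure.smul_apply, Measure.restrict_apply_univ, volume_ball_eq _ (hr x hx).le,
        smul_eq_mul, ← ENNReal.ofReal_mul (by positivity)]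
      congr 1
      field_simp
    rw [Finset.sum_congr rfl h2, ← ENNReal.ofReal_sum_of_nonneg (fun x _ => by positivity)]
    congr 1
    push_cast
    rw [Finset.mul_sum]
  have hbguniv : bg N μ univ = ENNReal.ofReal N := bg_univ hc h0 hs h1 hN0.le
  have hKle : (∑ x ∈ s, nn N x) ≤ K := by
    have h2 := hle univ
    rw [hβuniv, hbguniv, ENNReal.ofReal_le_ofReal_iff hN0.le] at h2
    have h3 := le_of_mul_le_mul_left (h2.trans (le_of_eq hK.symm)) hz
    exact_mod_cast h3
  obtain ⟨m, hm⟩ := Nat.exists_eq_add_of_le hKle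
  have hηuniv : η univ = ENNReal.ofReal (z * m) := by
    rw [hη, Measure.sub_apply MeasurableSet.univ hle, hβuniv, hbguniv,
      ← ENNReal.ofReal_sub _ (by positivity)]
    congr 1
    have h2 : (K : ℝ) = ((∑ x ∈ s, nn N x : ℕ) : ℝ) + m := by exact_mod_cast hm
    have h3 : N = z * ((∑ x ∈ s, nn N x : ℕ) : ℝ) + z * m := by rw [← mul_add, ← h2, hK]
    linarith
  obtain ⟨X, hXinj, hXJ⟩ := merge_iid hz hBMβ hBMη m hηuniv q hqinj
  rw [hsumη] at hXJ
  have hcard : Fintype.card (Fin K) = Fintype.card (Fin (∑ x ∈ s, nn N x) ⊕ Fin m) := by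
    rw [hm]; simp
  have eq := Fintype.equivOfCardEq hcard
  refine ⟨Sum.elim q X ∘ eq, hXinj.comp eq.injective, ?_⟩
  rw [JE_reindex]
  refine hXJ.trans (hJ.trans ?_)
  -- final estimate
  have e1 : ∑ x ∈ s, (e + ε2) * ((z * nn N x / vB (r x)) ^ (4 / 3 : ℝ) * vB (r x)) =
      N ^ (4 / 3 : ℝ) * ((e + ε2) * ∑ x ∈ s, (σ N x / N) ^ (4 / 3 : ℝ) * vB (r x)) := by
    rw [← Finset.mul_sum, mul_left_comm]
    congr 1
    rw [Finset.mul_sum]
    refine Finset.sum_congr rfl fun x hx => ?_
    rw [← mul_assoc, ← Real.mul_rpow hN0.le (div_nonneg (hσ0 N x hx) hN0.le)]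
    congr 2
    simp only [hσ]
    field_simp
  rw [e1]
  apply mul_le_mul_of_nonneg_left _ (by positivity)
  set SN := ∑ x ∈ s, (σ N x / N) ^ (4 / 3 : ℝ) * vB (r x) with hSNdef
  have hSNle : SN ≤ S := by
    rw [hSNdef, hS]
    apply Finset.sum_le_sum
    intro x hx
    apply mul_le_mul_of_nonneg_right _ (vB_nonneg (hr x hx).le)
    apply Real.rpow_le_rpow (div_nonneg (hσ0 N x hx) hN0.le) _ (by norm_num)
    rw [div_le_iff₀ hN0]
    linarith [hσle N hN0.le x hx]
  have f1 : e * SN ≤ e * (G - 2 * ε1) := mul_le_mul_of_nonpos_left (by linarith) he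
  have f2 : -e * (2 * ε1) ≤ ε / 2 := by
    have h5 : 0 < 4 * (-e + 1) := by linarith
    have h6 : 2 * ε1 * (2 * (-e + 1)) = ε := by
      have h8 : 2 * ε1 * (2 * (-e + 1)) = ε * ((4 * (-e + 1)) / (4 * (-e + 1))) := by
        rw [hε1]; ring
      rw [h8, div_self h5.ne', mul_one]
    have h7 : 0 ≤ -e := by linarith
    nlinarith
  have f3 : ε2 * SN ≤ ε / 4 := by
    have h6 : ε2 * (4 * (S + 1)) = ε := by rw [hε2]; field_simp
    nlinarith
  linarith

end Pool.Agent.Lib_helper90c
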