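import Pool.Agent.Lib_helper90c.Crude

/-!
# Weighted integrals over balls
-/

set_option autoImplicit false

open MeasureTheory Set Metric Filter
open scoped ENNReal NNReal Topology

namespace Pool.Agent.Lib_helper90c

theorem lintegral_bm_pt (κ : ℝ) {g : ℝ → ℝ≥0∞} (hg : Measurable g) (x : E3) :
    ∫⁻ b, g b.1 * ib b x ∂(bm κ) =
      ∫⁻ r in Ioi (0 : ℝ), ENNReal.ofReal (om κ r) * (g r * ENNReal.ofReal (vB r)) := by
  have hm : Measurable fun b : ℝ × E3 => g b.1 * ib b x :=
    (hg.comp measurable_fst).mul (measurable_ib_left x)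
  rw [lintegral_bm κ _ hm]
  refine setLIntegral_congr_fun measurableSet_Ioi fun r hr => ?_
  have hr0 : (0 : ℝ) < r := hr
  have h1 : Measurable fun c : E3 => ib (r, c) x := by
    have h : Measurable fun c : E3 => (r, c) := measurable_prodMk_left
    exact (measurable_ib_left x).comp h
  have h2 : ∫⁻ c : E3, ib (r, c) x = ENNReal.ofReal (vB r) := by
    have h3 := lintegral_ib_ib r x x
    rw [inter_self, volume_ball_eq x hr0.le] at h3
    rw [← h3]
    congr 1
    ext c
    unfold ib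
    by_cases h : x ∈ ball (r, c).2 (r, c).1
    · rw [indicator_of_mem h]; simp
    · rw [indicator_of_notMem h]; simp
  simp only
  rw [lintegral_const_mul _ h1, h2]

theorem lintegral_bm_ball (κ : ℝ) {g : ℝ → ℝ≥0∞} (hg : Measurable g) {f : E3 → ℝ≥0∞}
    (hf : Measurable f) :
    ∫⁻ b, g b.1 * (∫⁻ y in ball b.2 b.1, f y) ∂(bm κ) =
      (∫⁻ r in Ioi (0 : ℝ), ENNReal.ofReal (om κ r) * (g r * ENNReal.ofReal (vB r))) *
        ∫⁻ y, f y := by
  have hj : Measurable fun q : (ℝ × E3) × E3 => g q.1.1 * (ib q.1 q.2 * f q.2) :=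
    (hg.comp (measurable_fst.comp measurable_fst)).mul
      (measurable_ib.mul (hf.comp measurable_snd))
  have e1 : ∀ b : ℝ × E3, g b.1 * ∫⁻ y in ball b.2 b.1, f y =
      ∫⁻ y : E3, g b.1 * (ib b y * f y) := by
    intro b
    have hm : Measurable fun y : E3 => ib b y * f y := (measurable_ib_right b).mul hf
    rw [lintegral_const_mul _ hm, lintegral_ib_mul]
  simp only [e1]
  rw [lintegral_lintegral_swap (f := fun (b : ℝ × E3) (y : E3) =>
    g b.1 * (ib b y * f y)) hj.aemeasurable]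
  have e2 : ∀ y : E3, ∫⁻ b, g b.1 * (ib b y * f y) ∂(bm κ) =
      (∫⁻ r in Ioi (0 : ℝ), ENNReal.ofReal (om κ r) * (g r * ENNReal.ofReal (vB r))) * f y := by
    intro y
    have hm : Measurable fun b : ℝ × E3 => g b.1 * ib b y :=
      (hg.comp measurable_fst).mul (measurable_ib_left _)
    rw [← lintegral_bm_pt κ hg y, ← lintegral_mul_const _ hm]
    congr 1
    ext b
    ring
  simp only [e2]
  rw [lintegral_const_mul _ hf]

theorem measurable_ball_lintegral {f : E3 → ℝ≥0∞} (hf : Measurable f) :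
    Measurable fun b : ℝ × E3 => ∫⁻ y in ball b.2 b.1, f y := by
  have h : (fun b : ℝ × E3 => ∫⁻ y in ball b.2 b.1, f y) = fun b => ∫⁻ y, ib b y * f y := by
    ext b
    rw [lintegral_ib_mul]
  rw [h]
  have hj : Measurable fun q : (ℝ × E3) × E3 => ib q.1 q.2 * f q.2 :=
    measurable_ib.mul (hf.comp measurable_snd)
  exact hj.lintegral_prod_right'

theorem om_moment_pow {κ : ℝ} (hκ : 0 < κ) {A : ℝ} (hA : 0 ≤ A) (m : ℕ) :
    ∫⁻ r in Ioi (0 : ℝ), ENNReal.ofReal (om κ r) * (ENNReal.ofReal (A * r ^ m) *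
      ENNReal.ofReal (vB r)) =
      ENNReal.ofReal (A * (4 * Real.pi / 3 * mC (m + 1)) * (κ / κ ^ (m + 1))) := by
  have h1 : ∀ r ∈ Ioi (0 : ℝ), ENNReal.ofReal (om κ r) * (ENNReal.ofReal (A * r ^ m) *
      ENNReal.ofReal (vB r)) = ENNReal.ofReal (A * (4 * Real.pi / 3)) *
        (ENNReal.ofReal (om κ r) * ENNReal.ofReal (r ^ ((m + 1) + 2))) := by
    intro r hr
    have hr0 : (0 : ℝ) < r := hr
    have e : ENNReal.ofReal (A * r ^ m) * ENNReal.ofReal (vB r) =
        ENNReal.ofReal (A * (4 * Real.pi / 3)) * ENNReal.ofReal (r ^ ((m + 1) + 2)) := by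
      rw [← ENNReal.ofReal_mul (by positivity), ← ENNReal.ofReal_mul (by positivity)]
      congr 1
      unfold vB
      ring
    rw [e]
    ring
  have hm := measurable_om κ
  rw [setLIntegral_congr_fun measurableSet_Ioi h1, lintegral_const_mul _ (by fun_prop),
    lintegral_om_pow hκ, ← ENNReal.ofReal_mul (by positivity)]
  congr 1
  ring

theorem om_moment_inv {κ : ℝ} (hκ : 0 < κ) {A : ℝ} (hA : 0 ≤ A) :
    ∫⁻ r in Ioi (0 : ℝ), ENNReal.ofReal (om κ r) * (ENNReal.ofReal (A * r⁻¹) *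
      ENNReal.ofReal (vB r)) = ENNReal.ofReal (A * (4 * Real.pi / 3 * mC 0) * κ) := by
  have h1 : ∀ r ∈ Ioi (0 : ℝ), ENNReal.ofReal (om κ r) * (ENNReal.ofReal (A * r⁻¹) *
      ENNReal.ofReal (vB r)) = ENNReal.ofReal (A * (4 * Real.pi / 3)) *
        (ENNReal.ofReal (om κ r) * ENNReal.ofReal (r ^ (0 + 2))) := by
    intro r hr
    have hr0 : (0 : ℝ) < r := hr
    have e : ENNReal.ofReal (A * r⁻¹) * ENNReal.ofReal (vB r) =
        ENNReal.ofReal (A * (4 * Real.pi / 3)) * ENNReal.ofReal (r ^ (0 + 2)) := by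
      rw [← ENNReal.ofReal_mul (by positivity), ← ENNReal.ofReal_mul (by positivity)]
      congr 1
      unfold vB
      field_simp
    rw [e]
    ring
  have hm := measurable_om κ
  rw [setLIntegral_congr_fun measurableSet_Ioi h1, lintegral_const_mul _ (by fun_prop),
    lintegral_om_pow hκ, ← ENNReal.ofReal_mul (by positivity)]
  congr 1
  rw [pow_zero]
  ring

section
variable {N K : ℕ}

theorem lintegral_bm_kb (κ : ℝ) {g : ℝ → ℝ≥0∞} (hg : Measurable g) (R : Fin K → E3) :
    Measurable (fun b : ℝ × E3 => (kb R b : ℝ≥0∞)) ∧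
    ∫⁻ b, g b.1 * (kb R b : ℝ≥0∞) ∂(bm κ) =
      (∫⁻ r in Ioi (0 : ℝ), ENNReal.ofReal (om κ r) * (g r * ENNReal.ofReal (vB r))) * K := by
  have hm : ∀ k : Fin K, Measurable fun b : ℝ × E3 => ib b (R k) := fun k => measurable_ib_left _
  have hm2 : ∀ k : Fin K, Measurable fun b : ℝ × E3 => g b.1 * ib b (R k) := fun k =>
    (hg.comp measurable_fst).mul (hm k)
  refine ⟨?_, ?_⟩
  · simp only [← sum_ib_one]
    exact Finset.measurable_sum _ fun k _ => hm k
  · simp only [← sum_ib_one, Finset.mul_sum]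
    rw [lintegral_finsetSum _ fun k _ => hm2 k]
    simp only [lintegral_bm_pt κ hg]
    rw [Finset.sum_const, Finset.card_univ, Fintype.card_fin, nsmul_eq_mul, mul_comm]

theorem lintegral_rho {ψ : Conf N → ℂ} (h : Trial ψ) : ∫⁻ y, rho (dens ψ) y = N := by
  have hd := measurable_dens h.smooth.continuous
  have h1 := sum_lintegral_eval hd (f := fun _ => 1) measurable_const
  simp only [one_mul, lintegral_dens h] at h1
  rw [← h1]
  simp

end

end Pool.Agent.Lib_helper90c
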